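import Pool.Agent.BT.Stmts

/-! BT, module BAcyl: acylindricity of the base at every scale. -/

namespace Pool.Agent.BT

open Pool.Agent.BURN

namespace BAcyl

/-- an element moving the ends of a geodesic by at most l moves its points by at most l + δ -/
theorem move_le {G : Type} [Group G] {d : G → G → ℕ} {δ : ℕ} (hd : IsDG d) (hy : Hyp d δ)
    (hi : IsIso G d) {x y p s : G} {l : ℕ} (hb : Btw d x p y) (hx : d x (s • x) ≤ l)
    (hy' : d y (s • y) ≤ l) : d p (s • p) ≤ l + δ := by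
  have h := near_of_btw hd hy hb (s • p)
  have e1 : d (s • p) (s • x) = d p x := hi s p x
  have e2 : d (s • p) (s • y) = d p y := hi s p y
  have t1 := hd.tri (s • p) (s • x) x
  have t2 := hd.tri (s • p) (s • y) y
  rw [hd.symm (s • x) x] at t1
  rw [hd.symm (s • y) y] at t2
  rw [hd.symm (s • p) p, hd.symm x p, hd.symm y p] at h
  rw [hd.symm (s • p) x] at t1
  rw [hd.symm (s • p) y] at t2
  rw [hd.symm (s • p) x, hd.symm (s • p) y] at h
  omega

/-- sets of bounded displacement are finite of bounded cardinality -/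
theorem finite_card {G : Type} [Group G] {d : G → G → ℕ} {δ : ℕ} {Bf : ℕ → ℕ}
    (H : PG d δ Bf) (x : G) (r : ℕ) : ({h : G | d x (h • x) ≤ r}).Finite ∧
      ({h : G | d x (h • x) ≤ r}).ncard ≤ Bf r := by
  have hf : ({h : G | d x (h • x) ≤ r}).Finite := by
    by_contra hinf
    have hinf' : ({h : G | d x (h • x) ≤ r}).Infinite := hinf
    obtain ⟨t, ht, hc⟩ := hinf'.exists_subset_card_eq (Bf r + 1)
    have := H.prop x r t (fun h hh => ht hh)
    omega
  refine ⟨hf, ?_⟩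
  rw [Set.ncard_eq_toFinset_card _ hf]
  exact H.prop x r _ (fun h hh => by simpa using hh)

end BAcyl

open BAcyl in
/-- module BAcyl -/
theorem BAcyl_proof (_E : EngT) (h1 : Stmt_BCyc) (h2 : Stmt_Ell3) : Stmt_BAcyl := by
  intro G _ d δ Bf H l
  have hd := H.dg
  have hy := H.hyp
  have hi := H.iso
  have hδ := H.one_le
  obtain ⟨hBf, hBc⟩ := finite_card H (1 : G) (l + δ)
  set Ball : Set G := {h : G | d 1 (h • (1 : G)) ≤ l + δ} with hBall
  have : Finite Ball := hBf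
  have : Fintype Ball := Fintype.ofFinite _
  have hBcard : Fintype.card Ball ≤ Bf (l + δ) := by
    rw [← Nat.card_eq_fintype_card]
    exact hBc
  obtain ⟨M, hM⟩ : ∃ M : ℕ, M = (Bf (l + δ) + 1) ^ Bf l := ⟨_, rfl⟩
  refine ⟨1000 * δ * (2 * M + 1), ?_⟩
  intro x y hxy
  obtain ⟨hSf, hSc⟩ := finite_card H x l
  obtain ⟨γ, hγ⟩ := exists_geod hd x y
  set S : Set G := {g : G | d x (g • x) ≤ l ∧ d y (g • y) ≤ l} with hS
  have hSsub : S ⊆ {h : G | d x (h • x) ≤ l} := fun g hg => hg.1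
  have hSfin : S.Finite := hSf.subset hSsub
  have : Finite S := hSfin
  have : Fintype S := Fintype.ofFinite _
  have hScard : Fintype.card S ≤ Bf l := by
    rw [← Nat.card_eq_fintype_card]
    exact le_trans (Set.ncard_le_ncard hSsub hSf) hSc
  have hmem : ∀ t : ℕ, t ≤ d x y → ∀ s : G, s ∈ S → (γ t)⁻¹ * s * γ t ∈ Ball := by
    intro t ht s hs
    have hm := move_le hd hy hi (hγ.btw' ht) hs.1 hs.2
    have e := hi ((γ t)⁻¹) (γ t) (s • γ t)
    simp only [hBall, Set.mem_ofPred_eq, smul_eq_mul, mul_one]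
    simp only [smul_eq_mul, inv_mul_cancel] at e hm
    rw [← mul_assoc] at e
    rw [e]
    exact hm
  -- the values of t
  let T : Fin (2 * M + 1) → ℕ := fun i => 1000 * δ * i.1
  have hT : ∀ i, T i ≤ d x y := by
    intro i
    have : i.1 ≤ 2 * M + 1 := i.2.le
    exact le_trans (Nat.mul_le_mul_left _ this) hxy
  classical
  let θ : Fin (2 * M + 1) → (S → Ball) := fun i s =>
    ⟨(γ (T i))⁻¹ * s.1 * γ (T i), hmem (T i) (hT i) s.1 s.2⟩
  have hcard : Fintype.card (S → Ball) ≤ M := by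
    rw [Fintype.card_fun, hM]
    calc Fintype.card Ball ^ Fintype.card S ≤ (Bf (l + δ) + 1) ^ Fintype.card S :=
          Nat.pow_le_pow_left (by omega) _
      _ ≤ (Bf (l + δ) + 1) ^ Bf l := Nat.pow_le_pow_right (by omega) hScard
  have hlt : Fintype.card (S → Ball) * 2 < Fintype.card (Fin (2 * M + 1)) := by
    rw [Fintype.card_fin]; omega
  obtain ⟨f, hf⟩ := Fintype.exists_lt_card_fiber_of_mul_lt_card θ hlt
  let e := Finset.orderEmbOfCardLe (Finset.univ.filter fun i => θ i = f)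
    (show 3 ≤ _ from hf)
  have hem : ∀ j, θ (e j) = f := by
    intro j
    have := Finset.orderEmbOfCardLe_mem (Finset.univ.filter fun i => θ i = f)
      (show 3 ≤ _ from hf) j
    exact (Finset.mem_filter.1 this).2
  have h01 : e 0 < e 1 := e.strictMono (by decide)
  have h12 : e 1 < e 2 := e.strictMono (by decide)
  obtain ⟨a, ha⟩ : ∃ a, a = T (e 0) := ⟨_, rfl⟩
  obtain ⟨b, hb⟩ : ∃ b, b = T (e 1) := ⟨_, rfl⟩
  obtain ⟨c, hc⟩ : ∃ c, c = T (e 2) := ⟨_, rfl⟩
  have hab : a + 1000 * δ ≤ b := by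
    have h : (e 0).1 + 1 ≤ (e 1).1 := h01
    have := Nat.mul_le_mul_left (1000 * δ) h
    rw [ha, hb]
    show 1000 * δ * (e 0).1 + 1000 * δ ≤ 1000 * δ * (e 1).1
    linarith [this]
  have hbc : b + 1000 * δ ≤ c := by
    have h : (e 1).1 + 1 ≤ (e 2).1 := h12
    have := Nat.mul_le_mul_left (1000 * δ) h
    rw [hb, hc]
    show 1000 * δ * (e 1).1 + 1000 * δ ≤ 1000 * δ * (e 2).1
    linarith [this]
  have hcd : c ≤ d x y := hc ▸ hT _
  have hθab : ∀ s ∈ S, (γ a)⁻¹ * s * γ a = (γ b)⁻¹ * s * γ b := by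
    intro s hs
    have h := congrFun ((hem 0).trans (hem 1).symm) ⟨s, hs⟩
    have h' := congrArg Subtype.val h
    rw [ha, hb]
    exact h'
  have hθac : ∀ s ∈ S, (γ a)⁻¹ * s * γ a = (γ c)⁻¹ * s * γ c := by
    intro s hs
    have h := congrFun ((hem 0).trans (hem 2).symm) ⟨s, hs⟩
    have h' := congrArg Subtype.val h
    rw [ha, hc]
    exact h'
  obtain ⟨u, hu⟩ : ∃ u, u = γ b * (γ a)⁻¹ := ⟨_, rfl⟩
  obtain ⟨v, hv⟩ : ∃ v, v = γ c * (γ a)⁻¹ := ⟨_, rfl⟩
  have hcu : ∀ s ∈ S, s * u = u * s := by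
    intro s hs
    have h := hθab s hs
    rw [hu]
    calc s * (γ b * (γ a)⁻¹) = γ b * ((γ b)⁻¹ * s * γ b) * (γ a)⁻¹ := by group
      _ = γ b * ((γ a)⁻¹ * s * γ a) * (γ a)⁻¹ := by rw [h]
      _ = γ b * (γ a)⁻¹ * s := by group
  have hcv : ∀ s ∈ S, s * v = v * s := by
    intro s hs
    have h := hθac s hs
    rw [hv]
    calc s * (γ c * (γ a)⁻¹) = γ c * ((γ c)⁻¹ * s * γ c) * (γ a)⁻¹ := by group
      _ = γ c * ((γ a)⁻¹ * s * γ a) * (γ a)⁻¹ := by rw [h]
      _ = γ c * (γ a)⁻¹ * s := by group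
  have hup : u • γ a = γ b := by rw [hu, smul_eq_mul]; group
  have hvp : v • γ a = γ c := by rw [hv, smul_eq_mul]; group
  have hell := h2 G G d δ hd hy hδ hi u v (γ a)
    (by rw [hup, hvp]; exact hγ.btw (by omega) (by omega) hcd)
    (by rw [hup, hγ.2.2 a b (by omega) (by omega)]; omega)
    (by rw [hup, hvp, hγ.2.2 b c (by omega) hcd]; omega)
  obtain ⟨w0, hw0, hcom⟩ : ∃ w0, Lox d w0 ∧ ∀ s ∈ S, s * w0 = w0 * s := by
    rcases hell with h | h | h
    · exact ⟨u, h, hcu⟩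
    · refine ⟨_, h, ?_⟩
      intro s hs
      have e1 := hcu s hs
      have e2 := hcv s hs
      have e3 : s * u⁻¹ = u⁻¹ * s := by
        calc s * u⁻¹ = u⁻¹ * (u * s) * u⁻¹ := by group
          _ = u⁻¹ * (s * u) * u⁻¹ := by rw [e1]
          _ = u⁻¹ * s := by group
      calc s * (v * u⁻¹) = (s * v) * u⁻¹ := by group
        _ = v * (s * u⁻¹) := by rw [e2]; group
        _ = v * u⁻¹ * s := by rw [e3]; group
    · exact ⟨v, h, hcv⟩
  obtain ⟨K, w, hK, hN, hL, hall⟩ := h1 G d δ Bf H w0 hw0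
  refine ⟨K, w, hK, hN, Or.inr hL, ?_⟩
  intro g hgx hgy
  apply hall
  refine ⟨1, le_refl 1, ?_⟩
  have := hcom g ⟨hgx, hgy⟩
  rw [pow_one, this]
  group

end Pool.Agent.BT
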