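import Pool.Agent.BT.Stmts

/-! # BT, module BCyc: elementary groups of a proper hyperbolic group are finite by cyclic -/

namespace Pool.Agent.BT

open Pool.Agent.BURN

namespace BCyc

/-! ### discrete intermediate value -/

theorem ivt (f : ℕ → ℕ) (L T c : ℕ) (h0 : f 0 = 0) (hs : ∀ i, f (i + 1) ≤ f i + L) :
    ∀ n, T ≤ f n + c → ∃ i ≤ n, f i ≤ T ∧ T ≤ f i + L + c := by
  intro n
  induction n with
  | zero =>
    intro h
    exact ⟨0, le_refl _, by omega, by omega⟩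
  | succ n ih =>
    intro h
    have hn := hs n
    by_cases h1 : f (n + 1) ≤ T
    · exact ⟨n + 1, le_refl _, h1, by omega⟩
    · by_cases h2 : f n ≤ T
      · exact ⟨n, by omega, h2, by omega⟩
      · obtain ⟨i, hi, h3, h4⟩ := ih (by omega)
        exact ⟨i, by omega, h3, h4⟩

/-! ### geometry -/

section geom

variable {G X : Type} [Group G] [MulAction G X] {d : X → X → ℕ} {δ : ℕ}

theorem near_orbit (hd : IsDG d) (hy : Hyp d δ) (hi : IsIso G d) (g : G) (o : X) (C1 : ℕ)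
    (hB : ∀ k k' : ℕ, gp d ((g ^ k)⁻¹ • o) (g ^ k' • o) o ≤ C1) (C2 n : ℕ) (p : X)
    (hp : gp d ((g ^ n)⁻¹ • o) (g ^ n • o) p ≤ C2) :
    ∃ j : ℤ, d (g ^ j • o) p ≤ C1 + C2 + d o (g • o) + δ := by
  set x := (g ^ n)⁻¹ • o with hx
  set y := g ^ n • o with hy'
  have hxy : g ^ (2 * n) • x = y := by
    rw [hx, hy', ← mul_smul, two_mul, pow_add, mul_assoc, mul_inv_cancel, mul_one]
  have hL : ∀ i : ℕ, d (g ^ i • x) (g ^ (i + 1) • x) = d o (g • o) := by
    intro i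
    rw [pow_succ, mul_smul, hi, hx, ← mul_smul]
    have : (g * (g ^ n)⁻¹) = (g ^ n)⁻¹ * g := by
      rw [eq_inv_mul_iff_mul_eq, ← mul_assoc, ← pow_succ, pow_succ']
      group
    rw [this, mul_smul, ← hi (g ^ n)⁻¹ o (g • o)]
  obtain ⟨i, hin, hfi, hTi⟩ := ivt (fun i => d x (g ^ i • x)) (d o (g • o)) (d x p) C2
    (by simp [(hd.eq_zero x x).2 rfl])
    (fun i => by
      have h1 := hd.tri x (g ^ i • x) (g ^ (i + 1) • x)
      rw [hL i] at h1
      exact h1) (2 * n) (by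
      have h1 := gp_add hd x y p
      simp only [hxy]
      omega)
  set a : G := g ^ i * (g ^ n)⁻¹ with ha
  have hq : g ^ i • x = a • o := by rw [hx, ha, mul_smul]
  have hgp : gp d x y (a • o) ≤ C1 := by
    have e1 : a⁻¹ • x = (g ^ i)⁻¹ • o := by
      rw [ha, hx, ← mul_smul]
      congr 1
      group
    have e2 : a⁻¹ • y = g ^ (2 * n - i) • o := by
      rw [ha, hy', ← mul_smul]
      congr 1
      have h2 : g ^ (2 * n - i) * g ^ i = g ^ n * g ^ n := by
        rw [← pow_add, ← pow_add]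
        congr 1
        omega
      have h3 : g ^ (2 * n - i) = g ^ n * g ^ n * (g ^ i)⁻¹ := by
        rw [← h2, mul_assoc, mul_inv_cancel, mul_one]
      have h4 : g ^ n * (g ^ i)⁻¹ = (g ^ i)⁻¹ * g ^ n := by
        rw [eq_inv_mul_iff_mul_eq, ← mul_assoc, ← pow_add, add_comm, pow_add, mul_assoc,
          mul_inv_cancel, mul_one]
      rw [h3, mul_inv_rev, inv_inv, mul_assoc, mul_assoc, h4]
    have h1 := isIso_gp hi a⁻¹ x y (a • o)
    rw [e1, e2, inv_smul_smul] at h1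
    rw [← h1]
    exact hB i (2 * n - i)
  refine ⟨(i : ℤ) - n, ?_⟩
  have hz : g ^ ((i : ℤ) - n) = a := by
    rw [zpow_sub, zpow_natCast, zpow_natCast]
  rw [hz]
  rw [hq] at hfi hTi
  have h4 := hy p (a • o) x y
  have h5 := gp_add hd x y p
  have h6 := gp_add hd x y (a • o)
  rw [hd.symm p (a • o), hd.symm p x, hd.symm (a • o) y, hd.symm p y, hd.symm (a • o) x] at h4
  rcases le_total (d x p + d y (a • o)) (d y p + d x (a • o)) with hc | hc
  · rw [max_eq_right hc] at h4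
    omega
  · rw [max_eq_left hc] at h4
    omega

theorem ep_near (hd : IsDG d) (hy : Hyp d δ) (h1δ : 1 ≤ δ) (hi : IsIso G d) (hTE : Stmt_TEnd)
    (R : ℕ) (g : G) (hg : ∀ (x : X) (m : ℕ), m ≤ R * d x (g ^ m • x)) (o : X) :
    ∃ C : ℕ, ∀ h ∈ Ep g, ∃ j : ℤ, d (g ^ j • o) (h • o) ≤ C := by
  obtain ⟨C1, hC1⟩ := (hTE G X d δ R hd hy h1δ hi g hg o o o).2
  have hg' : ∀ (x : X) (m : ℕ), m ≤ R * d x (g⁻¹ ^ m • x) := by
    intro x m
    have h1 := hg x m
    have h2 : d x (g⁻¹ ^ m • x) = d x (g ^ m • x) := by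
      rw [← hi (g ^ m) x (g⁻¹ ^ m • x), ← mul_smul, inv_pow, mul_inv_cancel, one_smul, hd.symm]
    rw [h2]
    exact h1
  refine ⟨C1 + (C1 + 2 * δ) + d o (g • o) + δ, fun h hh => ?_⟩
  obtain ⟨m, hm, hcomm⟩ := hh
  obtain ⟨k1, hk1⟩ := (hTE G X d δ R hd hy h1δ hi g hg o (h⁻¹ • o) o).1 (C1 + 2 * δ + 1)
  obtain ⟨k2, hk2⟩ := (hTE G X d δ R hd hy h1δ hi g⁻¹ hg' o (h⁻¹ • o) o).1 (C1 + 2 * δ + 1)
  set n := m * (k1 + k2) with hn
  have hn1 : k1 + k2 ≤ n := Nat.le_mul_of_pos_left _ hm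
  have hb := hk1 n n (by omega) (by omega)
  have ha := hk2 n n (by omega) (by omega)
  rw [inv_pow] at ha
  have hab := hC1 n n
  have hcn : h * g ^ n * h⁻¹ = g ^ n := by
    rw [hn, pow_mul, ← conj_pow, hcomm]
  have hc1 : h⁻¹ * g ^ n = g ^ n * h⁻¹ := by
    rw [inv_mul_eq_iff_eq_mul]
    conv_lhs => rw [← hcn]
    group
  have hc2 : h⁻¹ * (g ^ n)⁻¹ = (g ^ n)⁻¹ * h⁻¹ := by
    rw [eq_inv_mul_iff_mul_eq, ← mul_assoc, ← hc1]
    group
  set a := (g ^ n)⁻¹ • o with hadef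
  set b := g ^ n • o with hbdef
  set a' := (g ^ n)⁻¹ • h⁻¹ • o with ha'def
  set b' := g ^ n • h⁻¹ • o with hb'def
  have e1 := hyp_gp hd hy a b a' o
  have e2 := hyp_gp hd hy a' b b' o
  rw [gp_comm hd b' b o] at e2
  have h3 : gp d a' b' o ≤ C1 + 2 * δ := by
    rcases le_total (gp d a a' o) (gp d a' b o) with hc | hc
    · rw [min_eq_left hc] at e1
      omega
    · rw [min_eq_right hc] at e1
      rcases le_total (gp d a' b' o) (gp d b b' o) with hc' | hc'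
      · rw [min_eq_left hc'] at e2
        omega
      · rw [min_eq_right hc'] at e2
        omega
  have h4 : gp d a b (h • o) = gp d a' b' o := by
    have h5 := isIso_gp hi h⁻¹ a b (h • o)
    rw [inv_smul_smul] at h5
    rw [← h5]
    have e3 : h⁻¹ • a = a' := by
      rw [hadef, ha'def, ← mul_smul, ← mul_smul, hc2]
    have e4 : h⁻¹ • b = b' := by
      rw [hbdef, hb'def, ← mul_smul, ← mul_smul, hc1]
    rw [e3, e4]
  exact near_orbit hd hy hi g o C1 hC1 (C1 + 2 * δ) n (h • o) (by rw [h4]; exact h3)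

end geom

/-! ### algebra -/

section alg

variable {E : Type} [Group E]

theorem exists_central (g : E) (S : Set E) (hS : S.Finite)
    (hcov : ∀ h : E, ∃ s ∈ S, ∃ j : ℤ, h = g ^ j * s)
    (hE : ∀ x : E, ∃ m : ℕ, 1 ≤ m ∧ x * g ^ m * x⁻¹ = g ^ m) :
    ∃ M : ℕ, 0 < M ∧ ∀ x, Commute (g ^ M) x := by
  choose m hm hx using hE
  refine ⟨∏ s ∈ hS.toFinset, m s, Finset.prod_pos fun s _ => hm s, fun x => ?_⟩
  obtain ⟨s, hs, j, rfl⟩ := hcov x
  have h1 : m s ∣ ∏ s ∈ hS.toFinset, m s :=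
    Finset.dvd_prod_of_mem m (hS.mem_toFinset.2 hs)
  obtain ⟨t, ht⟩ := h1
  rw [ht]
  have h2 : Commute (g ^ (m s * t)) s := by
    rw [pow_mul]
    apply Commute.pow_left
    have h3 := hx s
    unfold Commute SemiconjBy
    rw [mul_inv_eq_iff_eq_mul] at h3
    exact h3.symm
  have h3 : Commute (g ^ (m s * t)) (g ^ j) :=
    ((Commute.refl g).pow_left _).zpow_right j
  exact h3.mul_right h2

theorem fin_index (g : E) (M : ℕ) (hM : 0 < M) (hz : ∀ x, Commute (g ^ M) x) (S : Set E)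
    (hS : S.Finite) (hcov : ∀ h : E, ∃ s ∈ S, ∃ j : ℤ, h = g ^ j * s) :
    (Subgroup.zpowers (g ^ M)).FiniteIndex := by
  haveI : Finite S := hS.to_subtype
  have hfin : Finite (E ⧸ Subgroup.zpowers (g ^ M)) := by
    refine Finite.of_surjective (fun p : Fin M × S =>
      (QuotientGroup.mk (g ^ (p.1 : ℕ) * (p.2 : E)) : E ⧸ Subgroup.zpowers (g ^ M))) ?_
    intro y
    obtain ⟨h, rfl⟩ := QuotientGroup.mk_surjective y
    obtain ⟨s, hs, j, rfl⟩ := hcov h
    have hM' : (M : ℤ) ≠ 0 := by exact_mod_cast hM.ne'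
    have hr0 : 0 ≤ j % M := Int.emod_nonneg _ hM'
    have hr1 : j % M < M := Int.emod_lt_of_pos _ (by exact_mod_cast hM)
    obtain ⟨r, hr⟩ := Int.eq_ofNat_of_zero_le hr0
    have hrM : r < M := by
      rw [hr] at hr1
      exact_mod_cast hr1
    refine ⟨(⟨r, hrM⟩, ⟨s, hs⟩), ?_⟩
    rw [QuotientGroup.eq]
    have hj : j = M * (j / M) + r := by
      rw [← hr]
      exact (Int.mul_ediv_add_emod j M).symm
    have h1 : g ^ j = (g ^ M) ^ (j / M) * g ^ r := by
      conv_lhs => rw [hj]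
      rw [zpow_add, zpow_mul, zpow_natCast, zpow_natCast]
    have h2 : Commute ((g ^ M) ^ (j / (M : ℤ))) (g ^ r * s) := (hz _).zpow_left _
    have h3 : (g ^ r * s)⁻¹ * (g ^ j * s) = (g ^ M) ^ (j / (M : ℤ)) := by
      rw [h1, mul_assoc, h2.eq, inv_mul_cancel_left]
    simp only
    rw [h3]
    exact Subgroup.zpow_mem_zpowers _ _
  exact Subgroup.finiteIndex_of_finite_quotient

end alg

end BCyc

open BCyc in
theorem BCyc_proof (_E : EngT) (h1 : Stmt_BStab) (h2 : Stmt_Cent) (h3 : Stmt_TEnd) :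
    Stmt_BCyc := by
  intro G _ d δ Bf hPG g hg
  obtain ⟨htors, R, hR, hlin⟩ := h1 G d δ Bf hPG
  have hgl := hlin g hg
  have hinf : ∀ k : ℤ, g ^ k = 1 → k = 0 := by
    have hnat : ∀ n : ℕ, g ^ n = 1 → n = 0 := by
      intro n hn
      have h4 := hgl 1 n
      rw [hn, one_smul, (hPG.dg.eq_zero 1 1).2 rfl] at h4
      omega
    intro k hk
    obtain ⟨n, rfl | rfl⟩ := Int.eq_nat_or_neg k
    · rw [zpow_natCast] at hk
      rw [hnat n hk]
      rfl
    · rw [zpow_neg, inv_eq_one, zpow_natCast] at hk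
      rw [hnat n hk]
      rfl
  obtain ⟨C, hC⟩ := ep_near hPG.dg hPG.hyp hPG.one_le hPG.iso h3 R g hgl (1 : G)
  set S : Set G := {s | d 1 (s • (1 : G)) ≤ C} with hSdef
  have hS : S.Finite := by
    by_contra hcon
    obtain ⟨t, ht, htc⟩ := Set.Infinite.exists_subset_card_eq hcon (Bf C + 1)
    have h4 := hPG.prop 1 C t (fun h hh => ht hh)
    omega
  have hgE : g ∈ Ep g := ⟨1, le_refl 1, by group⟩
  set gE : Ep g := ⟨g, hgE⟩ with hgEdef
  set SE : Set (Ep g) := {s | (s : G) ∈ S} with hSEdef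
  have hSE : SE.Finite := hS.preimage (Subtype.val_injective.injOn)
  have hcov : ∀ h : Ep g, ∃ s ∈ SE, ∃ j : ℤ, h = gE ^ j * s := by
    intro h
    obtain ⟨j, hj⟩ := hC h h.2
    refine ⟨(gE ^ j)⁻¹ * h, ?_, j, by group⟩
    have h4 : ((((gE ^ j)⁻¹ * h : Ep g)) : G) = (g ^ j)⁻¹ * (h : G) := by
      simp [hgEdef]
    rw [hSEdef, Set.mem_setOf_eq, h4, hSdef, Set.mem_setOf_eq]
    rw [← hPG.iso (g ^ j) 1 (((g ^ j)⁻¹ * (h : G)) • (1 : G)), ← mul_smul, mul_inv_cancel_left]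
    exact hj
  have hE : ∀ x : Ep g, ∃ m : ℕ, 1 ≤ m ∧ x * gE ^ m * x⁻¹ = gE ^ m := by
    intro x
    obtain ⟨m, hm, hx⟩ := x.2
    refine ⟨m, hm, Subtype.ext ?_⟩
    simpa [hgEdef] using hx
  obtain ⟨M, hM, hz⟩ := exists_central gE SE hSE hcov hE
  have hfi := fin_index gE M hM hz SE hSE hcov
  have hzinf : ∀ k : ℤ, (gE ^ M) ^ k = 1 → k = 0 := by
    intro k hk
    have h4 : g ^ ((M : ℤ) * k) = 1 := by
      have h5 := congrArg Subtype.val hk
      simp only [hgEdef] at h5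
      rw [zpow_mul, zpow_natCast]
      simpa using h5
    have h5 := hinf _ h4
    rcases mul_eq_zero.1 h5 with h6 | h6
    · exfalso
      have : M = 0 := by exact_mod_cast h6
      omega
    · exact h6
  obtain ⟨K', w', hK', hN', hcy'⟩ := h2 (Ep g) (gE ^ M) (fun x => (hz x).symm) hzinf hfi
  haveI := hK'
  have hKfin : Finite (K'.map (Ep g).subtype) := by
    have h4 : ((K'.map (Ep g).subtype : Subgroup G) : Set G).Finite := by
      rw [Subgroup.coe_map]
      exact (Set.toFinite (K' : Set (Ep g))).image _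
    exact h4.to_subtype
  have hInFc : ∀ h ∈ Ep g, InFc (K'.map (Ep g).subtype) (w' : G) h := by
    intro h hh
    obtain ⟨f, hf, j, hj⟩ := hcy' ⟨h, hh⟩
    refine ⟨(f : G), ⟨f, hf, rfl⟩, j, ?_⟩
    have h4 := congrArg Subtype.val hj
    simpa using h4
  refine ⟨K'.map (Ep g).subtype, (w' : G), hKfin, ?_, ?_, hInFc⟩
  · rintro f ⟨f', hf', rfl⟩
    exact ⟨w' * f' * w'⁻¹, hN' f' hf', by simp⟩
  · by_contra hw
    obtain ⟨m, hm, hwm⟩ := htors (w' : G) hw
    have hof : IsOfFinOrder (w' : G) := isOfFinOrder_iff_pow_eq_one.2 ⟨m, by omega, hwm⟩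
    have hzf : ((Subgroup.zpowers (w' : G) : Subgroup G) : Set G).Finite := finite_zpowers.2 hof
    have hKf : ((K'.map (Ep g).subtype : Subgroup G) : Set G).Finite := Set.toFinite _
    have hprod := Set.Finite.image2 (fun a b : G => a * b) hKf hzf
    have hinj : Function.Injective (fun n : ℕ => g ^ n) := by
      intro a b hab
      have h4 : g ^ ((a : ℤ) - b) = 1 := by
        rw [zpow_sub, zpow_natCast, zpow_natCast, mul_inv_eq_one]
        exact hab
      have := hinf _ h4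
      omega
    refine (Set.infinite_of_injective_forall_mem hinj (s := Set.image2 (fun a b : G => a * b)
      ((K'.map (Ep g).subtype : Subgroup G) : Set G)
      ((Subgroup.zpowers (w' : G) : Subgroup G) : Set G)) (fun n => ?_)) hprod
    obtain ⟨f, hf, j, hj⟩ := hInFc (g ^ n) (Subgroup.pow_mem _ hgE n)
    exact ⟨f, hf, (w' : G) ^ j, Subgroup.zpow_mem_zpowers _ _, hj.symm⟩

end Pool.Agent.BT
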