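import Pool.Agent.BT.Stmts
import Pool.Agent.BURN.W97Mid

/-! BT BSTAB: uniform stability of the base action. -/

namespace Pool.Agent.BT

open Pool.Agent.BURN

namespace BStab

variable {G X : Type} [Group G] [MulAction G X] {d : X → X → ℕ}

theorem disp_mul (hD : IsDG d) (hi : IsIso G d) (g : G) (x : X) (m j : ℕ) :
    d x (g ^ (m * j) • x) ≤ j * d x (g ^ m • x) := by
  induction j with
  | zero =>
    simp only [Nat.mul_zero, pow_zero, one_smul, Nat.zero_mul, Nat.le_zero_eq]
    exact (hD.eq_zero x x).2 rfl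
  | succ j ih =>
    have e : g ^ (m * (j + 1)) • x = g ^ (m * j) • g ^ m • x := by
      rw [smul_smul, ← pow_add]; congr 2
    have t := hD.tri x (g ^ (m * j) • x) (g ^ (m * (j + 1)) • x)
    rw [e, hi] at t
    rw [e]
    have : (j + 1) * d x (g ^ m • x) = j * d x (g ^ m • x) + d x (g ^ m • x) := by ring
    omega

/-- the argument with large powers -/
theorem pow_arg (hD : IsDG d) (hi : IsIso G d) (R : ℕ) (g : G) (o : X)
    (h : ∀ m : ℕ, m ≤ R * d o (g ^ m • o)) (x : X) (m : ℕ) : m ≤ R * d x (g ^ m • x) := by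
  by_contra hcon
  have hcon' : R * d x (g ^ m • x) + 1 ≤ m := by omega
  set c := d o x
  set t := d x (g ^ m • x) with ht
  set J := 2 * R * c + 1
  have h1 := h (m * J)
  have h2 := disp_mul hD hi g x m J
  rw [← ht] at h2
  have h3 : d o (g ^ (m * J) • o) ≤ c + d x (g ^ (m * J) • x) + c := by
    have t1 := hD.tri o x (g ^ (m * J) • o)
    have t2 := hD.tri x (g ^ (m * J) • x) (g ^ (m * J) • o)
    rw [hi, hD.symm x o] at t2
    have e : c = d o x := rfl
    omega
  have h4 : R * d o (g ^ (m * J) • o) ≤ R * (2 * c + J * t) :=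
    Nat.mul_le_mul_left _ (by omega)
  have h5 : (R * t + 1) * J ≤ m * J := Nat.mul_le_mul_right _ hcon'
  have h6 : (R * t + 1) * J = R * (J * t) + J := by ring
  have h7 : R * (2 * c + J * t) = 2 * R * c + R * (J * t) := by ring
  have h8 : J = 2 * R * c + 1 := rfl
  omega

/-- g ^ i = g ^ j gives a relation -/
theorem pow_eq_one {g : G} {i j : ℕ} (hij : i < j) (h : g ^ i = g ^ j) : g ^ (j - i) = 1 := by
  have e : g ^ j = g ^ i * g ^ (j - i) := by rw [← pow_add]; congr 1; omega
  rw [e] at h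
  exact mul_eq_left.1 h.symm

theorem not_lox_of_pow (hD : IsDG d) {g : G} {m : ℕ} (hm : 1 ≤ m) (h : g ^ m = 1)
    (x : X) : ¬ Lox d g := by
  intro hl
  obtain ⟨k, hk⟩ := hl x (∑ i ∈ Finset.range m, d x (g ^ i • x))
  have e : g ^ k = g ^ (k % m) := by
    conv_lhs => rw [← Nat.div_add_mod k m]
    rw [pow_add, pow_mul, h, one_pow, one_mul]
  rw [e] at hk
  have h1 : d x (g ^ (k % m) • x) ≤ ∑ i ∈ Finset.range m, d x (g ^ i • x) :=
    Finset.single_le_sum (f := fun i => d x (g ^ i • x)) (fun _ _ => Nat.zero_le _)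
      (Finset.mem_range.2 (Nat.mod_lt _ (by omega)))
  omega

theorem pow_inj (hD : IsDG d) {g : G} (hg : Lox d g) (x : X) :
    Function.Injective (fun i : ℕ => g ^ i) := by
  intro i j hij
  have hij' : g ^ i = g ^ j := hij
  rcases lt_trichotomy i j with hlt | heq | hlt
  · exact absurd hg (not_lox_of_pow hD (by omega) (pow_eq_one hlt hij') x)
  · exact heq
  · exact absurd hg (not_lox_of_pow hD (by omega) (pow_eq_one hlt hij'.symm) x)

end BStab

namespace BStab

variable {G : Type} [Group G] {d : G → G → ℕ} {δ : ℕ} {Bf : ℕ → ℕ}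

theorem card_pows (h : PG d δ Bf) {g : G} (hg : Function.Injective (fun i : ℕ => g ^ i))
    (x : G) (r n : ℕ) (hb : ∀ i < n, d x (g ^ i • x) ≤ r) : n ≤ Bf r := by
  classical
  have h1 := h.prop x r ((Finset.range n).image (fun i : ℕ => g ^ i)) (by
    intro u hu
    obtain ⟨i, hi, rfl⟩ := Finset.mem_image.1 hu
    exact hb i (Finset.mem_range.1 hi))
  rw [Finset.card_image_of_injective _ hg, Finset.card_range] at h1
  exact h1

theorem tors (h : PG d δ Bf) (g : G) (hg : ¬ Lox d g) : ∃ m : ℕ, 1 ≤ m ∧ g ^ m = 1 := by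
  unfold Lox at hg
  push Not at hg
  obtain ⟨x, B, hB⟩ := hg
  by_contra hcon
  push Not at hcon
  have hinj : Function.Injective (fun i : ℕ => g ^ i) := by
    intro i j hij
    have hij' : g ^ i = g ^ j := hij
    rcases lt_trichotomy i j with hlt | heq | hlt
    · exact absurd (pow_eq_one hlt hij') (hcon _ (by omega))
    · exact heq
    · exact absurd (pow_eq_one hlt hij'.symm) (hcon _ (by omega))
  have := card_pows h hinj x B (Bf B + 1) (fun i _ => hB i)
  omega

theorem claim (h : PG d δ Bf) {g : G} (hg : Lox d g) :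
    ∃ j, 1 ≤ j ∧ j ≤ Bf (14 * δ) + 1 ∧ ∃ p : G,
      d p (g ^ j • p) + δ < d p ((g ^ j) ^ 2 • p) := by
  by_contra hcon
  push Not at hcon
  have x : G := 1
  set J := Bf (14 * δ) + 1 with hJ
  set l := ∑ j ∈ Finset.range (J + 1), d x (g ^ j • x) with hl
  have hlj : ∀ j ≤ J, d x (g ^ j • x) ≤ l := by
    intro j hj
    exact Finset.single_le_sum (f := fun j => d x (g ^ j • x)) (fun _ _ => Nat.zero_le _)
      (Finset.mem_range.2 (by omega))
  obtain ⟨M, hM⟩ := hg x (4 * l + 2 * δ + 4)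
  obtain ⟨γ, hγ⟩ := exists_geod h.dg x (g ^ M • x)
  have hy : ∀ j ≤ J, d (g ^ M • x) (g ^ j • g ^ M • x) ≤ l := by
    intro j hj
    have e : g ^ j • g ^ M • x = g ^ M • g ^ j • x := by
      rw [smul_smul, smul_smul, ← pow_add, ← pow_add, Nat.add_comm]
    rw [e, h.iso]
    exact hlj j hj
  have := card_pows h (pow_inj h.dg hg x) (γ (d x (g ^ M • x) / 2)) (14 * δ) (J + 1) (by
    intro j hj
    rcases Nat.eq_zero_or_pos j with rfl | hj0
    · rw [pow_zero, one_smul, (h.dg.eq_zero _ _).2 rfl]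
      exact Nat.zero_le _
    · exact w97_nonlox h.dg h.hyp h.iso hγ (u := g ^ j) (fun p => hcon j hj0 (by omega) p)
        (hlj j (by omega)) (hy j (by omega)) (by omega) (by omega))
  omega

end BStab

theorem BStab_proof (E : EngT) : Stmt_BStab := by
  intro G _ d δ Bf h
  refine ⟨BStab.tors h, Bf (14 * δ) + 1, by omega, fun g hg x m => ?_⟩
  obtain ⟨j, hj1, hjJ, p, hp⟩ := BStab.claim h hg
  obtain ⟨h1, -, -⟩ := E.iso1 G G d δ h.dg h.hyp h.iso
  obtain ⟨-, h2⟩ := h1 (g ^ j) p hp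
  have h3 : ∀ m : ℕ, m ≤ 1 * d p ((g ^ j) ^ m • p) := by
    intro m
    refine le_trans ?_ ((h2 m).trans (by omega))
    exact Nat.le_mul_of_pos_right m (by omega)
  have h4 := BStab.pow_arg h.dg h.iso 1 (g ^ j) p h3 x m
  have h5 := BStab.disp_mul h.dg h.iso g x m j
  rw [← pow_mul, Nat.mul_comm j m, one_mul] at h4
  exact h4.trans (h5.trans (Nat.mul_le_mul_right _ hjJ))

end Pool.Agent.BT
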