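import Pool.Agent.BT.Stmts

/-! BT CENT: a group with a central infinite cyclic subgroup of finite index is finite by
cyclic. -/

namespace Pool.Agent.BT

namespace Cent

theorem hom {E : Type} [Group E] (z : E) (hz : ∀ x, Commute x z)
    (hf : (Subgroup.zpowers z).FiniteIndex) :
    ∃ N : ℕ, 1 ≤ N ∧ (∀ g h : E, (g * h) ^ N = g ^ N * h ^ N) ∧
      ∀ g : E, ∃ k : ℤ, g ^ N = z ^ k := by
  have hle : Subgroup.zpowers z ≤ Subgroup.center E := by
    rw [Subgroup.zpowers_le, Subgroup.mem_center_iff]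
    exact fun g => hz g
  haveI hc : (Subgroup.center E).FiniteIndex := Subgroup.finiteIndex_of_le hle
  haveI hn : (Subgroup.zpowers z).Normal := by
    refine ⟨fun n hn g => ?_⟩
    have h1 := hle hn
    rw [Subgroup.mem_center_iff] at h1
    rw [h1 g, mul_assoc, mul_inv_cancel, mul_one]
    exact hn
  refine ⟨(Subgroup.center E).index * (Subgroup.zpowers z).index, ?_, ?_, ?_⟩
  · exact Nat.mul_pos (Nat.pos_of_ne_zero hc.index_ne_zero) (Nat.pos_of_ne_zero hf.index_ne_zero)
  · intro g h
    have h1 : (g * h) ^ (Subgroup.center E).index =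
        g ^ (Subgroup.center E).index * h ^ (Subgroup.center E).index := by
      have h2 := map_mul (MonoidHom.transferCenterPow E) g h
      have h3 := congrArg (fun x : Subgroup.center E => (x : E)) h2
      exact h3
    have h2 : Commute (g ^ (Subgroup.center E).index) (h ^ (Subgroup.center E).index) := by
      have h3 : g ^ (Subgroup.center E).index ∈ Subgroup.center E :=
        ((MonoidHom.transferCenterPow E) g).2
      rw [Subgroup.mem_center_iff] at h3
      exact (h3 _).symm
    rw [pow_mul, pow_mul, pow_mul, h1, h2.mul_pow]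
  · intro g
    have h1 := Subgroup.pow_index_mem (Subgroup.zpowers z) (g ^ (Subgroup.center E).index)
    rw [Subgroup.mem_zpowers_iff] at h1
    obtain ⟨k, hk⟩ := h1
    exact ⟨k, by rw [pow_mul, hk]⟩

end Cent

theorem Cent_proof : Stmt_Cent := by
  intro E _ z hz hk hf
  obtain ⟨N, hN, hmul, hpow⟩ := Cent.hom z hz hf
  have hinv : ∀ g : E, g⁻¹ ^ N = (g ^ N)⁻¹ := fun g => inv_pow g N
  let K : Subgroup E :=
    { carrier := {h | h ^ N = 1}
      one_mem' := by
        change (1 : E) ^ N = 1
        exact one_pow N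
      mul_mem' := by
        intro a b ha hb
        change (a * b) ^ N = 1
        have ha' : a ^ N = 1 := ha
        have hb' : b ^ N = 1 := hb
        rw [hmul, ha', hb', one_mul]
      inv_mem' := by
        intro a ha
        change a⁻¹ ^ N = 1
        have ha' : a ^ N = 1 := ha
        rw [hinv, ha', inv_one] }
  have hKm : ∀ h : E, h ∈ K ↔ h ^ N = 1 := fun h => Iff.rfl
  let H : AddSubgroup ℤ :=
    { carrier := {k | ∃ h : E, h ^ N = z ^ k}
      zero_mem' := ⟨1, by rw [one_pow, zpow_zero]⟩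
      add_mem' := by
        rintro a b ⟨g, hg⟩ ⟨h, hh⟩
        exact ⟨g * h, by rw [hmul, hg, hh, zpow_add]⟩
      neg_mem' := by
        rintro a ⟨g, hg⟩
        exact ⟨g⁻¹, by rw [hinv, hg, zpow_neg]⟩ }
  obtain ⟨a, ha⟩ := Int.subgroup_cyclic H
  have haH : a ∈ H := by
    rw [ha]
    exact AddSubgroup.subset_closure (Set.mem_singleton a)
  obtain ⟨w, hw⟩ := haH
  have hcov : ∀ h : E, InFc K w h := by
    intro h
    obtain ⟨k, hk'⟩ := hpow h
    have hkH : k ∈ H := ⟨h, hk'⟩
    rw [ha, AddSubgroup.mem_closure_singleton] at hkH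
    obtain ⟨j, hj⟩ := hkH
    refine ⟨h * (w ^ j)⁻¹, ?_, j, by group⟩
    rw [hKm, hmul, hinv, hk']
    have e : (w ^ j) ^ N = z ^ k := by
      rw [← zpow_natCast, ← zpow_mul, mul_comm, zpow_mul, zpow_natCast, hw, ← zpow_mul]
      congr 1
      rw [← hj]
      simp [mul_comm]
    rw [e, mul_inv_cancel]
  refine ⟨K, w, ?_, ?_, hcov⟩
  · haveI := hf
    have hfin : Finite (E ⧸ Subgroup.zpowers z) := inferInstance
    refine Finite.of_injective (fun x : K => (QuotientGroup.mk x.1 : E ⧸ Subgroup.zpowers z)) ?_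
    intro x y hxy
    have h1 : x.1⁻¹ * y.1 ∈ Subgroup.zpowers z := QuotientGroup.eq.1 hxy
    rw [Subgroup.mem_zpowers_iff] at h1
    obtain ⟨k, hk'⟩ := h1
    have h2 : x.1⁻¹ * y.1 ∈ K := K.mul_mem (K.inv_mem x.2) y.2
    rw [hKm, ← hk', ← zpow_natCast, ← zpow_mul] at h2
    have h3 := hk _ h2
    have h4 : k = 0 := by
      rcases mul_eq_zero.1 h3 with h | h
      · exact h
      · exfalso
        have : N = 0 := by exact_mod_cast h
        omega
    rw [h4, zpow_zero] at hk'
    apply Subtype.ext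
    exact (inv_mul_eq_one.1 hk'.symm)
  · intro f hf'
    rw [hKm] at hf' ⊢
    rw [conj_pow, hf', mul_one, mul_inv_cancel]

end Pool.Agent.BT
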