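import Pool.Agent.BT.Stmts

/-! BT: ELL3, three aligned points of an orbit. -/

namespace Pool.Agent.BT

open Pool.Agent.BURN

namespace Ell3

variable {G X : Type} [Group G] [MulAction G X] {d : X → X → ℕ} {δ : ℕ}

/-- moving the base point and one end by a small amount -/
theorem gp_shift (h : IsDG d) (x y z z' : X) (e : ℕ) (he : d z z' ≤ e) :
    gp d x y z ≤ gp d x y z' + 2 * e := by
  have := gp_le_of_near_base h x y z z'
  omega

theorem mid_ex (h : IsDG d) (x y : X) : ∃ m, Btw d x m y ∧ d x m = d x y / 2 := by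
  obtain ⟨m, h1, h2⟩ := h.geo x y (d x y / 2) (Nat.div_le_self _ _)
  refine ⟨m, ?_, h1⟩
  unfold Pool.Agent.BURN.Btw
  have := Nat.div_le_self (d x y) 2
  omega

end Ell3

open Ell3 in
theorem Ell3_proof (E : EngT) : Stmt_Ell3 := by
  intro G X _ _ d δ hdg hy hδ hi u v p hb h1 h2
  by_contra hcon
  push Not at hcon
  obtain ⟨hu, hw, hv⟩ := hcon
  obtain ⟨i1, i2, i3⟩ := E.iso1 G X d δ hdg hy hi
  set b := u • p with hbdef
  set c := v • p with hcdef
  set w := v * u⁻¹ with hwdef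
  have hwb : w • b = c := by
    rw [hwdef, hbdef, hcdef, smul_smul, inv_mul_cancel_right]
  obtain ⟨m1, hm1, hm1'⟩ := mid_ex hdg p b
  obtain ⟨m2, hm2, hm2'⟩ := mid_ex hdg b c
  have e1 : d m1 (u • m1) ≤ 3 * δ + 1 := i3 u p hu m1 hm1 hm1'
  have e2 : d m2 (w • m2) ≤ 3 * δ + 1 := by
    refine i3 w b hw m2 ?_ ?_
    · rw [hwb]; exact hm2
    · rw [hwb]; exact hm2'
  -- basic distances
  have hbc : Btw d p b c := hb
  unfold Pool.Agent.BURN.Btw at hbc hm1 hm2
  set p' := w⁻¹ • p with hp'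
  have hwp' : w • p' = p := by rw [hp', smul_inv_smul]
  have hb2 : d b m2 = d b c / 2 := hm2'
  have hpm2 : d p m2 = d p b + d b m2 := by
    have t1 := hdg.tri p b m2
    have t2 := hdg.tri p m2 c
    omega
  -- ⟨p,c⟩_{m2} = 0
  have a1 : gp d p c m2 = 0 := by
    have := gp_add hdg p c m2
    have s1 := hdg.symm c m2
    omega
  -- ⟨c, w p⟩_{w m2} = 2 d(b, m2)
  have a2 : gp d c (w • p) (w • m2) = 2 * d b m2 := by
    rw [← hwb, isIso_gp hi]
    have := gp_add hdg b p m2
    have s1 := hdg.symm b p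
    omega
  have a3 : 2 * d b m2 ≤ gp d c (w • p) m2 + 2 * (3 * δ + 1) := by
    have := gp_shift hdg c (w • p) (w • m2) m2 (3 * δ + 1) (by rw [hdg.symm]; exact e2)
    omega
  have a4 : gp d p (w • p) m2 ≤ δ := by
    have := hyp_gp hdg hy p c (w • p) m2
    rw [a1] at this
    have s1 := gp_comm hdg (w • p) c m2
    omega
  have a5 : gp d p' p m2 ≤ 7 * δ + 2 := by
    have h3 : gp d p (w • p) (w • m2) = gp d p' p m2 := by
      have := isIso_gp hi w p' p m2
      rw [hwp'] at this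
      exact this
    have := gp_shift hdg p (w • p) (w • m2) m2 (3 * δ + 1) (by rw [hdg.symm]; exact e2)
    omega
  have a6 : gp d b p m2 = 2 * d b m2 := by
    have := gp_add hdg b p m2
    have s1 := hdg.symm b p
    omega
  have a7 : gp d b p' m2 ≤ 8 * δ + 2 := by
    have := hyp_gp hdg hy p' p b m2
    have s1 := gp_comm hdg p' b m2
    omega
  have a8 : gp d m2 p' b + gp d b p' m2 = 2 * d b m2 := by
    have := gp_add_gp hdg m2 p' b
    have s1 := hdg.symm m2 b
    omega
  have a9 : gp d p m2 b = 0 := by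
    have := gp_add hdg p m2 b
    have s1 := hdg.symm m2 b
    omega
  have a10 : gp d p p' b ≤ δ := by
    have := hyp_gp hdg hy p m2 p' b
    have s1 := gp_comm hdg p' m2 b
    omega
  have a11 : gp d m1 p' b ≤ δ := by
    have g1 := gp_add hdg p p' b
    have g2 := gp_add hdg m1 p' b
    have t := hdg.tri p m1 p'
    omega
  -- apply u⁻¹
  have hub : u⁻¹ • b = p := by rw [hbdef, inv_smul_smul]
  have hup : u⁻¹ • p' = v⁻¹ • p := by
    rw [hp', smul_smul, hwdef]
    congr 1
    group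
  have a12 : gp d (u⁻¹ • m1) (v⁻¹ • p) p ≤ δ := by
    have := isIso_gp hi u⁻¹ m1 p' b
    rw [hub, hup] at this
    omega
  have e1' : d m1 (u⁻¹ • m1) ≤ 3 * δ + 1 := by
    have := hi u (u⁻¹ • m1) m1
    rw [smul_inv_smul] at this
    rw [hdg.symm]
    omega
  have a13 : gp d m1 (v⁻¹ • p) p ≤ 7 * δ + 2 := by
    have := gp_le_of_near hdg m1 (u⁻¹ • m1) (v⁻¹ • p) p
    omega
  have a14 : gp d m1 c p = 2 * d p m1 := by
    have g := gp_add hdg m1 c p
    have t1 := hdg.tri m1 b c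
    have t2 := hdg.tri p m1 c
    have s1 := hdg.symm m1 p
    have s2 := hdg.symm c p
    omega
  have a15 : gp d (v⁻¹ • p) c p ≤ 8 * δ + 2 := by
    have := hyp_gp hdg hy (v⁻¹ • p) m1 c p
    have s1 := gp_comm hdg c m1 p
    have s2 := gp_comm hdg (v⁻¹ • p) m1 p
    omega
  have a16 : d p (v ^ 2 • p) = d (v⁻¹ • p) c := by
    have := hi v (v⁻¹ • p) c
    rw [smul_inv_smul, hcdef, smul_smul, ← pow_two] at this
    exact this
  have a17 : d (v⁻¹ • p) p = d p c := by
    have := hi v (v⁻¹ • p) p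
    rw [smul_inv_smul] at this
    exact this.symm
  apply hv
  refine (i1 v p ?_).1
  have g := gp_add hdg (v⁻¹ • p) c p
  have s2 := hdg.symm c p
  rw [← hcdef]
  omega

end Pool.Agent.BT
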