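import Pool.Agent.BT.Stmts

/-! BT, module FBC: finite by cyclic groups. -/

namespace Pool.Agent.BT

open Pool.Agent.BURN

namespace FBC

variable {G : Type} [Group G] {F : Subgroup G} {c : G}

lemma inv_mem (hF : Finite F) (hc : Nrm F c) : ∀ f ∈ F, c⁻¹ * f * c ∈ F := by
  intro f hf
  have hinj : Function.Injective (fun x : F => (⟨c * x * c⁻¹, hc x x.2⟩ : F)) := by
    intro x y h
    have h1 : c * (x : G) * c⁻¹ = c * (y : G) * c⁻¹ := congrArg Subtype.val h
    have h2 : (x : G) = y := by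
      have := mul_right_cancel h1
      exact mul_left_cancel this
    exact Subtype.ext h2
  obtain ⟨x, hx⟩ := Finite.surjective_of_injective hinj ⟨f, hf⟩
  have h1 : c * (x : G) * c⁻¹ = f := congrArg Subtype.val hx
  have h2 : c⁻¹ * f * c = x := by
    rw [← h1]
    group
  rw [h2]
  exact x.2

lemma mem_norm (hF : Finite F) (hc : Nrm F c) : c ∈ Subgroup.normalizer (F : Set G) := by
  rw [Subgroup.mem_normalizer_iff]
  intro h
  constructor
  · intro hh
    exact hc h hh
  · intro hh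
    have h1 := inv_mem hF hc _ hh
    have h2 : c⁻¹ * (c * h * c⁻¹) * c = h := by group
    rwa [h2] at h1

lemma zpow_nrm (hF : Finite F) (hc : Nrm F c) (j : ℤ) : Nrm F (c ^ j) := by
  intro f hf
  have h := (Subgroup.normalizer (F : Set G)).zpow_mem (mem_norm hF hc) j
  rw [Subgroup.mem_normalizer_iff] at h
  exact (h f).1 hf

lemma pow_eq (hF : Finite F) (hc : Nrm F c) (f : G) (hf : f ∈ F) (j : ℤ) (k : ℕ) :
    ∃ f' ∈ F, (f * c ^ j) ^ k = f' * c ^ (j * k) := by
  induction k with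
  | zero => exact ⟨1, F.one_mem, by simp⟩
  | succ k ih =>
    obtain ⟨f', hf', e⟩ := ih
    refine ⟨f' * (c ^ (j * k) * f * (c ^ (j * k))⁻¹), F.mul_mem hf' (zpow_nrm hF hc _ f hf), ?_⟩
    rw [pow_succ, e]
    have h1 : j * ((k + 1 : ℕ) : ℤ) = j * k + j := by push_cast; ring
    rw [h1, zpow_add]
    group

lemma exists_comm (hF : Finite F) (hc : Nrm F c) :
    ∃ m : ℕ, 1 ≤ m ∧ ∀ f ∈ F, Commute f (c ^ m) := by
  -- the permutation of F
  haveI := hF
  let σ : Equiv.Perm F := Equiv.ofBijective (fun x : F => (⟨c * x * c⁻¹, hc x x.2⟩ : F))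
    ((Finite.injective_iff_bijective).1 (by
      intro x y h
      have h1 : c * (x : G) * c⁻¹ = c * (y : G) * c⁻¹ := congrArg Subtype.val h
      exact Subtype.ext (mul_left_cancel (mul_right_cancel h1))))
  have hσ : ∀ k : ℕ, ∀ x : F, ((σ ^ k) x : G) = c ^ k * x * (c ^ k)⁻¹ := by
    intro k
    induction k with
    | zero => intro x; simp
    | succ k ih =>
      intro x
      rw [pow_succ', Equiv.Perm.mul_apply]
      have h1 : ((σ ((σ ^ k) x) : F) : G) = c * ((σ ^ k) x : G) * c⁻¹ := rfl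
      rw [h1, ih x, pow_succ']
      group
  refine ⟨orderOf σ, orderOf_pos σ, ?_⟩
  intro f hf
  have h := hσ (orderOf σ) ⟨f, hf⟩
  rw [pow_orderOf_eq_one] at h
  have h1 : f = c ^ orderOf σ * f * (c ^ orderOf σ)⁻¹ := h
  show f * c ^ orderOf σ = c ^ orderOf σ * f
  calc f * c ^ orderOf σ = (c ^ orderOf σ * f * (c ^ orderOf σ)⁻¹) * c ^ orderOf σ := by rw [← h1]
    _ = c ^ orderOf σ * f := by group

end FBC

open FBC in
theorem FBC_proof : Stmt_FBC := by
  intro G _ F c hF hc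
  refine ⟨inv_mem hF hc, zpow_nrm hF hc, ?_, ?_⟩
  · obtain ⟨m, hm, hcm⟩ := exists_comm hF hc
    haveI := hF
    refine ⟨m * Nat.card F, ?_, ?_, ?_⟩
    · exact Nat.mul_pos hm Nat.card_pos
    · intro f hf
      rw [pow_mul]
      exact (hcm f hf).pow_right _
    · intro f hf j
      obtain ⟨f', hf', e⟩ := pow_eq hF hc f hf j m
      rw [pow_mul, e]
      have hcomm : Commute f' (c ^ (j * (m : ℤ))) := by
        have h1 : c ^ (j * (m : ℤ)) = (c ^ m) ^ j := by
          rw [mul_comm, zpow_mul, zpow_natCast]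
        rw [h1]
        exact (hcm f' hf').zpow_right j
      rw [hcomm.mul_pow]
      have h2 : f' ^ Nat.card F = 1 := by
        have h3 : (⟨f', hf'⟩ : F) ^ Nat.card F = 1 := pow_card_eq_one'
        exact congrArg Subtype.val h3
      rw [h2, one_mul, ← zpow_natCast, ← zpow_mul]
      congr 1
      push_cast
      ring
  · refine ⟨{ carrier := {x | InFc F c x}, mul_mem' := ?_, one_mem' := ?_, inv_mem' := ?_ }, ?_⟩
    · rintro x y ⟨f, hf, j, rfl⟩ ⟨f', hf', k, rfl⟩
      refine ⟨f * (c ^ j * f' * (c ^ j)⁻¹), F.mul_mem hf (zpow_nrm hF hc j f' hf'), j + k, ?_⟩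
      rw [zpow_add]
      group
    · exact ⟨1, F.one_mem, 0, by simp⟩
    · rintro x ⟨f, hf, j, rfl⟩
      refine ⟨c ^ (-j) * f⁻¹ * (c ^ (-j))⁻¹, zpow_nrm hF hc (-j) _ (F.inv_mem hf), -j, ?_⟩
      group
    · intro x
      exact Iff.rfl

end Pool.Agent.BT
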