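import Pool.Agent.BT.Stmts

/-! BT: FBL, loxodromic elements of finite by cyclic groups. -/

namespace Pool.Agent.BT

open Pool.Agent.BURN

namespace FBL_

variable {G : Type} [Group G]

theorem conj_pow_z {h g : G} {m : ℤ} (hm : h * g ^ m * h⁻¹ = g ^ m) (k : ℤ) :
    h * g ^ (m * k) * h⁻¹ = g ^ (m * k) := by
  rw [zpow_mul, ← conj_zpow, hm]

theorem conj_inv_z {h g : G} {m : ℤ} (hm : h * g ^ m * h⁻¹ = (g ^ m)⁻¹) (k : ℤ) :
    h * g ^ (m * k) * h⁻¹ = (g ^ (m * k))⁻¹ := by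
  rw [zpow_mul, ← conj_zpow, hm, inv_zpow]

theorem mem_Ep {g h : G} : h ∈ Ep g ↔ ∃ m : ℤ, m ≠ 0 ∧ h * g ^ m * h⁻¹ = g ^ m := by
  constructor
  · rintro ⟨m, hm, hh⟩
    exact ⟨m, by omega, by rw [zpow_natCast]; exact hh⟩
  · rintro ⟨m, hm, hh⟩
    refine ⟨m.natAbs, by omega, ?_⟩
    rcases Int.natAbs_eq m with e | e
    · rw [← zpow_natCast, ← e]; exact hh
    · have h1 := conj_pow_z hh (-1)
      have h2 : m * (-1) = (m.natAbs : ℤ) := by omega
      rw [h2, zpow_natCast] at h1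
      exact h1

theorem mem_El {g h : G} : h ∈ El g ↔ ∃ m : ℤ, m ≠ 0 ∧
    (h * g ^ m * h⁻¹ = g ^ m ∨ h * g ^ m * h⁻¹ = (g ^ m)⁻¹) := by
  constructor
  · rintro ⟨m, hm, hh⟩
    refine ⟨m, by omega, ?_⟩
    rw [zpow_natCast]; exact hh
  · rintro ⟨m, hm, hh⟩
    refine ⟨m.natAbs, by omega, ?_⟩
    rcases Int.natAbs_eq m with e | e
    · rw [← zpow_natCast, ← e]; exact hh
    · have h2 : m * (-1) = (m.natAbs : ℤ) := by omega
      rcases hh with hh | hh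
      · have h1 := conj_pow_z hh (-1)
        rw [h2, zpow_natCast] at h1
        exact Or.inl h1
      · have h1 := conj_inv_z hh (-1)
        rw [h2, zpow_natCast] at h1
        exact Or.inr h1

theorem le_of_pow {g g' : G} {a b : ℤ} (_ha : a ≠ 0) (hb : b ≠ 0) (h : g ^ a = g' ^ b) :
    Ep g ≤ Ep g' ∧ El g ≤ El g' := by
  constructor
  · intro x hx
    obtain ⟨m, hm, hh⟩ := mem_Ep.1 hx
    refine mem_Ep.2 ⟨b * m, mul_ne_zero hb hm, ?_⟩
    have h1 := conj_pow_z hh a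
    rw [mul_comm m a, zpow_mul, h, ← zpow_mul] at h1
    exact h1
  · intro x hx
    obtain ⟨m, hm, hh⟩ := mem_El.1 hx
    refine mem_El.2 ⟨b * m, mul_ne_zero hb hm, ?_⟩
    rcases hh with hh | hh
    · have h1 := conj_pow_z hh a
      rw [mul_comm m a, zpow_mul, h, ← zpow_mul] at h1
      exact Or.inl h1
    · have h1 := conj_inv_z hh a
      rw [mul_comm m a, zpow_mul, h, ← zpow_mul] at h1
      exact Or.inr h1

theorem eq_of_pow {g g' : G} {a b : ℤ} (ha : a ≠ 0) (hb : b ≠ 0) (h : g ^ a = g' ^ b) :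
    Ep g = Ep g' ∧ El g = El g' := by
  obtain ⟨h1, h2⟩ := le_of_pow ha hb h
  obtain ⟨h3, h4⟩ := le_of_pow hb ha h.symm
  exact ⟨le_antisymm h1 h3, le_antisymm h2 h4⟩

theorem not_lox_one {X : Type} [MulAction G X] {d : X → X → ℕ} (hd : IsDG d)
    (hX : Nonempty X) : ¬ Lox d (1 : G) := by
  intro h
  obtain ⟨x⟩ := hX
  obtain ⟨m, hm⟩ := h x 0
  rw [one_pow, one_smul, (hd.eq_zero x x).2 rfl] at hm
  exact absurd hm (lt_irrefl 0)

end FBL_

open FBL_ in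
theorem FBL_proof (E : EngT) (h1 : Stmt_FBC) : Stmt_FBL := by
  intro G X _ _ d hd hi hX F c hF hc
  have hlox : ∀ (g : G) (k : ℤ), k ≠ 0 → (Lox d (g ^ k) ↔ Lox d g) :=
    (E.slen G X d hd hi).2.2.2.2.2.1
  obtain ⟨_, _, ⟨M, hM1, hMc, hMp⟩, _⟩ := h1 G F c hF hc
  have hM0 : (M : ℤ) ≠ 0 := by omega
  have hFn : ∀ f ∈ F, ¬ Lox d f := by
    intro f hf hl
    have h2 := hMp f hf 0
    rw [zpow_zero, mul_one, zero_mul, zpow_zero] at h2
    have h3 := (hlox f M hM0).2 hl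
    rw [zpow_natCast, h2] at h3
    exact not_lox_one hd hX h3
  refine ⟨hFn, fun hlc => ?_⟩
  have hiff : ∀ f ∈ F, ∀ j : ℤ, Lox d (f * c ^ j) ↔ j ≠ 0 := by
    intro f hf j
    constructor
    · intro hl hj
      rw [hj, zpow_zero, mul_one] at hl
      exact hFn f hf hl
    · intro hj
      rw [← hlox (f * c ^ j) M hM0, zpow_natCast, hMp f hf j]
      exact (hlox c (j * M) (mul_ne_zero hj hM0)).2 hlc
  refine ⟨hiff, ?_, ?_⟩
  · rintro x ⟨f, hf, j, rfl⟩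
    refine ⟨M, hM1, ?_⟩
    have h2 : Commute (f * c ^ j) (c ^ M) := by
      refine Commute.mul_left (hMc f hf) ?_
      exact ((Commute.refl c).zpow_left j).pow_right M
    rw [h2.eq, mul_inv_cancel_right]
  · rintro x ⟨f, hf, j, rfl⟩ hl
    have hj : j ≠ 0 := (hiff f hf j).1 hl
    refine eq_of_pow (a := M) (b := j * M) hM0 (mul_ne_zero hj hM0) ?_
    rw [zpow_natCast, hMp f hf j]

end Pool.Agent.BT
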