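import Pool.Agent.BT.Stmts
import Pool.Agent.FRK.Main

/-! BT: the theorem. -/

namespace Pool.Agent.BT

open Pool.Agent.BURN

theorem TFinal_proof (hB : Stmt_TBase) (hL : ∀ [TP], Stmt_TLim) : Stmt_TFinal := by
  intro G _ hG
  obtain ⟨T, d, Lb, h⟩ := hB G hG
  obtain ⟨N, h1, h2, h3⟩ := @hL T G G _ _ d Lb h
  refine ⟨N, h1, h2, @Nx T, ?_, h3⟩
  unfold Nx
  exact Nat.mul_pos (Nat.factorial_pos _) T.prime.pos

theorem full (hT : Stmt_TFinal) (G : Type) [Group G] (hG : HypG G) :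
    ∃ F : Subgroup G, F.Normal ∧ IsFreeGroup F ∧ ∃ n : ℕ, 0 < n ∧ ∀ g : G, g ^ n ∈ F :=
  Pool.Agent.FRK.main G hG (Or.inl (hT G hG))

end Pool.Agent.BT
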