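import Pool.Agent.BT.Stmts

/-! BT, module SEMI: semiregular actions of finite groups on n points -/

namespace Pool.Agent.BT

open Pool.Agent.BURN

namespace Semi_

theorem inv_app {α : Type} (f : Equiv.Perm α) (x : α) : f⁻¹ (f x) = x :=
  Equiv.Perm.inv_eq_iff_eq.mpr rfl

theorem app_inv {α : Type} (f : Equiv.Perm α) (x : α) : f (f⁻¹ x) = x :=
  (Equiv.eq_symm_apply f).mp rfl

section free

variable {H α β : Type} [Group H]

/-- the orbit relation -/
def orb (φ : H →* Equiv.Perm α) : Setoid α where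
  r x y := ∃ h, φ h x = y
  iseqv := by
    refine ⟨fun x => ⟨1, by simp⟩, ?_, ?_⟩
    · rintro x y ⟨h, rfl⟩
      exact ⟨h⁻¹, by simp⟩
    · rintro x y z ⟨h, rfl⟩ ⟨k, rfl⟩
      exact ⟨k * h, by simp⟩

/-- the parametrisation of the points by orbits and group elements -/
noncomputable def par (φ : H →* Equiv.Perm α) (p : Quotient (orb φ) × H) : α :=
  φ p.2 p.1.out

theorem par_bij (φ : H →* Equiv.Perm α) (hφ : ∀ h, h ≠ 1 → ∀ i, φ h i ≠ i) :
    Function.Bijective (par φ) := by
  constructor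
  · rintro ⟨ω, h⟩ ⟨ω', h'⟩ heq
    have heq' : φ h ω.out = φ h' ω'.out := heq
    have h1 : (orb φ).r ω.out ω'.out := by
      refine ⟨h'⁻¹ * h, ?_⟩
      rw [map_mul, Equiv.Perm.mul_apply, heq', map_inv, inv_app]
    have h2 : ω = ω' := by
      rw [← Quotient.out_eq ω, ← Quotient.out_eq ω']
      exact Quotient.sound h1
    subst h2
    have h3 : h'⁻¹ * h = 1 := by
      by_contra hne
      refine hφ _ hne ω.out ?_
      rw [map_mul, Equiv.Perm.mul_apply, heq', map_inv, inv_app]
    have h4 : h = h' := by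
      rw [inv_mul_eq_one] at h3
      exact h3.symm
    rw [h4]
  · intro x
    obtain ⟨h, hh⟩ : (orb φ).r (Quotient.mk (orb φ) x).out x := Quotient.mk_out (s := orb φ) x
    exact ⟨(Quotient.mk (orb φ) x, h), hh⟩

theorem conj_exists [Finite H] [Finite α] [Finite β] (hc : Nat.card α = Nat.card β)
    (φ : H →* Equiv.Perm α) (ψ : H →* Equiv.Perm β)
    (hφ : ∀ h, h ≠ 1 → ∀ i, φ h i ≠ i) (hψ : ∀ h, h ≠ 1 → ∀ i, ψ h i ≠ i) :
    ∃ s : α ≃ β, ∀ h x, s (φ h x) = ψ h (s x) := by
  let e1 := Equiv.ofBijective _ (par_bij φ hφ)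
  let e2 := Equiv.ofBijective _ (par_bij ψ hψ)
  have hcard : Nat.card (Quotient (orb φ)) = Nat.card (Quotient (orb ψ)) := by
    have h1 := Nat.card_congr e1
    have h2 := Nat.card_congr e2
    rw [Nat.card_prod] at h1 h2
    have h3 : 0 < Nat.card H := Nat.card_pos
    exact Nat.eq_of_mul_eq_mul_right h3 (by rw [h1, h2, hc])
  haveI : Finite (Quotient (orb φ)) := inferInstance
  haveI : Finite (Quotient (orb ψ)) := inferInstance
  obtain ⟨t⟩ : Nonempty (Quotient (orb φ) ≃ Quotient (orb ψ)) := Finite.card_eq.mp hcard |>.elim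
    fun t => ⟨t⟩
  let s : α ≃ β := (e1.symm.trans (t.prodCongr (Equiv.refl H))).trans e2
  refine ⟨s, fun h x => ?_⟩
  obtain ⟨⟨ω, k⟩, rfl⟩ := e1.surjective x
  have h1 : φ h (e1 (ω, k)) = e1 (ω, h * k) := by
    show φ h (φ k ω.out) = φ (h * k) ω.out
    rw [map_mul, Equiv.Perm.mul_apply]
  have h2 : ∀ k', s (e1 (ω, k')) = e2 (t ω, k') := by
    intro k'
    show e2 ((t.prodCongr (Equiv.refl H)) (e1.symm (e1 (ω, k')))) = _
    rw [Equiv.symm_apply_apply]
    rfl
  rw [h1, h2, h2]
  show ψ (h * k) (t ω).out = ψ h (ψ k (t ω).out)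
  rw [map_mul, Equiv.Perm.mul_apply]

end free

/-- the homomorphism defined by a semiregular label -/
noncomputable def toHom [TN] {G : Type} [Group G] (F : Subgroup G) (f : G → SP)
    (h : SemL F f) : F →* SP where
  toFun a := f a
  map_one' := by
    have h1 := h.1 1 F.one_mem 1 F.one_mem
    rw [one_mul] at h1
    have h2 : f 1 * 1 = f 1 * f 1 := by rw [mul_one]; exact h1
    exact (mul_left_cancel h2).symm
  map_mul' a b := h.1 a a.2 b b.2

end Semi_

open Semi_ in
theorem semi_proof : Stmt_Semi := by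
  intro _ G _
  refine ⟨fun F hF hdvd => ?_, fun F f f' hF hf hf' => ?_⟩
  · haveI : Finite F := hF
    obtain ⟨m, hm⟩ := hdvd
    have hcard : Nat.card (Fin TN.n) = Nat.card (F × Fin m) := by
      rw [Nat.card_prod, Nat.card_eq_fintype_card, Nat.card_eq_fintype_card (α := Fin m),
        Fintype.card_fin, Fintype.card_fin]
      exact hm
    obtain ⟨e⟩ : Nonempty (Fin TN.n ≃ F × Fin m) := (Finite.card_eq.mp hcard).elim fun t => ⟨t⟩
    classical
    refine ⟨fun a => if h : a ∈ F then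
      (e.trans ((Equiv.mulLeft (⟨a, h⟩ : F)).prodCongr (Equiv.refl (Fin m)))).trans e.symm
      else 1, ?_, ?_⟩
    · intro a ha b hb
      have hab : a * b ∈ F := F.mul_mem ha hb
      simp only [dif_pos ha, dif_pos hb, dif_pos hab]
      ext i
      simp only [Equiv.Perm.mul_apply, Equiv.trans_apply, Equiv.apply_symm_apply,
        Equiv.prodCongr_apply, Prod.map, Equiv.coe_mulLeft, Equiv.refl_apply]
      congr 2
      refine Prod.ext ?_ rfl
      refine Subtype.ext ?_
      simp [mul_assoc]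
    · intro a ha hne i
      simp only [dif_pos ha]
      intro hi
      have h1 : ((Equiv.mulLeft (⟨a, ha⟩ : F)).prodCongr (Equiv.refl (Fin m))) (e i) = e i := by
        have h2 := congrArg e hi
        simpa using h2
      have h3 := congrArg Prod.fst h1
      have h4 : (⟨a, ha⟩ : F) * (e i).1 = (e i).1 := h3
      have h5 : (⟨a, ha⟩ : F) = 1 := by
        have h6 : (⟨a, ha⟩ : F) * (e i).1 = 1 * (e i).1 := by rw [one_mul]; exact h4
        exact mul_right_cancel h6
      exact hne (congrArg Subtype.val h5)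
  · haveI : Finite F := hF
    obtain ⟨s, hs⟩ := conj_exists (H := F) (α := Fin TN.n) (β := Fin TN.n) rfl
      (toHom F f hf) (toHom F f' hf')
      (fun h hne i => hf.2 h h.2 (fun h1 => hne (Subtype.ext h1)) i)
      (fun h hne i => hf'.2 h h.2 (fun h1 => hne (Subtype.ext h1)) i)
    refine ⟨s, fun a ha => ?_⟩
    ext x
    have h1 := hs ⟨a, ha⟩ (s⁻¹ x)
    have h2 : s (f a (s⁻¹ x)) = f' a (s (s⁻¹ x)) := h1
    rw [app_inv] at h2
    rw [Equiv.Perm.mul_apply, Equiv.Perm.mul_apply, h2]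

end Pool.Agent.BT
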