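import Pool.Agent.BT.Stmts

/-! BT, module TAx: the quasi-line of an elementary group. -/

namespace Pool.Agent.BT

open Pool.Agent.BURN

namespace TAx

variable {G X : Type} [Group G] [MulAction G X] {d : X → X → ℕ} {δ : ℕ}

theorem cj (hi : IsIso G d) (E E' : Subgroup G) (h : G) (hc : IsCj h E E') (x : X)
    (hx : x ∈ AxE d δ E) : h • x ∈ AxE d δ E' := by
  obtain ⟨g, hg, o, h1, h2, i, h3⟩ := hx
  have e : (h * g * h⁻¹) • h • o = h • g • o := by simp [mul_smul]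
  refine ⟨h * g * h⁻¹, ?_, h • o, ?_, ?_, i, ?_⟩
  · rw [hc]
    have e1 : h⁻¹ * (h * g * h⁻¹) * h = g := by group
    rwa [e1]
  · rw [e, hi]; exact h1
  · intro y
    rw [e, hi]
    have e2 : d y ((h * g * h⁻¹) • y) = d (h⁻¹ • y) (g • h⁻¹ • y) := by
      rw [← hi h (h⁻¹ • y) (g • h⁻¹ • y), smul_inv_smul]; simp [mul_smul]
    rw [e2]; exact h2 _
  · have e3 : ∀ j : ℤ, (h * g * h⁻¹) ^ j • h • o = h • g ^ j • o := by
      intro j; rw [conj_zpow]; simp [mul_smul]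
    unfold BURN.Btw at *
    rw [e3, e3, hi, hi, hi]; exact h3

theorem qc (h : IsDG d) (hy : Hyp d δ) (h1 : 1 ≤ δ) (W V : Set X) (hV : V ⊆ W)
    (hq : QC d (6 * δ) V) (hn : ∀ x ∈ W, ∃ y ∈ V, d x y ≤ 12 * δ + 1) : QC d (16 * δ) W := by
  intro x hx y hyy p hp
  obtain ⟨x1, hx1, dx⟩ := hn x hx
  obtain ⟨y1, hy1, dy⟩ := hn y hyy
  by_cases c1 : d x p ≤ 16 * δ
  · exact ⟨x, hx, by rw [h.symm]; exact c1⟩
  by_cases c2 : d y p ≤ 16 * δ
  · exact ⟨y, hyy, by rw [h.symm]; exact c2⟩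
  have a0 := (btw_iff h x p y).1 hp
  have a1 := hyp_gp h hy x y x1 p
  have a2 := hyp_gp h hy x1 y y1 p
  have b1 := gp_add h x x1 p
  have t1 := h.tri x x1 p
  have b2 := gp_add h y1 y p
  have t2 := h.tri y y1 p
  rw [h.symm y1 y] at b2
  have a3 : gp d x1 y1 p ≤ 2 * δ := by omega
  obtain ⟨γ, hγ⟩ := exists_geod h x1 y1
  obtain ⟨n1, n2⟩ := near_geod h hy hγ p
  obtain ⟨w, hw, dw⟩ := hq x1 hx1 y1 hy1 _ (hγ.btw' n1)
  refine ⟨w, hV hw, ?_⟩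
  have t3 := h.tri p (γ (gp d y1 p x1 / 2)) w
  omega

theorem gp_axis (h : IsDG d) (g : G) (o x : X)
    (ha : ∀ i j k : ℤ, i < k → k < j → gp d (g ^ i • o) (g ^ j • o) (g ^ k • o) ≤ 4 * δ)
    (i : ℤ) (hx : Btw d (g ^ i • o) x (g ^ (i + 1) • o)) (k : ℕ) (hk : i.natAbs + 1 < k) :
    gp d ((g ^ k)⁻¹ • o) (g ^ k • o) x ≤ 8 * δ := by
  have e1 : (g ^ k)⁻¹ • o = g ^ (-(k : ℤ)) • o := by rw [zpow_neg, zpow_natCast]
  have e2 : g ^ k • o = g ^ (k : ℤ) • o := by rw [zpow_natCast]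
  rw [e1, e2]
  have a1 := ha (-(k : ℤ)) k i (by omega) (by omega)
  have a2 := ha i k (i + 1) (by omega) (by omega)
  generalize g ^ (-(k : ℤ)) • o = u at *
  generalize g ^ (k : ℤ) • o = v at *
  generalize g ^ i • o = p at *
  generalize g ^ (i + 1) • o = q at *
  have b1 := gp_add h u v p
  have b2 := gp_add h p v q
  have b3 := gp_add h u v x
  unfold BURN.Btw at hx
  have t1 := h.tri u p x
  have t2 := h.tri v q x
  rw [h.symm q x] at t2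
  rw [h.symm v p] at b1
  omega

theorem disp (hM : Stmt_Mid) (h : IsDG d) (hy : Hyp d δ) (hi : IsIso G d) (e : G)
    (u v x z : X) (l : ℕ) (hu : d u (e • u) ≤ l) (hv : d v (e • v) ≤ l)
    (hx : gp d u v x ≤ 8 * δ) (hux : l + 2 * d x z + 20 * δ + 10 ≤ d u x)
    (hvx : l + 2 * d x z + 20 * δ + 10 ≤ d v x) : d x (e • x) ≤ d z (e • z) + 14 * δ := by
  obtain ⟨γ, hγ⟩ := exists_geod h u v
  obtain ⟨n1, n2⟩ := near_geod h hy hγ x
  set t := gp d v x u / 2 with ht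
  set x' := γ t with hx'
  have d1 := hγ.dist_left n1
  have d2 := hγ.dist_right n1
  rw [← hx'] at d1 d2
  have t1 := h.tri u x' x
  have t2 := h.tri v x' x
  rw [h.symm x' x] at t1 t2
  rw [h.symm v x'] at t2
  obtain ⟨-, m2, -⟩ := hM G X d δ l u v γ e h hy hi hγ hu hv
  obtain ⟨-, -, -, m3⟩ := m2 t (by omega) (by omega)
  unfold Tr at m3
  rw [hγ.1, ← hx'] at m3
  -- w0
  set w0 := e⁻¹ • u with hw0
  have c1 : d u (e • x') = d w0 x' := by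
    rw [← hi e w0 x', hw0, smul_inv_smul]
  have c2 : d u (e • z) = d w0 z := by
    rw [← hi e w0 z, hw0, smul_inv_smul]
  have c3 : d u w0 ≤ l := by
    have : d u (e • u) = d w0 u := by rw [← hi e w0 u, hw0, smul_inv_smul]
    rw [h.symm u w0, ← this]; exact hu
  have q1 := hy u x' w0 z
  have q2 := hy u z w0 x'
  have t3 := h.tri x' x z
  have t4 := h.tri u z x
  have t5 := h.tri u z (e • z)
  have t6 := h.tri u (e • z) z
  have t7 := h.tri x x' (e • x)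
  have t8 := h.tri x' (e • x') (e • x)
  rw [hi e x' x] at t8
  rw [h.symm x' x] at t3 t8
  rw [h.symm z x] at t4
  rw [h.symm (e • z) z] at t6
  rw [h.symm x' w0] at q1
  rw [h.symm z x', h.symm z w0] at q2
  rw [c1] at m3
  rw [c2] at t5 t6
  have q3 : d u x' + d w0 z ≤ d u z + d w0 x' + δ := by omega
  have q4 : d u z + d w0 x' ≤ d u x' + d w0 z + δ := by omega
  have q5 : |(d w0 x' : ℤ) - (t : ℤ)| ≤ (d z (e • z) : ℤ) + δ := by
    rw [abs_le]; constructor <;> omega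
  omega

theorem ends (hE : Stmt_TEnd) {R : ℕ} (h : IsDG d) (hy : Hyp d δ) (h1 : 1 ≤ δ) (hi : IsIso G d)
    (f f' : G) (hf : ∀ (x : X) (m : ℕ), m ≤ R * d x (f ^ m • x))
    (hf' : ∀ (x : X) (m : ℕ), m ≤ R * d x (f' ^ m • x)) (p q : ℕ) (hp : 1 ≤ p) (hq : 1 ≤ q)
    (hpq : f ^ p = f' ^ q) (o o' z : X) (B : ℕ) :
    ∃ k0 : ℕ, ∀ k k' : ℕ, k0 ≤ k → k0 ≤ k' → B ≤ gp d (f ^ k • o) (f' ^ k' • o') z := by
  obtain ⟨a, ha⟩ := (hE G X d δ R h hy h1 hi f hf o z z).1 (B + δ)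
  obtain ⟨b, hb⟩ := (hE G X d δ R h hy h1 hi f' hf' z o' z).1 (B + δ)
  refine ⟨max a b, ?_⟩
  intro k k' hk hk'
  have c1 := ha k (p * (max a b)) (le_trans (le_max_left a b) hk)
    (le_trans (le_max_left a b) (Nat.le_mul_of_pos_left _ hp))
  have c2 := hb (q * (max a b)) k' (le_trans (le_max_right a b) (Nat.le_mul_of_pos_left _ hq))
    (le_trans (le_max_right a b) hk')
  have e : f ^ (p * max a b) = f' ^ (q * max a b) := by rw [pow_mul, pow_mul, hpq]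
  rw [e] at c1
  have := hyp_gp h hy (f ^ k • o) (f' ^ k' • o') (f' ^ (q * max a b) • z) z
  omega

theorem comb {a : ℕ} (h : IsDG d) (hy : Hyp d δ) (xm xp ym yp z : X)
    (h0 : gp d xm xp z ≤ 2 * a) (h1 : 2 * a + 2 * δ + 1 ≤ gp d xm ym z)
    (h2 : 2 * a + 2 * δ + 1 ≤ gp d xp yp z) : gp d ym yp z ≤ 2 * (a + δ) := by
  have a1 := hyp_gp h hy xm xp ym z
  have a2 := hyp_gp h hy ym xp yp z
  rw [gp_comm h yp xp] at a2
  omega

/-- both elements have linear growth and a common power: the other one has small products -/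
theorem transfer (hE : Stmt_TEnd) {R : ℕ} (h : IsDG d) (hy : Hyp d δ) (h1 : 1 ≤ δ)
    (hi : IsIso G d) (e g : G)
    (he : ∀ (x : X) (m : ℕ), m ≤ R * d x (e ^ m • x))
    (he' : ∀ (x : X) (m : ℕ), m ≤ R * d x (e⁻¹ ^ m • x))
    (hg : ∀ (x : X) (m : ℕ), m ≤ R * d x (g ^ m • x))
    (hg' : ∀ (x : X) (m : ℕ), m ≤ R * d x (g⁻¹ ^ m • x)) (p q : ℕ) (hp : 1 ≤ p) (hq : 1 ≤ q)
    (hpq : e ^ p = g ^ q) (o z : X) (a : ℕ)
    (ha : ∀ k0 : ℕ, ∃ k : ℕ, k0 ≤ k ∧ gp d ((e ^ k)⁻¹ • z) (e ^ k • z) z ≤ 2 * a) :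
    ∀ k0 : ℕ, ∃ k : ℕ, k0 ≤ k ∧ gp d ((g ^ k)⁻¹ • o) (g ^ k • o) z ≤ 2 * (a + δ) := by
  intro k0
  obtain ⟨k1, hk1⟩ := ends hE h hy h1 hi e g he hg p q hp hq hpq z o z (2 * a + 2 * δ + 1)
  have hpq' : e⁻¹ ^ p = g⁻¹ ^ q := by rw [inv_pow, inv_pow, hpq]
  obtain ⟨k2, hk2⟩ := ends hE h hy h1 hi e⁻¹ g⁻¹ he' hg' p q hp hq hpq' z o z
    (2 * a + 2 * δ + 1)
  obtain ⟨k, hk, hk'⟩ := ha (max k1 k2)
  refine ⟨max k0 (max k1 k2), le_max_left _ _, ?_⟩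
  have c1 := hk1 k (max k0 (max k1 k2)) (by omega) (by omega)
  have c2 := hk2 k (max k0 (max k1 k2)) (by omega) (by omega)
  rw [inv_pow, inv_pow] at c2
  exact comb h hy _ _ _ _ z hk' c2 c1

end TAx

open TAx in
theorem TAx_proof (E : EngT) (h1 : Stmt_TEl) (h2 : Stmt_TEnd) (h3 : Stmt_TAxA) : Stmt_TAx := by
  intro G X _ _ P d δ A R B hA
  have h := hA.dg
  have hy := hA.hyp
  have hδ := hA.one_le
  have hi := hA.iso
  refine ⟨fun E E' g hc x hx => cj hi E E' g hc x hx, ?_⟩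
  intro g hg
  obtain ⟨⟨g1, hg1, o, m1, m2⟩, ax2, ax3⟩ := h3 G X P d δ A R B hA g hg
  obtain ⟨el1, el2, -⟩ := h1 G X P d δ A R B hA
  have lox_min : ∀ (f : G) (y : X), 16 * δ + 2 ≤ d y (f • y) → (∀ x, d y (f • y) ≤ d x (f • x)) →
      Lox d f ∧ ∀ j : ℕ, j ≤ d y (f ^ j • y) := by
    intro f y hf1 hf2
    obtain ⟨a1, -, a3, -⟩ := E.iso2 G X d δ (d y (f • y)) h hy hi (by omega) f y rfl hf2
    refine ⟨a1, fun j => ?_⟩
    have a4 := a3 j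
    have a5 : j * 1 ≤ j * (d y (f • y) - 3 * δ) := Nat.mul_le_mul_left _ (by omega)
    omega
  have lox1 : Lox d g1 := (lox_min g1 o m1 m2).1
  obtain ⟨axa, axb, -⟩ := E.axis G X d δ (d o (g1 • o)) h hy hi m1 g1 o rfl m2
  have sub1 : {p | ∃ i : ℤ, Btw d (g1 ^ i • o) p (g1 ^ (i + 1) • o)} ⊆ AxE d δ (El g) := by
    rintro p ⟨i, hp⟩
    exact ⟨g1, hg1, o, m1, m2, i, hp⟩
  refine ⟨?_, ?_, ?_, ?_⟩
  · refine qc h hy hδ _ _ sub1 axb ?_
    intro x hx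
    obtain ⟨k0, hk0⟩ := ax2 x hx g1 hg1 o lox1
    obtain ⟨y, hy1, hy2⟩ := ax3 g1 hg1 o m1 m2 x (5 * δ) (fun k1 => ⟨max k0 k1, le_max_right _ _,
      le_trans (hk0 _ (le_max_left _ _)) (by omega)⟩)
    exact ⟨y, hy1, by omega⟩
  · intro B'
    obtain ⟨m, hm⟩ := lox1 o B'
    refine ⟨o, sub1 ⟨0, ?_⟩, g1 ^ m • o, sub1 ⟨(m : ℤ), ?_⟩, hm⟩
    · unfold BURN.Btw
      rw [zpow_zero, one_smul, (h.eq_zero o o).2 rfl]; omega
    · unfold BURN.Btw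
      rw [zpow_natCast, (h.eq_zero (g1 ^ m • o) (g1 ^ m • o)).2 rfl]; omega
  · intro e he x hx z
    obtain ⟨g2, hg2, o2, n1, n2, i, hb⟩ := hx
    obtain ⟨lox2, grow⟩ := lox_min g2 o2 n1 n2
    obtain ⟨axa2, -, -⟩ := E.axis G X d δ (d o2 (g2 • o2)) h hy hi n1 g2 o2 rfl n2
    obtain ⟨-, ep2, -⟩ := el1 g g2 hg lox2 hg2
    rw [← ep2] at he
    obtain ⟨m, hm1, hm2⟩ := he
    have hcom : Commute e (g2 ^ m) := by
      have := mul_inv_eq_iff_eq_mul.1 hm2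
      exact this
    have key : ∀ K : ℕ, m * K = m * K → K ≤ m * K := fun K _ => Nat.le_mul_of_pos_left _ hm1
    set K := i.natAbs + 2 + d o2 (e • o2) + 2 * d x z + 20 * δ + 10 + d o2 x with hK
    have hK1 := key K rfl
    have hc1 : Commute e (g2 ^ (m * K)) := by rw [pow_mul]; exact hcom.pow_right K
    have hc2 : Commute e (g2 ^ (m * K))⁻¹ := hc1.inv_right
    have gr := grow (m * K)
    have gr' : d ((g2 ^ (m * K))⁻¹ • o2) o2 = d o2 (g2 ^ (m * K) • o2) := by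
      rw [← hi (g2 ^ (m * K)) ((g2 ^ (m * K))⁻¹ • o2) o2, smul_inv_smul]
    have t1 := h.tri ((g2 ^ (m * K))⁻¹ • o2) x o2
    have t2 := h.tri (g2 ^ (m * K) • o2) x o2
    rw [h.symm x o2] at t1 t2
    rw [h.symm (g2 ^ (m * K) • o2) o2] at t2
    refine disp E.mid h hy hi e ((g2 ^ (m * K))⁻¹ • o2) (g2 ^ (m * K) • o2) x z (d o2 (e • o2))
      ?_ ?_ (gp_axis h g2 o2 x axa2 i hb (m * K) (by omega)) (by omega) (by omega)
    · rw [← mul_smul, hc2.eq, mul_smul, hi]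
    · rw [← mul_smul, hc1.eq, mul_smul, hi]
  · intro e he loxe z a ha
    obtain ⟨-, -, -, -, -, sl, -⟩ := E.slen G X d h hi
    have loxinv : ∀ f : G, Lox d f → Lox d f⁻¹ := by
      intro f hf
      have := (sl f (-1) (by norm_num)).2 hf
      rwa [zpow_neg_one] at this
    obtain ⟨-, -, el3⟩ := el1 g g1 hg lox1 hg1
    obtain ⟨p, q, hp, hq, hpq⟩ := el2 g1 e lox1 loxe (by rw [el3]; exact he)
    have fin : (∀ k0 : ℕ, ∃ k : ℕ, k0 ≤ k ∧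
        gp d ((g1 ^ k)⁻¹ • o) (g1 ^ k • o) z ≤ 2 * (a + δ)) →
        ∃ y ∈ AxE d δ (El g), d z y ≤ a + 9 * δ := by
      intro hh
      obtain ⟨y, y1, y2⟩ := ax3 g1 hg1 o m1 m2 z (a + δ) hh
      exact ⟨y, sub1 y1, by omega⟩
    apply fin
    -- positive exponent for e
    have main : ∀ (p' : ℤ) (q' : ℕ), 1 ≤ q' → p' ≠ 0 → g1 ^ p' = e ^ q' →
        ∀ k0 : ℕ, ∃ k : ℕ, k0 ≤ k ∧ gp d ((g1 ^ k)⁻¹ • o) (g1 ^ k • o) z ≤ 2 * (a + δ) := by
      intro p' q' hq' hp' hh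
      rcases Int.eq_nat_or_neg p' with ⟨n, rfl | rfl⟩
      · have hn : 1 ≤ n := by omega
        rw [zpow_natCast] at hh
        exact transfer h2 h hy hδ hi e g1 (hA.stab e loxe) (hA.stab e⁻¹ (loxinv e loxe))
          (hA.stab g1 lox1) (hA.stab g1⁻¹ (loxinv g1 lox1)) q' n hq' hn hh.symm o z a ha
      · have hn : 1 ≤ n := by omega
        rw [zpow_neg, zpow_natCast, ← inv_pow] at hh
        have hr := transfer h2 h hy hδ hi e g1⁻¹ (hA.stab e loxe) (hA.stab e⁻¹ (loxinv e loxe))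
          (hA.stab g1⁻¹ (loxinv g1 lox1)) (by rw [inv_inv]; exact hA.stab g1 lox1) q' n hq' hn
          hh.symm o z a ha
        intro k0
        obtain ⟨k, hk, hk'⟩ := hr k0
        refine ⟨k, hk, ?_⟩
        rw [inv_pow, inv_inv, gp_comm h] at hk'
        exact hk'
    rcases Int.eq_nat_or_neg q with ⟨n, rfl | rfl⟩
    · rw [zpow_natCast] at hpq
      exact main p n (by omega) hp hpq
    · rw [zpow_neg, zpow_natCast] at hpq
      refine main (-p) n (by omega) (by omega) ?_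
      rw [zpow_neg, hpq, inv_inv]

end Pool.Agent.BT
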