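import Pool.Agent.BT.Stmts

/-! TAxA: points of different axes of the same elementary group. -/

set_option autoImplicit false

namespace Pool.Agent.BT

open Pool.Agent.BURN

namespace TAxA_

variable {G X : Type} [Group G] [MulAction G X] {d : X → X → ℕ} {δ : ℕ}

theorem growth_inv (hd : IsDG d) (hi : IsIso G d) {g : G} {R : ℕ}
    (h : ∀ (x : X) (m : ℕ), m ≤ R * d x (g ^ m • x)) :
    ∀ (x : X) (m : ℕ), m ≤ R * d x (g⁻¹ ^ m • x) := by
  intro x m
  have e : d x (g⁻¹ ^ m • x) = d x (g ^ m • x) := by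
    rw [← hi (g ^ m) x (g⁻¹ ^ m • x), smul_smul, inv_pow, mul_inv_cancel, one_smul, hd.symm]
  rw [e]
  exact h x m

/-- a point of the axis has small product with respect to far translates -/
theorem gp_axis (hd : IsDG d) {g : G} {o x : X} {i : ℤ}
    (hax : ∀ i j k : ℤ, i < k → k < j → gp d (g ^ i • o) (g ^ j • o) (g ^ k • o) ≤ 4 * δ)
    (hx : Btw d (g ^ i • o) x (g ^ (i + 1) • o)) {j : ℤ} (h1 : -j < i) (h2 : i + 1 < j) :
    gp d (g ^ (-j) • o) (g ^ j • o) x ≤ 8 * δ := by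
  have a1 := hax (-j) j i h1 (by omega)
  have a2 := hax i j (i + 1) (by omega) h2
  have b1 := gp_add hd (g ^ (-j) • o) (g ^ j • o) (g ^ i • o)
  have b2 := gp_add hd (g ^ i • o) (g ^ j • o) (g ^ (i + 1) • o)
  have b3 := gp_add hd (g ^ (-j) • o) (g ^ j • o) x
  have t1 := hd.tri (g ^ (-j) • o) (g ^ i • o) x
  have t2 := hd.tri (g ^ j • o) (g ^ (i + 1) • o) x
  unfold BURN.Btw at hx
  rw [hd.symm (g ^ i • o) (g ^ j • o)] at b2
  have s1 := hd.symm x (g ^ (i + 1) • o)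
  omega

theorem mem_El_self (g : G) : g ∈ El g := ⟨1, le_refl 1, Or.inl (by group)⟩

theorem far_of_large (hd : IsDG d) (hy : Hyp d δ) {u v u' v' x : X}
    (h0 : gp d u v x ≤ 8 * δ) (h1 : 11 * δ + 1 ≤ gp d u' u x) (h2 : 11 * δ + 1 ≤ gp d v' v x) :
    gp d u' v' x ≤ 10 * δ := by
  have a1 := hyp_gp hd hy u v u' x
  rw [gp_comm hd u u' x] at a1
  have a2 := hyp_gp hd hy u' v v' x
  omega

end TAxA_

open TAxA_ in
theorem tAxA_proof (E : EngT) (h1 : Stmt_TEl) (h2 : Stmt_TEnd) : Stmt_TAxA := by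
  intro G X _ _ P d δ A R B hAT g hg
  have hd := hAT.dg
  have hy := hAT.hyp
  have hi := hAT.iso
  have hδ := hAT.one_le
  obtain ⟨hEl1, hEl2, -⟩ := h1 G X P d δ A R B hAT
  obtain ⟨x0⟩ := hAT.nonempty
  have hR : 1 ≤ R := by
    by_contra hR
    have hR0 : R = 0 := by omega
    have := hAT.stab g hg x0 1
    rw [hR0] at this
    omega
  refine ⟨?_, ?_, ?_⟩
  · -- a power of g
    set N := R * (16 * δ + 2) with hN
    have hbig : ∀ x : X, 16 * δ + 2 ≤ d x (g ^ N • x) := by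
      intro x
      have := hAT.stab g hg x N
      rw [hN] at this
      exact Nat.le_of_mul_le_mul_left this (by omega)
    refine ⟨g ^ N, Subgroup.pow_mem _ (mem_El_self g) N, ?_⟩
    obtain ⟨o, ho⟩ : ∃ o : X, ∀ y : X, d o (g ^ N • o) ≤ d y (g ^ N • y) := by
      classical
      have hne : ∃ n, ∃ o : X, d o (g ^ N • o) = n := ⟨_, x0, rfl⟩
      obtain ⟨o, ho⟩ := Nat.find_spec hne
      refine ⟨o, fun y => ?_⟩
      rw [ho]
      exact Nat.find_min' hne ⟨y, rfl⟩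
    exact ⟨o, hbig o, ho⟩
  · -- points of an axis
    intro x hx g1 hg1 o hlox1
    obtain ⟨g2, hg2, o2, hm2, hmin2, i, hbtw⟩ := hx
    have hax := E.axis G X d δ (d o2 (g2 • o2)) hd hy hi hm2 g2 o2 rfl hmin2
    have hlox2 : Lox d g2 :=
      (E.iso2 G X d δ (d o2 (g2 • o2)) hd hy hi (by omega) g2 o2 rfl hmin2).1
    obtain ⟨-, -, hEl⟩ := hEl1 g g2 hg hlox2 hg2
    have hg1' : g1 ∈ El g2 := by rw [hEl]; exact hg1
    obtain ⟨a, b, ha, hb, hab⟩ := hEl2 g2 g1 hlox2 hlox1 hg1'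
    -- positive exponent for g1
    obtain ⟨b', a', hb', ha', hab'⟩ : ∃ (b' : ℕ) (a' : ℤ), 1 ≤ b' ∧ a' ≠ 0 ∧
        g1 ^ b' = g2 ^ a' := by
      rcases lt_or_gt_of_ne hb with hneg | hpos
      · refine ⟨b.natAbs, -a, by omega, by omega, ?_⟩
        have e : ((b.natAbs : ℕ) : ℤ) = -b := by omega
        rw [← zpow_natCast, e, zpow_neg, zpow_neg, hab]
      · refine ⟨b.natAbs, a, by omega, ha, ?_⟩
        have e : ((b.natAbs : ℕ) : ℤ) = b := by omega
        rw [← zpow_natCast, e, hab]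
    have gr1 := hAT.stab g1 hlox1
    obtain ⟨k1, hk1⟩ := (h2 G X d δ R hd hy hδ hi g1 gr1 o o2 x).1 (11 * δ + 1)
    obtain ⟨k2, hk2⟩ := (h2 G X d δ R hd hy hδ hi g1⁻¹ (growth_inv hd hi gr1) o o2 x).1
      (11 * δ + 1)
    refine ⟨max k1 k2, fun k hk => ?_⟩
    -- choose n
    set n : ℕ := k1 + k2 + i.natAbs + 2 with hn
    have hbn : n ≤ b' * n := Nat.le_mul_of_pos_left n hb'
    have e1 : g1 ^ (b' * n) = g2 ^ (a' * n) := by
      rw [pow_mul, hab', zpow_mul, zpow_natCast]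
    have c1 := hk1 k (b' * n) (le_trans (le_max_left _ _) hk) (by omega)
    have c2 := hk2 k (b' * n) (le_trans (le_max_right _ _) hk) (by omega)
    rw [inv_pow, inv_pow] at c2
    have e2 : (g1 ^ (b' * n))⁻¹ = g2 ^ (-(a' * n)) := by rw [e1, zpow_neg]
    rw [e1] at c1
    rw [e2] at c2
    have c0 : gp d (g2 ^ (-(a' * (n : ℤ))) • o2) (g2 ^ (a' * (n : ℤ)) • o2) x ≤ 8 * δ := by
      rcases lt_or_gt_of_ne ha' with hneg | hpos
      · have hj : (n : ℤ) ≤ -(a' * n) := by nlinarith [Int.natCast_nonneg n]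
        have := gp_axis hd hax.1 hbtw (j := -(a' * n)) (by omega) (by omega)
        rw [neg_neg] at this
        rw [gp_comm hd]
        exact this
      · have hj : (n : ℤ) ≤ a' * n := by nlinarith [Int.natCast_nonneg n]
        exact gp_axis hd hax.1 hbtw (j := a' * n) (by omega) (by omega)
    exact far_of_large hd hy c0 c2 c1
  · -- points with small product are near the axis
    intro g1 _ o hm hmin z a hz
    obtain ⟨-, hqc, -⟩ := E.axis G X d δ (d o (g1 • o)) hd hy hi hm g1 o rfl hmin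
    obtain ⟨k, -, hk⟩ := hz 0
    have hu : (g1 ^ k)⁻¹ • o ∈ {p | ∃ i : ℤ, Btw d (g1 ^ i • o) p (g1 ^ (i + 1) • o)} := by
      refine ⟨-(k : ℤ), ?_⟩
      rw [zpow_neg, zpow_natCast]
      unfold BURN.Btw
      rw [(hd.eq_zero _ _).2 rfl, zero_add]
    have hv : g1 ^ k • o ∈ {p | ∃ i : ℤ, Btw d (g1 ^ i • o) p (g1 ^ (i + 1) • o)} := by
      refine ⟨(k : ℤ), ?_⟩
      rw [zpow_natCast]
      unfold BURN.Btw
      rw [(hd.eq_zero _ _).2 rfl, zero_add]
    obtain ⟨γ, hγ⟩ := exists_geod hd ((g1 ^ k)⁻¹ • o) (g1 ^ k • o)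
    obtain ⟨ht, hnear⟩ := near_geod hd hy hγ z
    obtain ⟨w, hw, hdw⟩ := hqc _ hu _ hv _ (hγ.btw' ht)
    refine ⟨w, hw, ?_⟩
    have t := hd.tri z (γ (gp d (g1 ^ k • o) z ((g1 ^ k)⁻¹ • o) / 2)) w
    omega

end Pool.Agent.BT
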