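import Pool.Agent.BT.Stmts
import Pool.Agent.BURN.Const

/-! BT, module TBase: the base stage. -/

namespace Pool.Agent.BT

open Pool.Agent.BURN

namespace TBase

theorem le_D {X : Type} (d : X → X → ℕ) {Λ : ℕ} (h : 1 ≤ Λ) (x y : X) :
    d x y ≤ Λ * Dsc Λ d x y := by
  unfold Dsc
  have h1 := Nat.div_add_mod (d x y + Λ - 1) Λ
  have h2 := Nat.mod_lt (d x y + Λ - 1) (show 0 < Λ by omega)
  generalize (d x y + Λ - 1) / Λ = q at *
  generalize Λ * q = z at *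
  omega

theorem D_le' {X : Type} (d : X → X → ℕ) {Λ : ℕ} (h : 1 ≤ Λ) {x y : X} {n : ℕ}
    (hd : d x y ≤ Λ * n) : Dsc Λ d x y ≤ n := by
  unfold Dsc
  rw [← Nat.lt_succ_iff, Nat.div_lt_iff_lt_mul (by omega)]
  have : n.succ * Λ = Λ * n + Λ := by rw [Nat.succ_eq_add_one]; ring
  omega

theorem D_lt {X : Type} (d : X → X → ℕ) {Λ : ℕ} (h : 1 ≤ Λ) (x y : X) :
    Λ * Dsc Λ d x y + 1 ≤ d x y + Λ := by
  unfold Dsc
  have h1 := Nat.div_add_mod (d x y + Λ - 1) Λ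
  generalize (d x y + Λ - 1) / Λ = q at *
  generalize Λ * q = z at *
  omega

theorem D_iso {G X : Type} [Group G] [MulAction G X] {d : X → X → ℕ} (Λ : ℕ)
    (hi : IsIso G d) : IsIso G (Dsc Λ d) := by
  intro g x y
  unfold Dsc
  rw [hi]

theorem D_lox {G X : Type} [Group G] [MulAction G X] {d : X → X → ℕ} {Λ : ℕ} (h : 1 ≤ Λ)
    {g : G} (hg : Lox d g) : Lox (Dsc Λ d) g := by
  intro x B
  obtain ⟨m, hm⟩ := hg x (Λ * B)
  refine ⟨m, ?_⟩
  by_contra hn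
  push Not at hn
  have h1 := le_D d h x (g ^ m • x)
  have h2 : Λ * Dsc Λ d x (g ^ m • x) ≤ Λ * B := Nat.mul_le_mul_left _ hn
  omega

theorem D_lox' {G X : Type} [Group G] [MulAction G X] {d : X → X → ℕ} {Λ : ℕ} (h : 1 ≤ Λ)
    {g : G} (hg : Lox (Dsc Λ d) g) : Lox d g := by
  intro x B
  obtain ⟨m, hm⟩ := hg x B
  refine ⟨m, hm.trans_le (D_le' d h ?_)⟩
  exact Nat.le_mul_of_pos_left _ h

theorem arith1 (Λ ν D A δ t : ℕ) (hΛ : 1 ≤ Λ) (hA : A ≤ Λ) (hδ : δ ≤ Λ) (hD : 1 ≤ D) :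
    A + ν * (Λ * (100 * D) + δ) ≤ Λ * (ν * (t + 100 * D + 2) + 1000 * D - 1) := by
  obtain ⟨D', rfl⟩ : ∃ D', D = D' + 1 := ⟨D - 1, by omega⟩
  have h1 : ν * (t + 100 * (D' + 1) + 2) + 1000 * (D' + 1) - 1
      = ν * (t + 100 * (D' + 1) + 2) + 1000 * D' + 999 := by omega
  rw [h1]
  have h2 : ν * δ ≤ ν * Λ := Nat.mul_le_mul_left _ hδ
  nlinarith [Nat.zero_le (Λ * ν * t), Nat.zero_le (Λ * D'), Nat.zero_le (Λ * ν)]

theorem mul_pred_add {Λ a : ℕ} (ha : 1 ≤ a) : Λ * (a - 1) + Λ = Λ * a := by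
  obtain ⟨n, rfl⟩ : ∃ n, a = n + 1 := ⟨a - 1, by omega⟩
  rw [Nat.add_sub_cancel]
  ring

theorem good_of [TP] (E : EngT) (h2 : Stmt_TSC) (h7 : Stmt_Semi) {G : Type} [Group G]
    {d : G → G → ℕ} {δ : ℕ} {Bf : ℕ → ℕ} (hP : PG d δ Bf)
    (hdvd : ∀ F : Subgroup G, Finite F → Nat.card F ∣ TN.n) {Λ A R0 C : ℕ}
    (hAT : AT (G := G) (fun F : Subgroup G => Finite F) d δ A R0 (Nat.factorial TN.n))
    (hΛ2 : 2 ≤ Λ) (hΛδ : 2 * δ ≤ Λ) (hΛA : A ≤ Λ) (hΛC : C ≤ Λ) (hR : R0 * Λ ≤ TP.R)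
    (hN : ∀ g : G, Lox d g → ∀ x : G, ∃ k0 : ℕ, ∀ k : ℕ, k0 ≤ k →
      gp d ((g ^ k)⁻¹ • x) (g ^ k • x) x ≤ 2 * d x (g • x) + C) :
    GoodT (G := G) (Dsc Λ d) (SemL (G := G)) := by
  have hΛ1 : 1 ≤ Λ := by omega
  have hdd := dd_ge
  obtain ⟨r1, r2, -⟩ := E.rescale G d δ 0 Λ hP.dg hP.hyp hΛ2 (by omega)
  have hcop : ∀ F : Subgroup G, Finite F → FP F := by
    intro F hF
    refine ⟨hF, ?_⟩
    have h3 : Nat.card F ≤ TN.n := Nat.le_of_dvd TN.pos (hdvd F hF)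
    have h4 : 0 < Nat.card F := Nat.card_pos
    refine Nat.Coprime.symm ((Nat.Prime.coprime_iff_not_dvd TP.prime).2 fun h5 => ?_)
    have h6 := Nat.le_of_dvd h4 h5
    have h7 := TP.lt
    omega
  refine ⟨r1, ?_, D_iso Λ hP.iso, ⟨1⟩, ?_, ?_, ?_, ?_, ?_⟩
  · intro x y z w
    have := r2 x y z w
    omega
  · intro x y hxy
    have hA1 : 1 ≤ A0t := by rw [A0t_eq]; omega
    have hd1 : Λ * (A0t - 1) + 1 ≤ d x y := by
      have h3 := D_lt d hΛ1 x y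
      have h4 : Λ * A0t ≤ Λ * Dsc Λ d x y := Nat.mul_le_mul_left _ hxy
      have h5 := mul_pred_add (Λ := Λ) hA1
      omega
    have h6 : A + nuB (Nat.factorial TN.n) * (Λ * (100 * dd) + δ) ≤ d x y := by
      rw [← nut_eq]
      have h7 := arith1 Λ nut dd A δ (2 ^ (101 * dd)) hΛ1 hΛA (by omega) (by omega)
      have h8 : Λ * (nut * (2 ^ (101 * dd) + 100 * dd + 2) + 1000 * dd - 1)
          ≤ Λ * (A0t - 1) := by
        refine Nat.mul_le_mul_left _ ?_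
        rw [A0t_eq]
        omega
      omega
    obtain ⟨F, c, hF, hc, hc1, hc2⟩ := h2 G G _ d δ A R0 _ hAT x y (Λ * (100 * dd)) h6
    refine ⟨F, c, hcop F hF, hc, ?_, ?_⟩
    · rcases hc1 with h | h
      · exact Or.inl h
      · exact Or.inr (D_lox hΛ1 h)
    · intro g g1 g2
      refine hc2 g ?_ ?_
      · exact (le_D d hΛ1 x (g • x)).trans (Nat.mul_le_mul_left _ g1)
      · exact (le_D d hΛ1 y (g • y)).trans (Nat.mul_le_mul_left _ g2)
  · intro g hg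
    have h3 : ¬ Lox d g := fun h => hg (D_lox hΛ1 h)
    obtain ⟨m, hm1, hm⟩ := hAT.tors g h3
    have h4 : IsOfFinOrder g := isOfFinOrder_iff_pow_eq_one.2 ⟨m, hm1, hm⟩
    have h5 : Finite (Subgroup.zpowers g) := h4.finite_zpowers
    have h6 : orderOf g ∣ TN.n := by
      rw [← Nat.card_zpowers]
      exact hdvd _ h5
    refine orderOf_dvd_iff_pow_eq_one.1 ?_
    exact (h6.trans (Nat.dvd_factorial TN.pos le_rfl)).trans (Dvd.intro _ rfl)
  · intro g hg x m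
    have h3 := hAT.stab g (D_lox' hΛ1 hg) x m
    have h4 := le_D d hΛ1 x (g ^ m • x)
    calc m ≤ R0 * d x (g ^ m • x) := h3
      _ ≤ R0 * (Λ * Dsc Λ d x (g ^ m • x)) := Nat.mul_le_mul_left _ h4
      _ = (R0 * Λ) * Dsc Λ d x (g ^ m • x) := by ring
      _ ≤ TP.R * Dsc Λ d x (g ^ m • x) := Nat.mul_le_mul_right _ hR
  · intro g hg x hx
    obtain ⟨k0, hk0⟩ := hN g (D_lox' hΛ1 hg) x
    refine ⟨k0, fun k hk => ?_⟩
    have h3 := hk0 k hk
    have h4 : d x (g • x) ≤ Λ * (100 * dd) :=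
      (le_D d hΛ1 x (g • x)).trans (Nat.mul_le_mul_left _ hx)
    have h5 : Λ * gp (Dsc Λ d) ((g ^ k)⁻¹ • x) (g ^ k • x) x ≤ Λ * (200 * dd + 3) := by
      unfold gp at h3 ⊢
      have e1 := D_lt d hΛ1 ((g ^ k)⁻¹ • x) x
      have e2 := D_lt d hΛ1 (g ^ k • x) x
      have e3 := le_D d hΛ1 ((g ^ k)⁻¹ • x) (g ^ k • x)
      rw [Nat.mul_sub, Nat.mul_add]
      have e4 : Λ * (200 * dd + 3) = 2 * (Λ * (100 * dd)) + 3 * Λ := by ring
      rw [e4]
      omega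
    have h6 : gp (Dsc Λ d) ((g ^ k)⁻¹ • x) (g ^ k • x) x ≤ 200 * dd + 3 :=
      Nat.le_of_mul_le_mul_left h5 (by omega)
    have h7 : 200 * dd + 3 ≤ 2 * A1t := by rw [A1t_eq]; omega
    omega
  · obtain ⟨s1, s2⟩ := h7 G
    refine ⟨?_, ?_, ?_, ?_, ?_, ?_, ?_⟩
    · intro F hF
      exact s1 F hF.1 (hdvd F hF.1)
    · intro F f _ hf
      exact hf.1
    · intro F f _ _ hf a ha h1
      by_contra hne
      refine hf.2 a ha hne ⟨0, TN.pos⟩ ?_
      rw [h1]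
      rfl
    · intro F f f' hF hf hf'
      exact s2 F f f' hF.1 hf hf'
    · intro F f f' s _ hf hs
      refine ⟨?_, ?_⟩
      · intro a ha b hb
        rw [hs a ha, hs b hb, hs _ (F.mul_mem ha hb), hf.1 a ha b hb]
        group
      · intro a ha hne i hi
        rw [hs a ha] at hi
        refine hf.2 a ha hne (s⁻¹ i) ?_
        have h3 : s (f a (s⁻¹ i)) = i := hi
        have h4 := congrArg (fun j => s⁻¹ j) h3
        simpa using h4
    · intro F F' f _ _ hle hf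
      exact ⟨fun a ha b hb => hf.1 a (hle ha) b (hle hb), fun a ha => hf.2 a (hle ha)⟩
    · intro F F' f g _ hcj hf
      refine ⟨?_, ?_⟩
      · intro a ha b hb
        have h3 : g⁻¹ * (a * b) * g = (g⁻¹ * a * g) * (g⁻¹ * b * g) := by group
        simp only
        rw [h3]
        exact hf.1 _ ((hcj a).1 ha) _ ((hcj b).1 hb)
      · intro a ha hne i
        refine hf.2 _ ((hcj a).1 ha) (fun h => hne ?_) i
        have h3 : a = g * (g⁻¹ * a * g) * g⁻¹ := by group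
        rw [h3, h]
        group

end TBase

open TBase

theorem TBase_proof (E : EngT) (h1 : Stmt_TQC) (h2 : Stmt_TSC) (h3 : Stmt_BMet)
    (h4 : Stmt_BStab) (h5 : Stmt_BAcyl) (h6 : Stmt_BNear) (h7 : Stmt_Semi) : Stmt_TBase := by
  intro G _ hG
  obtain ⟨d, δ, Bf, hP⟩ := h3 G hG
  obtain ⟨hS1, R0, hR0, hS2⟩ := h4 G d δ Bf hP
  obtain ⟨A, hA⟩ := h5 G d δ Bf hP (100 * δ)
  obtain ⟨C, hC⟩ := h6 G d δ Bf hP
  have hcard : ∀ F : Subgroup G, Finite F → Nat.card F ≤ Bf (2 * δ + 1) + 1 := by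
    intro F hF
    obtain ⟨x, hx⟩ := h1 G G d δ hP.dg hP.hyp hP.iso ⟨1⟩ F hF
    have := Fintype.ofFinite F
    have h8 := hP.prop x (2 * δ + 1) (Finset.univ.map
      (⟨Subtype.val, Subtype.val_injective⟩ : F ↪ G)) (by
      intro h hh
      rw [Finset.mem_map] at hh
      obtain ⟨f, -, rfl⟩ := hh
      exact hx f f.2)
    rw [Finset.card_map, Finset.card_univ, ← Nat.card_eq_fintype_card] at h8
    omega
  obtain ⟨n, hn⟩ : ∃ n, n = (Bf (2 * δ + 1) + 1).factorial := ⟨_, rfl⟩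
  have hn1 : 1 ≤ n := hn ▸ Nat.factorial_pos _
  have hdvd : ∀ F : Subgroup G, Finite F → Nat.card F ∣ n := by
    intro F hF
    rw [hn]
    exact Nat.dvd_factorial Nat.card_pos (hcard F hF)
  have hAT : AT (G := G) (fun F : Subgroup G => Finite F) d δ A R0 (Nat.factorial n) := by
    refine ⟨hP.dg, hP.hyp, hP.one_le, hP.iso, ⟨1⟩, ?_, fun F hF => hF, ?_, ?_, hS1, hS2⟩
    · intro F F' hF hle
      have hF' : Finite F := hF
      exact Finite.of_injective (Subgroup.inclusion hle) (Subgroup.inclusion_injective hle)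
    · intro F hF
      exact (Nat.le_of_dvd hn1 (hdvd F hF)).trans (Nat.self_le_factorial n)
    · intro x y hxy
      exact hA x y hxy
  obtain ⟨Λ, hΛ⟩ : ∃ Λ, Λ = 2 + 2 * δ + A + C := ⟨_, rfl⟩
  let tn : TN := ⟨n, hn1⟩
  obtain ⟨R, hR⟩ : ∃ R, R = max (@Rt tn) (R0 * Λ) := ⟨_, rfl⟩
  obtain ⟨p, hp1, hp2⟩ := Nat.exists_infinite_primes
    (max (n + 1) (max 3 (R * (@Lt tn) * 2 ^ ((@rt tn) + 7))))
  let T : TP :=
    { toTN := tn
      R := R
      p := p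
      le := by rw [hR]; exact le_max_left _ _
      prime := hp2
      lt := (le_max_left _ _).trans hp1
      odd := ((le_max_left _ _).trans (le_max_right _ _)).trans hp1
      big := ((le_max_right _ _).trans (le_max_right _ _)).trans hp1 }
  refine ⟨T, Dsc Λ d, @SemL T.toTN G _, ?_⟩
  exact @good_of T E h2 h7 G _ d δ Bf hP hdvd Λ A R0 C hAT (by omega) (by omega) (by omega)
    (by omega) (by
      change R0 * Λ ≤ R
      rw [hR]; exact le_max_right _ _) hC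

end Pool.Agent.BT
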