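import Pool.Agent.BT.Stmts

/-! BT, module TCh1: labels at a vertex exist and are injective homomorphisms.
Text: /team-store/MP_1e649a_BT.md, part C. -/

namespace Pool.Agent.BT

open Pool.Agent.BURN

namespace TCh1

variable [TP]

omit [TP] in
/-- elements of a finite subgroup are not loxodromic -/
theorem not_lox {G X : Type} [Group G] [MulAction G X] (d : X → X → ℕ) [Nonempty X]
    (F : Subgroup G) (hF : Finite F) (f : G) (hf : f ∈ F) : ¬ Lox d f := by
  intro hl
  obtain ⟨x⟩ := ‹Nonempty X›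
  have hfin : (Set.range (fun g : F => d x ((g : G) • x))).Finite := Set.finite_range _
  obtain ⟨B, hB⟩ := hfin.bddAbove
  obtain ⟨m, hm⟩ := hl x B
  have h1 : d x (f ^ m • x) ≤ B := hB ⟨⟨f ^ m, F.pow_mem hf m⟩, rfl⟩
  omega

omit [TP] in
/-- the horoball of a vertex is unique -/
theorem hor_unique {V I : Type} {i j : I} {u : CV V I} (hi : Hor i u) (hj : Hor j u) : i = j := by
  rcases hi with ⟨y, s, hi⟩ | hi <;> rcases hj with ⟨y', s', hj⟩ | hj <;> rw [hi] at hj
  · injection hj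
  · cases hj
  · cases hj
  · injection hj

/-- lifts -/
theorem lift (S : TSys) (h3 : Stmt_TKRF) (u : S.Gm) (Fb : Subgroup S.Gb) (l : ℕ)
    (hG : GdAt S l u Fb) (b : S.Gb) (hb : b ∈ Fb) :
    ∃ g : S.G, S.π g = b ∧ S.dg u (g • u) ≤ l := by
  obtain ⟨g0, hg0⟩ := S.psurj b
  obtain ⟨k, hk, hk2⟩ := (h3 S).2.2.2.2.2.1 u (g0 • u)
  have hk1 : S.π k = 1 := (S.pker k).2 hk
  refine ⟨k * g0, by rw [map_mul, hk1, hg0, one_mul], ?_⟩
  rw [mul_smul, hk2, ← S.qsmul, hg0]
  exact hG b hb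

/-- displacement of a product -/
theorem disp_mul (S : TSys) (h3 : Stmt_TKRF) (u : S.Gm) (g h : S.G) :
    S.dg u ((g * h) • u) ≤ S.dg u (g • u) + S.dg u (h • u) := by
  have hRF := (h3 S).1
  have h1 := hRF.dg.tri u (g • u) ((g * h) • u)
  rw [mul_smul] at h1 ⊢
  rw [hRF.iso g u (h • u)] at h1
  exact h1

theorem disp_one (S : TSys) (h3 : Stmt_TKRF) (u : S.Gm) : S.dg u ((1 : S.G) • u) = 0 := by
  rw [one_smul]
  exact ((h3 S).1.dg.eq_zero u u).2 rfl

theorem disp_inv (S : TSys) (h3 : Stmt_TKRF) (u : S.Gm) (g : S.G) :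
    S.dg u (g⁻¹ • u) = S.dg u (g • u) := by
  have hRF := (h3 S).1
  have h1 := hRF.iso g u (g⁻¹ • u)
  rw [smul_inv_smul] at h1
  rw [← h1, hRF.dg.symm]

/-- low vertices: lifts are unique -/
theorem uniq (S : TSys) (h4 : Stmt_TKStab) (u : S.Gm) (hu : 2 * ht rt u.1 ≤ 3 * dd + 1)
    (g g' : S.G) (hg : S.π g = S.π g') (h : S.dg u (g • u) + S.dg u (g' • u) ≤ 9 * dd + 3) :
    g = g' := by
  have hdd := dd_ge
  refine (h4 S).2.2.2.2.2.2.2.2.2 u g g' (by omega) hg (by omega)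

/-- the subgroup of the lifts at a low vertex -/
theorem lowSub (S : TSys) (h3 : Stmt_TKRF) (h4 : Stmt_TKStab) (u : S.Gm) (Fb : Subgroup S.Gb)
    (hFb : FP Fb) (hG : GdAt S (3 * dd + 1) u Fb) (hu : 2 * ht rt u.1 ≤ 3 * dd + 1) :
    ∃ A : Subgroup S.G, FP A ∧ ∀ g, g ∈ A ↔ (S.π g ∈ Fb ∧ S.dg u (g • u) ≤ 3 * dd + 1) := by
  have hdd := dd_ge
  let A : Subgroup S.G :=
    { carrier := {g | S.π g ∈ Fb ∧ S.dg u (g • u) ≤ 3 * dd + 1}
      one_mem' := by
        refine ⟨?_, ?_⟩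
        · rw [map_one]; exact Fb.one_mem
        · rw [disp_one S h3 u]; exact Nat.zero_le _
      mul_mem' := by
        rintro a b ⟨ha1, ha2⟩ ⟨hb1, hb2⟩
        have hab : S.π (a * b) ∈ Fb := by rw [map_mul]; exact Fb.mul_mem ha1 hb1
        refine ⟨hab, ?_⟩
        obtain ⟨g, hg1, hg2⟩ := lift S h3 u Fb _ hG _ hab
        have h5 := disp_mul S h3 u a b
        have h6 : g = a * b := uniq S h4 u hu g (a * b) hg1 (by omega)
        rw [← h6]; exact hg2
      inv_mem' := by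
        rintro a ⟨ha1, ha2⟩
        refine ⟨?_, ?_⟩
        · rw [map_inv]; exact Fb.inv_mem ha1
        · rw [disp_inv S h3 u]; exact ha2 }
  have hmem : ∀ g, g ∈ A ↔ (S.π g ∈ Fb ∧ S.dg u (g • u) ≤ 3 * dd + 1) := fun g => Iff.rfl
  refine ⟨A, ?_, hmem⟩
  let φ : A →* Fb :=
    { toFun := fun g => ⟨S.π g, ((hmem g).1 g.2).1⟩
      map_one' := by ext; simp
      map_mul' := by intro a b; ext; simp }
  have hφ : Function.Injective φ := by
    intro a b hab
    have h1 : S.π a = S.π b := congrArg Subtype.val hab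
    apply Subtype.ext
    have ha := ((hmem a).1 a.2).2
    have hb := ((hmem b).1 b.2).2
    exact uniq S h4 u hu a b h1 (by omega)
  have hfin : Finite Fb := hFb.1
  refine ⟨Finite.of_injective φ hφ, ?_⟩
  exact Nat.Coprime.coprime_dvd_left (Subgroup.card_dvd_of_injective φ hφ) hFb.2

/-- high vertices: lifts lie in a killed group -/
theorem high (S : TSys) (h3 : Stmt_TKRF) (h4 : Stmt_TKStab) (u : S.Gm)
    (hu : 3 * dd + 1 < 2 * ht rt u.1) :
    ∃ i : S.I, ∀ g : S.G, S.dg u (g • u) ≤ 3 * dd + 1 → g ∈ S.E i := by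
  obtain ⟨i, hi, -⟩ := (h4 S).2.1 u 1 (by rw [disp_one S h3 u]; omega)
  refine ⟨i, fun g hg => ?_⟩
  obtain ⟨j, hj, hgj⟩ := (h4 S).2.1 u g (by omega)
  rw [hor_unique hi hj]
  exact hgj

/-- labels of one -/
theorem lab_one (S : TSys) (H : Subgroup S.G) (f : S.G → SP) (hH : PK S.d H) (hf : S.Lb H f) :
    f 1 = 1 := by
  have h := S.lab.hom H f hH hf 1 H.one_mem 1 H.one_mem
  rw [mul_one] at h
  exact (left_eq_mul.mp h)

/-- labels on the rotations -/
theorem lab_rot (S : TSys) (h1 : Stmt_TKS) (h2 : Stmt_TRotS) (i : S.I) (H : Subgroup S.G)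
    (f : S.G → SP) (hH : PK S.d H) (hf : S.Lb H f) (r : S.G) (hrH : r ∈ H)
    (hr : r ∈ RotT S.Lb (S.E i)) (hrE : r ∈ S.E i) : f r = 1 := by
  have hR := h2 S.G S.X S.d S.Lb S.good S.lab (S.E i) (S.kil i)
  by_cases hr1 : r = 1
  · rw [hr1]; exact lab_one S H f hH hf
  · have hlox : Lox S.d r := (hR.2.2.2.1 r hr hr1).1
    have hne : Nonempty S.X := S.good.nonempty
    rcases hH with hH | hH
    · exact absurd hlox (not_lox S.d H hH.1 r hrH)
    · have hE : H = S.E i := (h1 S.G S.X S.d S.Lb S.good).2.1 H (S.E i) hH (S.kil i) r hlox hrH hrE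
      rw [hE] at hf
      exact hR.2.2.1 f hf r hr

end TCh1

open TCh1 in
theorem TCh1_proof [TP] (_E : EngT) (h1 : Stmt_TKS) (h2 : Stmt_TRotS) (h3 : Stmt_TKRF)
    (h4 : Stmt_TKStab) : Stmt_TCh1 := by
  intro S u Fb hFb hG
  have hdd := dd_ge
  have hlift := lift S h3 u Fb _ hG
  choose! L hL1 hL2 using hlift
  by_cases hu : 2 * ht rt u.1 ≤ 3 * dd + 1
  · -- low vertex
    obtain ⟨A, hA, hmem⟩ := lowSub S h3 h4 u Fb hFb hG hu
    refine ⟨?_, ?_⟩
    · obtain ⟨f, hf⟩ := S.lab.ex A (Or.inl hA)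
      refine ⟨fun b => f (L b), A, f, Or.inl hA, hf, fun g hg1 hg2 => ?_⟩
      refine ⟨(hmem g).2 ⟨hg1, hg2⟩, ?_⟩
      have h5 := hL2 _ hg1
      have : L (S.π g) = g := uniq S h4 u hu _ _ (hL1 _ hg1) (by omega)
      show f (L (S.π g)) = f g
      rw [this]
    · rintro fb ⟨H, f, hH, hf, hfb⟩
      have hAH : A ≤ H := fun g hg => (hfb g ((hmem g).1 hg).1 ((hmem g).1 hg).2).1
      have hLfb : ∀ b ∈ Fb, L b ∈ H ∧ fb b = f (L b) := by
        intro b hb
        have := hfb (L b) (by rw [hL1 b hb]; exact hb) (hL2 b hb)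
        rw [hL1 b hb] at this
        exact this
      refine ⟨?_, ?_⟩
      · intro a ha b hb
        have hab := Fb.mul_mem ha hb
        rw [(hLfb a ha).2, (hLfb b hb).2, (hLfb _ hab).2,
          ← S.lab.hom H f hH hf _ (hLfb a ha).1 _ (hLfb b hb).1]
        congr 1
        have h5 := hL2 a ha
        have h6 := hL2 b hb
        have h7 := hL2 _ hab
        have h8 := disp_mul S h3 u (L a) (L b)
        refine uniq S h4 u hu _ _ ?_ (by omega)
        rw [map_mul, hL1 a ha, hL1 b hb, hL1 _ hab]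
      · intro a ha hfa
        have hLA : L a ∈ A := (hmem _).2 ⟨by rw [hL1 a ha]; exact ha, hL2 a ha⟩
        have hfA : S.Lb A f := S.lab.res H A f hH hA hAH hf
        have : L a = 1 := S.lab.inj A f (Or.inl hA) hA hfA (L a) hLA (by
          rw [← (hLfb a ha).2]; exact hfa)
        rw [← hL1 a ha, this, map_one]
  · -- high vertex
    obtain ⟨i, hi⟩ := high S h3 h4 u (by omega)
    have hR := h2 S.G S.X S.d S.Lb S.good S.lab (S.E i) (S.kil i)
    have hK : ∀ g ∈ S.E i, (S.π g = 1 ↔ g ∈ RotT S.Lb (S.E i)) := by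
      intro g hg
      rw [S.pker]
      exact (h4 S).2.2.2.1 i g hg
    refine ⟨?_, ?_⟩
    · have hPK : PK S.d (S.E i) := Or.inr (S.kil i)
      obtain ⟨f, hf⟩ := S.lab.ex (S.E i) hPK
      refine ⟨fun b => f (L b), S.E i, f, hPK, hf, fun g hg1 hg2 => ?_⟩
      have hgE := hi g hg2
      refine ⟨hgE, ?_⟩
      have hLE := hi _ (hL2 _ hg1)
      have hrE : L (S.π g) * g⁻¹ ∈ S.E i := (S.E i).mul_mem hLE ((S.E i).inv_mem hgE)
      have hr : L (S.π g) * g⁻¹ ∈ RotT S.Lb (S.E i) := by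
        rw [← hK _ hrE, map_mul, map_inv, hL1 _ hg1, mul_inv_cancel]
      have h5 := S.lab.hom (S.E i) f hPK hf _ hrE g hgE
      rw [inv_mul_cancel_right, hR.2.2.1 f hf _ hr, one_mul] at h5
      exact h5
    · rintro fb ⟨H, f, hH, hf, hfb⟩
      have hLfb : ∀ b ∈ Fb, L b ∈ H ∧ fb b = f (L b) := by
        intro b hb
        have := hfb (L b) (by rw [hL1 b hb]; exact hb) (hL2 b hb)
        rw [hL1 b hb] at this
        exact this
      refine ⟨?_, ?_⟩
      · intro a ha b hb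
        have hab := Fb.mul_mem ha hb
        have ea := hi _ (hL2 a ha)
        have eb := hi _ (hL2 b hb)
        have eab := hi _ (hL2 _ hab)
        have ha' := (hLfb a ha).1
        have hb' := (hLfb b hb).1
        have hab' := (hLfb _ hab).1
        have hrE : L a * L b * (L (a * b))⁻¹ ∈ S.E i :=
          (S.E i).mul_mem ((S.E i).mul_mem ea eb) ((S.E i).inv_mem eab)
        have hrH : L a * L b * (L (a * b))⁻¹ ∈ H :=
          H.mul_mem (H.mul_mem ha' hb') (H.inv_mem hab')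
        have hr : L a * L b * (L (a * b))⁻¹ ∈ RotT S.Lb (S.E i) := by
          rw [← hK _ hrE, map_mul, map_mul, map_inv, hL1 a ha, hL1 b hb, hL1 _ hab,
            mul_inv_cancel]
        have hf1 := lab_rot S h1 h2 i H f hH hf _ hrH hr hrE
        have h5 := S.lab.hom H f hH hf _ hrH _ hab'
        rw [inv_mul_cancel_right, hf1, one_mul, S.lab.hom H f hH hf _ ha' _ hb'] at h5
        rw [(hLfb a ha).2, (hLfb b hb).2, (hLfb _ hab).2]
        exact h5.symm
      · intro a ha hfa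
        have ea := hi _ (hL2 a ha)
        have ha' := (hLfb a ha).1
        have hf1 : f (L a) = 1 := by rw [← (hLfb a ha).2]; exact hfa
        rcases (h1 S.G S.X S.d S.Lb S.good).2.2.1 H (S.E i) hH (Or.inr (S.kil i)) with h5 | h5
        · -- same killed group
          obtain ⟨-, hHE⟩ := h5
          rw [hHE] at hf hH
          have hfin : Finite Fb := hFb.1
          have hcard : a ^ Nat.card Fb = 1 := by
            have h6 : ((⟨a, ha⟩ : Fb) ^ Nat.card Fb) = 1 := pow_card_eq_one'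
            exact congrArg Subtype.val h6
          have hpow : L a ^ Nat.card Fb ∈ RotT S.Lb (S.E i) := by
            rw [← hK _ ((S.E i).pow_mem ea _), map_pow, hL1 a ha, hcard]
          have hall : ∀ f', S.Lb (S.E i) f' → f' (L a) = 1 := by
            intro f' hf'
            obtain ⟨s, hs⟩ := S.lab.orb (S.E i) f f' hH hf hf'
            rw [hs _ ea, hf1, mul_one, mul_inv_cancel]
          have h6 := hR.2.2.2.2.2 (L a) ea (Nat.card Fb) hFb.2 hpow hall
          rw [← hK _ ea, hL1 a ha] at h6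
          exact h6
        · have hmem : L a ∈ H ⊓ S.E i := ⟨ha', ea⟩
          have hf2 : S.Lb (H ⊓ S.E i) f := S.lab.res H _ f hH h5 inf_le_left hf
          have h6 : L a = 1 := S.lab.inj _ f (Or.inl h5) h5 hf2 _ hmem hf1
          rw [← hL1 a ha, h6, map_one]

end Pool.Agent.BT
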