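import Pool.Agent.BT.Stmts

/-! TCh2: uniqueness of the labels at a vertex. -/

namespace Pool.Agent.BT

open Pool.Agent.BURN

namespace TCh2

variable [TP]

/-- every element of Fb is the image of an element moving u by at most 3 dd + 1 -/
theorem lift_ex (h2 : Stmt_TKRF) (S : TSys) (u : S.Gm) (Fb : Subgroup S.Gb)
    (hG : GdAt S (3 * dd + 1) u Fb) (a : S.Gb) (ha : a ∈ Fb) :
    ∃ g : S.G, S.π g = a ∧ S.dg u (g • u) ≤ 3 * dd + 1 := by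
  obtain ⟨g, rfl⟩ := S.psurj a
  obtain ⟨-, -, -, -, -, hk, -⟩ := h2 S
  obtain ⟨k, hkK, hke⟩ := hk u (g • u)
  refine ⟨k * g, ?_, ?_⟩
  · rw [map_mul, (S.pker k).2 hkK, one_mul]
  · rw [mul_smul, hke, ← S.qsmul]
    exact hG _ ha

end TCh2

theorem TCh2_proof [TP] (E : EngT) (h1 : Stmt_TKS) (h2 : Stmt_TKRF) (h3 : Stmt_TKStab) :
    Stmt_TCh2 := by
  intro S u Fb fb fb' _ hG hL hL'
  obtain ⟨H, f, hH, hf, hHf⟩ := hL
  obtain ⟨H', f', hH', hf', hHf'⟩ := hL'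
  rcases (h1 S.G S.X S.d S.Lb S.good).2.2.1 H H' hH hH' with ⟨_, hEq⟩ | hFP
  · subst hEq
    obtain ⟨s, hs⟩ := S.lab.orb H f f' hH hf hf'
    refine ⟨s, fun a ha => ?_⟩
    obtain ⟨g, rfl, hg⟩ := TCh2.lift_ex h2 S u Fb hG a ha
    rw [(hHf g ha hg).2, (hHf' g ha hg).2]
    exact hs g (hHf g ha hg).1
  · have hP : PK (G := S.G) S.d (H ⊓ H') := Or.inl hFP
    have e1 : S.Lb (H ⊓ H') f := S.lab.res H (H ⊓ H') f hH hFP inf_le_left hf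
    have e2 : S.Lb (H ⊓ H') f' := S.lab.res H' (H ⊓ H') f' hH' hFP inf_le_right hf'
    obtain ⟨s, hs⟩ := S.lab.orb (H ⊓ H') f f' hP e1 e2
    refine ⟨s, fun a ha => ?_⟩
    obtain ⟨g, rfl, hg⟩ := TCh2.lift_ex h2 S u Fb hG a ha
    rw [(hHf g ha hg).2, (hHf' g ha hg).2]
    exact hs g ⟨(hHf g ha hg).1, (hHf' g ha hg).1⟩

end Pool.Agent.BT
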