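import Pool.Agent.BT.Stmts

/-! BT module TCh3: neighbouring vertices have a common label. -/

namespace Pool.Agent.BT

open Pool.Agent.BURN

namespace TCh3X

variable [TP]

omit [TP] in
theorem hor_unique {V I : Type} {i j : I} {u : CV V I} (hi : Hor i u) (hj : Hor j u) :
    i = j := by
  rcases hi with ⟨y, s, rfl⟩ | rfl
  · rcases hj with ⟨y', s', h⟩ | h
    · injection h
    · cases h
  · rcases hj with ⟨y', s', h⟩ | h
    · cases h
    · injection h

/-- lifts with small displacement exist -/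
theorem lift (hKRF : Stmt_TKRF) (S : TSys) (u : S.Gm) (Fb : Subgroup S.Gb)
    (hG : GdAt S (3 * dd + 1) u Fb) (g : S.G) (hg : S.π g ∈ Fb) :
    ∃ g' : S.G, S.π g' = S.π g ∧ S.dg u (g' • u) ≤ 3 * dd + 1 := by
  obtain ⟨-, -, -, -, -, h6, -⟩ := hKRF S
  obtain ⟨k, hk, h⟩ := h6 u (g • u)
  refine ⟨k * g, ?_, ?_⟩
  · rw [map_mul, (S.pker k).2 hk, one_mul]
  · rw [mul_smul, h, ← S.qsmul]
    exact hG _ hg

theorem lift' (hKRF : Stmt_TKRF) (S : TSys) (u : S.Gm) (Fb : Subgroup S.Gb)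
    (hG : GdAt S (3 * dd + 1) u Fb) (a : S.Gb) (ha : a ∈ Fb) :
    ∃ g' : S.G, S.π g' = a ∧ S.dg u (g' • u) ≤ 3 * dd + 1 := by
  obtain ⟨g, rfl⟩ := S.psurj a
  exact lift hKRF S u Fb hG g ha

/-- displacement at a neighbour -/
theorem disp (hKRF : Stmt_TKRF) (S : TSys) (u u' : S.Gm) (h : S.dg u u' ≤ 1) (g : S.G) :
    S.dg u' (g • u') ≤ S.dg u (g • u) + 2 := by
  obtain ⟨hRF, -⟩ := hKRF S
  have h1 := hRF.dg.tri u' u (g • u')
  have h2 := hRF.dg.tri u (g • u) (g • u')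
  have h3 := hRF.iso g u u'
  have h4 := hRF.dg.symm u' u
  omega

/-- low vertices: the lift is unique -/
theorem low_unique (hKS : Stmt_TKStab) (S : TSys) (u : S.Gm)
    (hu : 2 * ht rt u.1 ≤ 3 * dd + 1) (hdd : 1 ≤ dd) (g g' : S.G) (h : S.π g = S.π g')
    (hg : S.dg u (g • u) + S.dg u (g' • u) ≤ 204 * dd) : g = g' := by
  obtain ⟨-, -, -, -, -, -, -, -, -, h10⟩ := hKS S
  exact h10 u g g' (by omega) h hg

/-- high vertices: the elements of small displacement lie in the killed group -/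
theorem high (hKS : Stmt_TKStab) (S : TSys) (u : S.Gm) (hu : 3 * dd + 1 < 2 * ht rt u.1)
    (g : S.G) (hg : S.dg u (g • u) ≤ 3 * dd + 1) : ∃ i, Hor i u.1 ∧ g ∈ S.E i := by
  obtain ⟨-, h2, -⟩ := hKS S
  exact h2 u g (by omega)

/-- a label read off from a killed group -/
theorem killed_label (h1 : Stmt_TRotS) (hKS : Stmt_TKStab) (S : TSys) (i : S.I) :
    ∃ (f : S.G → SP) (fb : S.Gb → SP), S.Lb (S.E i) f ∧ ∀ g ∈ S.E i, fb (S.π g) = f g := by
  classical
  have hP : PK S.d (S.E i) := Or.inr (S.kil i)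
  obtain ⟨f, hf⟩ := S.lab.ex (S.E i) hP
  have hhom := S.lab.hom (S.E i) f hP hf
  obtain ⟨-, -, -, h4, -⟩ := hKS S
  have hrot := (h1 S.G S.X S.d S.Lb S.good S.lab (S.E i) (S.kil i)).2.2.1 f hf
  refine ⟨f, fun a => if h : ∃ g ∈ S.E i, S.π g = a then f (Classical.choose h) else 1, hf, ?_⟩
  intro g hg
  have hex : ∃ g' ∈ S.E i, S.π g' = S.π g := ⟨g, hg, rfl⟩
  have hb : (fun a => if h : ∃ g ∈ S.E i, S.π g = a then f (Classical.choose h) else 1)
      (S.π g) = f (Classical.choose hex) := dif_pos hex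
  rw [hb]
  obtain ⟨h5, h6⟩ := Classical.choose_spec hex
  set g' := Classical.choose hex with hg'
  have h7 : g' * g⁻¹ ∈ S.E i := (S.E i).mul_mem h5 ((S.E i).inv_mem hg)
  have h8 : g' * g⁻¹ ∈ S.K := by
    have h9 : S.π (g' * g⁻¹) = 1 := by
      rw [map_mul, map_inv, h6, mul_inv_cancel]
    exact (S.pker _).1 h9
  have h9 := hrot _ ((h4 i _ h7).1 h8)
  have h10 : g' = (g' * g⁻¹) * g := by group
  rw [h10, hhom _ h7 _ hg, h9, one_mul]

end TCh3X

open TCh3X in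
theorem TCh3_proof [TP] (E : EngT) (h1 : Stmt_TKS) (h2 : Stmt_TRotS) (h3 : Stmt_TKCD)
    (h4 : Stmt_TKRF) (h5 : Stmt_TKStab) : Stmt_TCh3 := by
  classical
  intro S u u' Fb hFb hu hu' hd
  have hdd : 1 ≤ dd := by
    have := dd_ge
    omega
  obtain ⟨hRF, -⟩ := h4 S
  have hdg : IsDG S.dg := hRF.dg
  have hiso : IsIso S.G S.dg := hRF.iso
  have hd' : S.dg u' u ≤ 1 := by rw [hdg.symm]; exact hd
  obtain ⟨hCD, -⟩ := h3 S
  have hGD := E.gamDG S.X S.I S.D S.Y rt hCD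
  -- the high case
  have hhigh : ∀ v v' : S.Gm, GdAt S (3 * dd + 1) v Fb → GdAt S (3 * dd + 1) v' Fb →
      S.dg v v' ≤ 1 → 3 * dd + 1 < 2 * ht rt v.1 →
      ∃ fb, LblAt S v Fb fb ∧ LblAt S v' Fb fb := by
    intro v v' hv hv' hvv hh
    -- the horoball
    obtain ⟨g0, hg0, hg0'⟩ := lift h4 S v Fb hv 1 (by rw [map_one]; exact Fb.one_mem)
    obtain ⟨i, hi, -⟩ := high h5 S v hh g0 hg0'
    have hA : ∀ g : S.G, S.π g ∈ Fb → S.dg v (g • v) ≤ 3 * dd + 1 → g ∈ S.E i := by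
      intro g _ hg
      obtain ⟨j, hj, hgj⟩ := high h5 S v hh g hg
      rw [hor_unique hi hj]
      exact hgj
    have hi' : Hor i v'.1 := by
      by_contra hcon
      have h6 : ht rt v.1 + ht rt v'.1 ≤ S.dg v v' := hGD.2.2.2.1 i v v' hi hcon
      omega
    have hA' : ∀ g : S.G, S.π g ∈ Fb → S.dg v' (g • v') ≤ 3 * dd + 1 → g ∈ S.E i := by
      intro g hgF hg
      by_cases hl : 2 * ht rt v'.1 ≤ 3 * dd + 1
      · obtain ⟨g1, hg1, hg1'⟩ := lift h4 S v Fb hv g hgF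
        have h6 := disp h4 S v v' hvv g1
        have h7 : g1 = g := low_unique h5 S v' hl hdd g1 g hg1 (by omega)
        rw [← h7]
        exact hA g1 (by rw [hg1]; exact hgF) hg1'
      · obtain ⟨j, hj, hgj⟩ := high h5 S v' (by omega) g hg
        rw [hor_unique hi' hj]
        exact hgj
    obtain ⟨f, fb, hf, hfb⟩ := killed_label h2 h5 S i
    exact ⟨fb, ⟨S.E i, f, Or.inr (S.kil i), hf, fun g h6 h7 => ⟨hA g h6 h7, hfb g (hA g h6 h7)⟩⟩,
      ⟨S.E i, f, Or.inr (S.kil i), hf, fun g h6 h7 => ⟨hA' g h6 h7, hfb g (hA' g h6 h7)⟩⟩⟩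
  by_cases hl : 2 * ht rt u.1 ≤ 3 * dd + 1
  swap
  · exact hhigh u u' hu hu' hd (by omega)
  by_cases hl' : 2 * ht rt u'.1 ≤ 3 * dd + 1
  swap
  · obtain ⟨fb, h6, h7⟩ := hhigh u' u hu' hu hd' (by omega)
    exact ⟨fb, h7, h6⟩
  -- both are low
  have hA : ∀ g : S.G, S.π g ∈ Fb → (S.dg u (g • u) ≤ 3 * dd + 1 ↔
      S.dg u' (g • u') ≤ 3 * dd + 1) := by
    intro g hgF
    constructor
    · intro hg
      obtain ⟨g1, hg1, hg1'⟩ := lift h4 S u' Fb hu' g hgF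
      have h6 := disp h4 S u' u hd' g1
      have h7 : g1 = g := low_unique h5 S u hl hdd g1 g hg1 (by omega)
      rw [← h7]
      exact hg1'
    · intro hg
      obtain ⟨g1, hg1, hg1'⟩ := lift h4 S u Fb hu g hgF
      have h6 := disp h4 S u u' hd g1
      have h7 : g1 = g := low_unique h5 S u' hl' hdd g1 g hg1 (by omega)
      rw [← h7]
      exact hg1'
  let H : Subgroup S.G :=
    { carrier := {g | S.π g ∈ Fb ∧ S.dg u (g • u) ≤ 3 * dd + 1}
      one_mem' := by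
        refine ⟨by rw [map_one]; exact Fb.one_mem, ?_⟩
        rw [one_smul, (hdg.eq_zero u u).2 rfl]
        omega
      mul_mem' := by
        rintro a b ⟨ha, ha'⟩ ⟨hb, hb'⟩
        have hab : S.π (a * b) ∈ Fb := by rw [map_mul]; exact Fb.mul_mem ha hb
        refine ⟨hab, ?_⟩
        obtain ⟨g1, hg1, hg1'⟩ := lift h4 S u Fb hu (a * b) hab
        have h6 := hdg.tri u (a • u) ((a * b) • u)
        have h7 : S.dg (a • u) ((a * b) • u) = S.dg u (b • u) := by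
          rw [mul_smul]
          exact hiso a u (b • u)
        have h8 : g1 = a * b := low_unique h5 S u hl hdd g1 (a * b) hg1 (by omega)
        rw [← h8]
        exact hg1'
      inv_mem' := by
        rintro a ⟨ha, ha'⟩
        refine ⟨by rw [map_inv]; exact Fb.inv_mem ha, ?_⟩
        have h6 := hiso a⁻¹ (a • u) u
        rw [inv_smul_smul] at h6
        rw [h6, hdg.symm]
        exact ha' }
  have hmem : ∀ g, g ∈ H ↔ S.π g ∈ Fb ∧ S.dg u (g • u) ≤ 3 * dd + 1 := fun g => Iff.rfl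
  have huniq : ∀ g ∈ H, ∀ g' ∈ H, S.π g = S.π g' → g = g' := by
    intro g hg g' hg' h
    have h6 := ((hmem g).1 hg).2
    have h7 := ((hmem g').1 hg').2
    exact low_unique h5 S u hl hdd g g' h (by omega)
  let e : H → Fb := fun g => ⟨S.π g.1, ((hmem g.1).1 g.2).1⟩
  have he : Function.Bijective e := by
    constructor
    · intro a b hab
      apply Subtype.ext
      exact huniq a.1 a.2 b.1 b.2 (congrArg Subtype.val hab)
    · rintro ⟨b, hb⟩
      obtain ⟨g, hg, hg'⟩ := lift' h4 S u Fb hu b hb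
      exact ⟨⟨g, (hmem g).2 ⟨by rw [hg]; exact hb, hg'⟩⟩, Subtype.ext hg⟩
  have hFH : FP H := by
    obtain ⟨hfin, hcop⟩ := hFb
    refine ⟨Finite.of_injective e he.1, ?_⟩
    rw [Nat.card_congr (Equiv.ofBijective e he)]
    exact hcop
  have hP : PK S.d H := Or.inl hFH
  obtain ⟨f, hf⟩ := S.lab.ex H hP
  have hkey : ∃ fb : S.Gb → SP, ∀ g ∈ H, fb (S.π g) = f g := by
    refine ⟨fun a => if h : ∃ g ∈ H, S.π g = a then f (Classical.choose h) else 1, ?_⟩
    intro g hg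
    have hex : ∃ g' ∈ H, S.π g' = S.π g := ⟨g, hg, rfl⟩
    have hb : (fun a => if h : ∃ g ∈ H, S.π g = a then f (Classical.choose h) else 1)
        (S.π g) = f (Classical.choose hex) := dif_pos hex
    rw [hb]
    obtain ⟨h6, h7⟩ := Classical.choose_spec hex
    rw [huniq _ h6 _ hg h7]
  obtain ⟨fb, hfb⟩ := hkey
  refine ⟨fb, ⟨H, f, hP, hf, fun g h6 h7 => ?_⟩, ⟨H, f, hP, hf, fun g h6 h7 => ?_⟩⟩
  · have h8 : g ∈ H := (hmem g).2 ⟨h6, h7⟩
    exact ⟨h8, hfb g h8⟩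
  · have h8 : g ∈ H := (hmem g).2 ⟨h6, (hA g h6).2 h7⟩
    exact ⟨h8, hfb g h8⟩

end Pool.Agent.BT
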