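import Pool.Agent.BT.Stmts
import Pool.Agent.BURN.GamAct

/-! Module TCh4: labels of the quotient, conjugation. -/

namespace Pool.Agent.BT

open Pool.Agent.BURN

namespace TCh4

variable [TP]

theorem D_iso (S : TSys) (g : S.G) (x y : S.X) :
    Dsc Lt S.d (g • x) (g • y) = Dsc Lt S.d x y := by
  unfold Dsc
  rw [S.good.iso]

theorem cadj (S : TSys) (g : S.G) (u w : CV S.X S.I) (h : CAdj (Dsc Lt S.d) rt u w) :
    CAdj (Dsc Lt S.d) rt (g • u) (g • w) := by
  cases u with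
  | b x =>
    cases w with
    | b x' => show Dsc Lt S.d (g • x) (g • x') = 1; rw [D_iso]; exact h
    | c i y s => exact ⟨h.1, congrArg (g • ·) h.2⟩
    | a i => exact h
  | c i y s =>
    cases w with
    | b x' => exact ⟨h.1, congrArg (g • ·) h.2⟩
    | c j y' s' =>
      obtain ⟨e, h2⟩ := h
      refine ⟨congrArg (g • ·) e, ?_⟩
      rcases h2 with ⟨e2, h3⟩ | ⟨e2, h3⟩
      · exact Or.inl ⟨congrArg (g • ·) e2, h3⟩
      · right
        rw [D_iso]
        exact ⟨e2, h3⟩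
    | a j => exact ⟨congrArg (g • ·) h.1, h.2⟩
  | a i =>
    cases w with
    | b x' => exact h
    | c j y' s' => exact ⟨congrArg (g • ·) h.1, h.2⟩
    | a j => exact h

theorem dg_iso (S : TSys) (g : S.G) (u w : S.Gm) : S.dg (g • u) (g • w) = S.dg u w := by
  have hadj' : ∀ (g : S.G) (u w : S.Gm),
      (SimpleGraph.fromRel (fun u w : S.Gm => CAdj (Dsc Lt S.d) rt u.1 w.1)).Adj u w →
      (SimpleGraph.fromRel (fun u w : S.Gm => CAdj (Dsc Lt S.d) rt u.1 w.1)).Adj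
        (g • u) (g • w) := by
    intro g u w h
    rw [SimpleGraph.fromRel_adj] at h ⊢
    refine ⟨fun e => h.1 (MulAction.injective g e), ?_⟩
    rw [S.act, S.act]
    exact h.2.imp (cadj S g _ _) (cadj S g _ _)
  exact GamActAux.dist_eq_of_equiv _ (g • ·) (g⁻¹ • ·) (hadj' g) (hadj' g⁻¹)
    (fun u => inv_smul_smul g u) u w

/-- the conjugate subgroup -/
def cjg {G : Type} [Group G] (g : G) (H : Subgroup G) : Subgroup G :=
  H.comap (MulAut.conj g⁻¹).toMonoidHom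

omit [TP] in
theorem mem_cjg {G : Type} [Group G] (g : G) (H : Subgroup G) (x : G) :
    x ∈ cjg g H ↔ g⁻¹ * x * g ∈ H := by
  unfold cjg
  rw [Subgroup.mem_comap]
  simp

omit [TP] in
theorem isCj_cjg {G : Type} [Group G] (g : G) (H : Subgroup G) : IsCj g H (cjg g H) :=
  fun x => mem_cjg g H x

/-- the conjugate subgroup is equivalent to the subgroup -/
def cjEquiv {G : Type} [Group G] (g : G) (H : Subgroup G) : H ≃ cjg g H where
  toFun x := ⟨g * x.1 * g⁻¹, by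
    rw [mem_cjg]
    have : g⁻¹ * (g * x.1 * g⁻¹) * g = x.1 := by group
    rw [this]
    exact x.2⟩
  invFun x := ⟨g⁻¹ * x.1 * g, (mem_cjg g H x.1).1 x.2⟩
  left_inv x := Subtype.ext (by show g⁻¹ * (g * x.1 * g⁻¹) * g = x.1; group)
  right_inv x := Subtype.ext (by show g * (g⁻¹ * x.1 * g) * g⁻¹ = x.1; group)

theorem fp_cjg {G : Type} [Group G] (g : G) (H : Subgroup G) (h : FP H) : FP (cjg g H) := by
  obtain ⟨h1, h2⟩ := h
  refine ⟨Finite.of_equiv _ (cjEquiv g H), ?_⟩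
  rw [← Nat.card_congr (cjEquiv g H)]
  exact h2

end TCh4

open TCh4 in
theorem TCh4_proof [TP] (h1 : Stmt_TRotS) : Stmt_TCh4 := by
  intro S u Fb Fb' fb g hcj hL
  obtain ⟨H, f, hP, hLb, hloc⟩ := hL
  have hP' : PK S.d (cjg g H) := by
    rcases hP with hP | hP
    · exact Or.inl (fp_cjg g H hP)
    · obtain ⟨-, -, -, -, h5, -⟩ := h1 S.G S.X S.d S.Lb S.good S.lab H hP
      exact Or.inr (h5 g (cjg g H) (isCj_cjg g H)).1
  refine ⟨cjg g H, fun x => f (g⁻¹ * x * g), hP', S.lab.cj H _ f g hP (isCj_cjg g H) hLb, ?_⟩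
  intro h' hh' hd
  have e1 : S.π (g⁻¹ * h' * g) ∈ Fb := by
    have := (hcj (S.π h')).1 hh'
    rw [map_mul, map_mul, map_inv]
    exact this
  have e2 : S.dg u ((g⁻¹ * h' * g) • u) ≤ 3 * dd + 1 := by
    have e3 : S.dg (g • u) (g • ((g⁻¹ * h' * g) • u)) = S.dg u ((g⁻¹ * h' * g) • u) :=
      dg_iso S g u _
    have e4 : g • ((g⁻¹ * h' * g) • u) = h' • g • u := by
      rw [← mul_smul, ← mul_smul]
      congr 1
      group
    rw [e4] at e3
    rw [← e3]
    exact hd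
  obtain ⟨m1, m2⟩ := hloc _ e1 e2
  refine ⟨(mem_cjg g H h').2 m1, ?_⟩
  show fb ((S.π g)⁻¹ * S.π h' * S.π g) = f (g⁻¹ * h' * g)
  rw [← m2, map_mul, map_mul, map_inv]

end Pool.Agent.BT
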