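import Pool.Agent.BT.Stmts
import Pool.Agent.BURN.W97SL

/-! BT module TCyc: the orientation preserving part of an elementary group is finite by cyclic. -/

namespace Pool.Agent.BT

open Pool.Agent.BURN Pool.Agent.BURN.W97

namespace TCycX

variable {G X : Type} [Group G] [MulAction G X] {P : Subgroup G → Prop} {d : X → X → ℕ}
  {δ A R B : ℕ}

theorem wpos (W : AT (G := G) P d δ A R B) {g : G} (hg : Lox d g) (x : X) : 0 < wlen d g x := by
  have h1 := wlen_ge W.dg W.iso (W.stab g hg x)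
  have h0 := wlen_nonneg W.dg W.iso g x
  rcases h0.lt_or_eq with h | h
  · exact h
  · rw [← h] at h1; norm_num at h1

theorem lox_conj (W : AT (G := G) P d δ A R B) {f h : G} (hf : Lox d (h * f * h⁻¹)) :
    Lox d f := by
  obtain ⟨x⟩ := W.nonempty
  have h1 := wpos W hf x
  rw [wlen_conj W.dg W.iso] at h1
  exact lox_of_wlen W.dg W.iso h1

theorem lox_pow (W : AT (G := G) P d δ A R B) {f : G} (hf : Lox d f) {n : ℕ} (hn : 1 ≤ n) :
    Lox d (f ^ n) := by
  obtain ⟨x⟩ := W.nonempty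
  have h1 := wpos W hf x
  refine lox_of_wlen (x := x) W.dg W.iso ?_
  rw [wlen_pow W.dg W.iso]
  have : (0 : ℝ) < n := by exact_mod_cast hn
  positivity

theorem ep_self (g : G) : g ∈ Ep g := ⟨1, le_rfl, by simp⟩

end TCycX

open TCycX in
theorem TCyc_proof (hFBC : Stmt_FBC) (hA : Stmt_TCycA) (hB : Stmt_TCycB) : Stmt_TCyc := by
  intro G X _ _ P d δ A R B W g hg
  obtain ⟨K, hPK, hK, hcm⟩ := hA G X P d δ A R B W g hg
  obtain ⟨x0⟩ := W.nonempty
  have hdg := W.dg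
  have hiso := W.iso
  have hlg := wpos W hg x0
  have hKE : K ≤ Ep g := fun h hh => ((hK h).1 hh).1
  have hgE : g ∈ Ep g := ep_self g
  have hfin : Finite K := W.fin K hPK
  -- normality
  have hnorm : ∀ e ∈ Ep g, ∀ n ∈ K, e * n * e⁻¹ ∈ K := by
    intro e he n hn
    have h1 := hcm e⁻¹ ((Ep g).inv_mem he) n⁻¹ ((Ep g).inv_mem (hKE hn))
    have h2 := K.mul_mem h1 hn
    have e1 : e⁻¹⁻¹ * n⁻¹⁻¹ * e⁻¹ * n⁻¹ * n = e * n * e⁻¹ := by group
    rw [e1] at h2
    exact h2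
  obtain ⟨-, -, ⟨M, hM, -, hMp⟩, -⟩ := hFBC G K g hfin (fun f hf => hnorm g hgE f hf)
  -- the quotient
  let K' : Subgroup (Ep g) := K.subgroupOf (Ep g)
  have hK'n : K'.Normal := ⟨by
    intro n hn e
    rw [Subgroup.mem_subgroupOf] at hn ⊢
    exact hnorm e e.2 n hn⟩
  let φ : Ep g →* Ep g ⧸ K' := QuotientGroup.mk' K'
  have hφ : ∀ x : Ep g, φ x = 1 ↔ (x : G) ∈ K := by
    intro x
    rw [← Subgroup.mem_subgroupOf (K := Ep g)]
    exact QuotientGroup.eq_one_iff x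
  have hcomm : ∀ x y : Ep g, φ x * φ y = φ y * φ x := by
    intro x y
    have h1 : φ (x⁻¹ * y⁻¹ * x * y) = 1 := (hφ _).2 (hcm x x.2 y y.2)
    have h2 : y * x * (x⁻¹ * y⁻¹ * x * y) = x * y := by group
    rw [← map_mul, ← map_mul, ← h2, map_mul, h1, mul_one]
  have hcm' : ∀ x y : Ep g, Commute (φ x) (φ y) := fun x y => hcomm x y
  let γ : Ep g := ⟨g, hgE⟩
  -- h ^ a = g ^ b modulo K
  have hrel : ∀ (h : Ep g) (a : ℕ) (b : ℤ), φ h ^ a = φ γ ^ b ↔
      (h : G) ^ a * (g ^ b)⁻¹ ∈ K := by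
    intro h a b
    rw [← map_pow, ← map_zpow, ← mul_inv_eq_one, ← map_inv, ← map_mul, hφ]
    rfl
  let AA : AddSubgroup ℝ :=
    { carrier := {r | ∃ (h : Ep g) (a : ℕ) (b : ℤ), 1 ≤ a ∧ φ h ^ a = φ γ ^ b ∧
        r * a = b * wlen d g x0}
      zero_mem' := ⟨1, 1, 0, le_rfl, by simp, by simp⟩
      add_mem' := by
        rintro r r' ⟨h, a, b, h1, h3, h4⟩ ⟨h', a', b', h1', h3', h4'⟩
        refine ⟨h * h', a * a', b * a' + b' * a, Nat.mul_pos h1 h1', ?_, ?_⟩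
        · rw [map_mul, (hcm' h h').mul_pow, pow_mul, h3, mul_comm a a', pow_mul, h3', zpow_add,
            zpow_mul, zpow_mul, zpow_natCast, zpow_natCast]
        · push_cast
          linear_combination (a' : ℝ) * h4 + (a : ℝ) * h4'
      neg_mem' := by
        rintro r ⟨h, a, b, h1, h3, h4⟩
        refine ⟨h⁻¹, a, -b, h1, ?_, ?_⟩
        · rw [map_inv, inv_pow, h3, zpow_neg]
        · push_cast
          linear_combination -h4 }
  have hR : (0 : ℝ) < R := by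
    have := wlen_ge hdg hiso (W.stab g hg x0)
    by_contra hc
    have h0 : (R : ℝ) = 0 := le_antisymm (not_lt.1 hc) (by positivity)
    rw [h0] at this; norm_num at this
  have hsl : ∀ (h : Ep g) (a : ℕ) (b : ℤ) (r : ℝ), 1 ≤ a → φ h ^ a = φ γ ^ b →
      r * a = b * wlen d g x0 → |r| = wlen d (h : G) x0 := by
    intro h a b r h1 h2 h3
    have hf := (hrel h a b).1 h2
    have h4 := hMp _ hf b
    rw [inv_mul_cancel_right, ← pow_mul] at h4
    have e1 := congrArg (fun u => wlen d u x0) h4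
    simp only [wlen_pow hdg hiso, wlen_zpow hdg hiso] at e1
    have hM0 : (0 : ℝ) < M := by exact_mod_cast hM
    have e0 : (a : ℝ) * wlen d (h : G) x0 = |(b : ℝ)| * wlen d g x0 := by
      push_cast at e1
      rw [abs_mul, Nat.abs_cast] at e1
      apply mul_right_cancel₀ hM0.ne'
      linear_combination e1
    have e2 : |r| * a = |(b : ℝ)| * wlen d g x0 := by
      have := congrArg abs h3
      rw [abs_mul, abs_mul, abs_of_pos hlg, Nat.abs_cast] at this
      exact this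
    have e3 : (0 : ℝ) < a := by exact_mod_cast h1
    have e4 : |r| * a = wlen d (h : G) x0 * a := by rw [e2, ← e0]; ring
    exact mul_right_cancel₀ e3.ne' e4
  have hdis : Disjoint (AA : Set ℝ) (Set.Ioo 0 (1 / (R : ℝ))) := by
    rw [Set.disjoint_left]
    rintro r ⟨h, a, b, h1, h3, h4⟩ ⟨r1, r2⟩
    have e := hsl h a b r h1 h3 h4
    rw [abs_of_pos r1] at e
    have hl : Lox d (h : G) := lox_of_wlen (x := x0) hdg hiso (by rw [← e]; exact r1)
    have := wlen_ge hdg hiso (W.stab _ hl x0)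
    rw [← e] at this
    rw [lt_div_iff₀ hR] at r2
    linarith
  obtain ⟨r0, hr0⟩ := AddSubgroup.cyclic_of_isolated_zero (one_div_pos.2 hR) hdis
  have hr0A : r0 ∈ AA := by rw [hr0]; exact AddSubgroup.subset_closure (Set.mem_singleton _)
  obtain ⟨w, a0, b0, h1, h3, h4⟩ := hr0A
  have hmem : ∀ h ∈ Ep g, InFc K (w : G) h := by
    intro h0 hh0
    obtain ⟨a, b, ha, hab1, hab2⟩ := hB G X P d δ A R B W g hg h0 hh0
    have habK : h0 ^ a * (g ^ b)⁻¹ ∈ K := (hK _).2 ⟨hab1, hab2⟩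
    let h : Ep g := ⟨h0, hh0⟩
    have hab : φ h ^ a = φ γ ^ b := (hrel h a b).2 habK
    have ha' : (0 : ℝ) < a := by exact_mod_cast ha
    have hrA : (b * wlen d g x0 / a : ℝ) ∈ AA :=
      ⟨h, a, b, ha, hab, by field_simp⟩
    rw [hr0, AddSubgroup.mem_closure_singleton] at hrA
    obtain ⟨k, hk⟩ := hrA
    have e1 : (k : ℝ) * r0 * a = b * wlen d g x0 := by
      rw [zsmul_eq_mul] at hk
      rw [hk]; field_simp
    have e2 : (b * a0 : ℤ) = k * b0 * a := by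
      have : ((b * a0 : ℤ) : ℝ) = ((k * b0 * a : ℤ) : ℝ) := by
        apply mul_right_cancel₀ hlg.ne'
        push_cast
        linear_combination -(a0 : ℝ) * e1 + (k : ℝ) * a * h4
      exact_mod_cast this
    have hw1 : φ (h * (w ^ k)⁻¹) ^ (a * a0) = 1 := by
      have hc2 : Commute (φ h) (φ (w ^ k)⁻¹) := hcm' _ _
      rw [map_mul, hc2.mul_pow, map_inv, map_zpow]
      have e3 : φ h ^ (a * a0) = φ γ ^ (b * a0 : ℤ) := by
        rw [pow_mul, hab, zpow_mul, zpow_natCast]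
      have e4 : (φ w ^ k) ^ (a * a0) = φ γ ^ (k * b0 * a : ℤ) := by
        have : (φ w ^ k) ^ (a * a0) = (φ w ^ a0) ^ (k * a : ℤ) := by
          rw [← zpow_natCast, ← zpow_natCast (φ w) a0, ← zpow_mul, ← zpow_mul]
          congr 1; push_cast; ring
        rw [this, h3, ← zpow_mul]; congr 1; ring
      rw [inv_pow, e3, e4, e2, mul_inv_cancel]
    have hwK : (h0 * ((w : G) ^ k)⁻¹) ^ (a * a0) ∈ K := by
      have h5 : φ ((h * (w ^ k)⁻¹) ^ (a * a0)) = 1 := by rw [map_pow]; exact hw1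
      have h6 := (hφ _).1 h5
      simpa using h6
    have hwE : h0 * ((w : G) ^ k)⁻¹ ∈ Ep g :=
      (Ep g).mul_mem hh0 ((Ep g).inv_mem ((Ep g).zpow_mem w.2 k))
    have hfK : h0 * ((w : G) ^ k)⁻¹ ∈ K := by
      refine (hK _).2 ⟨hwE, fun hl => ?_⟩
      exact ((hK _).1 hwK).2 (lox_pow W hl (Nat.mul_pos ha h1))
    exact ⟨_, hfK, k, by group⟩
  have hwl : Lox d (w : G) := by
    by_contra hw
    have hwK : (w : G) ∈ K := (hK _).2 ⟨w.2, hw⟩
    obtain ⟨f, hf, j, hj⟩ := hmem g hgE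
    have : g ∈ K := by rw [hj]; exact K.mul_mem hf (K.zpow_mem hwK j)
    exact ((hK _).1 this).2 hg
  refine ⟨K, w, hPK, hwl, fun f hf => hnorm w w.2 f hf, hK, fun h => ⟨hmem h, ?_⟩, ?_⟩
  · rintro ⟨f, hf, j, rfl⟩
    exact (Ep g).mul_mem (hKE hf) ((Ep g).zpow_mem w.2 j)
  · rintro h ⟨m, hm, hh⟩ f hf
    obtain ⟨⟨n, hn, hfn⟩, hfl⟩ := (hK f).1 hf
    refine (hK _).2 ⟨⟨m * n, Nat.mul_pos hm hn, ?_⟩, fun hl => hfl (lox_conj W hl)⟩
    have c1 : Commute f (g ^ n) := mul_inv_eq_iff_eq_mul.1 hfn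
    have c2 : Commute f (g ^ (m * n)) := by
      rw [mul_comm m n, pow_mul]; exact c1.pow_right m
    have c3 : Commute (h * f * h⁻¹) (h * g ^ (m * n) * h⁻¹) := by
      show h * f * h⁻¹ * (h * g ^ (m * n) * h⁻¹) = h * g ^ (m * n) * h⁻¹ * (h * f * h⁻¹)
      have e1 : h * f * h⁻¹ * (h * g ^ (m * n) * h⁻¹) = h * (f * g ^ (m * n)) * h⁻¹ := by group
      have e2 : h * g ^ (m * n) * h⁻¹ * (h * f * h⁻¹) = h * (g ^ (m * n) * f) * h⁻¹ := by group
      rw [e1, e2, c2.eq]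
    have c4 : h * g ^ (m * n) * h⁻¹ = g ^ (m * n) ∨ h * g ^ (m * n) * h⁻¹ = (g ^ (m * n))⁻¹ := by
      rw [pow_mul, ← conj_pow]
      rcases hh with hh | hh
      · left; rw [hh]
      · right; rw [hh, inv_pow]
    have c5 : Commute (h * f * h⁻¹) (g ^ (m * n)) := by
      rcases c4 with c4 | c4
      · rw [c4] at c3; exact c3
      · rw [c4] at c3; exact Commute.inv_right_iff.1 c3
    exact mul_inv_eq_iff_eq_mul.2 c5.eq

end Pool.Agent.BT
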