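import Pool.Agent.BT.Stmts
import Pool.Agent.BURN.W97SL
import Pool.Agent.BURN.W97Mid

/-! BT, module TCycA: the torsion of the orientation preserving part of an elementary group -/

namespace Pool.Agent.BT

open Pool.Agent.BURN Pool.Agent.BURN.W97

namespace TCycA

variable {G X : Type} [Group G] [MulAction G X] {P : Subgroup G → Prop} {d : X → X → ℕ}
  {δ A R B : ℕ}

theorem ep_commute {g h : G} (H : h ∈ Ep g) : ∃ m : ℕ, 1 ≤ m ∧ Commute h (g ^ m) := by
  obtain ⟨m, h1, h2⟩ := H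
  exact ⟨m, h1, mul_inv_eq_iff_eq_mul.1 h2⟩

theorem ep_of_commute {g h : G} {m : ℕ} (h1 : 1 ≤ m) (h2 : Commute h (g ^ m)) : h ∈ Ep g :=
  ⟨m, h1, mul_inv_eq_iff_eq_mul.2 h2⟩

theorem wlen_pos (W : AT (G := G) P d δ A R B) {g : G} (hg : Lox d g) (x : X) :
    0 < wlen d g x := by
  have := W97.wlen_ge W.dg W.iso (W.stab g hg x)
  have h0 := wlen_nonneg W.dg W.iso g x
  rcases h0.lt_or_eq with h | h
  · exact h
  · rw [← h] at this; norm_num at this

theorem wlen_nonlox (W : AT (G := G) P d δ A R B) {g : G} (hg : ¬ Lox d g) (x : X) :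
    wlen d g x = 0 := by
  obtain ⟨m, hm, h⟩ := W.tors g hg
  exact wlen_torsion W.dg W.iso hm h

theorem lox_iff (W : AT (G := G) P d δ A R B) {g : G} (x : X) :
    Lox d g ↔ 0 < wlen d g x :=
  ⟨fun h => wlen_pos W h x, fun h => lox_of_wlen W.dg W.iso h⟩

theorem lox_zpow (W : AT (G := G) P d δ A R B) {c : G} (hc : Lox d c) {k : ℤ}
    (hk : k ≠ 0) : Lox d (c ^ k) := by
  obtain ⟨x⟩ := W.nonempty
  rw [lox_iff W x, wlen_zpow W.dg W.iso]
  have := wlen_pos W hc x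
  have : (0 : ℝ) < |(k : ℝ)| := by positivity
  positivity

theorem nl (W : AT (G := G) P d δ A R B) (hI : Stmt_Iso1) {u : G} (hu : ¬ Lox d u) (p : X) :
    d p (u ^ 2 • p) ≤ d p (u • p) + δ := by
  by_contra hc
  exact hu (((hI G X d δ W.dg W.hyp W.iso).1 u p (by omega)).1)

theorem nrm_one (F : Subgroup G) : Nrm F 1 := by
  intro f hf
  simpa using hf

/-- finite groups consist of non-loxodromic elements -/
theorem not_lox_of_mem (W : AT (G := G) P d δ A R B) (h2 : Stmt_FBL) {F : Subgroup G} (hF : P F)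
    {f : G} (hf : f ∈ F) : ¬ Lox d f :=
  (h2 G X d W.dg W.iso W.nonempty F 1 (W.fin F hF) (nrm_one F)).1 f hf

/-- a non-loxodromic element of F c^Z is in F -/
theorem mem_of_inFc (W : AT (G := G) P d δ A R B) (h2 : Stmt_FBL) {F : Subgroup G} {c u : G}
    (hF : P F) (hn : Nrm F c) (hc : c = 1 ∨ Lox d c) (hu : InFc F c u) (hul : ¬ Lox d u) :
    u ∈ F := by
  obtain ⟨f, hf, j, rfl⟩ := hu
  rcases hc with rfl | hc
  · simpa using hf
  · have h := ((h2 G X d W.dg W.iso W.nonempty F c (W.fin F hF) hn).2 hc).1 f hf j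
    by_cases hj : j = 0
    · rw [hj]; simpa using hf
    · exact absurd (h.2 hj) hul

/-- the common group of two points of a geodesic -/
theorem cyc_of_geod (W : AT (G := G) P d δ A R B) {x y : X} {γ : ℕ → X}
    (hg : IsGeod d x y γ) {s t : ℕ} (hst : s + A ≤ t) (ht : t ≤ d x y) :
    ∃ (F : Subgroup G) (c : G), P F ∧ Nrm F c ∧ (c = 1 ∨ Lox d c) ∧
      ∀ g : G, d (γ s) (g • γ s) ≤ 100 * δ → d (γ t) (g • γ t) ≤ 100 * δ → InFc F c g := by
  refine W.acyl _ _ ?_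
  rw [hg.2.2 s t (by omega) ht]; omega

/-- FAR -/
theorem far (W : AT (G := G) P d δ A R B) {g : G} (hg : Lox d g) {m : ℕ} (hm : 1 ≤ m)
    (S : Set G) (hS : ∀ h ∈ S, Commute h (g ^ m)) (x0 : X) (K : ℕ) :
    ∃ x y : X, K ≤ d x y ∧ ∀ h ∈ S, d x (h • x) = d x0 (h • x0) ∧
      d y (h • y) = d x0 (h • x0) := by
  have hK : K ≤ d x0 (g ^ (2 * (m * (R * K + 1))) • x0) := by
    have h4 := W.stab g hg x0 (2 * (m * (R * K + 1)))
    by_contra hc
    push Not at hc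
    have : R * d x0 (g ^ (2 * (m * (R * K + 1))) • x0) ≤ R * K := Nat.mul_le_mul_left _ hc.le
    have h5 : R * K + 1 ≤ m * (R * K + 1) := Nat.le_mul_of_pos_left _ hm
    omega
  set k := R * K + 1
  set a := g ^ (m * k) with ha
  have hca : ∀ h ∈ S, Commute h a := fun h hh => by
    rw [ha, pow_mul]; exact (hS h hh).pow_right k
  refine ⟨a⁻¹ • x0, a • x0, ?_, fun h hh => ⟨?_, ?_⟩⟩
  · rw [← W.iso a, smul_inv_smul, ← mul_smul, ha, ← pow_add, ← two_mul]; exact hK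
  · have := (hca h hh).inv_right
    rw [← mul_smul, this.eq, mul_smul, W.iso]
  · rw [← mul_smul, (hca h hh).eq, mul_smul, W.iso]

/-- a common power for finitely many elements of Ep g -/
theorem common_pow {g : G} (S : Finset G) (hS : ∀ h ∈ S, h ∈ Ep g) :
    ∃ m : ℕ, 1 ≤ m ∧ ∀ h ∈ S, Commute h (g ^ m) := by
  classical
  induction S using Finset.induction_on with
  | empty => exact ⟨1, le_refl 1, by simp⟩
  | insert a S _ ih =>
    obtain ⟨m, hm, h1⟩ := ih fun h hh => hS h (Finset.mem_insert_of_mem hh)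
    obtain ⟨n, hn, h2⟩ := ep_commute (hS a (Finset.mem_insert_self a S))
    refine ⟨m * n, Nat.mul_pos hm hn, fun h hh => ?_⟩
    rcases Finset.mem_insert.1 hh with rfl | hh
    · rw [mul_comm m n, pow_mul]; exact h2.pow_right m
    · rw [pow_mul]; exact (h1 h hh).pow_right n

/-- FAR for a finite set of elements of Ep g -/
theorem far_finset (W : AT (G := G) P d δ A R B) {g : G} (hg : Lox d g) (S : Finset G)
    (hS : ∀ h ∈ S, h ∈ Ep g) (x0 : X) (K : ℕ) :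
    ∃ x y : X, K ≤ d x y ∧ ∀ h ∈ S, d x (h • x) = d x0 (h • x0) ∧
      d y (h • y) = d x0 (h • x0) := by
  obtain ⟨m, hm, h1⟩ := common_pow S hS
  exact far W hg hm (S : Set G) (fun h hh => h1 h hh) x0 K

/-- FAR for two elements of Ep g -/
theorem far2 (W : AT (G := G) P d δ A R B) {g h k : G} (hg : Lox d g) (hh : h ∈ Ep g)
    (hk : k ∈ Ep g) (x0 : X) (K : ℕ) :
    ∃ x y : X, K ≤ d x y ∧ d x (h • x) = d x0 (h • x0) ∧ d y (h • y) = d x0 (h • x0) ∧
      d x (k • x) = d x0 (k • x0) ∧ d y (k • y) = d x0 (k • x0) := by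
  classical
  obtain ⟨x, y, hxy, hS⟩ := far_finset W hg {h, k} (by
    intro a ha
    rcases Finset.mem_insert.1 ha with rfl | ha
    · exact hh
    · rw [Finset.mem_singleton.1 ha]; exact hk) x0 K
  have h1 := hS h (Finset.mem_insert_self h {k})
  have h2 := hS k (Finset.mem_insert_of_mem (Finset.mem_singleton_self k))
  exact ⟨x, y, hxy, h1.1, h1.2, h2.1, h2.2⟩

/-- (i), finite sets -/
theorem finset_mem (W : AT (G := G) P d δ A R B) (hI : Stmt_Iso1) (h2 : Stmt_FBL) {g : G}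
    (hg : Lox d g) (S : Finset G) (hS : ∀ h ∈ S, h ∈ Ep g) (hl : ∀ h ∈ S, ¬ Lox d h) :
    ∃ F : Subgroup G, P F ∧ ∀ h ∈ S, h ∈ F := by
  obtain ⟨x0⟩ := W.nonempty
  set l := S.sup (fun h => d x0 (h • x0)) with hldef
  have hle : ∀ h ∈ S, d x0 (h • x0) ≤ l := fun h hh =>
    Finset.le_sup (f := fun h => d x0 (h • x0)) hh
  obtain ⟨x, y, hxy, hfar⟩ := far_finset W hg S hS x0 (4 * l + 2 * δ + 2 + A)
  obtain ⟨γ, hγ⟩ := exists_geod W.dg x y
  obtain ⟨F, c, hF, hn, hc, hcc⟩ := cyc_of_geod W hγ (s := 2 * l + δ + 1) (t := 2 * l + δ + 1 + A)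
    le_rfl (by omega)
  refine ⟨F, hF, fun h hh => ?_⟩
  obtain ⟨e1, e2⟩ := hfar h hh
  have e3 := hle h hh
  have k1 := w97_nonlox W.dg W.hyp W.iso hγ (nl W hI (hl h hh)) (l := l) (by omega) (by omega)
    (t := 2 * l + δ + 1) (by omega) (by omega)
  have k2 := w97_nonlox W.dg W.hyp W.iso hγ (nl W hI (hl h hh)) (l := l) (by omega) (by omega)
    (t := 2 * l + δ + 1 + A) (by omega) (by omega)
  exact mem_of_inFc W h2 hF hn hc (hcc h (by omega) (by omega)) (hl h hh)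

/-- the radical -/
def Kr (W : AT (G := G) P d δ A R B) (hI : Stmt_Iso1) (h2 : Stmt_FBL) {g : G}
    (hg : Lox d g) : Subgroup G where
  carrier := {h | h ∈ Ep g ∧ ¬ Lox d h}
  one_mem' := ⟨Subgroup.one_mem _, by
    intro h
    obtain ⟨x⟩ := W.nonempty
    have := wlen_pos W h x
    have h2 := wlen_torsion W.dg W.iso (g := (1 : G)) (x := x) (N := 1) one_pos (by simp)
    linarith⟩
  mul_mem' := by
    classical
    rintro a b ⟨ha, ha'⟩ ⟨hb, hb'⟩
    refine ⟨Subgroup.mul_mem _ ha hb, ?_⟩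
    obtain ⟨F, hF, hm⟩ := finset_mem W hI h2 hg {a, b} (by
      intro h hh
      rcases Finset.mem_insert.1 hh with rfl | hh
      · exact ha
      · rw [Finset.mem_singleton.1 hh]; exact hb) (by
      intro h hh
      rcases Finset.mem_insert.1 hh with rfl | hh
      · exact ha'
      · rw [Finset.mem_singleton.1 hh]; exact hb')
    have q1 := hm a (Finset.mem_insert_self a {b})
    have q2 := hm b (Finset.mem_insert_of_mem (Finset.mem_singleton_self b))
    exact not_lox_of_mem W h2 hF (F.mul_mem q1 q2)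
  inv_mem' := by
    classical
    rintro a ⟨ha, ha'⟩
    refine ⟨Subgroup.inv_mem _ ha, ?_⟩
    obtain ⟨F, hF, hm⟩ := finset_mem W hI h2 hg {a} (by
      intro h hh
      rw [Finset.mem_singleton.1 hh]; exact ha) (by
      intro h hh
      rw [Finset.mem_singleton.1 hh]; exact ha')
    exact not_lox_of_mem W h2 hF (F.inv_mem (hm a (Finset.mem_singleton_self a)))

theorem mem_Kr (W : AT (G := G) P d δ A R B) (hI : Stmt_Iso1) (h2 : Stmt_FBL) {g : G}
    (hg : Lox d g) (h : G) : h ∈ Kr W hI h2 hg ↔ h ∈ Ep g ∧ ¬ Lox d h := Iff.rfl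

theorem P_Kr (W : AT (G := G) P d δ A R B) (hI : Stmt_Iso1) (h2 : Stmt_FBL) {g : G}
    (hg : Lox d g) : P (Kr W hI h2 hg) := by
  classical
  have hfin : (Kr W hI h2 hg : Set G).Finite := by
    by_contra hinf
    obtain ⟨S, hS, hcard⟩ := (show (Kr W hI h2 hg : Set G).Infinite from
      hinf).exists_subset_card_eq (B + 1)
    obtain ⟨F, hF, hm⟩ := finset_mem W hI h2 hg S (fun h hh => (hS hh).1) (fun h hh => (hS hh).2)
    have hFf : Finite F := W.fin F hF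
    have hFs : (F : Set G).Finite := Set.toFinite _
    have h3 : S ⊆ hFs.toFinset := fun h hh => by
      rw [Set.Finite.mem_toFinset]; exact hm h hh
    have h4 := Finset.card_le_card h3
    have h5 : hFs.toFinset.card = Nat.card F := by
      rw [← Nat.card_eq_card_finite_toFinset hFs]
      rfl
    have h6 := W.card F hF
    omega
  obtain ⟨F, hF, hm⟩ := finset_mem W hI h2 hg hfin.toFinset
    (fun h hh => ((Set.Finite.mem_toFinset _).1 hh).1)
    (fun h hh => ((Set.Finite.mem_toFinset _).1 hh).2)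
  exact W.sub F _ hF fun h hh => hm h ((Set.Finite.mem_toFinset _).2 hh)

/-- stable length in F c^Z -/
theorem wlen_fc (W : AT (G := G) P d δ A R B) (h1 : Stmt_FBC) {F : Subgroup G} {c : G}
    (hF : Finite F) (hn : Nrm F c) {f : G} (hf : f ∈ F) (j : ℤ) (x : X) :
    wlen d (f * c ^ j) x = |(j : ℝ)| * wlen d c x := by
  obtain ⟨-, -, ⟨M, hM, -, hM2⟩, -⟩ := h1 G F c hF hn
  have e := hM2 f hf j
  have k1 := wlen_pow W.dg W.iso (f * c ^ j) x M
  rw [e, wlen_zpow W.dg W.iso] at k1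
  push_cast at k1
  rw [abs_mul, Nat.abs_cast] at k1
  have hM' : (0 : ℝ) < M := by exact_mod_cast hM
  have : (M : ℝ) * (|(j : ℝ)| * wlen d c x) = M * wlen d (f * c ^ j) x := by
    rw [← k1]; ring
  exact (mul_left_cancel₀ hM'.ne' this).symm

/-- an element of Ep g cannot invert a loxodromic element of Ep g -/
theorem no_invert (W : AT (G := G) P d δ A R B) {g h z : G} (hg : Lox d g)
    (hh : h ∈ Ep g) (hz : z ∈ Ep g) (hzl : Lox d z) : h * z * h⁻¹ ≠ z⁻¹ := by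
  intro hinv
  obtain ⟨x0⟩ := W.nonempty
  have hpos := wlen_pos W hzl x0
  obtain ⟨j, hj⟩ := exists_nat_gt ((10 * δ : ℕ) / wlen d z x0)
  rw [div_lt_iff₀ hpos] at hj
  have hu : z ^ j ∈ Ep g := Subgroup.pow_mem _ hz j
  have hinv' : h * z ^ j * h⁻¹ = (z ^ j)⁻¹ := by
    rw [← conj_pow, hinv, inv_pow]
  obtain ⟨x, y, hxy, a1, a2, a3, a4⟩ := far2 W hg hh hu x0
    (6 * (d x0 (h • x0) + d x0 (z ^ j • x0)) + 2 * δ + 2)
  set u := z ^ j with hudef
  set l := d x0 (h • x0) + d x0 (u • x0) with hl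
  obtain ⟨γ, hγ⟩ := exists_geod W.dg x y
  have hiso := W.iso
  have hdg := W.dg
  set t := 3 * l + δ + 1 with ht
  have hux : d x (u • x) ≤ l := by omega
  have huy : d y (u • y) ≤ l := by omega
  have hhx : d x (h • x) ≤ l := by omega
  have hhy : d y (h • y) ≤ l := by omega
  obtain ⟨b1, b2, b3⟩ := w97_comm hdg W.hyp hiso hγ hhx hhy hux huy (t := t)
    (by omega) (by omega)
  obtain ⟨c1, c2, c3, -⟩ := w97_mid hdg W.hyp hiso hγ hhx hhy (t := t) (by omega) (by omega)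
  obtain ⟨d1, d2, d3, -⟩ := w97_mid hdg W.hyp hiso hγ hux huy (t := t) (by omega) (by omega)
  set Sh := d x (h • γ t) with hSh
  set Su := d x (u • γ t) with hSu
  set r := Sh + Su - t with hr
  obtain ⟨e1, e2, e3, -⟩ := w97_mid hdg W.hyp hiso hγ hux huy (t := r) (by omega) (by omega)
  set Sr := d x (u • γ r) with hSr
  -- monotonicity between r and t
  have m1 : Sr + t ≤ Su + r + δ ∧ Su + r ≤ Sr + t + δ := by
    rcases le_total r t with hrt | hrt
    · obtain ⟨m1, m2⟩ := w97_mid_mono hdg W.hyp hiso hγ hux huy (s := r) (t := t) (by omega)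
        hrt (by omega)
      rw [← hSu, ← hSr] at m1 m2
      omega
    · obtain ⟨m1, m2⟩ := w97_mid_mono hdg W.hyp hiso hγ hux huy (s := t) (t := r) (by omega)
        hrt (by omega)
      rw [← hSu, ← hSr] at m1 m2
      omega
  -- u⁻¹ h γ t = h u γ t
  have key : (h * u) • γ t = (u⁻¹ * h) • γ t := by
    congr 1
    rw [← hinv']; group
  rw [key] at b3
  -- distance from u γ r to γ Sh
  have k1 : d (u • γ r) (γ Sh) ≤ 10 * δ := by
    have t1 := hdg.tri (u • γ r) (u • (u⁻¹ * h) • γ t) (γ Sh)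
    rw [hiso, hdg.symm (γ r), mul_smul, smul_inv_smul] at t1
    rw [mul_smul] at b3
    omega
  have k2 : d (γ Sh) (γ Sr) ≤ 13 * δ := by
    have t1 := hdg.tri (γ Sh) (u • γ r) (γ Sr)
    rw [hdg.symm (γ Sh) (u • γ r)] at t1
    omega
  have k3 : Sh ≤ Sr + 13 * δ ∧ Sr ≤ Sh + 13 * δ := by
    rcases le_total Sh Sr with hc | hc
    · have := hγ.2.2 Sh Sr hc (by omega)
      omega
    · have := hγ.2.2 Sr Sh hc (by omega)
      rw [hdg.symm] at this
      omega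
  have k4 : d (γ t) (u • γ t) ≤ 10 * δ := by
    have := w97_middisp hdg W.hyp hiso hγ hux huy (t := t) (by omega) (by omega)
    rw [← hSu] at this
    rcases le_total t Su with hc | hc
    · rw [min_eq_left hc, max_eq_right hc] at this
      omega
    · rw [min_eq_right hc, max_eq_left hc] at this
      omega
  have k5 := wlen_le hdg hiso u (γ t)
  rw [hudef, wlen_pow hdg hiso, wlen_indep hdg hiso z (γ t) x0] at k5
  have k6 : ((d (γ t) (z ^ j • γ t) : ℕ) : ℝ) ≤ (10 * δ : ℕ) := by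
    exact_mod_cast k4
  linarith

/-- (ii) -/
theorem comm_small (W : AT (G := G) P d δ A R B) (h1 : Stmt_FBC) (h2 : Stmt_FBL)
    {g h z : G} (hg : Lox d g) (hh : h ∈ Ep g) (hz : z ∈ Ep g) (hzl : Lox d z) {p : X}
    (hp : d p (z • p) ≤ 20 * δ) : ¬ Lox d (h * z * h⁻¹ * z⁻¹) := by
  have hdg := W.dg
  have hiso := W.iso
  obtain ⟨x, y, hxy, a1, a2, a3, a4⟩ := far2 W hg hh hz p
    (6 * (d p (h • p) + 20 * δ) + 4 * δ + 2 + A)
  set l := d p (h • p) + 20 * δ with hl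
  obtain ⟨γ, hγ⟩ := exists_geod W.dg x y
  have hhx : d x (h • x) ≤ l := by omega
  have hhy : d y (h • y) ≤ l := by omega
  set t0 := l + δ + 1 with ht0
  set t1 := l + δ + 1 + (A + δ) with ht1
  obtain ⟨b1, b2, b3, -⟩ := w97_mid hdg W.hyp hiso hγ hhx hhy (t := t0) (by omega) (by omega)
  obtain ⟨c1, c2, c3, -⟩ := w97_mid hdg W.hyp hiso hγ hhx hhy (t := t1) (by omega) (by omega)
  obtain ⟨m1, m2⟩ := w97_mid_mono hdg W.hyp hiso hγ hhx hhy (s := t0) (t := t1) (by omega)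
    (by omega) (by omega)
  -- z moves every point of the geodesic by at most 21 δ
  have hzd : ∀ i, i ≤ d x y → d (γ i) (z • γ i) ≤ 21 * δ := fun i hi => by
    have := w97_hulldisp hdg W.hyp hiso (hγ.btw' hi) (u := z) (l := 20 * δ) (by omega) (by omega)
    omega
  have hz'd : ∀ i, i ≤ d x y → ∀ q : X, d (h • γ i) q ≤ 3 * δ →
      d q ((h * z * h⁻¹) • q) ≤ 27 * δ := fun i hi q hq => by
    have t1 := hdg.tri q (h • γ i) ((h * z * h⁻¹) • q)
    have t2 := hdg.tri (h • γ i) ((h * z * h⁻¹) • h • γ i) ((h * z * h⁻¹) • q)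
    rw [hiso] at t2
    have e : (h * z * h⁻¹) • h • γ i = h • z • γ i := by
      rw [← mul_smul, ← mul_smul]; congr 1; group
    rw [e, hiso] at t2
    have := hzd i hi
    have s := hdg.symm q (h • γ i)
    omega
  obtain ⟨F, c, hF, hn, hc, hcc⟩ := cyc_of_geod W hγ (s := d x (h • γ t0)) (t := d x (h • γ t1))
    (by omega) (by omega)
  have q1 := hcc z (by have := hzd _ (show d x (h • γ t0) ≤ d x y by omega); omega)
    (by have := hzd _ (show d x (h • γ t1) ≤ d x y by omega); omega)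
  have q2 := hcc (h * z * h⁻¹)
    (by have := hz'd t0 (by omega) _ b3; omega) (by have := hz'd t1 (by omega) _ c3; omega)
  obtain ⟨f, hf, a, ha⟩ := q1
  obtain ⟨f', hf', b, hb⟩ := q2
  have hFf : Finite F := W.fin F hF
  have hcl : Lox d c := by
    rcases hc with rfl | hc
    · exfalso
      rw [one_zpow, mul_one] at ha
      rw [ha] at hzl
      exact not_lox_of_mem W h2 hF hf hzl
    · exact hc
  have w1 := wlen_fc W h1 hFf hn hf a p
  have w2 := wlen_fc W h1 hFf hn hf' b p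
  rw [← ha] at w1
  rw [← hb, wlen_conj hdg hiso, w1] at w2
  have hcp := wlen_pos W hcl p
  have hab : |(a : ℝ)| = |(b : ℝ)| := mul_right_cancel₀ hcp.ne' w2
  rcases abs_eq_abs.1 hab with h4 | h4
  · have hab' : a = b := by exact_mod_cast h4
    have e : h * z * h⁻¹ * z⁻¹ = f' * f⁻¹ := by
      rw [hb, ha, hab']; group
    rw [e]
    exact not_lox_of_mem W h2 hF (F.mul_mem hf' (F.inv_mem hf))
  · exfalso
    have hab' : b = -a := by
      have : (b : ℝ) = -(a : ℝ) := by linarith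
      exact_mod_cast this
    obtain ⟨-, -, ⟨M, hM, -, hM2⟩, -⟩ := h1 G F c hFf hn
    have e1 := hM2 f hf a
    have e2 := hM2 f' hf' b
    rw [← ha] at e1
    rw [← hb, conj_pow, hab'] at e2
    have e3 : h * z ^ M * h⁻¹ = (z ^ M)⁻¹ := by
      rw [e2, e1, ← zpow_neg]; congr 1; ring
    have hzM : Lox d (z ^ M) := by
      have := lox_zpow W hzl (k := (M : ℤ)) (by omega)
      rwa [zpow_natCast] at this
    exact no_invert W hg hh (Subgroup.pow_mem _ hz M) hzM e3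

/-- conjugation preserves the radical -/
theorem conj_Kr (W : AT (G := G) P d δ A R B) (hI : Stmt_Iso1) (h2 : Stmt_FBL) {g : G}
    (hg : Lox d g) {h k : G} (hh : h ∈ Ep g) (hk : k ∈ Kr W hI h2 hg) :
    h * k * h⁻¹ ∈ Kr W hI h2 hg := by
  obtain ⟨x⟩ := W.nonempty
  refine ⟨Subgroup.mul_mem _ (Subgroup.mul_mem _ hh hk.1) (Subgroup.inv_mem _ hh), ?_⟩
  intro hl
  have h3 := wlen_pos W hl x
  rw [wlen_conj W.dg W.iso, wlen_nonlox W hk.2] at h3
  exact lt_irrefl _ h3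

/-- powers of a product modulo the radical -/
theorem pow_mod {K E : Subgroup G} (_hKE : K ≤ E) (hn : ∀ h ∈ E, ∀ k ∈ K, h * k * h⁻¹ ∈ K)
    {a b : G} (ha : a ∈ E) (hb : b ∈ E) (hab : a * b * a⁻¹ * b⁻¹ ∈ K) (j : ℕ) :
    ∃ k ∈ K, (a * b) ^ j = a ^ j * (k * b ^ j) := by
  -- b ^ j * a = a * b ^ j modulo K
  have key : ∀ j : ℕ, ∃ k ∈ K, b ^ j * a = a * (k * b ^ j) := by
    intro j
    induction j with
    | zero => exact ⟨1, K.one_mem, by simp⟩
    | succ j ih =>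
      obtain ⟨k, hk, e⟩ := ih
      -- b * a = a * (k1 * b)
      have e0 : b * a = a * ((a⁻¹ * (a * b * a⁻¹ * b⁻¹)⁻¹ * a⁻¹⁻¹) * b) := by group
      have hk1 : a⁻¹ * (a * b * a⁻¹ * b⁻¹)⁻¹ * a⁻¹⁻¹ ∈ K :=
        hn _ (E.inv_mem ha) _ (K.inv_mem hab)
      set k1 := a⁻¹ * (a * b * a⁻¹ * b⁻¹)⁻¹ * a⁻¹⁻¹ with hk1def
      refine ⟨k1 * (b * k * b⁻¹), K.mul_mem hk1 (hn _ hb _ hk), ?_⟩
      calc b ^ (j + 1) * a = b * (b ^ j * a) := by rw [pow_succ']; group
        _ = (b * a) * (k * b ^ j) := by rw [e]; group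
        _ = a * (k1 * b) * (k * b ^ j) := by rw [e0]
        _ = a * (k1 * (b * k * b⁻¹) * b ^ (j + 1)) := by rw [pow_succ']; group
  induction j with
  | zero => exact ⟨1, K.one_mem, by simp⟩
  | succ j ih =>
    obtain ⟨k, hk, e⟩ := ih
    obtain ⟨k', hk', e'⟩ := key j
    -- (ab)^(j+1) = a^j k b^j a b = a^j k a k' b^j b = a^(j+1) (a⁻¹ k a) k' b^(j+1)
    refine ⟨(a⁻¹ * k * a⁻¹⁻¹) * k', K.mul_mem (hn _ (E.inv_mem ha) _ hk) hk', ?_⟩
    calc (a * b) ^ (j + 1) = (a * b) ^ j * (a * b) := pow_succ _ _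
      _ = a ^ j * k * (b ^ j * a) * b := by rw [e]; group
      _ = a ^ j * k * (a * (k' * b ^ j)) * b := by rw [e']
      _ = (a ^ j * a) * ((a⁻¹ * k * a⁻¹⁻¹) * k' * (b ^ j * b)) := by group
      _ = a ^ (j + 1) * ((a⁻¹ * k * a⁻¹⁻¹) * k' * b ^ (j + 1)) := by
        rw [← pow_succ, ← pow_succ]

/-- (iii) -/
theorem comm_mem (W : AT (G := G) P d δ A R B) (hI : Stmt_Iso1) (h1 : Stmt_FBC)
    (h2 : Stmt_FBL) {g h k : G} (hg : Lox d g) (hh : h ∈ Ep g) (hk : k ∈ Ep g) :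
    h⁻¹ * k⁻¹ * h * k ∈ Kr W hI h2 hg := by
  obtain ⟨x0⟩ := W.nonempty
  have hdg := W.dg
  have hiso := W.iso
  -- commutators of powers are small somewhere
  have small : ∀ j : ℕ, ∃ p : X, d p (((h ^ j)⁻¹ * k⁻¹ * h ^ j * k) • p) ≤ 14 * δ := fun j => by
    obtain ⟨x, y, hxy, a1, a2, a3, a4⟩ := far2 W hg (Subgroup.pow_mem _ hh j) hk x0
      (4 * (d x0 (h ^ j • x0) + d x0 (k • x0)) + 2 * δ + 2)
    set l := d x0 (h ^ j • x0) + d x0 (k • x0) with hl
    obtain ⟨γ, hγ⟩ := exists_geod W.dg x y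
    exact ⟨γ (2 * l + δ + 1), w97_comm' hdg W.hyp hiso hγ (by omega : d x (h ^ j • x) ≤ l)
      (by omega) (by omega) (by omega) (by omega) (by omega)⟩
  set z := h⁻¹ * k⁻¹ * h * k with hz
  have hzE : z ∈ Ep g := Subgroup.mul_mem _ (Subgroup.mul_mem _ (Subgroup.mul_mem _
    (Subgroup.inv_mem _ hh) (Subgroup.inv_mem _ hk)) hh) hk
  refine ⟨hzE, fun hzl => ?_⟩
  obtain ⟨p, hp⟩ := small 1
  rw [pow_one, ← hz] at hp
  have c1 := comm_small W h1 h2 hg hh hzE hzl (p := p) (by omega)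
  have c1' : h * z * h⁻¹ * z⁻¹ ∈ Kr W hI h2 hg :=
    ⟨Subgroup.mul_mem _ (Subgroup.mul_mem _ (Subgroup.mul_mem _ hh hzE)
      (Subgroup.inv_mem _ hh)) (Subgroup.inv_mem _ hzE), c1⟩
  have hKn : ∀ a ∈ Ep g, ∀ b ∈ Kr W hI h2 hg, a * b * a⁻¹ ∈ Kr W hI h2 hg :=
    fun a ha b hb => conj_Kr W hI h2 hg ha hb
  have hfin : Finite (Kr W hI h2 hg) := W.fin _ (P_Kr W hI h2 hg)
  have hnz : Nrm (Kr W hI h2 hg) z := fun f hf => hKn z hzE f hf
  have hpow : ∀ j : ℕ, ∃ κ ∈ Kr W hI h2 hg, (h ^ j)⁻¹ * k⁻¹ * h ^ j * k = κ * z ^ (j : ℤ) := by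
    intro j
    have e1 : k⁻¹ * h * k = h * z := by rw [hz]; group
    have e2 : k⁻¹ * h ^ j * k = (h * z) ^ j := by
      rw [← e1]
      have := (conj_pow (i := j) (a := k⁻¹) (b := h)).symm
      rw [inv_inv] at this
      exact this
    obtain ⟨κ, hκ, e3⟩ := pow_mod (K := Kr W hI h2 hg) (E := Ep g) (fun _ ha => ha.1) hKn hh hzE
      c1' j
    refine ⟨κ, hκ, ?_⟩
    calc (h ^ j)⁻¹ * k⁻¹ * h ^ j * k = (h ^ j)⁻¹ * (k⁻¹ * h ^ j * k) := by group
      _ = κ * z ^ (j : ℤ) := by rw [e2, e3, zpow_natCast]; group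
  have hc := wlen_pos W hzl x0
  obtain ⟨j, hj⟩ := exists_nat_gt ((14 * δ : ℕ) / wlen d z x0)
  rw [div_lt_iff₀ hc] at hj
  obtain ⟨q, hq⟩ := small j
  obtain ⟨κ, hκ, e⟩ := hpow j
  rw [e] at hq
  have k5 := wlen_le hdg hiso (κ * z ^ (j : ℤ)) q
  rw [wlen_fc W h1 hfin hnz hκ (j : ℤ) q, wlen_indep hdg hiso z q x0] at k5
  have k6 : ((d q ((κ * z ^ (j : ℤ)) • q) : ℕ) : ℝ) ≤ (14 * δ : ℕ) := by exact_mod_cast hq
  rw [Int.cast_natCast, Nat.abs_cast] at k5
  linarith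

end TCycA

open TCycA in
theorem TCycA_proof (E : EngT) (h1 : Stmt_FBC) (h2 : Stmt_FBL) : Stmt_TCycA := by
  intro G X _ _ P d δ A R B W g hg
  refine ⟨Kr W E.iso1 h2 hg, P_Kr W E.iso1 h2 hg, mem_Kr W E.iso1 h2 hg, fun h hh h' hh' => ?_⟩
  exact comm_mem W E.iso1 h1 h2 hg hh hh'

end Pool.Agent.BT
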