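import Pool.Agent.BT.Stmts
import Pool.Agent.BURN.W97Mid
import Pool.Agent.BURN.Iso

/-! BT: module TCycB (4.4 (iv) with torsion) -/

namespace Pool.Agent.BT

open Pool.Agent.BURN

namespace TCycB

variable {G X : Type} [Group G] [MulAction G X] {P : Subgroup G → Prop} {d : X → X → ℕ}
  {δ A R B : ℕ}

/-- powers of loxodromic elements -/
theorem lox_zpow (W : AT (G := G) P d δ A R B) {g : G} (hg : Lox d g) {k : ℤ} (hk : k ≠ 0) :
    Lox d (g ^ k) := by
  intro x C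
  refine ⟨R * C + 1, ?_⟩
  have hn : 1 ≤ k.natAbs := Int.natAbs_pos.2 hk
  have h1 := W.stab g hg x (k.natAbs * (R * C + 1))
  have h2 : R * C + 1 ≤ k.natAbs * (R * C + 1) := Nat.le_mul_of_pos_left _ hn
  have h3 : d x ((g ^ k) ^ (R * C + 1) • x) = d x (g ^ (k.natAbs * (R * C + 1)) • x) := by
    rcases Int.natAbs_eq k with h | h
    · have e : (g ^ k) ^ (R * C + 1) = g ^ (k.natAbs * (R * C + 1)) := by
        conv_lhs => rw [h]
        rw [zpow_natCast, ← pow_mul]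
      rw [e]
    · have e : (g ^ k) ^ (R * C + 1) = (g ^ (k.natAbs * (R * C + 1)))⁻¹ := by
        conv_lhs => rw [h]
        rw [zpow_neg, zpow_natCast, inv_pow, ← pow_mul]
      rw [e, ← W.iso (g ^ (k.natAbs * (R * C + 1))), smul_inv_smul, W.dg.symm]
  rw [h3]
  by_contra hc
  push Not at hc
  have := Nat.mul_le_mul_left R hc
  omega

/-- FAR -/
theorem far (W : AT (G := G) P d δ A R B) {g : G} (hg : Lox d g) {m : ℕ} (hm : 1 ≤ m)
    (S : Set G) (hS : ∀ h ∈ S, Commute h (g ^ m)) (x0 : X) (K : ℕ) :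
    ∃ x y : X, K ≤ d x y ∧ ∀ h ∈ S, d x (h • x) = d x0 (h • x0) ∧
      d y (h • y) = d x0 (h • x0) := by
  have hK : K ≤ d x0 (g ^ (2 * (m * (R * K + 1))) • x0) := by
    have h4 := W.stab g hg x0 (2 * (m * (R * K + 1)))
    by_contra hc
    push Not at hc
    have : R * d x0 (g ^ (2 * (m * (R * K + 1))) • x0) ≤ R * K := Nat.mul_le_mul_left _ hc.le
    have h5 : R * K + 1 ≤ m * (R * K + 1) := Nat.le_mul_of_pos_left _ hm
    omega
  set k := R * K + 1
  set a := g ^ (m * k) with ha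
  have hca : ∀ h ∈ S, Commute h a := fun h hh => by
    rw [ha, pow_mul]; exact (hS h hh).pow_right k
  refine ⟨a⁻¹ • x0, a • x0, ?_, fun h hh => ⟨?_, ?_⟩⟩
  · rw [← W.iso a, smul_inv_smul, ← mul_smul, ha, ← pow_add, ← two_mul]; exact hK
  · have := (hca h hh).inv_right
    rw [← mul_smul, this.eq, mul_smul, W.iso]
  · rw [← mul_smul, (hca h hh).eq, mul_smul, W.iso]

/-- bound of the exponent -/
theorem exp_le (W : AT (G := G) P d δ A R B) (h1 : Stmt_FBC) {F : Subgroup G} (hF : Finite F)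
    {c : G} (hn : Nrm F c) (hc : Lox d c) {f : G} (hf : f ∈ F) {i : ℤ} {D : ℕ} {p : X}
    (hp : d p ((f * c ^ i) • p) ≤ D) : |i| ≤ (D * R : ℕ) := by
  obtain ⟨-, -, ⟨M, hM, -, hpow⟩, -⟩ := h1 G F c hF hn
  have e1 := hpow f hf i
  have h2 := IsoAux.le_mul W.dg W.iso (f * c ^ i) p M
  rw [e1] at h2
  have h3 := W.stab c hc p (i.natAbs * M)
  have h4 : d p (c ^ (i * M) • p) = d p (c ^ (i.natAbs * M) • p) := by
    rcases Int.natAbs_eq i with h | h
    · have e : c ^ (i * M) = c ^ (i.natAbs * M) := by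
        conv_lhs => rw [h]
        rw [← Nat.cast_mul, zpow_natCast]
      rw [e]
    · have e : c ^ (i * M) = (c ^ (i.natAbs * M))⁻¹ := by
        conv_lhs => rw [h]
        rw [neg_mul, ← Nat.cast_mul, zpow_neg, zpow_natCast]
      rw [e, ← W.iso (c ^ (i.natAbs * M)), smul_inv_smul, W.dg.symm]
  rw [h4] at h2
  have h5 : i.natAbs * M ≤ (D * R) * M := by
    calc i.natAbs * M ≤ R * d p (c ^ (i.natAbs * M) • p) := h3
      _ ≤ R * (M * d p ((f * c ^ i) • p)) := Nat.mul_le_mul_left _ h2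
      _ ≤ R * (M * D) := Nat.mul_le_mul_left _ (Nat.mul_le_mul_left _ hp)
      _ = (D * R) * M := by ring
  have h6 : i.natAbs ≤ D * R := Nat.le_of_mul_le_mul_right h5 hM
  rw [Int.abs_eq_natAbs]
  exact_mod_cast h6

end TCycB

open TCycB in
open Classical in
theorem TCycB_proof (E : EngT) (h1 : Stmt_FBC) (h2 : Stmt_FBL) (h3 : Stmt_TCycA) :
    Stmt_TCycB := by
  intro G X _ _ P d δ A R B W g hg h hh
  by_contra H
  push Not at H
  haveI := W.nonempty
  obtain ⟨x0⟩ := W.nonempty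
  have hdg := W.dg
  have hiso := W.iso
  obtain ⟨K, -, hK, hKc⟩ := h3 G X P d δ A R B W g hg
  have hgE : g ∈ Ep g := ⟨1, le_refl 1, by group⟩
  obtain ⟨m, hm, hc'⟩ := hh
  have hc : Commute h (g ^ m) := mul_inv_eq_iff_eq_mul.1 hc'
  have hh : h ∈ Ep g := ⟨m, hm, hc'⟩
  have hnorm : ∀ x ∈ Ep g, ∀ k ∈ K, x * k * x⁻¹ ∈ K := by
    intro x hx k hk
    have hkE : k ∈ Ep g := ((hK k).1 hk).1
    have e := hKc x⁻¹ ((Ep g).inv_mem hx) k⁻¹ ((Ep g).inv_mem hkE)
    have e2 := K.mul_mem e hk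
    have e3 : x⁻¹⁻¹ * k⁻¹⁻¹ * x⁻¹ * k⁻¹ * k = x * k * x⁻¹ := by group
    rwa [e3] at e2
  have hgK : ∀ k : ℤ, g ^ k ∈ K → k = 0 := by
    intro k hk
    by_contra hne
    exact ((hK _).1 hk).2 (lox_zpow W hg hne)
  have hH : ∀ (a : ℕ) (b : ℤ), 1 ≤ a → h ^ a * g ^ b ∉ K := by
    intro a b ha hmem
    have e : (g ^ (-b))⁻¹ = g ^ b := by rw [zpow_neg, inv_inv]
    have h4 := (hK _).1 hmem
    rw [← e] at h4
    exact h4.2 (H a (-b) ha h4.1)
  set D0 := d x0 (h • x0) + d x0 (g • x0) with hD0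
  set n := 12 * δ * R + 1 with hn
  set M := (4 * D0 + δ + 2) * n + 1 with hM
  set l := 2 * M * D0 with hl
  set u : ℕ × ℕ → G := fun p => h ^ p.1 * g ^ p.2 with hu
  have huE : ∀ p, u p ∈ Ep g := fun p =>
    (Ep g).mul_mem ((Ep g).pow_mem hh _) ((Ep g).pow_mem hgE _)
  have hinj : ∀ p q : ℕ × ℕ, (u q)⁻¹ * u p ∈ K → p = q := by
    have aux : ∀ a b a' b' : ℕ, a < a' → (h ^ a * g ^ b)⁻¹ * (h ^ a' * g ^ b') ∉ K := by
      intro a b a' b' hlt he
      have e1 := hnorm (g ^ b) ((Ep g).pow_mem hgE _) _ he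
      have e2 : g ^ b * ((h ^ a * g ^ b)⁻¹ * (h ^ a' * g ^ b')) * (g ^ b)⁻¹ =
          h ^ (a' - a) * g ^ ((b' : ℤ) - b) := by
        rw [zpow_sub, zpow_natCast, zpow_natCast]
        have e3 : h ^ a' = h ^ a * h ^ (a' - a) := by rw [← pow_add]; congr 1; omega
        rw [e3]
        group
      rw [e2] at e1
      exact hH (a' - a) _ (by omega) e1
    rintro ⟨a, b⟩ ⟨a', b'⟩ he
    simp only [hu] at he
    rcases lt_trichotomy a a' with hlt | rfl | hlt
    · have h5 := K.inv_mem he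
      have e : ((h ^ a' * g ^ b')⁻¹ * (h ^ a * g ^ b))⁻¹ =
        (h ^ a * g ^ b)⁻¹ * (h ^ a' * g ^ b') := by group
      rw [e] at h5
      exact absurd h5 (aux _ _ _ _ hlt)
    · have e : (h ^ a * g ^ b')⁻¹ * (h ^ a * g ^ b) = g ^ ((b : ℤ) - b') := by
        rw [mul_inv_rev, mul_assoc, inv_mul_cancel_left, zpow_sub, zpow_natCast, zpow_natCast]
        exact (Commute.refl g).pow_pow _ _ |>.inv_left |>.eq
      rw [e] at he
      have h5 := hgK _ he
      have : b = b' := by omega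
      rw [this]
    · exact absurd he (aux _ _ _ _ hlt)
  obtain ⟨x, y, hxy, hS⟩ := far W hg hm {w | ∃ p, w = u p} (by
    rintro _ ⟨p, rfl⟩
    exact (hc.pow_left _).mul_left ((Commute.refl g).pow_pow _ _)) x0 (2 * (l + δ + 1) + A)
  obtain ⟨γ, hγ⟩ := exists_geod W.dg x y
  set t0 := l + δ + 1 with ht0
  set t1 := l + δ + 1 + A with ht1
  have hsmall : ∀ p : ℕ × ℕ, p.1 < M → p.2 < M → d x (u p • x) ≤ l ∧ d y (u p • y) ≤ l := by
    intro p h1 h2
    obtain ⟨e1, e2⟩ := hS (u p) ⟨p, rfl⟩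
    have e3 : d x0 (u p • x0) ≤ l := by
      have t1 := hdg.tri x0 (h ^ p.1 • x0) (u p • x0)
      have t2 : d (h ^ p.1 • x0) (u p • x0) = d x0 (g ^ p.2 • x0) := by
        simp only [hu]; rw [mul_smul, hiso]
      have t3 := IsoAux.le_mul hdg hiso h x0 p.1
      have t4 := IsoAux.le_mul hdg hiso g x0 p.2
      have t5 : p.1 * d x0 (h • x0) ≤ M * D0 := Nat.mul_le_mul h1.le (by omega)
      have t6 : p.2 * d x0 (g • x0) ≤ M * D0 := Nat.mul_le_mul h2.le (by omega)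
      have t7 : l = M * D0 + M * D0 := by rw [hl]; ring
      omega
    omega
  set s : Finset (ℕ × ℕ) := Finset.range M ×ˢ Finset.range M with hs
  set f : ℕ × ℕ → ℕ := fun p => d x (u p • γ t0) with hf
  have hmaps : ∀ p ∈ s, f p ∈ Finset.range (2 * l + δ + 2) := by
    intro p hp
    rw [hs, Finset.mem_product, Finset.mem_range, Finset.mem_range] at hp
    obtain ⟨a1, a2⟩ := hsmall p hp.1 hp.2
    obtain ⟨b1, b2, -, -⟩ := w97_mid hdg W.hyp hiso hγ a1 a2 (t := t0) (by omega) (by omega)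
    rw [Finset.mem_range]
    simp only [hf]
    omega
  have hcard : (Finset.range (2 * l + δ + 2)).card * n < s.card := by
    rw [hs, Finset.card_product, Finset.card_range, Finset.card_range, hl]
    have hM1 : 1 ≤ M := by omega
    have e1 : (2 * (2 * M * D0) + δ + 2) * n ≤ M * ((4 * D0 + δ + 2) * n) := by
      have : 2 * (2 * M * D0) + δ + 2 ≤ M * (4 * D0 + δ + 2) := by nlinarith
      calc _ ≤ (M * (4 * D0 + δ + 2)) * n := Nat.mul_le_mul_right _ this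
        _ = _ := by ring
    calc _ ≤ M * ((4 * D0 + δ + 2) * n) := e1
      _ < M * M := Nat.mul_lt_mul_of_pos_left (by omega) hM1
  obtain ⟨v, -, hv⟩ := Finset.exists_lt_card_fiber_of_mul_lt_card_of_maps_to hmaps hcard
  set T := s.filter (fun p => f p = v) with hT
  have hTne : T.Nonempty := Finset.card_pos.1 (by omega)
  obtain ⟨p0, hp0⟩ := hTne
  have hmem : ∀ p ∈ T, p.1 < M ∧ p.2 < M ∧ d x (u p • γ t0) = v := by
    intro p hp
    rw [hT, Finset.mem_filter, hs, Finset.mem_product, Finset.mem_range, Finset.mem_range] at hp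
    exact ⟨hp.1.1, hp.1.2, hp.2⟩
  obtain ⟨F, c, hPF, hFc, hcl, hcc⟩ := W.acyl (γ t0) (γ t1) (by
    rw [hγ.2.2 t0 t1 (by omega) (by omega)]; omega)
  have hFfin := W.fin F hPF
  have hdist : ∀ p ∈ T, d (γ t0) (((u p0)⁻¹ * u p) • γ t0) ≤ 6 * δ ∧
      d (γ t1) (((u p0)⁻¹ * u p) • γ t1) ≤ 7 * δ := by
    intro p hp
    obtain ⟨a1, a2, a3⟩ := hmem p hp
    obtain ⟨b1, b2, b3⟩ := hmem p0 hp0
    obtain ⟨c1, c2⟩ := hsmall p a1 a2
    obtain ⟨d1, d2⟩ := hsmall p0 b1 b2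
    have move : ∀ q : X, d q (((u p0)⁻¹ * u p) • q) = d (u p0 • q) (u p • q) := fun q => by
      rw [← hiso (u p0) q, ← mul_smul, mul_inv_cancel_left]
    rw [move, move]
    constructor
    · obtain ⟨-, -, e1, -⟩ := w97_mid hdg W.hyp hiso hγ c1 c2 (t := t0) (by omega) (by omega)
      obtain ⟨-, -, e2, -⟩ := w97_mid hdg W.hyp hiso hγ d1 d2 (t := t0) (by omega) (by omega)
      rw [a3] at e1
      rw [b3] at e2
      have t1 := hdg.tri (u p0 • γ t0) (γ v) (u p • γ t0)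
      rw [hdg.symm (γ v)] at t1
      omega
    · obtain ⟨f1, f2, e1, -⟩ := w97_mid hdg W.hyp hiso hγ c1 c2 (t := t1) (by omega) (by omega)
      obtain ⟨f3, f4, e2, -⟩ := w97_mid hdg W.hyp hiso hγ d1 d2 (t := t1) (by omega) (by omega)
      obtain ⟨m1, m2⟩ := w97_mid_mono hdg W.hyp hiso hγ c1 c2 (s := t0) (t := t1) (by omega)
        (by omega) (by omega)
      obtain ⟨m3, m4⟩ := w97_mid_mono hdg W.hyp hiso hγ d1 d2 (s := t0) (t := t1) (by omega)
        (by omega) (by omega)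
      rw [a3] at m1 m2
      rw [b3] at m3 m4
      have e3 : d (γ (d x (u p0 • γ t1))) (γ (d x (u p • γ t1))) ≤ δ := by
        rcases le_total (d x (u p0 • γ t1)) (d x (u p • γ t1)) with hcs | hcs
        · rw [hγ.2.2 _ _ hcs (by omega)]; omega
        · rw [hdg.symm, hγ.2.2 _ _ hcs (by omega)]; omega
      have t1' := hdg.tri (u p0 • γ t1) (γ (d x (u p0 • γ t1))) (u p • γ t1)
      have t2' := hdg.tri (γ (d x (u p0 • γ t1))) (γ (d x (u p • γ t1))) (u p • γ t1)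
      rw [hdg.symm (γ (d x (u p • γ t1))) (u p • γ t1)] at t2'
      omega
  have hexp : ∀ p ∈ T, ∃ i : ℤ, (∃ f ∈ F, (u p0)⁻¹ * u p = f * c ^ i) ∧
      |i| ≤ (6 * δ * R : ℕ) := by
    intro p hp
    obtain ⟨a1, a2⟩ := hdist p hp
    obtain ⟨f, hfF, i, hi⟩ := hcc _ (by omega : d (γ t0) (((u p0)⁻¹ * u p) • γ t0) ≤ 100 * δ)
      (by omega)
    rcases hcl with rfl | hcl
    · refine ⟨0, ⟨f, hfF, ?_⟩, by rw [abs_zero]; exact Int.natCast_nonneg _⟩
      rw [hi]; simp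
    · refine ⟨i, ⟨f, hfF, hi⟩, ?_⟩
      rw [hi] at a1
      exact exp_le W h1 hFfin hFc hcl hfF a1
  choose! i hi using hexp
  have hle : T.card ≤ (Finset.Icc (-((6 * δ * R : ℕ) : ℤ)) ((6 * δ * R : ℕ) : ℤ)).card := by
    refine Finset.card_le_card_of_injOn i ?_ ?_
    · intro p hp
      have := (hi p hp).2
      rw [abs_le] at this
      simp only [Finset.coe_Icc, Set.mem_Icc]
      exact this
    · intro p hp q hq he
      apply hinj
      obtain ⟨f1, hf1, e1⟩ := (hi p hp).1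
      obtain ⟨f2, hf2, e2⟩ := (hi q hq).1
      rw [he] at e1
      -- (u p0)⁻¹ (u p) (u q)⁻¹ (u p0) = f1 f2⁻¹
      have e3 : (u p0)⁻¹ * (u p * (u q)⁻¹) * u p0 = f1 * f2⁻¹ := by
        calc (u p0)⁻¹ * (u p * (u q)⁻¹) * u p0 = ((u p0)⁻¹ * u p) * ((u p0)⁻¹ * u q)⁻¹ := by
              group
          _ = f1 * f2⁻¹ := by rw [e1, e2]; group
      have e4 : f1 * f2⁻¹ ∈ K := by
        rw [hK]
        refine ⟨?_, (h2 G X d hdg hiso W.nonempty F c hFfin hFc).1 _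
          (F.mul_mem hf1 (F.inv_mem hf2))⟩
        rw [← e3]
        exact (Ep g).mul_mem ((Ep g).mul_mem ((Ep g).inv_mem (huE _))
          ((Ep g).mul_mem (huE _) ((Ep g).inv_mem (huE _)))) (huE _)
      have e5 := hnorm ((u q)⁻¹ * u p0) ((Ep g).mul_mem ((Ep g).inv_mem (huE _)) (huE _)) _ e4
      have e6 : (u q)⁻¹ * u p0 * (f1 * f2⁻¹) * ((u q)⁻¹ * u p0)⁻¹ = (u q)⁻¹ * u p := by
        rw [← e3]; group
      rwa [e6] at e5
  rw [Int.card_Icc] at hle
  have : 6 * δ * R + 6 * δ * R = 12 * δ * R := by ring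
  omega

end Pool.Agent.BT
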