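import Pool.Agent.BT.Stmts

/-! BT, module TEl: elementary groups. -/

namespace Pool.Agent.BT

open Pool.Agent.BURN

namespace TEl

theorem not_lox_one {G X : Type} [Group G] [MulAction G X] {d : X → X → ℕ} (hd : IsDG d)
    [hX : Nonempty X] : ¬ Lox d (1 : G) := by
  intro h
  obtain ⟨x⟩ := hX
  obtain ⟨m, hm⟩ := h x 0
  rw [one_pow, one_smul, (hd.eq_zero x x).mpr rfl] at hm
  exact lt_irrefl 0 hm

/-- integer exponents in the definition of `Ep` -/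
theorem mem_Ep_z {G : Type} [Group G] {g h : G} :
    h ∈ Ep g ↔ ∃ m : ℤ, m ≠ 0 ∧ h * g ^ m * h⁻¹ = g ^ m := by
  constructor
  · rintro ⟨m, hm, h1⟩
    refine ⟨m, by omega, ?_⟩
    rw [zpow_natCast]
    exact h1
  · rintro ⟨m, hm, h1⟩
    rcases Int.natAbs_eq m with h2 | h2
    · refine ⟨m.natAbs, by omega, ?_⟩
      rw [h2, zpow_natCast] at h1
      exact h1
    · refine ⟨m.natAbs, by omega, ?_⟩
      rw [h2, zpow_neg, zpow_natCast] at h1
      have h4 : h * g ^ m.natAbs * h⁻¹ = (h * (g ^ m.natAbs)⁻¹ * h⁻¹)⁻¹ := by group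
      rw [h4, h1, inv_inv]

theorem mem_El_z {G : Type} [Group G] {g h : G} :
    h ∈ El g ↔ ∃ m : ℤ, m ≠ 0 ∧ (h * g ^ m * h⁻¹ = g ^ m ∨ h * g ^ m * h⁻¹ = (g ^ m)⁻¹) := by
  constructor
  · rintro ⟨m, hm, h1⟩
    refine ⟨m, by omega, ?_⟩
    rw [zpow_natCast]
    exact h1
  · rintro ⟨m, hm, h1⟩
    rcases Int.natAbs_eq m with h2 | h2
    · refine ⟨m.natAbs, by omega, ?_⟩
      rw [h2, zpow_natCast] at h1
      exact h1
    · refine ⟨m.natAbs, by omega, ?_⟩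
      rw [h2, zpow_neg, zpow_natCast, inv_inv] at h1
      have h4 : h * g ^ m.natAbs * h⁻¹ = (h * (g ^ m.natAbs)⁻¹ * h⁻¹)⁻¹ := by group
      rcases h1 with h1 | h1
      · left
        rw [h4, h1, inv_inv]
      · right
        rw [h4, h1]

theorem Ep_le_El {G : Type} [Group G] {g h : G} (hh : h ∈ Ep g) : h ∈ El g := by
  obtain ⟨m, hm, h1⟩ := hh
  exact ⟨m, hm, Or.inl h1⟩

theorem self_mem_Ep {G : Type} [Group G] (g : G) : g ∈ Ep g :=
  ⟨1, le_refl 1, by simp⟩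

theorem conj_zp {G : Type} [Group G] (h y : G) (a : ℤ) : h * y ^ a * h⁻¹ = (h * y * h⁻¹) ^ a :=
  (conj_zpow).symm

/-- commensurable elements have the same elementary groups -/
theorem sub_of_comm {G : Type} [Group G] {g g' : G} {a b : ℤ} (ha : a ≠ 0) (hb : b ≠ 0)
    (h : g ^ a = g' ^ b) : (∀ x, x ∈ Ep g → x ∈ Ep g') ∧ ∀ x, x ∈ El g → x ∈ El g' := by
  constructor
  · intro x hx
    obtain ⟨m, hm, h1⟩ := mem_Ep_z.mp hx
    refine mem_Ep_z.mpr ⟨b * m, mul_ne_zero hb hm, ?_⟩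
    rw [zpow_mul, ← h, ← zpow_mul, mul_comm a m, zpow_mul, conj_zp, h1]
  · intro x hx
    obtain ⟨m, hm, h1⟩ := mem_El_z.mp hx
    refine mem_El_z.mpr ⟨b * m, mul_ne_zero hb hm, ?_⟩
    rw [zpow_mul, ← h, ← zpow_mul, mul_comm a m, zpow_mul, conj_zp]
    rcases h1 with h1 | h1
    · left; rw [h1]
    · right; rw [h1, inv_zpow]

theorem eq_of_comm {G : Type} [Group G] {g g' : G} {a b : ℤ} (ha : a ≠ 0) (hb : b ≠ 0)
    (h : g ^ a = g' ^ b) : Ep g = Ep g' ∧ El g = El g' := by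
  have h1 := sub_of_comm ha hb h
  have h2 := sub_of_comm hb ha h.symm
  exact ⟨Subgroup.ext fun x => ⟨h1.1 x, h2.1 x⟩, Subgroup.ext fun x => ⟨h1.2 x, h2.2 x⟩⟩

section main

variable {G X : Type} [Group G] [MulAction G X] {P : Subgroup G → Prop}
  {d : X → X → ℕ} {δ A R B : ℕ}

/-- stable length of loxodromic elements is positive -/
theorem slen_pos (E : EngT) (S : AT (G := G) P d δ A R B) {g : G} (hg : Lox d g) (x : X) :
    0 < slen d x g := by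
  have h1 := (E.slen G X d S.dg S.iso).1 x g
  have hR : 1 ≤ R := by
    have h2 := S.stab g hg x 1
    by_contra hc
    have h3 : R = 0 := by omega
    rw [h3, Nat.zero_mul] at h2
    omega
  have hR' : (0:ℝ) < R := by exact_mod_cast hR
  have h3 : (1:ℝ) / R ≤ slen d x g := by
    refine ge_of_tendsto h1 ?_
    filter_upwards [Filter.eventually_ge_atTop 1] with j hj
    have hj' : (0:ℝ) < j := by exact_mod_cast hj
    rw [div_le_div_iff₀ hR' hj', one_mul]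
    have h4 := S.stab g hg x j
    have h5 : ((j : ℕ) : ℝ) ≤ ((R * d x (g ^ j • x) : ℕ) : ℝ) := by exact_mod_cast h4
    rw [Nat.cast_mul] at h5
    linarith [mul_comm (R:ℝ) (d x (g ^ j • x) : ℝ)]
  exact lt_of_lt_of_le (by positivity) h3

theorem lox_zpow (E : EngT) (S : AT (G := G) P d δ A R B) (g : G) {k : ℤ} (hk : k ≠ 0) :
    Lox d (g ^ k) ↔ Lox d g :=
  (E.slen G X d S.dg S.iso).2.2.2.2.2.1 g k hk

theorem lox_conj (E : EngT) (S : AT (G := G) P d δ A R B) (g h : G) :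
    Lox d (h * g * h⁻¹) ↔ Lox d g :=
  (E.slen G X d S.dg S.iso).2.2.2.2.2.2.1 g h

theorem zpow_ne_one (E : EngT) (S : AT (G := G) P d δ A R B) {g : G} (hg : Lox d g) {k : ℤ}
    (hk : k ≠ 0) : g ^ k ≠ 1 := by
  intro h
  have h1 := (lox_zpow E S g hk).mpr hg
  rw [h] at h1
  have := S.nonempty
  exact not_lox_one S.dg h1

/-- two loxodromic elements of `Ep g` are commensurable -/
theorem comm_Ep (h1 : Stmt_FBC) (h2 : Stmt_FBL) (h3 : Stmt_TCyc)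
    (S : AT (G := G) P d δ A R B) {g u v : G} (hg : Lox d g) (hu : Lox d u) (hv : Lox d v)
    (hu' : u ∈ Ep g) (hv' : v ∈ Ep g) : ∃ a b : ℤ, a ≠ 0 ∧ b ≠ 0 ∧ u ^ a = v ^ b := by
  obtain ⟨K, w, hPK, hw, hn, hK, hE, -⟩ := h3 G X P d δ A R B S g hg
  have hfin : Finite K := S.fin K hPK
  obtain ⟨f, hf, i, hi⟩ := (hE u).mp hu'
  obtain ⟨f', hf', j, hj⟩ := (hE v).mp hv'
  obtain ⟨-, -, ⟨M, hM, -, hMp⟩, -⟩ := h1 G K w hfin hn
  have hlox := ((h2 G X d S.dg S.iso S.nonempty K w hfin hn).2 hw).1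
  have hi0 : i ≠ 0 := (hlox f hf i).mp (by rw [← hi]; exact hu)
  have hj0 : j ≠ 0 := (hlox f' hf' j).mp (by rw [← hj]; exact hv)
  have hM0 : (M : ℤ) ≠ 0 := by omega
  refine ⟨M * j, M * i, mul_ne_zero hM0 hj0, mul_ne_zero hM0 hi0, ?_⟩
  have e1 : u ^ (M : ℤ) = w ^ (i * M) := by
    rw [hi, zpow_natCast]
    exact hMp f hf i
  have e2 : v ^ (M : ℤ) = w ^ (j * M) := by
    rw [hj, zpow_natCast]
    exact hMp f' hf' j
  have e3 : u ^ ((M:ℤ) * j) = w ^ (i * M * j) := by rw [zpow_mul, e1, ← zpow_mul]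
  have e4 : v ^ ((M:ℤ) * i) = w ^ (j * M * i) := by rw [zpow_mul, e2, ← zpow_mul]
  have e5 : i * (M:ℤ) * j = j * M * i := by ring
  rw [e3, e4, e5]

theorem part1 (E : EngT) (h1 : Stmt_FBC) (h2 : Stmt_FBL) (h3 : Stmt_TCyc)
    (S : AT (G := G) P d δ A R B) {g g' : G} (hg : Lox d g) (hg' : Lox d g') (hm : g' ∈ El g) :
    g' ∈ Ep g ∧ Ep g' = Ep g ∧ El g' = El g := by
  have hEp : g' ∈ Ep g := by
    obtain ⟨m, hm1, hm2⟩ := hm
    rcases hm2 with hm2 | hm2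
    · exact ⟨m, hm1, hm2⟩
    · exfalso
      have hu : g' ^ (2:ℤ) ∈ Ep g := by
        refine ⟨m, hm1, ?_⟩
        have e1 : g' ^ (2:ℤ) * g ^ m * (g' ^ (2:ℤ))⁻¹ = g' * (g' * g ^ m * g'⁻¹) * g'⁻¹ := by
          rw [zpow_two]; group
        have e2 : g' * (g ^ m)⁻¹ * g'⁻¹ = (g' * g ^ m * g'⁻¹)⁻¹ := by group
        rw [e1, hm2, e2, hm2, inv_inv]
      have hul : Lox d (g' ^ (2:ℤ)) := (lox_zpow E S g' (by norm_num)).mpr hg'
      obtain ⟨a, b, ha, hb, hab⟩ := comm_Ep h1 h2 h3 S hg hul hg hu (self_mem_Ep g)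
      -- g' commutes with g ^ b
      have hc : g' * g ^ b * g'⁻¹ = g ^ b := by
        rw [← hab, ← zpow_mul]
        group
      have hc2 : g' * g ^ (b * (m:ℤ)) * g'⁻¹ = g ^ (b * (m:ℤ)) := by
        rw [zpow_mul, conj_zp, hc]
      have hc3 : g' * g ^ (b * (m:ℤ)) * g'⁻¹ = (g ^ (b * (m:ℤ)))⁻¹ := by
        rw [mul_comm b (m:ℤ), zpow_mul, conj_zp, zpow_natCast, hm2, inv_zpow]
      rw [hc2] at hc3
      have hc4 : g ^ (b * (m:ℤ) + b * (m:ℤ)) = 1 := by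
        rw [zpow_add]
        nth_rewrite 1 [hc3]
        group
      have hm0 : (m : ℤ) ≠ 0 := by omega
      have hne : b * (m:ℤ) + b * (m:ℤ) ≠ 0 := by
        have := mul_ne_zero hb hm0
        omega
      exact zpow_ne_one E S hg hne hc4
  obtain ⟨a, b, ha, hb, hab⟩ := comm_Ep h1 h2 h3 S hg hg' hg hEp (self_mem_Ep g)
  exact ⟨hEp, eq_of_comm ha hb hab⟩

theorem not_Ep {g h : G} (hh : h ∈ El g) (hn : h ∉ Ep g) :
    ∃ m : ℕ, 1 ≤ m ∧ h * g ^ m * h⁻¹ = (g ^ m)⁻¹ := by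
  obtain ⟨m, hm, h1 | h1⟩ := hh
  · exact absurd ⟨m, hm, h1⟩ hn
  · exact ⟨m, hm, h1⟩

theorem part4 {g h h' : G} (hh : h ∈ El g) (hn : h ∉ Ep g) (hh' : h' ∈ El g) (hn' : h' ∉ Ep g) :
    h * h' ∈ Ep g := by
  obtain ⟨m, hm, h1⟩ := not_Ep hh hn
  obtain ⟨k, hk, h2⟩ := not_Ep hh' hn'
  refine ⟨m * k, Nat.mul_pos hm hk, ?_⟩
  have e1 : h' * g ^ (m * k) * h'⁻¹ = (g ^ (m * k))⁻¹ := by
    rw [mul_comm m k, pow_mul, ← conj_pow, h2, inv_pow]
  have e2 : h * g ^ (m * k) * h⁻¹ = (g ^ (m * k))⁻¹ := by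
    rw [pow_mul, ← conj_pow, h1, inv_pow]
  have e3 : h * (g ^ (m * k))⁻¹ * h⁻¹ = (h * g ^ (m * k) * h⁻¹)⁻¹ := by group
  calc h * h' * g ^ (m * k) * (h * h')⁻¹ = h * (h' * g ^ (m * k) * h'⁻¹) * h⁻¹ := by group
    _ = g ^ (m * k) := by rw [e1, e3, e2, inv_inv]

theorem part6 (g h : G) : IsCj h (El g) (El (h * g * h⁻¹)) ∧ IsCj h (Ep g) (Ep (h * g * h⁻¹)) := by
  have key : ∀ (x y : G) (m : ℕ), h⁻¹ * x * h * g ^ m * (h⁻¹ * x * h)⁻¹ = y ↔
      x * (h * g * h⁻¹) ^ m * x⁻¹ = h * y * h⁻¹ := by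
    intro x y m
    rw [conj_pow]
    constructor
    · intro e
      rw [← e]
      group
    · intro e
      have : y = h⁻¹ * (h * y * h⁻¹) * h := by group
      rw [this, ← e]
      group
  have e1 : ∀ m : ℕ, h * g ^ m * h⁻¹ = (h * g * h⁻¹) ^ m := fun m => conj_pow.symm
  have e2 : ∀ m : ℕ, h * (g ^ m)⁻¹ * h⁻¹ = ((h * g * h⁻¹) ^ m)⁻¹ := fun m => by
    rw [← e1]; group
  constructor
  · intro x
    constructor
    · rintro ⟨m, hm, hx⟩
      refine ⟨m, hm, ?_⟩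
      rw [key, key, e1, e2]
      exact hx
    · rintro ⟨m, hm, hx⟩
      refine ⟨m, hm, ?_⟩
      rw [key, key, e1, e2] at hx
      exact hx
  · intro x
    constructor
    · rintro ⟨m, hm, hx⟩
      refine ⟨m, hm, ?_⟩
      rw [key, e1]
      exact hx
    · rintro ⟨m, hm, hx⟩
      refine ⟨m, hm, ?_⟩
      rw [key, e1] at hx
      exact hx

theorem part5 (E : EngT) (h1 : Stmt_FBC) (h2 : Stmt_FBL) (h3 : Stmt_TCyc)
    (S : AT (G := G) P d δ A R B) {g h x : G} (hg : Lox d g) (hx : Lox d x) (hxg : x ∈ El g)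
    (hc : h * x * h⁻¹ ∈ El g) : h ∈ El g := by
  obtain ⟨q1, q2, q3⟩ := part1 E h1 h2 h3 S hg hx hxg
  have hxl : Lox d (h * x * h⁻¹) := (lox_conj E S x h).mpr hx
  obtain ⟨r1, r2, r3⟩ := part1 E h1 h2 h3 S hg hxl hc
  obtain ⟨a, b, ha, hb, hab⟩ := comm_Ep h1 h2 h3 S hg hxl hx r1 q1
  rw [← conj_zp] at hab
  have y0 : X := S.nonempty.some
  have hsl := E.slen G X d S.dg S.iso
  have l1 : slen d y0 (h * x ^ a * h⁻¹) = |(a:ℝ)| * slen d y0 x := by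
    rw [hsl.2.2.1, hsl.2.2.2.1]
  have l2 : slen d y0 (x ^ b) = |(b:ℝ)| * slen d y0 x := hsl.2.2.2.1 y0 x b
  have hpos := slen_pos E S hx y0
  have l3 : |(a:ℝ)| = |(b:ℝ)| := by
    rw [hab, l2] at l1
    exact (mul_right_cancel₀ hpos.ne' l1).symm
  have l4 : |a| = |b| := by exact_mod_cast l3
  rw [← q3]
  refine mem_El_z.mpr ⟨a, ha, ?_⟩
  rcases abs_eq_abs.mp l4 with h5 | h5
  · left
    rw [hab, h5]
  · right
    have h6 : b = -a := by omega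
    rw [hab, h6, zpow_neg]

theorem part8 (E : EngT) (h1 : Stmt_FBC) (h2 : Stmt_FBL) (h3 : Stmt_TCyc)
    (S : AT (G := G) P d δ A R B) {g : G} (hg : Lox d g) (H : Subgroup G) (hH : H ≤ El g)
    (hn : ∀ h ∈ H, ¬ Lox d h) : Finite H ∧
    ∃ K : Subgroup G, P K ∧ (Nat.card H = Nat.card K ∨ Nat.card H = 2 * Nat.card K) := by
  obtain ⟨K0, w, hPK, hw, hnr, hK, hE, -⟩ := h3 G X P d δ A R B S g hg
  have hfin0 : Finite K0 := S.fin K0 hPK
  have hle : H ⊓ Ep g ≤ K0 := fun x hx => (hK x).mpr ⟨hx.2, hn x hx.1⟩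
  have hPK' : P (H ⊓ Ep g) := S.sub K0 _ hPK hle
  have hfin : Finite (H ⊓ Ep g : Subgroup G) := S.fin _ hPK'
  by_cases hall : H ≤ Ep g
  · have e : H ⊓ Ep g = H := inf_eq_left.mpr hall
    rw [e] at hfin hPK'
    exact ⟨hfin, H, hPK', Or.inl rfl⟩
  · obtain ⟨s, hs, hs'⟩ := SetLike.not_le_iff_exists.mp hall
    have hidx : ((H ⊓ Ep g).subgroupOf H).index = 2 := by
      rw [Subgroup.index_eq_two_iff]
      refine ⟨⟨s, hs⟩, fun b => ?_⟩
      simp only [Subgroup.mem_subgroupOf, Subgroup.mem_inf, Subgroup.coe_mul]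
      by_cases hb : (b : G) ∈ Ep g
      · right
        refine ⟨⟨b.2, hb⟩, fun hc => hs' ?_⟩
        have : s = (b : G)⁻¹ * ((b : G) * s) := by group
        rw [this]
        exact (Ep g).mul_mem ((Ep g).inv_mem hb) hc.2
      · left
        refine ⟨⟨H.mul_mem b.2 hs, part4 (hH b.2) hb (hH hs) hs'⟩, fun hc => hb hc.2⟩
    have hcard := Subgroup.card_mul_index ((H ⊓ Ep g).subgroupOf H)
    rw [hidx] at hcard
    have hcK : Nat.card ((H ⊓ Ep g).subgroupOf H) = Nat.card (H ⊓ Ep g : Subgroup G) :=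
      Nat.card_congr (Subgroup.subgroupOfEquivOfLe (inf_le_left : H ⊓ Ep g ≤ H)).toEquiv
    rw [hcK] at hcard
    have hpos : 0 < Nat.card (H ⊓ Ep g : Subgroup G) := Nat.card_pos
    refine ⟨Nat.finite_of_card_ne_zero (by omega), H ⊓ Ep g, hPK', Or.inr (by omega)⟩

end main

end TEl

open TEl in
theorem TEl_proof (E : EngT) (h1 : Stmt_FBC) (h2 : Stmt_FBL) (h3 : Stmt_TCyc) : Stmt_TEl := by
  intro G X _ _ P d δ A R B S
  refine ⟨fun g g' hg hg' hm => part1 E h1 h2 h3 S hg hg' hm, ?_, ?_,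
    fun g h h' a b c e => part4 a b c e, fun g h x hg hx hxg hc => part5 E h1 h2 h3 S hg hx hxg hc,
    fun g h => part6 g h, ?_, fun g hg H hH hn => part8 E h1 h2 h3 S hg H hH hn⟩
  · intro g g' hg hg' hm
    have h := (part1 E h1 h2 h3 S hg hg' hm).1
    exact comm_Ep h1 h2 h3 S hg hg hg' (self_mem_Ep g) h
  · intro g h hg hh hn
    have hl : ¬ Lox d h := fun hl => hn (part1 E h1 h2 h3 S hg hl hh).1
    refine ⟨hl, part4 hh hn hh hn, fun hl2 => hl ?_⟩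
    have e : h * h = h ^ (2:ℤ) := (zpow_two h).symm
    rw [e] at hl2
    exact (lox_zpow E S h (by norm_num)).mp hl2
  · intro g g' x hg hg' hx hxg hxg'
    obtain ⟨-, a1, a2⟩ := part1 E h1 h2 h3 S hg hx hxg
    obtain ⟨-, b1, b2⟩ := part1 E h1 h2 h3 S hg' hx hxg'
    exact ⟨by rw [← a2, b2], by rw [← a1, b1]⟩

end Pool.Agent.BT
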