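import Pool.Agent.BT.Stmts

/-! BT, module TEND: the two ends of an element with linear growth -/

namespace Pool.Agent.BT

open Pool.Agent.BURN

namespace TEnd_

variable {X : Type} {d : X → X → ℕ}

theorem gp_addT (hd : IsDG d) (x y z : X) : gp d x y z + d x y = d x z + d y z := by
  unfold gp
  have h1 := hd.tri x z y
  rw [hd.symm z y] at h1
  omega

theorem gp_leT (hd : IsDG d) (x y z x' y' z' : X) :
    gp d x' y' z' ≤ gp d x y z + 2 * (d x x' + d y y' + d z z') := by
  have h1 := gp_addT hd x y z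
  have h2 := gp_addT hd x' y' z'
  have h3 := hd.tri x' x z'
  have h4 := hd.tri x z z'
  have h5 := hd.tri y' y z'
  have h6 := hd.tri y z z'
  have h7 := hd.tri x x' y
  have h8 := hd.tri x' y' y
  have h9 := hd.symm x x'
  have h10 := hd.symm y y'
  omega

/-- a bound for finitely many distances -/
theorem bdd (f : ℕ → ℕ) (N : ℕ) : ∃ D, ∀ r, r < N → f r ≤ D :=
  ⟨(Finset.range N).sup f, fun r hr => Finset.le_sup (f := f) (Finset.mem_range.mpr hr)⟩

end TEnd_

open TEnd_ in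
theorem tend_proof (E : EngT) : Stmt_TEnd := by
  intro G X _ _ d δ R hd hyp hδ hiso g hR o o' z
  classical
  have hRpos : 1 ≤ R := by
    have h := hR o 1
    rcases Nat.eq_zero_or_pos R with h0 | h0
    · rw [h0] at h
      omega
    · exact h0
  obtain ⟨N, hN⟩ : ∃ N, N = R * (16 * δ + 2) := ⟨_, rfl⟩
  have hNpos : 1 ≤ N := by
    rw [hN]
    exact Nat.mul_pos hRpos (by omega)
  obtain ⟨h, hh⟩ : ∃ h, h = g ^ N := ⟨_, rfl⟩
  -- displacement of powers of h
  have hdisp : ∀ (y : X) (n : ℕ), (16 * δ + 2) * n ≤ d y (h ^ n • y) := by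
    intro y n
    have h1 := hR y (N * n)
    rw [pow_mul, ← hh, hN] at h1
    have h2 : R * ((16 * δ + 2) * n) ≤ R * d y (h ^ n • y) := by
      calc R * ((16 * δ + 2) * n) = R * (16 * δ + 2) * n := by ring
        _ ≤ _ := h1
    exact Nat.le_of_mul_le_mul_left h2 hRpos
  -- minimal displacement
  have hex : ∃ m, ∃ y : X, d y (h • y) = m := ⟨_, o, rfl⟩
  obtain ⟨x, hx⟩ := Nat.find_spec hex
  have hmin : ∀ y, Nat.find hex ≤ d y (h • y) := fun y => Nat.find_min' hex ⟨y, rfl⟩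
  have hm : 16 * δ + 2 ≤ Nat.find hex := by
    have h1 := hdisp x 1
    rw [pow_one, hx, mul_one] at h1
    exact h1
  have hax := (E.axis G X d δ (Nat.find hex) hd hyp hiso hm h x hx hmin).1
  -- nonnegative powers
  have haxn : ∀ i j : ℕ, gp d ((h ^ i)⁻¹ • x) (h ^ j • x) x ≤ 4 * δ := by
    intro i j
    rcases Nat.eq_zero_or_pos i with hi | hi
    · subst hi
      have h1 := gp_addT hd ((h ^ 0)⁻¹ • x) (h ^ j • x) x
      rw [pow_zero, inv_one, one_smul] at h1 ⊢
      have h2 := hd.symm x (h ^ j • x)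
      have h3 := (hd.eq_zero x x).mpr rfl
      omega
    rcases Nat.eq_zero_or_pos j with hj | hj
    · subst hj
      have h1 := gp_addT hd ((h ^ i)⁻¹ • x) (h ^ 0 • x) x
      rw [pow_zero, one_smul] at h1 ⊢
      have h3 := (hd.eq_zero x x).mpr rfl
      omega
    have h1 := hax (-(i : ℤ)) (j : ℤ) 0 (by omega) (by omega)
    rw [zpow_neg, zpow_natCast, zpow_natCast, zpow_zero, one_smul] at h1
    exact h1
  have haxp : ∀ n i : ℕ, 0 < n → n < i → gp d x (h ^ i • x) (h ^ n • x) ≤ 4 * δ := by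
    intro n i hn hi
    have h1 := hax 0 (i : ℤ) (n : ℤ) (by omega) (by omega)
    rw [zpow_natCast, zpow_natCast, zpow_zero, one_smul] at h1
    exact h1
  -- distances of orbit points
  obtain ⟨D1, hD1⟩ := bdd (fun r => d (g ^ r • o) x) N
  obtain ⟨D2, hD2⟩ := bdd (fun r => d (g ^ r • o') x) N
  obtain ⟨D3, hD3⟩ := bdd (fun r => d ((g ^ r)⁻¹ • o) x) N
  have hdec : ∀ k, g ^ k = h ^ (k / N) * g ^ (k % N) := by
    intro k
    rw [hh, ← pow_mul, ← pow_add]
    congr 1
    exact (Nat.div_add_mod k N).symm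
  have hdec' : ∀ k, (g ^ k)⁻¹ = (h ^ (k / N))⁻¹ * (g ^ (k % N))⁻¹ := by
    intro k
    rw [← mul_inv_rev, hh, ← pow_mul, ← pow_add]
    congr 2
    have := Nat.div_add_mod k N
    omega
  have hmod : ∀ k, k % N < N := fun k => Nat.mod_lt k hNpos
  have hnear : ∀ k, d (h ^ (k / N) • x) (g ^ k • o) ≤ D1 := by
    intro k
    rw [hd.symm, hdec k, mul_smul, hiso]
    exact hD1 _ (hmod k)
  have hnear' : ∀ k, d (h ^ (k / N) • x) (g ^ k • o') ≤ D2 := by
    intro k
    rw [hd.symm, hdec k, mul_smul, hiso]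
    exact hD2 _ (hmod k)
  have hnear3 : ∀ k, d ((h ^ (k / N))⁻¹ • x) ((g ^ k)⁻¹ • o) ≤ D3 := by
    intro k
    rw [hd.symm, hdec' k, mul_smul, hiso]
    exact hD3 _ (hmod k)
  refine ⟨fun B => ?_, ⟨4 * δ + 2 * (D3 + D2 + d x z), fun k k' => ?_⟩⟩
  · obtain ⟨n, hn⟩ : ∃ n, n = B + 8 * δ + 2 * (D1 + D2 + d x z) + 1 := ⟨_, rfl⟩
    refine ⟨N * (n + 1), fun k k' hk hk' => ?_⟩
    have hq : n < k / N := by
      have h1 : N * (n + 1) / N ≤ k / N := Nat.div_le_div_right hk
      rw [Nat.mul_div_cancel_left _ hNpos] at h1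
      omega
    have hq' : n < k' / N := by
      have h1 : N * (n + 1) / N ≤ k' / N := Nat.div_le_div_right hk'
      rw [Nat.mul_div_cancel_left _ hNpos] at h1
      omega
    have hn0 : 0 < n := by omega
    have h1 := haxp n (k / N) hn0 hq
    have h2 := haxp n (k' / N) hn0 hq'
    have h3 := gp_addT hd x (h ^ (k / N) • x) (h ^ n • x)
    have h4 := gp_addT hd x (h ^ (k' / N) • x) (h ^ n • x)
    have h5 := hd.tri (h ^ (k / N) • x) (h ^ n • x) (h ^ (k' / N) • x)
    have h6 := gp_addT hd (h ^ (k / N) • x) (h ^ (k' / N) • x) x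
    have h7 := hd.symm (h ^ (k' / N) • x) (h ^ n • x)
    have h8 := hd.symm x (h ^ (k / N) • x)
    have h9 := hd.symm x (h ^ (k' / N) • x)
    have h10 : n ≤ d x (h ^ n • x) := by
      have h11 := hdisp x n
      have h12 : 1 * n ≤ (16 * δ + 2) * n := Nat.mul_le_mul_right n (by omega)
      omega
    have h13 := gp_leT hd (g ^ k • o) (g ^ k' • o') z (h ^ (k / N) • x) (h ^ (k' / N) • x) x
    have h14 := hnear k
    have h15 := hnear' k'
    rw [hd.symm] at h14 h15
    have h16 := hd.symm z x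
    omega
  · have h1 := haxn (k / N) (k' / N)
    have h2 := gp_leT hd ((h ^ (k / N))⁻¹ • x) (h ^ (k' / N) • x) x ((g ^ k)⁻¹ • o)
      (g ^ k' • o') z
    have h3 := hnear3 k
    have h4 := hnear' k'
    omega

end Pool.Agent.BT
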