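import Pool.Agent.BT.Stmts

/-! BT, module TExt: labels extend to elementary groups. -/

namespace Pool.Agent.BT

open Pool.Agent.BURN

namespace TExt

/-- the subgroup K ∪ tK -/
def Kt {G : Type} [Group G] (K : Subgroup G) (t : G) (h1 : ∀ k ∈ K, t * k * t⁻¹ ∈ K)
    (h2 : ∀ k ∈ K, t⁻¹ * k * t ∈ K) (h3 : t * t ∈ K) : Subgroup G where
  carrier := {x | x ∈ K ∨ t⁻¹ * x ∈ K}
  one_mem' := Or.inl K.one_mem
  mul_mem' := by
    rintro x y (hx | hx) (hy | hy)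
    · exact Or.inl (K.mul_mem hx hy)
    · right
      have e : t⁻¹ * (x * y) = (t⁻¹ * x * t) * (t⁻¹ * y) := by group
      rw [e]
      exact K.mul_mem (h2 x hx) hy
    · right
      have e : t⁻¹ * (x * y) = (t⁻¹ * x) * y := by group
      rw [e]
      exact K.mul_mem hx hy
    · left
      have e : x * y = (t * (t⁻¹ * x) * t⁻¹) * (t * t) * (t⁻¹ * y) := by group
      rw [e]
      exact K.mul_mem (K.mul_mem (h1 _ hx) h3) hy
  inv_mem' := by
    rintro x (hx | hx)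
    · exact Or.inl (K.inv_mem hx)
    · right
      have e : t⁻¹ * x⁻¹ = ((t * (t⁻¹ * x) * t⁻¹) * (t * t))⁻¹ := by group
      rw [e]
      exact K.inv_mem (K.mul_mem (h1 _ hx) h3)

section homs

variable {G S : Type} [Group G] [Group S]

/-- homomorphism on a subgroup -/
def HO (H : Subgroup G) (φ : G → S) : Prop := ∀ a ∈ H, ∀ b ∈ H, φ (a * b) = φ a * φ b

lemma HO.one {H : Subgroup G} {φ : G → S} (h : HO H φ) : φ 1 = 1 := by
  have := h 1 H.one_mem 1 H.one_mem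
  rw [mul_one] at this
  exact left_eq_mul.1 this

lemma HO.inv {H : Subgroup G} {φ : G → S} (h : HO H φ) {x : G} (hx : x ∈ H) :
    φ x⁻¹ = (φ x)⁻¹ := by
  have := h x⁻¹ (H.inv_mem hx) x hx
  rw [inv_mul_cancel, h.one] at this
  exact eq_inv_of_mul_eq_one_left this.symm

lemma HO.zpow {H : Subgroup G} {φ : G → S} (h : HO H φ) {x : G} (hx : x ∈ H) (j : ℤ) :
    φ (x ^ j) = φ x ^ j := by
  let Φ : H →* S := MonoidHom.mk' (fun x : H => φ x) (fun a b => h a a.2 b b.2)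
  have e : Φ ⟨x, hx⟩ = φ x := rfl
  have := map_zpow Φ ⟨x, hx⟩ j
  rw [e] at this
  rw [← this]
  rfl

lemma HO.conj {H : Subgroup G} {φ : G → S} (h : HO H φ) {x y : G} (hx : x ∈ H) (hy : y ∈ H) :
    φ (x * y * x⁻¹) = φ x * φ y * (φ x)⁻¹ := by
  rw [h _ (H.mul_mem hx hy) _ (H.inv_mem hx), h _ hx _ hy, h.inv hx]

/-- extension to a semidirect product with an infinite cyclic group -/
lemma ext1 (K Ep : Subgroup G) (w : G) (hK : ∀ k ∈ K, w * k * w⁻¹ ∈ K)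
    (hK' : ∀ k ∈ K, w⁻¹ * k * w ∈ K) (hu : ∀ j : ℤ, w ^ j ∈ K → j = 0) (ψ : G → S)
    (hψ : HO K ψ) (σ : S) (hσ : ∀ k ∈ K, ψ (w * k * w⁻¹) = σ * ψ k * σ⁻¹)
    (hE : ∀ h, h ∈ Ep ↔ InFc K w h) :
    ∃ φ : G → S, HO Ep φ ∧ (∀ k ∈ K, φ k = ψ k) ∧ φ w = σ := by
  classical
  have hconj : ∀ j : ℤ, ∀ k ∈ K, w ^ j * k * (w ^ j)⁻¹ ∈ K ∧
      ψ (w ^ j * k * (w ^ j)⁻¹) = σ ^ j * ψ k * (σ ^ j)⁻¹ := by
    intro j
    induction j using Int.induction_on with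
    | zero => intro k hk; simpa using hk
    | succ i ih =>
      intro k hk
      obtain ⟨i1, i2⟩ := ih k hk
      have e : w ^ ((i : ℤ) + 1) * k * (w ^ ((i : ℤ) + 1))⁻¹ =
          w * (w ^ (i : ℤ) * k * (w ^ (i : ℤ))⁻¹) * w⁻¹ := by
        rw [add_comm, zpow_add, zpow_one]; group
      have e' : σ ^ ((i : ℤ) + 1) * ψ k * (σ ^ ((i : ℤ) + 1))⁻¹ =
          σ * (σ ^ (i : ℤ) * ψ k * (σ ^ (i : ℤ))⁻¹) * σ⁻¹ := by
        rw [add_comm, zpow_add, zpow_one]; group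
      rw [e, e']
      exact ⟨hK _ i1, by rw [hσ _ i1, i2]⟩
    | pred i ih =>
      intro k hk
      obtain ⟨i1, i2⟩ := ih k hk
      have e : w ^ (-(i : ℤ) - 1) * k * (w ^ (-(i : ℤ) - 1))⁻¹ =
          w⁻¹ * (w ^ (-(i : ℤ)) * k * (w ^ (-(i : ℤ)))⁻¹) * w := by
        rw [sub_eq_add_neg, add_comm, zpow_add, zpow_neg_one]; group
      have e' : σ ^ (-(i : ℤ) - 1) * ψ k * (σ ^ (-(i : ℤ) - 1))⁻¹ =
          σ⁻¹ * (σ ^ (-(i : ℤ)) * ψ k * (σ ^ (-(i : ℤ)))⁻¹) * σ := by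
        rw [sub_eq_add_neg, add_comm, zpow_add, zpow_neg_one]; group
      rw [e, e']
      refine ⟨hK' _ i1, ?_⟩
      have h1 := hσ _ (hK' _ i1)
      have e2 : w * (w⁻¹ * (w ^ (-(i : ℤ)) * k * (w ^ (-(i : ℤ)))⁻¹) * w) * w⁻¹ =
          w ^ (-(i : ℤ)) * k * (w ^ (-(i : ℤ)))⁻¹ := by group
      rw [e2, i2] at h1
      rw [h1]
      group
  let φ : G → S := fun x => if h : InFc K w x then ψ h.choose * σ ^ h.choose_spec.2.choose else 1
  have key : ∀ k ∈ K, ∀ j : ℤ, φ (k * w ^ j) = ψ k * σ ^ j := by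
    intro k hk j
    have h : InFc K w (k * w ^ j) := ⟨k, hk, j, rfl⟩
    have e : φ (k * w ^ j) = ψ h.choose * σ ^ h.choose_spec.2.choose := dif_pos h
    have hk' := h.choose_spec.1
    have hj' := h.choose_spec.2.choose_spec
    rw [e]
    generalize h.choose_spec.2.choose = j' at hj' ⊢
    generalize h.choose = k' at hk' hj' ⊢
    have e1 : w ^ (j - j') = k⁻¹ * k' := by
      rw [zpow_sub]
      have : w ^ j = k⁻¹ * (k' * w ^ j') := by rw [← hj']; group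
      rw [this]; group
    have e2 : j - j' = 0 := hu _ (by rw [e1]; exact K.mul_mem (K.inv_mem hk) hk')
    have e3 : j' = j := by omega
    subst e3
    have e4 : k = k' := mul_right_cancel hj'
    rw [e4]
  have hKφ : ∀ k ∈ K, φ k = ψ k := by
    intro k hk
    have := key k hk 0
    simpa using this
  have hwφ : φ w = σ := by
    have := key 1 K.one_mem 1
    rw [hψ.one] at this
    simpa using this
  refine ⟨φ, ?_, hKφ, hwφ⟩
  intro a ha b hb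
  obtain ⟨k, hk, j, rfl⟩ := (hE a).1 ha
  obtain ⟨k', hk', j', rfl⟩ := (hE b).1 hb
  obtain ⟨c1, c2⟩ := hconj j k' hk'
  have e : k * w ^ j * (k' * w ^ j') = (k * (w ^ j * k' * (w ^ j)⁻¹)) * w ^ (j + j') := by
    rw [zpow_add]; group
  rw [e, key _ (K.mul_mem hk c1), key _ hk, key _ hk', hψ _ hk _ c1, c2, zpow_add]
  group

/-- extension to an overgroup of index two -/
lemma ext2 (H E : Subgroup G) (s : G) (hs : s ∈ E) (hsH : s ∉ H)
    (h2 : ∀ a ∈ E, ∀ b ∈ E, a ∉ H → b ∉ H → a * b ∈ H) (φ₀ : G → S) (hφ : HO H φ₀) (τ : S)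
    (hτ2 : φ₀ (s * s) = τ * τ) (hHE : H ≤ E) (hτ : ∀ x ∈ H, φ₀ (s * x * s⁻¹) = τ * φ₀ x * τ⁻¹) :
    ∃ φ : G → S, HO E φ ∧ (∀ x ∈ H, φ x = φ₀ x) ∧ φ s = τ := by
  classical
  have hsi : s⁻¹ ∉ H := fun h => hsH (by simpa using H.inv_mem h)
  have hsiE : s⁻¹ ∈ E := E.inv_mem hs
  have hss : s * s ∈ H := h2 s hs s hs hsH hsH
  have hc1 : ∀ x ∈ H, s * x * s⁻¹ ∈ H := by
    intro x hx
    refine h2 _ (E.mul_mem hs (hHE hx)) _ hsiE (fun h => hsH ?_) hsi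
    have := H.mul_mem h (H.inv_mem hx)
    simpa using this
  have hc2 : ∀ x ∈ H, s⁻¹ * x * s ∈ H := by
    intro x hx
    refine h2 _ (E.mul_mem hsiE (hHE hx)) _ hs (fun h => hsi ?_) hsH
    have := H.mul_mem h (H.inv_mem hx)
    simpa using this
  let φ : G → S := fun x => if x ∈ H then φ₀ x else τ * φ₀ (s⁻¹ * x)
  have p1 : ∀ x ∈ H, φ x = φ₀ x := fun x hx => if_pos hx
  have p2 : ∀ x, x ∉ H → φ x = τ * φ₀ (s⁻¹ * x) := fun x hx => if_neg hx
  refine ⟨φ, ?_, p1, ?_⟩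
  · intro x hx y hy
    by_cases hxH : x ∈ H
    · by_cases hyH : y ∈ H
      · rw [p1 _ hxH, p1 _ hyH, p1 _ (H.mul_mem hxH hyH), hφ _ hxH _ hyH]
      · have hxy : x * y ∉ H := fun h => hyH (by
          have := H.mul_mem (H.inv_mem hxH) h
          simpa using this)
        have hy' : s⁻¹ * y ∈ H := h2 _ hsiE _ hy hsi hyH
        rw [p1 _ hxH, p2 _ hyH, p2 _ hxy]
        have e : s⁻¹ * (x * y) = (s⁻¹ * x * s) * (s⁻¹ * y) := by group
        rw [e, hφ _ (hc2 x hxH) _ hy']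
        have e2 := hτ _ (hc2 x hxH)
        have e3 : s * (s⁻¹ * x * s) * s⁻¹ = x := by group
        rw [e3] at e2
        rw [e2]
        group
    · have hx' : s⁻¹ * x ∈ H := h2 _ hsiE _ hx hsi hxH
      by_cases hyH : y ∈ H
      · have hxy : x * y ∉ H := fun h => hxH (by
          have := H.mul_mem h (H.inv_mem hyH)
          simpa using this)
        rw [p1 _ hyH, p2 _ hxH, p2 _ hxy]
        have e : s⁻¹ * (x * y) = (s⁻¹ * x) * y := by group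
        rw [e, hφ _ hx' _ hyH]
        group
      · have hxy : x * y ∈ H := h2 _ hx _ hy hxH hyH
        have hy' : s⁻¹ * y ∈ H := h2 _ hsiE _ hy hsi hyH
        rw [p2 _ hyH, p2 _ hxH, p1 _ hxy]
        have e : x * y = (s * (s⁻¹ * x) * s⁻¹) * (s * s) * (s⁻¹ * y) := by group
        rw [e, hφ _ (H.mul_mem (hc1 _ hx') hss) _ hy', hφ _ (hc1 _ hx') _ hss, hτ _ hx', hτ2]
        group
  · rw [p2 _ hsH, inv_mul_cancel, hφ.one, mul_one]

/-- every reflection is conjugate modulo K to s or to r -/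
lemma conjC {E : Type} [Group E] (K : Subgroup E) [K.Normal] (s r w t : E) (hw : w = s * r)
    (hs : s * s ∈ K) (hr : r * r ∈ K) (j : ℤ) (ht : (s * w ^ j)⁻¹ * t ∈ K) :
    ∃ u : E, s⁻¹ * (u⁻¹ * t * u) ∈ K ∨ r⁻¹ * (u⁻¹ * t * u) ∈ K := by
  have q : ∀ a b : E, ((a : E ⧸ K) = (b : E ⧸ K)) ↔ a⁻¹ * b ∈ K := fun a b => QuotientGroup.eq
  have hs1 : (s : E ⧸ K) * (s : E ⧸ K) = 1 := by
    rw [← QuotientGroup.mk_mul]
    exact (QuotientGroup.eq_one_iff _).2 hs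
  have hr1 : (r : E ⧸ K) * (r : E ⧸ K) = 1 := by
    rw [← QuotientGroup.mk_mul]
    exact (QuotientGroup.eq_one_iff _).2 hr
  have hsi : (s : E ⧸ K)⁻¹ = s := inv_eq_of_mul_eq_one_left hs1
  have hri : (r : E ⧸ K)⁻¹ = r := inv_eq_of_mul_eq_one_left hr1
  have hw1 : (w : E ⧸ K) = s * r := by rw [hw, QuotientGroup.mk_mul]
  have ht1 : (t : E ⧸ K) = (s : E ⧸ K) * (w : E ⧸ K) ^ j := by
    rw [← QuotientGroup.mk_zpow, ← QuotientGroup.mk_mul]
    exact ((q _ _).2 ht).symm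
  have hc : SemiconjBy (s : E ⧸ K) ((w : E ⧸ K)⁻¹) (w : E ⧸ K) := by
    unfold SemiconjBy
    rw [hw1, mul_inv_rev, hsi, hri, mul_assoc]
  have hci : ∀ i : ℤ, (w : E ⧸ K) ^ i * s = s * ((w : E ⧸ K) ^ i)⁻¹ := by
    intro i
    have := hc.zpow_right i
    unfold SemiconjBy at this
    rw [← this, inv_zpow]
  have main : ∀ i : ℤ, (w : E ⧸ K) ^ i * t * ((w : E ⧸ K) ^ i)⁻¹ =
      s * (w : E ⧸ K) ^ (j - 2 * i) := by
    intro i
    rw [ht1, ← mul_assoc, hci]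
    have : j - 2 * i = -i + j + -i := by ring
    rw [this, zpow_add, zpow_add, zpow_neg]
    group
  rcases Int.even_or_odd' j with ⟨i, hi | hi⟩
  · refine ⟨w ^ (-i), Or.inl ((q _ _).1 ?_)⟩
    have := main i
    rw [hi, sub_self, zpow_zero, mul_one] at this
    rw [← this]
    simp only [QuotientGroup.mk_mul, QuotientGroup.mk_inv, QuotientGroup.mk_zpow, zpow_neg,
      inv_inv]
  · refine ⟨w ^ (-i), Or.inr ((q _ _).1 ?_)⟩
    have := main i
    have e : j - 2 * i = 1 := by omega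
    rw [e, zpow_one, hw1, ← mul_assoc, hs1, one_mul] at this
    rw [← this, ← hw1]
    simp only [QuotientGroup.mk_mul, QuotientGroup.mk_inv, QuotientGroup.mk_zpow, zpow_neg,
      inv_inv]

end homs

end TExt

open TExt

/-- labels extend to elementary groups -/
theorem TExt_proof [TP] (_h1 : Stmt_FBC) (h2 : Stmt_FBL) (h3 : Stmt_TGA) (h4 : Stmt_TCyc)
    (h5 : Stmt_TEl) : Stmt_TExt := by
  intro G X _ _ d Lb hG g hg
  have hA := h3 G X d Lb hG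
  obtain ⟨K, w, hK, hw, hKw, hKm, hEw, hKE⟩ := h4 G X FP d dd A0t TP.R _ hA g hg
  obtain ⟨-, -, e3, e4, -, -, -, e8⟩ := h5 G X FP d dd A0t TP.R _ hA
  have L := hG.lab
  have hfin : ∀ F : Subgroup G, FP F → ∀ f ∈ F, ¬ Lox d f := fun F hF =>
    (h2 G X d hG.dg hG.iso hG.nonempty F 1 hF.1 (by intro f hf; simpa using hf)).1
  have hEpEl : ∀ x, x ∈ Ep g → x ∈ El g := by
    rintro x ⟨m, hm, hx⟩
    exact ⟨m, hm, Or.inl hx⟩
  have hKEp : ∀ x ∈ K, x ∈ Ep g := fun x hx => ((hKm x).1 hx).1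
  have hc1 : ∀ h ∈ El g, ∀ k ∈ K, h * k * h⁻¹ ∈ K := fun h hh => hKE h hh
  have hc2 : ∀ h ∈ El g, ∀ k ∈ K, h⁻¹ * k * h ∈ K := fun h hh k hk => by
    have := hKE h⁻¹ ((El g).inv_mem hh) k hk
    simpa using this
  have hwE : w ∈ Ep g := (hEw w).2 ⟨1, K.one_mem, 1, by simp⟩
  have hwj : ∀ j : ℤ, w ^ j ∈ K → j = 0 := by
    intro j hj
    by_contra hj0
    have := ((h2 G X d hG.dg hG.iso hG.nonempty K w hK.1 hKw).2 hw).1 1 K.one_mem j
    rw [one_mul] at this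
    exact ((hKm _).1 hj).2 (this.2 hj0)
  obtain ⟨ψ, hψ⟩ := L.ex K hK
  have hψo : HO K ψ := L.hom K ψ hK hψ
  -- the groups K ∪ tK
  have hKt : ∀ t (ht : t ∈ El g) (ht' : t ∉ Ep g), ∃ H : Subgroup G, FP H ∧
      (∀ x, x ∈ H ↔ x ∈ K ∨ t⁻¹ * x ∈ K) ∧ ∃ ψt : G → SP, Lb H ψt ∧ HO H ψt ∧
      ∀ a ∈ K, ψt a = ψ a := by
    intro t ht ht'
    have htt : t * t ∈ K := (hKm _).2 (e3 g t hg ht ht').2
    let H : Subgroup G := Kt K t (hc1 t ht) (hc2 t ht) htt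
    have hH : ∀ x, x ∈ H ↔ x ∈ K ∨ t⁻¹ * x ∈ K := fun x => Iff.rfl
    have hHE : H ≤ El g := by
      intro x hx
      rcases (hH x).1 hx with hx | hx
      · exact hEpEl x (hKEp x hx)
      · have := (El g).mul_mem ht (hEpEl _ (hKEp _ hx))
        simpa using this
    have hHl : ∀ x ∈ H, ¬ Lox d x := by
      intro x hx
      rcases (hH x).1 hx with hx' | hx'
      · exact ((hKm x).1 hx').2
      · refine (e3 g x hg (hHE hx) (fun hxE => ht' ?_)).1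
        have := (Ep g).mul_mem hxE ((Ep g).inv_mem (hKEp _ hx'))
        simpa using this
    have hHP : FP H := by
      obtain ⟨f1, K', f2, f3⟩ := e8 g hg H hHE hHl
      refine ⟨f1, ?_⟩
      rcases f3 with f3 | f3
      · rw [f3]; exact f2.2
      · rw [f3]
        refine Nat.Coprime.mul_left ?_ f2.2
        have := (Nat.coprime_primes Nat.prime_two TP.prime).2 (ne_of_lt TP.odd)
        exact this
    have hKH : K ≤ H := fun x hx => Or.inl hx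
    obtain ⟨f, hf⟩ := L.ex H hHP
    have hfK := L.res H K f hHP hK hKH hf
    obtain ⟨u, hu⟩ := L.orb K f ψ hK hfK hψ
    have hft : Lb H (fun x => u * f x * u⁻¹) := L.cjs H f _ u hHP hf (fun a _ => rfl)
    exact ⟨H, hHP, hH, fun x => u * f x * u⁻¹, hft, L.hom H _ hHP hft, fun a ha => (hu a ha).symm⟩
  -- the final step
  have hend : ∀ φ : G → SP, (∀ a ∈ K, φ a = ψ a) →
      (∀ t ∈ El g, t ∉ Ep g → ∀ H : Subgroup G, FP H → (∀ x, x ∈ H ↔ x ∈ K ∨ t⁻¹ * x ∈ K) →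
        Lb H φ) → ∀ F : Subgroup G, FP F → F ≤ El g → Lb F φ := by
    intro φ hφK hφt F hF hFE
    have hLK : Lb K φ := L.cjs K ψ φ 1 hK hψ (fun a ha => by rw [hφK a ha]; simp)
    by_cases hc : ∀ x ∈ F, x ∈ Ep g
    · exact L.res K F φ hK hF (fun x hx => (hKm x).2 ⟨hc x hx, hfin F hF x hx⟩) hLK
    · push Not at hc
      obtain ⟨t, htF, htE⟩ := hc
      obtain ⟨H, hHP, hH, -⟩ := hKt t (hFE htF) htE
      refine L.res H F φ hHP hF (fun x hx => ?_) (hφt t (hFE htF) htE H hHP hH)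
      rw [hH]
      by_cases hxE : x ∈ Ep g
      · exact Or.inl ((hKm x).2 ⟨hxE, hfin F hF x hx⟩)
      · right
        have hm : t⁻¹ * x ∈ F := F.mul_mem (F.inv_mem htF) hx
        refine (hKm _).2 ⟨e4 g _ _ ((El g).inv_mem (hFE htF)) (fun h => htE ?_) (hFE hx) hxE,
          hfin F hF _ hm⟩
        have := (Ep g).inv_mem h
        simpa using this
  by_cases hall : ∀ x ∈ El g, x ∈ Ep g
  · -- no reflections
    have hEE : El g = Ep g := le_antisymm hall hEpEl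
    have hwEl : w ∈ El g := hEpEl w hwE
    have hcj : IsCj w K K := by
      intro x
      refine ⟨fun hx => hc2 w hwEl x hx, fun hx => ?_⟩
      have := hc1 w hwEl _ hx
      have e : w * (w⁻¹ * x * w) * w⁻¹ = x := by group
      rwa [e] at this
    have hl := L.cj K K ψ w hK hcj hψ
    obtain ⟨u, hu⟩ := L.orb K ψ _ hK hψ hl
    have hσ : ∀ k ∈ K, ψ (w * k * w⁻¹) = u⁻¹ * ψ k * u⁻¹⁻¹ := by
      intro k hk
      have := hu (w * k * w⁻¹) (hc1 w hwEl k hk)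
      have e : w⁻¹ * (w * k * w⁻¹) * w = k := by group
      simp only [e] at this
      rw [this]
      group
    obtain ⟨φ, f1, f2, -⟩ := ext1 K (Ep g) w (hc1 w hwEl) (hc2 w hwEl) hwj ψ hψo u⁻¹ hσ hEw
    rw [hEE]
    rw [hEE] at hend
    exact ⟨φ, f1, hend φ f2 (fun t ht ht' => absurd ht ht')⟩
  · push Not at hall
    obtain ⟨s, hsE, hsP⟩ := hall
    have hwEl : w ∈ El g := hEpEl w hwE
    have hrE : s⁻¹ * w ∈ El g := (El g).mul_mem ((El g).inv_mem hsE) hwEl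
    have hrP : s⁻¹ * w ∉ Ep g := by
      intro h
      have := (Ep g).mul_mem hwE ((Ep g).inv_mem h)
      have e : w * (s⁻¹ * w)⁻¹ = s := by group
      rw [e] at this
      exact hsP this
    generalize hr : s⁻¹ * w = r at hrE hrP
    have hwsr : w = s * r := by rw [← hr]; group
    obtain ⟨Hs, hHs, hHsm, ψs, ls, os, ks⟩ := hKt s hsE hsP
    obtain ⟨Hr, hHr, hHrm, ψr, lr, or, kr⟩ := hKt r hrE hrP
    have hsHs : s ∈ Hs := (hHsm s).2 (Or.inr (by simp [K.one_mem]))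
    have hrHr : r ∈ Hr := (hHrm r).2 (Or.inr (by simp [K.one_mem]))
    have hKHs : ∀ x ∈ K, x ∈ Hs := fun x hx => (hHsm x).2 (Or.inl hx)
    have hKHr : ∀ x ∈ K, x ∈ Hr := fun x hx => (hHrm x).2 (Or.inl hx)
    have hss : s * s ∈ K := (hKm _).2 (e3 g s hg hsE hsP).2
    have hrr : r * r ∈ K := (hKm _).2 (e3 g r hg hrE hrP).2
    -- conjugation formulas
    have cs : ∀ k ∈ K, ψ (s * k * s⁻¹) = ψs s * ψ k * (ψs s)⁻¹ := by
      intro k hk
      rw [← ks _ (hc1 s hsE k hk), os.conj hsHs (hKHs k hk), ks k hk]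
    have cr : ∀ k ∈ K, ψ (r * k * r⁻¹) = ψr r * ψ k * (ψr r)⁻¹ := by
      intro k hk
      rw [← kr _ (hc1 r hrE k hk), or.conj hrHr (hKHr k hk), kr k hk]
    have hσ : ∀ k ∈ K, ψ (w * k * w⁻¹) = (ψs s * ψr r) * ψ k * (ψs s * ψr r)⁻¹ := by
      intro k hk
      have e : w * k * w⁻¹ = s * (r * k * r⁻¹) * s⁻¹ := by rw [hwsr]; group
      rw [e, cs _ (hc1 r hrE k hk), cr k hk]
      group
    obtain ⟨φ₀, f1, f2, f3⟩ := ext1 K (Ep g) w (hc1 w hwEl) (hc2 w hwEl) hwj ψ hψo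
      (ψs s * ψr r) hσ hEw
    have hs2 : φ₀ (s * s) = ψs s * ψs s := by
      rw [f2 _ hss, ← ks _ hss, os _ hsHs _ hsHs]
    have hr2 : φ₀ (r * r) = ψr r * ψr r := by
      rw [f2 _ hrr, ← kr _ hrr, or _ hrHr _ hrHr]
    have hsws : s * w * s⁻¹ = (s * s) * (r * r) * w⁻¹ := by rw [hwsr]; group
    have hcw : φ₀ (s * w * s⁻¹) = ψs s * φ₀ w * (ψs s)⁻¹ := by
      rw [hsws, f1 _ ((Ep g).mul_mem (hKEp _ hss) (hKEp _ hrr)) _ ((Ep g).inv_mem hwE),
        f1 _ (hKEp _ hss) _ (hKEp _ hrr), f1.inv hwE, hs2, hr2, f3]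
      group
    have hswsE : s * w * s⁻¹ ∈ Ep g := by
      rw [hsws]
      exact (Ep g).mul_mem ((Ep g).mul_mem (hKEp _ hss) (hKEp _ hrr)) ((Ep g).inv_mem hwE)
    have hτ : ∀ x ∈ Ep g, φ₀ (s * x * s⁻¹) = ψs s * φ₀ x * (ψs s)⁻¹ := by
      intro x hx
      obtain ⟨k, hk, j, rfl⟩ := (hEw x).1 hx
      have e : s * (k * w ^ j) * s⁻¹ = (s * k * s⁻¹) * (s * w * s⁻¹) ^ j := by
        rw [conj_zpow]; group
      rw [e, f1 _ (hKEp _ (hc1 s hsE k hk)) _ ((Ep g).zpow_mem hswsE j), f1.zpow hswsE, hcw,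
        f2 _ (hc1 s hsE k hk), cs k hk, f1 _ (hKEp _ hk) _ ((Ep g).zpow_mem hwE j),
        f1.zpow hwE, f2 k hk, conj_zpow]
      group
    have hi2 : ∀ a ∈ El g, ∀ b ∈ El g, a ∉ Ep g → b ∉ Ep g → a * b ∈ Ep g :=
      fun a ha b hb ha' hb' => e4 g a b ha ha' hb hb'
    obtain ⟨φ, p1, p2, p3⟩ := ext2 (Ep g) (El g) s hsE hsP hi2 φ₀ f1 (ψs s) hs2 hEpEl hτ
    have hφK : ∀ a ∈ K, φ a = ψ a := fun a ha => by rw [p2 a (hKEp a ha), f2 a ha]
    refine ⟨φ, p1, hend φ hφK ?_⟩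
    -- φ on Hs and Hr
    have hφr : φ r = ψr r := by
      have e : φ w = φ s * φ r := by rw [hwsr]; exact p1 s hsE r hrE
      rw [p2 w hwE, f3, p3] at e
      exact (mul_left_cancel e).symm
    have hφs : ∀ x ∈ Hs, φ x = ψs x := by
      intro x hx
      rcases (hHsm x).1 hx with hx' | hx'
      · rw [hφK x hx', ks x hx']
      · have e : x = s * (s⁻¹ * x) := by group
        rw [e, p1 s hsE _ (hEpEl _ (hKEp _ hx')), os s hsHs _ (hKHs _ hx'), p3, hφK _ hx',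
          ks _ hx']
    have hφr' : ∀ x ∈ Hr, φ x = ψr x := by
      intro x hx
      rcases (hHrm x).1 hx with hx' | hx'
      · rw [hφK x hx', kr x hx']
      · have e : x = r * (r⁻¹ * x) := by group
        rw [e, p1 r hrE _ (hEpEl _ (hKEp _ hx')), or r hrHr _ (hKHr _ hx'), hφr, hφK _ hx',
          kr _ hx']
    -- conjugates
    have hcjg : ∀ (H₀ H : Subgroup G) (t₀ t u : G), FP H₀ → (∀ x, x ∈ H₀ ↔ x ∈ K ∨ t₀⁻¹ * x ∈ K) →
        (∀ x, x ∈ H ↔ x ∈ K ∨ t⁻¹ * x ∈ K) → FP H → u ∈ El g → t₀ ∈ El g → t ∈ El g →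
        t₀⁻¹ * (u⁻¹ * t * u) ∈ K → ∀ ψ₀ : G → SP, Lb H₀ ψ₀ → (∀ x ∈ H₀, φ x = ψ₀ x) →
        Lb H φ := by
      intro H₀ H t₀ t u hH₀ m₀ m hH hu ht₀ ht htu ψ₀ hl hφ₀
      have hcj : IsCj u H₀ H := by
        intro x
        rw [m₀, m]
        have a1 : x ∈ K ↔ u⁻¹ * x * u ∈ K := by
          refine ⟨fun h => hc2 u hu x h, fun h => ?_⟩
          have := hc1 u hu _ h
          have e : u * (u⁻¹ * x * u) * u⁻¹ = x := by group
          rwa [e] at this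
        have a2 : t⁻¹ * x ∈ K ↔ t₀⁻¹ * (u⁻¹ * x * u) ∈ K := by
          have e : t₀⁻¹ * (u⁻¹ * x * u) = (t₀⁻¹ * (u⁻¹ * t * u)) * (u⁻¹ * (t⁻¹ * x) * u) := by
            group
          rw [e]
          refine ⟨fun h => K.mul_mem htu (hc2 u hu _ h), fun h => ?_⟩
          have h' := K.mul_mem (K.inv_mem htu) h
          have e' : (t₀⁻¹ * (u⁻¹ * t * u))⁻¹ * ((t₀⁻¹ * (u⁻¹ * t * u)) *
              (u⁻¹ * (t⁻¹ * x) * u)) = u⁻¹ * (t⁻¹ * x) * u := by group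
          rw [e'] at h'
          have := hc1 u hu _ h'
          have e'' : u * (u⁻¹ * (t⁻¹ * x) * u) * u⁻¹ = t⁻¹ * x := by group
          rwa [e''] at this
        rw [a1, a2]
      have hl2 := L.cj H₀ H ψ₀ u hH₀ hcj hl
      refine L.cjs H _ φ (φ u) hH hl2 (fun a ha => ?_)
      have hau : u⁻¹ * a * u ∈ H₀ := (hcj a).1 ha
      have haE : u⁻¹ * a * u ∈ El g := by
        rcases (m₀ _).1 hau with h | h
        · exact hEpEl _ (hKEp _ h)
        · have := (El g).mul_mem ht₀ (hEpEl _ (hKEp _ h))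
          simpa using this
      rw [← hφ₀ _ hau, ← p1.conj hu haE]
      congr 1
      group
    intro t ht htE H hH hHm
    -- t = s k w ^ j
    have hst : s⁻¹ * t ∈ Ep g := hi2 _ ((El g).inv_mem hsE) _ ht (fun h => hsP (by
      have := (Ep g).inv_mem h
      simpa using this)) htE
    obtain ⟨k, hk, j, hkj⟩ := (hEw _).1 hst
    let K' : Subgroup (El g) := K.subgroupOf (El g)
    have hK'm : ∀ x : El g, x ∈ K' ↔ (x : G) ∈ K := fun x => Subgroup.mem_subgroupOf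
    have : K'.Normal := ⟨fun n hn a => by
      rw [hK'm] at hn ⊢
      exact hc1 a a.2 n hn⟩
    have hwjE : w ^ j ∈ El g := (El g).zpow_mem hwEl j
    obtain ⟨u, hu⟩ := conjC K' (⟨s, hsE⟩ : El g) ⟨r, hrE⟩ ⟨w, hwEl⟩ ⟨t, ht⟩
      (Subtype.ext hwsr) ((hK'm _).2 hss) ((hK'm _).2 hrr) j (by
        rw [hK'm]
        have e : (s * w ^ j)⁻¹ * t = (w ^ j)⁻¹ * k * w ^ j := by
          have : t = s * (k * w ^ j) := by rw [← hkj]; group
          rw [this]; group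
        show (s * w ^ j)⁻¹ * t ∈ K
        rw [e]
        exact hc2 _ hwjE k hk)
    rcases hu with hu | hu
    · exact hcjg Hs H s t u hHs hHsm hHm hH u.2 hsE ht ((hK'm _).1 hu) ψs ls hφs
    · exact hcjg Hr H r t u hHr hHrm hHm hH u.2 hrE ht ((hK'm _).1 hu) ψr lr hφr'

end Pool.Agent.BT
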