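import Pool.Agent.BT.Stmts

/-! BT: TGA, a good stage satisfies AT. -/

namespace Pool.Agent.BT

open Pool.Agent.BURN

namespace TGA

variable [TP]

theorem card_le {G : Type} [Group G] {Lb : Subgroup G → (G → SP) → Prop} (hL : Labels FP Lb)
    (F : Subgroup G) (hF : FP F) : Nat.card F ≤ Nat.factorial TN.n := by
  obtain ⟨f, hf⟩ := hL.ex F hF
  have h1 : Function.Injective (fun a : F => f (a : G)) := by
    intro a b hab
    have hab' : f (a : G) = f (b : G) := hab
    have h2 : f ((a : G)⁻¹ * b) = 1 := by
      have h3 := hL.hom F f hF hf (a : G) a.2 ((a : G)⁻¹ * b) (F.mul_mem (F.inv_mem a.2) b.2)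
      rw [mul_inv_cancel_left, hab'] at h3
      exact left_eq_mul.1 h3
    have h4 := hL.inj F f hF hF hf _ (F.mul_mem (F.inv_mem a.2) b.2) h2
    exact Subtype.ext (inv_mul_eq_one.1 h4)
  have h2 := Nat.card_le_card_of_injective _ h1
  have h3 : Nat.card (Equiv.Perm (Fin TN.n)) = Nat.factorial TN.n := by
    rw [Nat.card_perm, Nat.card_fin]
  rw [← h3]
  exact h2

end TGA

theorem TGA_proof [TP] : Stmt_TGA := by
  intro G X _ _ d Lb hG
  exact
    { dg := hG.dg
      hyp := hG.hyp
      one_le := by have := dd_ge; omega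
      iso := hG.iso
      nonempty := hG.nonempty
      sub := by
        intro F F' hF hle
        haveI := hF.1
        have hfin : Finite F' := Finite.of_injective _ (Subgroup.inclusion_injective hle)
        exact ⟨hfin, Nat.Coprime.coprime_dvd_left (Subgroup.card_dvd_of_le hle) hF.2⟩
      fin := fun F hF => hF.1
      card := TGA.card_le hG.lab
      acyl := hG.acyl
      tors := by
        intro g hg
        refine ⟨Nx, ?_, hG.tors g hg⟩
        unfold Nx
        exact Nat.mul_pos (Nat.factorial_pos _) TP.prime.pos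
      stab := hG.stab }

end Pool.Agent.BT
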