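import Pool.Agent.BT.Stmts

/-! Module TH2: acylindricity of the quotient (text: /team-store/MP_1e649a_BT.md, BB 4.14). -/

namespace Pool.Agent.BT

open Pool.Agent.BURN

namespace TH2

variable [TP]

theorem fp_map {G G' : Type} [Group G] [Group G'] (π : G →* G') (F : Subgroup G) (hF : FP F) :
    FP (F.map π) := by
  obtain ⟨h1, h2⟩ := hF
  have hs : Function.Surjective (π.subgroupMap F) := π.subgroupMap_surjective F
  refine ⟨Finite.of_surjective _ hs, ?_⟩
  exact Nat.Coprime.coprime_dvd_left (Subgroup.card_dvd_of_surjective _ hs) h2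

theorem nrm_map {G G' : Type} [Group G] [Group G'] (π : G →* G') (F : Subgroup G) (c : G)
    (h : Nrm F c) : Nrm (F.map π) (π c) := by
  rintro _ ⟨f, hf, rfl⟩
  exact ⟨c * f * c⁻¹, h f hf, by simp⟩

theorem infc_map {G G' : Type} [Group G] [Group G'] (π : G →* G') (F : Subgroup G) (c x : G)
    (h : InFc F c x) : InFc (F.map π) (π c) (π x) := by
  obtain ⟨f, hf, j, rfl⟩ := h
  exact ⟨π f, ⟨f, hf, rfl⟩, j, by simp⟩

theorem infc_one {G : Type} [Group G] (F : Subgroup G) (x : G) (h : x ∈ F) : InFc F 1 x :=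
  ⟨x, h, 0, by simp⟩

theorem of_infc_one {G : Type} [Group G] (F : Subgroup G) (x : G) (h : InFc F 1 x) : x ∈ F := by
  obtain ⟨f, hf, j, rfl⟩ := h
  simpa using hf

theorem nrm_one {G : Type} [Group G] (F : Subgroup G) : Nrm F 1 := by
  intro f hf
  simpa using hf

theorem nrm_inv {G : Type} [Group G] (K : Subgroup G) (s : G) (h : Nrm K s) (hs : s * s ∈ K) :
    ∀ f ∈ K, s⁻¹ * f * s ∈ K := by
  intro f hf
  have h1 : (s * s)⁻¹ * f * (s * s) ∈ K := K.mul_mem (K.mul_mem (K.inv_mem hs) hf) hs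
  have h2 := h _ h1
  have h3 : s * ((s * s)⁻¹ * f * (s * s)) * s⁻¹ = s⁻¹ * f * s := by group
  rw [h3] at h2
  exact h2

/-- K ∪ s K -/
def extS {G : Type} [Group G] (K : Subgroup G) (s : G) (h : Nrm K s) (hs : s * s ∈ K) :
    Subgroup G where
  carrier := {x | x ∈ K ∨ s⁻¹ * x ∈ K}
  one_mem' := Or.inl K.one_mem
  mul_mem' := by
    rintro a b (ha | ha) (hb | hb)
    · exact Or.inl (K.mul_mem ha hb)
    · right
      have h1 := nrm_inv K s h hs a ha
      have h2 := K.mul_mem h1 hb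
      have h3 : s⁻¹ * a * s * (s⁻¹ * b) = s⁻¹ * (a * b) := by group
      rw [h3] at h2
      exact h2
    · right
      have h2 := K.mul_mem ha hb
      rw [mul_assoc] at h2
      exact h2
    · left
      have h1 := h _ ha
      have h2 := K.mul_mem (K.mul_mem h1 hs) hb
      have h3 : s * (s⁻¹ * a) * s⁻¹ * (s * s) * (s⁻¹ * b) = a * b := by group
      rw [h3] at h2
      exact h2
  inv_mem' := by
    rintro a (ha | ha)
    · exact Or.inl (K.inv_mem ha)
    · right
      have h1 := h _ (K.inv_mem ha)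
      have h2 := K.mul_mem (K.inv_mem hs) h1
      have h3 : (s * s)⁻¹ * (s * (s⁻¹ * a)⁻¹ * s⁻¹) = s⁻¹ * a⁻¹ := by group
      rw [h3] at h2
      exact h2

theorem fp_ext {G : Type} [Group G] (K : Subgroup G) (s : G) (h : Nrm K s) (hs : s * s ∈ K)
    (hK : FP K) : FP (extS K s h hs) := by
  by_cases hsK : s ∈ K
  · have : extS K s h hs = K := by
      ext x
      constructor
      · rintro (hx | hx)
        · exact hx
        · have := K.mul_mem hsK hx
          simpa using this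
      · intro hx
        exact Or.inl hx
    rw [this]
    exact hK
  · have hle : K ≤ extS K s h hs := fun x hx => Or.inl hx
    have hsm : s ∈ extS K s h hs := Or.inr (by simp)
    have hidx : (K.subgroupOf (extS K s h hs)).index = 2 := by
      rw [Subgroup.index_eq_two_iff]
      refine ⟨⟨s, hsm⟩, ?_⟩
      rintro ⟨b, hb⟩
      have e1 : ((⟨b, hb⟩ : extS K s h hs) * ⟨s, hsm⟩ ∈ K.subgroupOf (extS K s h hs)) ↔
          b * s ∈ K := Iff.rfl
      have e2 : ((⟨b, hb⟩ : extS K s h hs) ∈ K.subgroupOf (extS K s h hs)) ↔ b ∈ K := Iff.rfl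
      rw [e1, e2]
      rcases hb with hb | hb
      · right
        refine ⟨hb, fun h4 => hsK ?_⟩
        have := K.mul_mem (K.inv_mem hb) h4
        simpa using this
      · left
        constructor
        · have h1 := h _ hb
          have h2 := K.mul_mem h1 hs
          have h3 : s * (s⁻¹ * b) * s⁻¹ * (s * s) = b * s := by group
          rw [h3] at h2
          exact h2
        · intro h4
          apply hsK
          have := K.mul_mem h4 (K.inv_mem hb)
          have h5 : b * (s⁻¹ * b)⁻¹ = s := by group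
          rw [h5] at this
          exact this
    have hcard : Nat.card (K.subgroupOf (extS K s h hs)) = Nat.card K :=
      Nat.card_congr (Subgroup.subgroupOfEquivOfLe hle).toEquiv
    have hmul := (K.subgroupOf (extS K s h hs)).card_mul_index
    rw [hidx, hcard] at hmul
    have hfin : Finite K := hK.1
    have hpos : 0 < Nat.card K := Nat.card_pos
    refine ⟨?_, ?_⟩
    · apply Nat.finite_of_card_ne_zero
      omega
    · rw [← hmul]
      refine Nat.Coprime.mul_left hK.2 ?_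
      rw [Nat.coprime_comm]
      refine (Nat.Prime.coprime_iff_not_dvd TP.prime).2 ?_
      intro hd
      have := Nat.le_of_dvd (by norm_num) hd
      have := TP.odd
      omega

theorem rot_le {G : Type} [Group G] (Lb : Subgroup G → (G → SP) → Prop) (E : Subgroup G) :
    RotT Lb E ≤ E := by
  unfold RotT
  rw [Subgroup.closure_le]
  rintro x ⟨e, he, -, rfl⟩
  exact E.pow_mem he _

theorem self_mem_El {G : Type} [Group G] (g : G) : g ∈ El g := ⟨1, le_refl 1, Or.inl (by simp)⟩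

theorem Ep_le_El {G : Type} [Group G] (g : G) : Ep g ≤ El g := by
  rintro h ⟨m, hm, h1⟩
  exact ⟨m, hm, Or.inl h1⟩

theorem pos_mem (h6 : Stmt_TKS) (S : TSys) (i : S.I) (e : S.G) (he : e ∈ PosS S.d (S.E i)) :
    e ∈ S.E i := by
  obtain ⟨g, hg, hl, heg⟩ := he
  obtain ⟨-, -, h, -⟩ := (h6 S.G S.X S.d S.Lb S.good).1 (S.E i) (S.kil i)
  rw [(h g hg hl).1]
  exact Ep_le_El g heg

/-- a positive element of a killed group which moves two far points a little has the same image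
as an element of the radical -/
theorem rotarg (h6 : Stmt_TKS) (h9 : Stmt_TKRF) (h10 : Stmt_TKStab) (h11 : Stmt_TRot) (S : TSys)
    (x y : S.Xb) (hA : A0t ≤ S.db x y) (i : S.I) (e : S.G) (he : e ∈ PosS S.d (S.E i))
    (hx : S.db x (S.π e • x) ≤ 200 * dd) (hy : S.db y (S.π e • y) ≤ 200 * dd)
    (K : Subgroup S.G) (hK : (K : Set S.G) = RadS S.d (S.E i)) :
    S.π e ∈ K.map S.π := by
  have heE := pos_mem h6 S i e he
  obtain ⟨-, hdb, hiso, -, -, -, -⟩ := h9 S
  obtain ⟨hs1, -, -, hs4, -⟩ := h10 S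
  by_cases hr : ∃ r ∈ RotT S.Lb (S.E i), r * e ∈ RadS S.d (S.E i)
  · obtain ⟨r, hr1, hr2⟩ := hr
    refine ⟨r * e, ?_, ?_⟩
    · rw [hK]; exact hr2
    · have h1 : S.π r = 1 := (S.pker r).2 ((hs4 i r (rot_le _ _ hr1)).2 hr1)
      rw [map_mul, h1, one_mul]
  · exfalso
    push Not at hr
    have hfix : S.π e • S.q (S.ap i) = S.q (S.ap i) := by
      rw [S.qsmul, (hs1 i e).2 heE]
    have key : ∀ z, S.db z (S.π e • z) ≤ 200 * dd →
        2 * S.db z (S.q (S.ap i)) ≤ 2 * (rt + 1 + M1) + 200 * dd := by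
      intro z hz
      have h1 := h11 S i e z he hr
      have h2 := gp_add hdb z (S.π e • z) (S.q (S.ap i))
      have h3 := hiso (S.π e) z (S.q (S.ap i))
      rw [hfix] at h3
      omega
    have h1 := key x hx
    have h2 := key y hy
    have h3 := hdb.tri x (S.q (S.ap i)) y
    rw [hdb.symm (S.q (S.ap i)) y] at h3
    have h4 := A0t_eq
    generalize nut * (2 ^ (101 * dd) + 100 * dd + 2) = P at h4
    have hdd := dd_ge
    omega

theorem lift (h9 : Stmt_TKRF) (S : TSys) (u : S.Gm) (g : S.Gb) :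
    ∃ g1 : S.G, S.π g1 = g ∧ S.dg u (g1 • u) = S.db (S.q u) (g • S.q u) := by
  obtain ⟨-, -, -, -, -, hlift, -⟩ := h9 S
  obtain ⟨g0, hg0⟩ := S.psurj g
  obtain ⟨k, hk, he⟩ := hlift u (g0 • u)
  refine ⟨k * g0, ?_, ?_⟩
  · rw [map_mul, (S.pker k).2 hk, one_mul, hg0]
  · rw [mul_smul, he, ← hg0, S.qsmul]

theorem bs_smul (S : TSys) (g : S.G) (x : S.X) : g • S.bs x = S.bs (g • x) := by
  apply Subtype.ext
  exact S.act g (S.bs x)

theorem D_le (S : TSys) (x y : S.X) (B : ℕ) (h : S.D x y ≤ B) : S.d x y ≤ Lt * B := by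
  have hL := Lt_pos
  unfold TSys.D Dsc at h
  have h1 : (S.d x y + Lt - 1) / Lt < B + 1 := by omega
  rw [Nat.div_lt_iff_lt_mul (by omega)] at h1
  have h2 : (B + 1) * Lt = Lt * B + Lt := by ring
  omega

theorem le_D (S : TSys) (x y : S.X) (B : ℕ) (h : B + 1 ≤ S.D x y) : Lt * B ≤ S.d x y := by
  have hL := Lt_pos
  unfold TSys.D Dsc at h
  rw [Nat.le_div_iff_mul_le (by omega)] at h
  have h2 : (B + 1) * Lt = Lt * B + Lt := by ring
  omega

theorem hor_uniq {V I : Type} (i j : I) (u : CV V I) (h1 : Hor i u) (h2 : Hor j u) : i = j := by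
  rcases h1 with ⟨y, s, rfl⟩ | rfl <;> rcases h2 with ⟨y', s', h⟩ | h <;>
    first
      | (injection h with h3 h4 h5)
      | (injection h)

theorem not_lox_one {G X : Type} [Group G] [MulAction G X] (d : X → X → ℕ) (hd : IsDG d)
    (x : X) : ¬ Lox d (1 : G) := by
  intro h
  obtain ⟨m, hm⟩ := h x 0
  rw [one_pow, one_smul, (hd.eq_zero x x).2 rfl] at hm
  omega

end TH2

open TH2 in
theorem TH2_proof [TP] (E : EngT) (h1 : Stmt_FBC) (h2 : Stmt_FBL) (h3 : Stmt_TGA)
    (h4 : Stmt_TCyc) (h5 : Stmt_TSC) (h6 : Stmt_TKS) (h7 : Stmt_TRotS) (h8 : Stmt_TKCD)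
    (h9 : Stmt_TKRF) (h10 : Stmt_TKStab) (h11 : Stmt_TRot) (h12 : Stmt_TLB2) : Stmt_TH2 := by
  intro S x y hA
  obtain ⟨hRF, hdb, hiso, hhyp, hcontr, hlift, hgeo⟩ := h9 S
  obtain ⟨hs1, hs2, -⟩ := h10 S
  obtain ⟨hCD, -, -⟩ := h8 S
  obtain ⟨hdg, -, hht, -, hbD, -⟩ := E.gamDG S.X S.I S.D S.Y rt hCD
  obtain ⟨-, hlen⟩ := E.gamLen S.X S.I S.D S.Y rt hCD
  obtain ⟨hks1, -⟩ := h6 S.G S.X S.d S.Lb S.good
  have hrad : ∀ i, ∃ K : Subgroup S.G, FP K ∧ (K : Set S.G) = RadS S.d (S.E i) ∧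
      ∀ s ∈ S.E i, Nrm K s ∧ (s ∉ PosS S.d (S.E i) → s * s ∈ K) := by
    intro i
    exact (hks1 (S.E i) (S.kil i)).2.2.2.1
  -- geodesic and its lift
  obtain ⟨γb, hγb⟩ := exists_geod hdb x y
  obtain ⟨u, rfl⟩ := S.qsurj x
  obtain ⟨w, γ, hw1, rfl, hγ, hγq⟩ := hgeo u y γb hγb
  -- hull displacement
  have hmv : ∀ g : S.Gb, S.db (S.q u) (g • S.q u) ≤ 100 * dd →
      S.db (S.q w) (g • S.q w) ≤ 100 * dd → ∀ t ≤ S.dg u w,
      S.db (S.q (γ t)) (g • S.q (γ t)) ≤ 101 * dd := by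
    intro g h1 h2 t ht
    have h3 := (E.mid S.Gb S.Xb S.db dd (100 * dd) (S.q u) (S.q w) γb g hdb hhyp hiso hγb h1 h2).1
      (γb t) (hγb.btw' (by rw [← hw1]; exact ht))
    rw [← hγq t ht] at h3
    omega
  by_cases hcase : ∃ t ≤ S.dg u w, 101 * dd < 2 * ht rt (γ t).1
  · -- case A
    obtain ⟨t, ht1, ht2⟩ := hcase
    have hS : ∀ g : S.Gb, S.db (S.q u) (g • S.q u) ≤ 100 * dd →
        S.db (S.q w) (g • S.q w) ≤ 100 * dd →
        ∃ i, Hor i (γ t).1 ∧ ∃ g1 ∈ S.E i, S.π g1 = g := by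
      intro g h1 h2
      obtain ⟨g1, hg1, hg2⟩ := TH2.lift h9 S (γ t) g
      have h3 := hmv g h1 h2 t ht1
      obtain ⟨i, hi1, hi2⟩ := hs2 (γ t) g1 (by omega)
      exact ⟨i, hi1, g1, hi2, hg1⟩
    obtain ⟨i, hi, -⟩ := hS 1 (by rw [one_smul, (hdb.eq_zero _ _).2 rfl]; exact Nat.zero_le _)
      (by rw [one_smul, (hdb.eq_zero _ _).2 rfl]; exact Nat.zero_le _)
    have hS' : ∀ g : S.Gb, S.db (S.q u) (g • S.q u) ≤ 100 * dd →
        S.db (S.q w) (g • S.q w) ≤ 100 * dd → ∃ g1 ∈ S.E i, S.π g1 = g := by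
      intro g h1 h2
      obtain ⟨j, hj, g1, hg1, hg2⟩ := hS g h1 h2
      have := hor_uniq i j _ hi hj
      subst this
      exact ⟨g1, hg1, hg2⟩
    obtain ⟨K, hK1, hK2, hK3⟩ := hrad i
    have hpp := (hks1 (S.E i) (S.kil i)).2.2.2.2
    by_cases href : ∃ s ∈ S.E i, s ∉ PosS S.d (S.E i) ∧
        S.db (S.q u) (S.π s • S.q u) ≤ 100 * dd ∧ S.db (S.q w) (S.π s • S.q w) ≤ 100 * dd
    · obtain ⟨s, hsE, hsP, hsu, hsw⟩ := href
      obtain ⟨hn, hss⟩ := hK3 s hsE
      refine ⟨(extS K s hn (hss hsP)).map S.π, 1, fp_map _ _ (fp_ext K s hn (hss hsP) hK1),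
        nrm_one _, Or.inl rfl, ?_⟩
      intro g h1' h2'
      apply infc_one
      obtain ⟨g1, hg1, rfl⟩ := hS' g h1' h2'
      by_cases hgP : g1 ∈ PosS S.d (S.E i)
      · obtain ⟨k, hk, hk'⟩ := rotarg h6 h9 h10 h11 S (S.q u) (S.q w) hA i g1 hgP (by omega)
          (by omega) K hK2
        exact ⟨k, Or.inl hk, hk'⟩
      · have hpos := hpp s hsE g1 hg1 hsP hgP
        have hmove : ∀ z, S.db z (S.π s • z) ≤ 100 * dd → S.db z (S.π g1 • z) ≤ 100 * dd →
            S.db z (S.π (s⁻¹ * g1) • z) ≤ 200 * dd := by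
          intro z ha hb
          have e1 := hiso (S.π s) z (S.π (s⁻¹ * g1) • z)
          rw [← mul_smul, ← map_mul, mul_inv_cancel_left] at e1
          have e2 := hdb.tri (S.π s • z) z (S.π g1 • z)
          rw [hdb.symm (S.π s • z) z] at e2
          omega
        obtain ⟨k, hk, hk'⟩ := rotarg h6 h9 h10 h11 S (S.q u) (S.q w) hA i (s⁻¹ * g1) hpos
          (hmove _ hsu h1') (hmove _ hsw h2') K hK2
        refine ⟨s * k, Or.inr (by simpa using hk), ?_⟩
        rw [map_mul, hk', ← map_mul, mul_inv_cancel_left]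
    · push Not at href
      refine ⟨K.map S.π, 1, fp_map _ _ hK1, nrm_one _, Or.inl rfl, ?_⟩
      intro g h1' h2'
      apply infc_one
      obtain ⟨g1, hg1, rfl⟩ := hS' g h1' h2'
      by_cases hgP : g1 ∈ PosS S.d (S.E i)
      · exact rotarg h6 h9 h10 h11 S (S.q u) (S.q w) hA i g1 hgP (by omega)
          (by omega) K hK2
      · exact absurd h2' (by have := href g1 hg1 hgP h1'; omega)
  · -- case B
    push Not at hcase
    have hrho := rt_eq
    have hN0 := N0_eq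
    obtain ⟨ha1, -⟩ := BURN.aa0_ge
    have hdd := dd_ge
    have hA0 := A0t_eq
    have hLam := Lt_eq
    have hM2 := pow_101dd_le_M2
    generalize hPP : 2 ^ (101 * dd) = P at hA0 hM2
    -- heights
    have hfar : ∀ t ≤ S.dg u w, ∀ c ∈ Set.range S.ap, rt - 60 * dd ≤ S.dg (γ t) c := by
      rintro t htt c ⟨i, rfl⟩
      have h1 := hht (γ t) (S.ap i)
      have h2 : ht rt (S.ap i).1 = rt + 1 := rfl
      have h3 := hcase t htt
      have h4 : dGam S.D S.Y rt (γ t) (S.ap i) = S.dg (γ t) (S.ap i) := rfl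
      omega
    -- lifts
    have hL : ∀ g : S.Gb, S.db (S.q u) (g • S.q u) ≤ 100 * dd →
        S.db (S.q w) (g • S.q w) ≤ 100 * dd → ∃ g1 : S.G, S.π g1 = g ∧
        ∀ t ≤ S.dg u w, S.dg (γ t) (g1 • γ t) ≤ 101 * dd := by
      intro g h1 h2
      obtain ⟨g0, hg0⟩ := S.psurj g
      obtain ⟨g1, hg1, hg2⟩ := (E.ll S.G S.Gm S.dg (Set.range S.ap) S.R del1 (2 * f3 + 1) (2 * f3)
        (2 * rt + 2) hRF).2 u w (rt - 60 * dd) (101 * dd) γ g0 (by omega) hγ (by omega) hfar
        (by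
          intro t ht
          have h3 := hmv g h1 h2 t ht
          rw [← hg0, S.qsmul, S.qdist] at h3
          exact h3)
      refine ⟨g1, ?_, hg2⟩
      have h4 := (S.pker (g1 * g0⁻¹)).2 hg1
      rw [map_mul, map_inv, mul_inv_eq_one] at h4
      rw [h4, hg0]
    -- base vertices near the ends
    have hn : A0t ≤ S.dg u w := by rw [hw1]; exact hA
    have hnut := nut_ge
    have hnP : nut * (P + 100 * dd + 2) = nut * (P + dd) + nut * (99 * dd + 2) := by ring
    have hn99 : 800 * (99 * dd + 2) ≤ nut * (99 * dd + 2) := Nat.mul_le_mul_right _ hnut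
    have hA0' : nut * (P + dd) + 80000 * dd ≤ A0t := by
      rw [hA0, hnP]
      clear hA0 hnP hLam hrho hN0 hL hfar hcase hmv hγq
      generalize nut * (P + dd) = Q
      generalize nut * (99 * dd + 2) = Q' at hn99 ⊢
      omega
    clear hA0 hnP hn99 hnut
    obtain ⟨⟨j1, hj1, v1, hv1⟩, ⟨j2, hj2, v2, hv2⟩⟩ := E.topLen S.X S.I S.D S.Y rt hCD u w γ
      (101 * dd / 2) hγ (by omega) (fun j hj => by have := hcase j hj; omega)
      (by
        have h4 : dGam S.D S.Y rt u w = S.dg u w := rfl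
        omega)
    have hn' : dGam S.D S.Y rt u w = S.dg u w := rfl
    rw [hn'] at hv2
    have e1 : γ j1 = S.bs v1 := Subtype.ext hv1
    have e2 : γ (S.dg u w - j2) = S.bs v2 := Subtype.ext hv2
    have hdist : S.dg (S.bs v1) (S.bs v2) = S.dg u w - j2 - j1 := by
      rw [← e1, ← e2]
      exact hγ.2.2 j1 (S.dg u w - j2) (by omega) (by omega)
    have hD12 : S.dg (S.bs v1) (S.bs v2) ≤ S.D v1 v2 := hbD v1 v2
    have hd12 : Lt * (nut * (P + dd) + 1) ≤ S.d v1 v2 :=
      le_D S v1 v2 (nut * (P + dd) + 1) (by omega)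
    have hsc : A0t + nuB (Nat.factorial TN.n) * (Lt * P + dd) ≤ S.d v1 v2 := by
      rw [← nut_eq]
      have hLp := Lt_pos
      have e3 : Lt * (nut * (P + dd) + 1) = nut * (Lt * P) + nut * (Lt * dd) + Lt := by ring
      have e4 : nut * dd ≤ nut * (Lt * dd) := Nat.mul_le_mul_left _ (Nat.le_mul_of_pos_left _ hLp)
      have e5 : nut * (Lt * P + dd) = nut * (Lt * P) + nut * dd := by ring
      omega
    have hmove : ∀ (g1 : S.G), (∀ t ≤ S.dg u w, S.dg (γ t) (g1 • γ t) ≤ 101 * dd) →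
        ∀ (t : ℕ) (v : S.X), t ≤ S.dg u w → γ t = S.bs v → S.d v (g1 • v) ≤ Lt * P := by
      intro g1 hg1 t v ht hv
      have h1 := hg1 t ht
      rw [hv, bs_smul] at h1
      apply D_le
      have h2 : S.D v (g1 • v) ≤ 2 ^ (S.dg (S.bs v) (S.bs (g1 • v))) :=
        hlen v (g1 • v) (by
          have h4 : dGam S.D S.Y rt (vb S.Y rt v) (vb S.Y rt (g1 • v)) =
            S.dg (S.bs v) (S.bs (g1 • v)) := rfl
          omega)
      have h3 : 2 ^ (S.dg (S.bs v) (S.bs (g1 • v))) ≤ 2 ^ (101 * dd) :=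
        Nat.pow_le_pow_right (by norm_num) h1
      rw [hPP] at h3
      exact h2.trans h3
    have hAT := h3 S.G S.X S.d S.Lb S.good
    obtain ⟨F, c, hF, hFc, hc, hS⟩ := h5 S.G S.X FP S.d dd A0t TP.R (Nat.factorial TN.n) hAT
      v1 v2 (Lt * P) hsc
    -- every lift lies in F ⟨c⟩
    have hin : ∀ (g1 : S.G), (∀ t ≤ S.dg u w, S.dg (γ t) (g1 • γ t) ≤ 101 * dd) →
        InFc F c g1 := by
      intro g1 hg1
      exact hS g1 (hmove g1 hg1 j1 v1 (by omega) e1)
        (hmove g1 hg1 (S.dg u w - j2) v2 (by omega) e2)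
    rcases hc with rfl | hc
    · refine ⟨F.map S.π, 1, fp_map _ _ hF, nrm_one _, Or.inl rfl, ?_⟩
      intro g h1' h2'
      obtain ⟨g1, rfl, hg2⟩ := hL g h1' h2'
      exact infc_one _ _ ⟨g1, of_infc_one _ _ (hin g1 hg2), rfl⟩
    · obtain ⟨-, hfbl⟩ := h2 S.G S.X S.d S.good.dg S.good.iso S.good.nonempty F c hF.1 hFc
      obtain ⟨-, hfEp, hfEl⟩ := hfbl hc
      by_cases hkil : KilT S.d (El c)
      · obtain ⟨i, hi⟩ := S.all _ hkil
        obtain ⟨K, hK1, hK2, -⟩ := hrad i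
        refine ⟨K.map S.π, 1, fp_map _ _ hK1, nrm_one _, Or.inl rfl, ?_⟩
        intro g h1' h2'
        apply infc_one
        obtain ⟨g1, rfl, hg2⟩ := hL g h1' h2'
        refine rotarg h6 h9 h10 h11 S (S.q u) (S.q w) hA i g1 ?_ (by omega) (by omega) K hK2
        exact ⟨c, by rw [hi]; exact self_mem_El c, hc, hfEp g1 (hin g1 hg2)⟩
      · obtain ⟨K, w', hK, hw, hKw, hK1, hK2, -⟩ := h4 S.G S.X FP S.d dd A0t TP.R
          (Nat.factorial TN.n) hAT c hc
        by_cases hall : ∀ g1 : S.G, (∀ t ≤ S.dg u w, S.dg (γ t) (g1 • γ t) ≤ 101 * dd) →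
            ¬ Lox S.d g1
        · refine ⟨K.map S.π, 1, fp_map _ _ hK, nrm_one _, Or.inl rfl, ?_⟩
          intro g h1' h2'
          obtain ⟨g1, rfl, hg2⟩ := hL g h1' h2'
          exact infc_one _ _ ⟨g1, (hK1 g1).2 ⟨hfEp g1 (hin g1 hg2), hall g1 hg2⟩, rfl⟩
        · push Not at hall
          obtain ⟨g0, hg0, hlox⟩ := hall
          have hnot : ∀ i, g0 ∉ S.E i := by
            intro i hi
            apply hkil
            have e3 := ((hks1 (S.E i) (S.kil i)).2.2.1 g0 hi hlox).1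
            rw [(hfEl g0 (hin g0 hg0) hlox).2] at e3
            rw [← e3]
            exact S.kil i
          have hz : S.d v1 (g0 • v1) ≤ Lt * M2 :=
            (hmove g0 hg0 j1 v1 (by omega) e1).trans (Nat.mul_le_mul_left _ hM2)
          have hlox2 := (h12 S g0 hlox hnot v1 hz).2.1
          obtain ⟨-, -, -, -, -, hloxB, -⟩ := E.slen S.Gb S.Xb S.db hdb hiso
          have hfp := fp_map S.π K hK
          have hnr := nrm_map S.π K w' hKw
          refine ⟨K.map S.π, S.π w', hfp, hnr, Or.inr ?_, ?_⟩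
          · obtain ⟨f, hf, j, hfj⟩ := (hK2 g0).1 (hfEp g0 (hin g0 hg0))
            obtain ⟨-, -, ⟨M, hM1, -, hM2'⟩, -⟩ := h1 S.Gb (K.map S.π) (S.π w') hfp.1 hnr
            have e3 := hM2' (S.π f) ⟨f, hf, rfl⟩ j
            have e4 : S.π f * S.π w' ^ j = S.π g0 := by rw [hfj, map_mul, map_zpow]
            rw [e4] at e3
            have e5 : Lox S.db (S.π g0 ^ M) := by
              have := (hloxB (S.π g0) (M : ℤ) (by omega)).2 hlox2
              rwa [zpow_natCast] at this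
            rw [e3] at e5
            by_cases hj : j * (M : ℤ) = 0
            · rw [hj, zpow_zero] at e5
              exact absurd e5 (not_lox_one S.db hdb (S.q u))
            · exact (hloxB (S.π w') _ hj).1 e5
          · intro g' h1' h2'
            obtain ⟨g1, rfl, hg2⟩ := hL g' h1' h2'
            exact infc_map _ _ _ _ ((hK2 g1).1 (hfEp g1 (hin g1 hg2)))

end Pool.Agent.BT
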