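import Pool.Agent.BT.Stmts

/-! BT: TH34 (BB 4.13), written by helper85 after BURR/H34.lean. -/

namespace Pool.Agent.BT

open Pool.Agent.BURN

namespace TH34

/-- a lox element of a space has no trivial positive power -/
theorem pow_ne_one {G X : Type} [Group G] [MulAction G X] {d : X → X → ℕ} {g : G} (x : X)
    (h : Lox d g) {n : ℕ} (hn : 1 ≤ n) : g ^ n ≠ 1 := by
  intro e
  obtain ⟨m, hm⟩ := h x (∑ m ∈ Finset.range n, d x (g ^ m • x))
  have h1 : g ^ m = g ^ (m % n) := pow_eq_pow_mod m e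
  have h2 : d x (g ^ (m % n) • x) ≤ ∑ m ∈ Finset.range n, d x (g ^ m • x) :=
    Finset.single_le_sum (f := fun m => d x (g ^ m • x)) (fun _ _ => Nat.zero_le _)
      (Finset.mem_range.2 (Nat.mod_lt m (by omega)))
  rw [h1] at hm
  omega

/-- a point of minimal displacement -/
theorem min_ex {G X : Type} [Group G] [MulAction G X] (d : X → X → ℕ) (hne : Nonempty X) (g : G) :
    ∃ o, ∀ y, d o (g • o) ≤ d y (g • y) := by
  obtain ⟨x0⟩ := hne
  obtain ⟨m, ⟨x, hx⟩, hmin⟩ := Nat.lt_wfRel.wf.has_min {n : ℕ | ∃ x, d x (g • x) = n} ⟨_, x0, rfl⟩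
  refine ⟨x, fun y => ?_⟩
  have := hmin _ ⟨y, rfl⟩
  rw [hx]
  exact not_lt.1 this

theorem pow_le_M2 : 2 ^ (6 * dd + 2) ≤ M2 := pow_6dd_le_M2

end TH34

open TH34 in
theorem TH34_proof [TP] (E : EngT) (h1 : Stmt_TKRF) (h2 : Stmt_TKStab) (h3 : Stmt_TLB2)
    (h4 : Stmt_TLift) : Stmt_TH34 := by
  intro S
  obtain ⟨-, bdg, biso, bhyp, -, -, -⟩ := h1 S
  have hN : 1 ≤ Nx := by
    unfold Nx
    exact Nat.mul_pos (Nat.factorial_pos _) TP.prime.pos
  have htors : ∀ i (g : S.G), g ∈ S.E i → S.π g ^ Nx = 1 := (h2 S).2.2.2.2.1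
  have hne : Nonempty S.Xb := by
    obtain ⟨x⟩ := S.good.nonempty
    exact ⟨S.q (S.bs x)⟩
  -- the main alternative for elements with small displacement
  have main : ∀ (gb : S.Gb) (xb : S.Xb), S.db xb (gb • xb) ≤ 3 * dd + 1 →
      ∃ g : S.G, S.π g = gb ∧ ((¬ Lox S.d g) ∨ (∃ i, g ∈ S.E i) ∨
        (Lox S.db (S.π g) ∧ ∀ (x : S.Xb) (m : ℕ), m ≤ Rt * S.db x (S.π g ^ m • x))) := by
    intro gb xb hx
    have hdd := dd_ge
    obtain ⟨g, x, k1, k2, k3, k4⟩ := h4 S gb xb (3 * dd + 1) (by omega) hx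
    refine ⟨g, k1, ?_⟩
    by_cases hE : ∃ i, g ∈ S.E i
    · exact Or.inr (Or.inl hE)
    by_cases hl : Lox S.d g
    · rcases k4 with k4 | ⟨-, x0, -, hx0⟩
      · exact absurd k4 hE
      · have e : 2 * (3 * dd + 1) = 6 * dd + 2 := by ring
        rw [e] at hx0
        have hM : S.d x0 (g • x0) ≤ Lt * M2 :=
          hx0.trans (Nat.mul_le_mul_left _ pow_6dd_le_M2)
        have h := h3 S g hl (fun i hi => hE ⟨i, hi⟩) x0 hM
        exact Or.inr (Or.inr ⟨h.2.1, h.2.2⟩)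
    · exact Or.inl hl
  have A : ∀ gb : S.Gb, ¬ Lox S.db gb →
      (∃ g : S.G, S.π g = gb ∧ ((¬ Lox S.d g) ∨ ∃ i, g ∈ S.E i)) := by
    intro gb hgb
    obtain ⟨xb⟩ := hne
    obtain ⟨y, hy1, hy2⟩ := bdg.geo xb (gb • xb) (S.db xb (gb • xb) / 2) (Nat.div_le_self _ _)
    have hb : Pool.Agent.BURN.Btw S.db xb y (gb • xb) := by
      unfold Pool.Agent.BURN.Btw
      rw [hy1, hy2]
      omega
    have h := (E.iso1 S.Gb S.Xb S.db dd bdg bhyp biso).2.2 gb xb hgb y hb hy1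
    obtain ⟨g, hg, k1 | k1 | k1⟩ := main gb y h
    · exact ⟨g, hg, Or.inl k1⟩
    · exact ⟨g, hg, Or.inr k1⟩
    · rw [hg] at k1
      exact absurd k1.1 hgb
  refine ⟨?_, ?_⟩
  · intro gb hgb
    obtain ⟨g, rfl, h | ⟨i, h⟩⟩ := A gb hgb
    · rw [← map_pow, S.good.tors g h, map_one]
    · exact htors i g h
  · intro gb hgb
    have hRR : Rt ≤ TP.R := TP.le
    by_cases hm : ∃ xb : S.Xb, S.db xb (gb • xb) ≤ 3 * dd + 1
    · obtain ⟨xb, hxb⟩ := hm
      obtain ⟨g, rfl, k1 | ⟨i, k1⟩ | k1⟩ := main gb xb hxb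
      · exfalso
        have e : S.π g ^ Nx = 1 := by rw [← map_pow, S.good.tors g k1, map_one]
        exact pow_ne_one xb hgb hN e
      · exfalso
        exact pow_ne_one xb hgb hN (htors i g k1)
      · intro x m
        exact (k1.2 x m).trans (Nat.mul_le_mul_right _ hRR)
    · push Not at hm
      obtain ⟨o, ho⟩ := min_ex S.db hne gb
      have hm' := hm o
      have h := (E.iso2 S.Gb S.Xb S.db dd (S.db o (gb • o)) bdg bhyp biso (by omega) gb o rfl
        ho).2.2.2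
      intro x m
      have k1 := h x m
      have k2 : m * 1 ≤ m * (S.db o (gb • o) - 3 * dd) := Nat.mul_le_mul_left _ (by omega)
      have k3 : 1 * S.db x (gb ^ m • x) ≤ TP.R * S.db x (gb ^ m • x) :=
        Nat.mul_le_mul_right _ (Rt_pos.trans hRR)
      omega

end Pool.Agent.BT
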