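import Pool.Agent.BT.Stmts

/-! BT, module TH6: the orbits of loxodromic elements of the quotient space pass near the points
moved little. -/

namespace Pool.Agent.BT

open Pool.Agent.BURN

variable [TP]

theorem TH6X.Nx_pos : 1 ≤ Nx :=
  Nat.mul_pos (Nat.factorial_pos _) TP.prime.pos

theorem TH6X.bs_smul (S : TSys) (g : S.G) (x : S.X) : g • S.bs x = S.bs (g • x) := by
  apply Subtype.ext
  exact S.act g (S.bs x)

theorem TH6X.le_D (S : TSys) (x y : S.X) (B : ℕ) (h : S.d x y ≤ Lt * B) : S.D x y ≤ B := by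
  have hL := Lt_pos
  unfold TSys.D Dsc
  have h1 : (S.d x y + Lt - 1) / Lt < B + 1 := by
    rw [Nat.div_lt_iff_lt_mul (by omega)]
    have h2 : (B + 1) * Lt = Lt * B + Lt := by ring
    omega
  omega

omit [TP] in
theorem TH6X.exists_min {G X : Type} [Group G] [MulAction G X] (d : X → X → ℕ) (c : G)
    (x0 : X) : ∃ x, ∀ y, d x (c • x) ≤ d y (c • y) := by
  classical
  have hex : ∃ n : ℕ, ∃ x, d x (c • x) = n := ⟨_, x0, rfl⟩
  obtain ⟨x, hx⟩ := Nat.find_spec hex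
  refine ⟨x, fun y => ?_⟩
  rw [hx]
  exact Nat.find_min' hex ⟨y, rfl⟩

omit [TP] in
/-- the minimal set is invariant under commuting elements -/
theorem TH6X.min_smul {G X : Type} [Group G] [MulAction G X] {d : X → X → ℕ} (hiso : IsIso G d)
    {c g : G} (hcg : c * g = g * c) {x : X} (hx : ∀ y, d x (c • x) ≤ d y (c • y)) :
    ∀ y, d (g • x) (c • g • x) ≤ d y (c • y) := by
  intro y
  have h1 : d (g • x) (c • g • x) = d x (c • x) := by
    rw [← mul_smul, hcg, mul_smul, hiso]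
  rw [h1]
  exact hx y

omit [TP] in
/-- moving the three points of a product along an orbit -/
theorem TH6X.move {G X : Type} [Group G] [MulAction G X] {d : X → X → ℕ}
    (hd : IsDG d) (hiso : IsIso G d) (a b : G) (x y : X) :
    gp d (a • x) (b • x) x ≤ gp d (a • y) (b • y) y + 6 * d x y := by
  have g1 := gp_add hd (a • x) (b • x) x
  have g2 := gp_add hd (a • y) (b • y) y
  have h1 := hiso a x y
  have h2 := hiso b x y
  have h3 := hiso a y x
  have h4 := hiso b y x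
  have hs := hd.symm y x
  have t1 := hd.tri (a • x) (a • y) x
  have t2 := hd.tri (a • y) y x
  have t3 := hd.tri (b • x) (b • y) x
  have t4 := hd.tri (b • y) y x
  have t5 := hd.tri (a • y) (a • x) (b • y)
  have t6 := hd.tri (a • x) (b • x) (b • y)
  omega

theorem TH6_proof (E : EngT) (hKCD : Stmt_TKCD) (hKRF : Stmt_TKRF) (hKStab : Stmt_TKStab)
    (hLB1 : Stmt_TLB1) (hLB2 : Stmt_TLB2) (hLift : Stmt_TLift) : Stmt_TH6 := by
  intro S g hglox x hx
  have hAxis := E.axis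
  have hSlen := E.slen
  have hDG := E.gamDG
  obtain ⟨hRF, hdb, hiso, hhyp, hcontr, -, -⟩ := hKRF S
  obtain ⟨-, -, -, -, hs5, -, -, -, -, -⟩ := hKStab S
  obtain ⟨hCD, -, -⟩ := hKCD S
  obtain ⟨-, -, -, -, hbD, -⟩ := hDG S.X S.I S.D S.Y rt hCD
  obtain ⟨-, -, -, -, -, hloxB, -⟩ := hSlen S.Gb S.Xb S.db hdb hiso
  have hdd := dd_ge
  have hA1 := A1t_eq
  have hLt := Lt_eq
  have hM2 := pow_200dd_le_M2
  generalize hPP : 2 ^ (200 * dd) = P at hA1 hM2
  -- no power of g is trivial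
  have hpow : ∀ n : ℕ, 1 ≤ n → g ^ n ≠ 1 := by
    intro n hn h
    have h1 : Lox S.db (g ^ (n : ℤ)) := (hloxB g n (by omega)).2 hglox
    rw [zpow_natCast, h] at h1
    obtain ⟨m, hm⟩ := h1 x 0
    rw [one_pow, one_smul, (hdb.eq_zero x x).2 rfl] at hm
    omega
  have hLp : 100 * dd ≤ 200 * dd := by omega
  obtain ⟨g1, u, hπ, hu, hmv, hcase⟩ := hLift S g x (100 * dd) hLp hx
  have hnE : ∀ i, g1 ∉ S.E i := by
    intro i hi
    have h1 := hs5 i g1 hi
    rw [hπ] at h1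
    exact hpow Nx TH6X.Nx_pos h1
  rcases hcase with ⟨i, hi⟩ | ⟨hht, x0, hx0, hdx0⟩
  · exact absurd hi (hnE i)
  · have hlox1 : Lox S.d g1 := by
      by_contra hcon
      have h1 := S.good.tors g1 hcon
      apply hpow Nx TH6X.Nx_pos
      rw [← hπ, ← map_pow, h1, map_one]
    have h200 : 2 * (100 * dd) = 200 * dd := by ring
    rw [h200, hPP] at hdx0
    have hz : S.d x0 (g1 • x0) ≤ Lt * M2 := hdx0.trans (Nat.mul_le_mul_left _ hM2)
    obtain ⟨o, ho⟩ := TH6X.exists_min S.d g1 x0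
    obtain ⟨hm1, -, -⟩ := hLB1 S g1 hlox1 hnE x0 hz o ho
    obtain ⟨-, -, hax⟩ := hAxis S.G S.X S.d dd (S.d o (g1 • o)) S.good.dg S.good.hyp S.good.iso
      (by omega) g1 o rfl ho
    obtain ⟨q, ⟨i, hqi⟩, hq⟩ := hax x0
    -- the nearest orbit point
    have hseg : S.d (g1 ^ i • o) (g1 ^ (i + 1) • o) = S.d o (g1 • o) := by
      rw [zpow_add, zpow_one, mul_smul]
      exact S.good.iso _ _ _
    have horb : ∃ j : ℤ, 2 * S.d q (g1 ^ j • o) ≤ S.d o (g1 • o) := by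
      unfold Pool.Agent.BURN.Btw at hqi
      rw [hseg] at hqi
      by_cases hh : S.d (g1 ^ i • o) q ≤ S.d q (g1 ^ (i + 1) • o)
      · refine ⟨i, ?_⟩
        rw [S.good.dg.symm q]; omega
      · exact ⟨i + 1, by omega⟩
    obtain ⟨j, hj⟩ := horb
    have hd0 : 2 * S.d x0 (g1 ^ j • o) ≤ Lt * P + 30 * dd + 2 := by
      have h1 := S.good.dg.tri x0 q (g1 ^ j • o)
      omega
    have ho' : ∀ y, S.d (g1 ^ j • o) (g1 • g1 ^ j • o) ≤ S.d y (g1 • y) :=
      TH6X.min_smul S.good.iso ((Commute.refl g1).zpow_right j).eq ho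
    have hD0 : S.D x0 (g1 ^ j • o) ≤ P + 1 := by
      apply TH6X.le_D
      have : Lt * (P + 1) = Lt * P + Lt := by ring
      omega
    obtain ⟨hlb, -, -⟩ := hLB2 S g1 hlox1 hnE x0 hz
    have k1 : S.db x (S.q (S.bs x0)) ≤ 50 * dd := by
      rw [← hu]
      have h1 := hcontr u (S.bs x0)
      omega
    have k2 : S.db (S.q (S.bs x0)) (S.q (S.bs (g1 ^ j • o))) ≤ P + 1 := by
      have h1 := hcontr (S.bs x0) (S.bs (g1 ^ j • o))
      have h2 : S.dg (S.bs x0) (S.bs (g1 ^ j • o)) ≤ S.D x0 (g1 ^ j • o) := hbD _ _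
      omega
    have t1 := hdb.tri x (S.q (S.bs x0)) (S.q (S.bs (g1 ^ j • o)))
    refine ⟨0, fun k _ => ?_⟩
    have h1 := (hlb (g1 ^ j • o) ho' k).2
    have e1 : (g ^ k)⁻¹ • S.q (S.bs (g1 ^ j • o)) = S.q (S.bs ((g1 ^ k)⁻¹ • g1 ^ j • o)) := by
      rw [← TH6X.bs_smul S ((g1 ^ k)⁻¹), ← S.qsmul, map_inv, map_pow, hπ]
    have e2 : g ^ k • S.q (S.bs (g1 ^ j • o)) = S.q (S.bs (g1 ^ k • g1 ^ j • o)) := by
      rw [← TH6X.bs_smul S (g1 ^ k), ← S.qsmul, map_pow, hπ]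
    have h2 := TH6X.move hdb hiso ((g ^ k)⁻¹) (g ^ k) x (S.q (S.bs (g1 ^ j • o)))
    rw [e1, e2] at h2
    omega

end Pool.Agent.BT
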