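import Pool.Agent.BT.Stmts

/-! BT: TKCD, the rescaled family of quasi-lines. -/

namespace Pool.Agent.BT

open Pool.Agent.BURN

namespace TKCD_

theorem dsc_le {X : Type} {d : X → X → ℕ} {Λ B : ℕ} (hΛ : 1 ≤ Λ) {x y : X}
    (h : Dsc Λ d x y ≤ B) : d x y ≤ B * Λ := by
  unfold Dsc at h
  have h1 : (d x y + Λ - 1) / Λ < B + 1 := by omega
  rw [Nat.div_lt_iff_lt_mul (by omega)] at h1
  have h2 : (B + 1) * Λ = B * Λ + Λ := by ring
  omega

theorem le_dsc {X : Type} {d : X → X → ℕ} {Λ B : ℕ} (hΛ : 1 ≤ Λ) {x y : X}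
    (h : B * Λ ≤ d x y) : B ≤ Dsc Λ d x y := by
  unfold Dsc
  rw [Nat.le_div_iff_mul_le (by omega)]
  omega

theorem dsc_le_of_le {X : Type} {d : X → X → ℕ} {Λ B : ℕ} (hΛ : 1 ≤ Λ) {x y : X}
    (h : d x y ≤ B * Λ) : Dsc Λ d x y ≤ B := by
  unfold Dsc
  have h1 : (d x y + Λ - 1) / Λ < B + 1 := by
    rw [Nat.div_lt_iff_lt_mul (by omega)]
    have h2 : (B + 1) * Λ = B * Λ + Λ := by ring
    omega
  omega

end TKCD_

open TKCD_

variable [TP]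

theorem TKCD_proof (E : EngT) (h1 : Stmt_TRotS) (h2 : Stmt_TOverlap) : Stmt_TKCD := by
  intro S
  obtain ⟨hqc, hne, hunb, hinv, _, _, _, hov⟩ := h2 S
  have hG := S.good
  have hL1 : 1 ≤ Lt := Lt_pos
  have hLe := Lt_eq
  have hdd := dd_ge
  obtain ⟨hdg, hhyp, hq⟩ := E.rescale S.X S.d dd (16 * dd) Lt hG.dg hG.hyp (by omega) (by omega)
  refine ⟨⟨hdg, hhyp, fun i => hq _ (hqc i), ?_, ?_, ?_⟩, ?_, ?_⟩
  · -- unbounded
    intro i B
    obtain ⟨y, hy, y', hy', hlt⟩ := hunb i ((B + 1) * Lt)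
    refine ⟨y, hy, y', hy', ?_⟩
    have : B + 1 ≤ Dsc Lt S.d y y' := le_dsc hL1 hlt.le
    exact this
  · intro i l hil x y hxi hxl hyi hyl
    have conv : ∀ (z : S.X) (j : S.I), Nr S.D z (S.Y j) → ∃ a ∈ S.Y j, S.d z a ≤ 25 * Lt := by
      rintro z j ⟨a, ha, hza⟩
      exact ⟨a, ha, dsc_le hL1 hza⟩
    have h1 := hov i l (25 * Lt) x y hil (conv x i hxi) (conv y i hyi) (conv x l hxl)
      (conv y l hyl)
    have h2 : S.d x y ≤ 53 * Lt := by omega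
    exact dsc_le_of_le hL1 h2
  · rw [rt_eq]; omega
  · intro g x y
    change Dsc Lt S.d (g • x) (g • y) = Dsc Lt S.d x y
    unfold Dsc
    rw [hG.iso]
  · intro i r hr hr1 y hy
    have h3 := ((h1 S.G S.X S.d S.Lb hG S.lab (S.E i) (S.kil i)).2.2.2.1 r hr hr1).2 y
    have hR : 0 < TP.R := lt_of_lt_of_le Rt_pos TP.le
    have h4 : TP.R * (2 ^ (rt + 7) * Lt) ≤ TP.R * S.d y (r • y) := by
      have h5 : TP.R * Lt * 2 ^ (rt + 7) ≤ TP.p := TP.big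
      have h6 : TP.R * (2 ^ (rt + 7) * Lt) = TP.R * Lt * 2 ^ (rt + 7) := by ring
      omega
    exact le_dsc hL1 (Nat.le_of_mul_le_mul_left h4 hR)

end Pool.Agent.BT
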