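import Pool.Agent.BT.Stmts

/-! BT, module TKRF: the rotating family of a killing system and the hyperbolicity of the
quotient. -/

namespace Pool.Agent.BT

open Pool.Agent.BURN

namespace TKRF

section
variable [TP]

theorem rotT_le {G : Type} [Group G] (Lb : Subgroup G → (G → SP) → Prop) (E : Subgroup G) :
    RotT Lb E ≤ E := by
  unfold RotT
  rw [Subgroup.closure_le]
  rintro x ⟨e, he, _, rfl⟩
  exact E.pow_mem he _

theorem idx_fix (S : TSys) (i : S.I) (g : S.G) (hg : g ∈ S.E i) : g • i = i := by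
  refine S.inj _ _ ?_
  ext x
  rw [S.conj g i x]
  constructor
  · intro hx
    have h1 := (S.E i).mul_mem ((S.E i).mul_mem hg hx) ((S.E i).inv_mem hg)
    have h2 : g * (g⁻¹ * x * g) * g⁻¹ = x := by group
    rwa [h2] at h1
  · intro hx
    exact (S.E i).mul_mem ((S.E i).mul_mem ((S.E i).inv_mem hg) hx) hg

theorem rot_conj_iff (hS : Stmt_TRotS) (S : TSys) (g : S.G) (i : S.I) (r : S.G) :
    r ∈ RotT S.Lb (S.E i) ↔ g * r * g⁻¹ ∈ RotT S.Lb (S.E (g • i)) := by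
  obtain ⟨-, -, -, -, h5, -⟩ := hS S.G S.X S.d S.Lb S.good S.lab (S.E i) (S.kil i)
  obtain ⟨-, h6⟩ := h5 g (S.E (g • i)) (S.conj g i)
  rw [h6 (g * r * g⁻¹)]
  have h2 : g⁻¹ * (g * r * g⁻¹) * g = r := by group
  rw [h2]

end

end TKRF

open TKRF in
theorem TKRF_proof [TP] (E : EngT) (_h1 : Stmt_TKS) (h2 : Stmt_TRotS) (h3 : Stmt_TOverlap)
    (h4 : Stmt_TKCD) : Stmt_TKRF := by
  intro S
  obtain ⟨hcd, hiso, hdis⟩ := h4 S
  obtain ⟨_, _, _, _, hY, _, _, _⟩ := h3 S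
  have hrf : RF S.dg (Set.range S.ap) S.R del1 (2 * f3 + 1) (2 * f3) (2 * rt + 2) := by
    refine E.gamRF S.G S.X S.I (Dsc Lt S.d) (YT S.d S.E) rt (fun i => RotT S.Lb (S.E i)) hcd hiso
      (fun g i y hy => hY i g y hy) S.act ?_ ?_ ?_ ?_ S.R S.rot
    · intro i r hr
      exact idx_fix S i r (rotT_le _ _ hr)
    · intro g i r
      exact rot_conj_iff h2 S g i r
    · exact hdis
    · rw [rt_eq]; omega
  have hK : (KK (Set.range S.ap) S.R).Normal := E.kkn S.G S.Gm S.dg _ S.R _ _ _ _ hrf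
  let φ : S.G ⧸ KK (Set.range S.ap) S.R →* S.Gb :=
    QuotientGroup.lift (KK (Set.range S.ap) S.R) S.π (fun g hg => (S.pker g).mpr hg)
  letI act : MulAction (S.G ⧸ KK (Set.range S.ap) S.R) S.Xb := MulAction.compHom S.Xb φ
  have hsm : ∀ (g : S.G) (z : S.Xb),
      (QuotientGroup.mk g : S.G ⧸ KK (Set.range S.ap) S.R) • z = S.π g • z := fun _ _ => rfl
  have hQ : IsQuot S.dg (KK (Set.range S.ap) S.R) S.db S.q :=
    { surj := S.qsurj
      eq_iff := S.qeq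
      dist := S.qdist
      smul := by
        intro g x
        rw [hsm]
        exact S.qsmul g x }
  obtain ⟨hdg, hiso', hle, hex, hgeo⟩ := (E.quotEx S.G S.Gm S.dg (KK (Set.range S.ap) S.R) hrf.dg
    hrf.iso).2 S.Xb S.db S.q hQ
  have hhyp : Hyp S.db dd := by
    rw [dd_eq]
    exact E.quotHyp S.G S.Gm S.dg _ S.R _ _ _ _ hrf hK S.Xb S.db S.q hQ
  refine ⟨hrf, hdg, ?_, hhyp, hle, hex, ?_⟩
  · intro gb x y
    obtain ⟨g, rfl⟩ := S.psurj gb
    have h1 := hiso' (QuotientGroup.mk g) x y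
    rw [hsm, hsm] at h1
    exact h1
  · intro u wb g hg
    obtain ⟨w, g', h1, h2, h3⟩ := hgeo u wb g hg
    refine ⟨w, g', h1, ?_, h2, h3⟩
    have h4 := h3 (S.dg u w) le_rfl
    rw [h2.2.1] at h4
    rw [h4, h1]
    exact hg.2.1

end Pool.Agent.BT
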