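import Pool.Agent.BT.Stmts

/-! BT: module TKS, killed groups. -/

namespace Pool.Agent.BT

open Pool.Agent.BURN

namespace TKS

theorem mem_Ep_self {G : Type} [Group G] (g : G) : g ∈ Ep g :=
  ⟨1, le_refl 1, by group⟩

theorem mem_El_self {G : Type} [Group G] (g : G) : g ∈ El g :=
  ⟨1, le_refl 1, Or.inl (by group)⟩

theorem Ep_le_El {G : Type} [Group G] (g : G) : Ep g ≤ El g := by
  rintro h ⟨m, hm, e⟩
  exact ⟨m, hm, Or.inl e⟩

/-- a loxodromic element of a group acting as in AT has infinite order -/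
theorem lox_pow_ne {G X : Type} [Group G] [MulAction G X] {P : Subgroup G → Prop}
    {d : X → X → ℕ} {δ A R B : ℕ} (h : AT (G := G) P d δ A R B) {g : G} (hg : Lox d g)
    {m : ℕ} (hm : 1 ≤ m) : g ^ m ≠ 1 := by
  intro e
  obtain ⟨x⟩ := h.nonempty
  have h1 := h.stab g hg x m
  rw [e, one_smul] at h1
  have h2 : d x x = 0 := (h.dg.eq_zero x x).2 rfl
  rw [h2] at h1
  omega

end TKS

open TKS in
theorem TKS_proof [TP] (h1 : Stmt_TGA) (h2 : Stmt_TCyc) (h3 : Stmt_TEl) : Stmt_TKS := by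
  intro G X _ _ d Lb hG
  have hAT := h1 G X d Lb hG
  obtain ⟨e1, -, e3, e4, e5, -, -, e8⟩ := h3 G X FP d dd A0t TP.R (Nat.factorial TN.n) hAT
  have c1 := h2 G X FP d dd A0t TP.R (Nat.factorial TN.n) hAT
  have pos : ∀ g : G, Lox d g → PosS d (El g) = (Ep g : Set G) := by
    intro g hg
    ext h
    constructor
    · rintro ⟨g', hg', hl, hh⟩
      have := (e1 g g' hg hl hg').2.1
      rw [this] at hh
      exact hh
    · intro hh
      exact ⟨g, mem_El_self g, hg, hh⟩
  have main : ∀ E : Subgroup G, KilT d E → ∀ g ∈ E, Lox d g →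
      E = El g ∧ PosS d E = (Ep g : Set G) := by
    rintro E ⟨g0, hg0, rfl, -⟩ g hg hl
    obtain ⟨-, a2, a3⟩ := e1 g0 g hg0 hl hg
    refine ⟨a3.symm, ?_⟩
    rw [pos g0 hg0, a2]
  have sub : ∀ H H' : Subgroup G, FP H → H' ≤ H → FP H' := fun H H' => hAT.sub H H'
  have same : ∀ E E' : Subgroup G, KilT d E → KilT d E' → ∀ g : G, Lox d g → g ∈ E → g ∈ E' →
      E = E' := by
    intro E E' hE hE' g hl hg hg'
    rw [(main E hE g hg hl).1]
    exact ((main E' hE' g hg' hl).1).symm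
  refine ⟨?_, same, ?_, sub, ?_⟩
  · intro E hE
    obtain ⟨g, hg, rfl, x0, hx0⟩ := id hE
    refine ⟨?_, ?_, main _ hE, ?_, ?_⟩
    · rintro ⟨hf, -⟩
      have : ∃ m : ℕ, 1 ≤ m ∧ (⟨g, mem_El_self g⟩ : El g) ^ m = 1 := by
        obtain ⟨m, hm, e⟩ := isOfFinOrder_iff_pow_eq_one.1
          (isOfFinOrder_of_finite (⟨g, mem_El_self g⟩ : El g))
        exact ⟨m, hm, e⟩
      obtain ⟨m, hm, e⟩ := this
      have e' : g ^ m = 1 := by
        have := congrArg Subtype.val e
        simpa using this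
      exact lox_pow_ne hAT hg hm e'
    · intro h hh
      refine e5 g h g hg hg (mem_El_self g) ?_
      rw [hh]
      have : h⁻¹ * (h * g * h⁻¹) * h = g := by group
      rw [this]
      exact mem_El_self g
    · obtain ⟨K, w, hK, -, -, k1, -, k3⟩ := c1 g hg
      refine ⟨K, hK, ?_, ?_⟩
      · ext h
        rw [RadS, pos g hg]
        exact k1 h
      · intro s hs
        refine ⟨k3 s hs, ?_⟩
        intro hs'
        rw [pos g hg] at hs'
        obtain ⟨-, b2, b3⟩ := e3 g s hg hs hs'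
        exact (k1 _).2 ⟨b2, b3⟩
    · intro s hs t ht hs' ht'
      rw [pos g hg] at hs' ht' ⊢
      refine e4 g s⁻¹ t ((El g).inv_mem hs) ?_ ht ht'
      intro hc
      apply hs'
      have := (Ep g).inv_mem hc
      rwa [inv_inv] at this
  · intro H H' hH hH'
    rcases hH with hH | hH
    · exact Or.inr (sub H _ hH inf_le_left)
    rcases hH' with hH' | hH'
    · exact Or.inr (sub H' _ hH' inf_le_right)
    by_cases he : H = H'
    · exact Or.inl ⟨hH, he⟩
    right
    have hno : ∀ h ∈ H ⊓ H', ¬ Lox d h := by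
      intro h hh hl
      exact he (same H H' hH hH' h hl hh.1 hh.2)
    obtain ⟨g, hg, rfl, -⟩ := id hH
    obtain ⟨hf, K, hK, hc⟩ := e8 g hg (El g ⊓ H') inf_le_left hno
    refine ⟨hf, ?_⟩
    rcases hc with hc | hc
    · rw [hc]; exact hK.2
    · rw [hc]
      refine Nat.Coprime.mul_left ?_ hK.2
      refine (Nat.coprime_primes Nat.prime_two TP.prime).2 ?_
      have := TP.odd
      omega
  · intro g hg hn x
    by_contra hlt
    have hlt' : d x (g • x) ≤ 20 * dd := not_lt.1 hlt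
    exact hn (El g) ⟨g, hg, rfl, x, hlt'⟩ (mem_El_self g)

end Pool.Agent.BT
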