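import Pool.Agent.BT.Stmts

/-! BT, module TKStab. -/

namespace Pool.Agent.BT

open Pool.Agent.BURN

namespace TKStab

theorem gsmul_b {G V I : Type} [SMul G V] [SMul G I] (g : G) (v : V) :
    g • (CV.b v : CV V I) = CV.b (g • v) := rfl
theorem gsmul_c {G V I : Type} [SMul G V] [SMul G I] (g : G) (i : I) (y : V) (s : ℕ) :
    g • (CV.c i y s : CV V I) = CV.c (g • i) (g • y) s := rfl
theorem gsmul_a {G V I : Type} [SMul G V] [SMul G I] (g : G) (i : I) :
    g • (CV.a i : CV V I) = CV.a (g • i) := rfl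

theorem ht_smul {G V I : Type} [SMul G V] [SMul G I] (ρ : ℕ) (g : G) (u : CV V I) :
    ht ρ (g • u) = ht ρ u := by
  cases u <;> rfl

variable [TP]

/-- the action on apices -/
theorem smul_ap (S : TSys) (g : S.G) (i : S.I) : g • S.ap i = S.ap (g • i) :=
  Subtype.ext (S.act g (S.ap i))

theorem bs_smul (S : TSys) (g : S.G) (x : S.X) : g • S.bs x = S.bs (g • x) :=
  Subtype.ext (S.act g (S.bs x))

theorem ap_inj (S : TSys) {i j : S.I} (h : S.ap i = S.ap j) : i = j := by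
  have h1 : (CV.a i : CV S.X S.I) = CV.a j := congrArg Subtype.val h
  injection h1

/-- g • i = i iff g ∈ E i -/
theorem smul_idx (hK : Stmt_TKS) (S : TSys) (i : S.I) (g : S.G) : g • i = i ↔ g ∈ S.E i := by
  constructor
  · intro hg
    refine ((hK S.G S.X S.d S.Lb S.good).1 (S.E i) (S.kil i)).2.1 g ?_
    intro x
    have h1 := S.conj g i x
    rwa [hg] at h1
  · intro hg
    refine S.inj _ _ ?_
    ext x
    rw [S.conj g i x]
    constructor
    · intro hx
      have h1 := (S.E i).mul_mem ((S.E i).mul_mem hg hx) ((S.E i).inv_mem hg)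
      have h2 : g * (g⁻¹ * x * g) * g⁻¹ = x := by group
      rwa [h2] at h1
    · intro hx
      exact (S.E i).mul_mem ((S.E i).mul_mem ((S.E i).inv_mem hg) hx) hg

theorem rot_le (S : TSys) (i : S.I) : RotT S.Lb (S.E i) ≤ S.K := by
  intro x hx
  exact Subgroup.subset_closure ⟨S.ap i, ⟨i, rfl⟩, by
    change x ∈ S.R (va (YT S.d S.E) rt i)
    rw [S.rot]; exact hx⟩

theorem three_dd_le : 3 * dd + 1 ≤ Lt := by
  have h1 := Lt_eq
  omega

end TKStab

open TKStab

variable [TP]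

theorem TKStab_proof (E : EngT) (h1 : Stmt_TKS) (h2 : Stmt_TRotS) (h3 : Stmt_TKCD)
    (h4 : Stmt_TKRF) : Stmt_TKStab := by
  intro S
  obtain ⟨hcd, _, _⟩ := h3 S
  obtain ⟨hrf, _, _, _, _, hlift, _⟩ := h4 S
  obtain ⟨_, _, hht, hhor, hbD, _⟩ := E.gamDG S.X S.I (Dsc Lt S.d) (YT S.d S.E) rt hcd
  have hGL := E.glcor S.G S.Gm S.dg (Set.range S.ap) S.R del1 (2 * f3 + 1) (2 * f3) (2 * rt + 2)
      hrf
  have hLL := E.ll S.G S.Gm S.dg (Set.range S.ap) S.R del1 (2 * f3 + 1) (2 * f3) (2 * rt + 2)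
      hrf
  have hrt := rt_eq
  have hN0 := N0_eq
  obtain ⟨ha1, -⟩ := aa0_ge
  have hdd := dd_ge
  have hstab : ∀ i (g : S.G), g • S.ap i = S.ap i ↔ g ∈ S.E i := by
    intro i g
    rw [smul_ap, ← smul_idx h1]
    exact ⟨fun h => ap_inj S h, fun h => by rw [h]⟩
  have hfix : ∀ i (g : S.G), g ∈ S.K → g • S.ap i = S.ap i → g ∈ RotT S.Lb (S.E i) := by
    intro i g hg h
    have h5 := hGL.2.1 (S.ap i) ⟨i, rfl⟩ g hg h
    have h6 : S.R (S.ap i) = RotT S.Lb (S.E i) := S.rot i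
    rwa [h6] at h5
  have hcap : ∀ (u : S.Gm), ∀ c ∈ Set.range S.ap, rt + 1 ≤ ht rt u.1 + S.dg u c := by
    rintro u c ⟨i, rfl⟩
    have h5 := hht u (S.ap i)
    have h6 : ht rt (S.ap i).1 = rt + 1 := rfl
    rw [h6] at h5
    exact h5
  refine ⟨hstab, ?_, ?_, ?_, ?_, hfix, ?_, ?_, ?_, ?_⟩
  · -- short displacement in a horoball
    intro u g hu
    have hidx : ∀ i, Hor i u.1 → (Hor i (g • u.1)) := by
      intro i hi
      by_contra hn
      have h5 := hhor i u (g • u) hi (by rw [S.act]; exact hn)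
      have h6 : ht rt (g • u).1 = ht rt u.1 := by rw [S.act, ht_smul]
      rw [h6] at h5
      change _ ≤ S.dg u (g • u) at h5
      omega
    obtain ⟨uu, huu⟩ := u
    cases uu with
    | b v =>
      change S.dg _ _ < 2 * 0 at hu
      omega
    | c i y s =>
      refine ⟨i, Or.inl ⟨y, s, rfl⟩, ?_⟩
      rw [← smul_idx h1]
      rcases hidx i (Or.inl ⟨y, s, rfl⟩) with ⟨y', s', h⟩ | h
      · rw [gsmul_c] at h
        injection h
      · rw [gsmul_c] at h
        injection h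
    | a i =>
      refine ⟨i, Or.inr rfl, ?_⟩
      rw [← smul_idx h1]
      rcases hidx i (Or.inr rfl) with ⟨y', s', h⟩ | h
      · rw [gsmul_a] at h
        injection h
      · rw [gsmul_a] at h
        injection h
  · intro i j g hij hgi hgj hg
    exact hij (S.inj _ _ ((h1 S.G S.X S.d S.Lb S.good).2.1 _ _ (S.kil i) (S.kil j) g hg hgi hgj))
  · intro i g hg
    exact ⟨fun h => hfix i g h ((hstab i g).2 hg), fun h => rot_le S i h⟩
  · intro i g hg
    rw [← map_pow, S.pker]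
    exact rot_le S i ((h2 S.G S.X S.d S.Lb S.good S.lab (S.E i) (S.kil i)).2.1 g hg)
  · intro i j hne
    obtain ⟨k, hk, hd⟩ := hlift (S.ap i) (S.ap j)
    rw [← hd, smul_ap]
    refine hrf.sep _ ⟨i, rfl⟩ _ ⟨_, rfl⟩ ?_
    intro h
    refine hne ?_
    rw [h, ← smul_ap]
    exact ((S.qeq _ _).2 ⟨k, hk, rfl⟩).symm
  · intro x i
    have h5 := hhor i (S.ap i) (S.bs x) (Or.inr rfl) (by
      rintro (⟨y, s, h⟩ | h)
      · exact CV.noConfusion rfl rfl (heq_of_eq h)
      · exact CV.noConfusion rfl rfl (heq_of_eq h))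
    have h6 : ht rt (S.ap i).1 = rt + 1 := rfl
    have h7 : ht rt (S.bs x).1 = 0 := rfl
    rw [h6, h7] at h5
    have h8 : S.dg (S.bs x) (S.ap i) = S.dg (S.ap i) (S.bs x) := hrf.dg.symm _ _
    rw [h8]
    change _ ≤ S.dg (S.ap i) (S.bs x) at h5
    omega
  · -- no torsion in the kernel
    intro g hg hg1 hgK
    obtain ⟨x⟩ := S.good.nonempty
    obtain ⟨γ, hγ⟩ := exists_geod S.good.dg x (g • x)
    have hle : S.d x (g • x) / 2 ≤ S.d x (g • x) := Nat.div_le_self _ _
    have h5 := (E.iso1 S.G S.X S.d dd S.good.dg S.good.hyp S.good.iso).2.2 g x hg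
      (γ (S.d x (g • x) / 2)) (hγ.btw' hle) (hγ.dist_left hle)
    obtain ⟨y, hy⟩ : ∃ y, S.d y (g • y) ≤ 3 * dd + 1 := ⟨_, h5⟩
    have hD : Dsc Lt S.d y (g • y) ≤ 1 := by
      have hL := three_dd_le
      unfold Dsc
      have h6 : (S.d y (g • y) + Lt - 1) / Lt < 2 := by
        rw [Nat.div_lt_iff_lt_mul (by omega)]
        omega
      omega
    have h6 : S.dg (S.bs y) (g • S.bs y) ≤ 1 := by
      rw [bs_smul]
      exact (hbD y (g • y)).trans hD
    have h7 : ∀ c ∈ Set.range S.ap, N0 ≤ S.dg (S.bs y) c := by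
      intro c hc
      have h8 := hcap (S.bs y) c hc
      have h9 : ht rt (S.bs y).1 = 0 := rfl
      rw [h9] at h8
      omega
    have h8 := hGL.1 (S.bs y) N0 g hgK hg1 (fun c hc => by have := h7 c hc; omega) h7
    omega
  · intro u g g' hu hgg hd
    refine hLL.1 u N0 g g' (by omega) ?_ ?_ (by omega)
    · intro c hc
      have h8 := hcap u c hc
      omega
    · change g' * g⁻¹ ∈ S.K
      rw [TSys.K, ← S.pker, map_mul, map_inv, hgg, mul_inv_cancel]

end Pool.Agent.BT
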