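import Pool.Agent.BT.Stmts

/-! BT, module TLB1: 4.11 (a) of the blueprint, shadows of the axis of a non-killed element. -/

namespace Pool.Agent.BT

open Pool.Agent.BURN

namespace TLB1X

theorem Dsc_bounds {X : Type} (d : X → X → ℕ) {Λ : ℕ} (h : 1 ≤ Λ) (x y : X) :
    d x y ≤ Dsc Λ d x y * Λ ∧ Dsc Λ d x y * Λ ≤ d x y + Λ - 1 := by
  unfold Dsc
  have h1 := Nat.div_mul_le_self (d x y + Λ - 1) Λ
  have h2 := Nat.lt_div_mul_add (a := d x y + Λ - 1) (b := Λ) (by omega)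
  omega

end TLB1X

variable [TP]

open TLB1X in
theorem TLB1_proof (E : EngT) (h1 : Stmt_FBL) (h2 : Stmt_TGA) (h3 : Stmt_TSC) (h4 : Stmt_TKS)
    (h5 : Stmt_TOverlap) : Stmt_TLB1 := by
  intro S g hg hnk z hz o ho
  have hgood := S.good
  have hd := hgood.dg
  have hy := hgood.hyp
  have hi := hgood.iso
  have hne : Nonempty S.X := hgood.nonempty
  have hdd := dd_ge
  have hLp := Lt_pos
  have hAT := h2 S.G S.X S.d S.Lb hgood
  obtain ⟨hK1, hK2, hK3, hK4, hK5⟩ := h4 S.G S.X S.d S.Lb hgood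
  -- part 1
  have hp1 : 20 * dd + 1 ≤ S.d o (g • o) := by
    refine hK5 g hg ?_ o
    intro E' hE' hgE
    obtain ⟨i, hi'⟩ := S.all E' hE'
    exact hnk i (hi' ▸ hgE)
  have hp2 : S.d o (g • o) ≤ Lt * M2 := (ho z).trans hz
  refine ⟨hp1, hp2, ?_⟩
  intro k i
  by_contra hcon
  push Not at hcon
  obtain ⟨hO1, hO2, hO3, hO4, hO5, hO6, hO7, hO8⟩ := h5 S
  obtain ⟨w, hwE, hwl, hwd⟩ := hO7 i
  obtain ⟨hDG, hDH, hDQ⟩ := E.rescale S.X S.d dd (16 * dd) Lt hd hy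
    (by rw [Lt_eq]; omega) (by rw [Lt_eq]; omega)
  have hDG' : IsDG S.D := hDG
  have hpr : IsPr S.D S.Y S.pr := S.prn
  -- D geodesic
  obtain ⟨γ, hγ⟩ := exists_geod hDG' o (g ^ k • o)
  obtain ⟨-, -, -, -, -, hP5⟩ := E.proj S.X S.D 2 1 7 7 9 22 (S.Y i) hDG' hDH (hDQ _ (hO1 i)) rfl
    rfl rfl rfl
  have hOt := Ot_eq
  have hnu := nut_ge
  have hOt' : 9 < Ot := by
    rw [hOt]
    calc 9 < 800 * 60 := by norm_num
      _ ≤ nut * (M2 + 60) := Nat.mul_le_mul hnu (by omega)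
  obtain ⟨i0, j0, hi0, hj0, hpi, hpj, hw⟩ := hP5 o (g ^ k • o) (S.pr i o) (S.pr i (g ^ k • o)) γ
    (hpr i o) (hpr i _) (by omega) hγ
  -- distance between the two points
  have hfar : Ot ≤ S.D (γ i0) (γ j0) + 13 := by
    have t1 := hDG'.tri (S.pr i o) (γ i0) (S.pr i (g ^ k • o))
    have t2 := hDG'.tri (γ i0) (γ j0) (S.pr i (g ^ k • o))
    rw [hDG'.symm (S.pr i o) (γ i0)] at t1
    omega
  -- points on the D-geodesic are near the axis
  obtain ⟨-, hAq, -⟩ := E.axis S.G S.X S.d dd (S.d o (g • o)) hd hy hi (by omega) g o rfl ho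
  have hmemA : ∀ n : ℕ, g ^ n • o ∈ {p | ∃ i : ℤ, Btw S.d (g ^ i • o) p (g ^ (i + 1) • o)} := by
    intro n
    refine ⟨n, ?_⟩
    unfold BURN.Btw
    rw [zpow_natCast, (hd.eq_zero _ _).2 rfl, Nat.zero_add]
  have hgp : ∀ p, Btw S.D o p (g ^ k • o) → S.d p (g • p) ≤ Lt * M2 + 2 * Lt := by
    intro p hp
    have b1 := Dsc_bounds S.d hLp o p
    have b2 := Dsc_bounds S.d hLp p (g ^ k • o)
    have b3 := Dsc_bounds S.d hLp o (g ^ k • o)
    have hp' : Dsc Lt S.d o p + Dsc Lt S.d p (g ^ k • o) = Dsc Lt S.d o (g ^ k • o) := hp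
    have hp2' : Dsc Lt S.d o p * Lt + Dsc Lt S.d p (g ^ k • o) * Lt =
        Dsc Lt S.d o (g ^ k • o) * Lt := by rw [← add_mul, hp']
    have hgp1 : gp S.d o (g ^ k • o) p ≤ Lt - 1 := by
      unfold gp
      rw [hd.symm (g ^ k • o) p]
      omega
    obtain ⟨σ, hσ⟩ := exists_geod hd o (g ^ k • o)
    obtain ⟨h1, h2⟩ := near_geod hd hy hσ p
    have hbt := hσ.btw' h1
    have h0A : o ∈ {p | ∃ i : ℤ, Btw S.d (g ^ i • o) p (g ^ (i + 1) • o)} := by
      have := hmemA 0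
      rwa [pow_zero, one_smul] at this
    obtain ⟨q, ⟨a, hqa⟩, hq2⟩ := hAq o h0A (g ^ k • o) (hmemA k) _ hbt
    have hqg : S.d q (g • q) ≤ S.d o (g • o) := by
      have e1 : S.d (g ^ (a + 1) • o) (g • q) = S.d (g ^ a • o) q := by
        rw [← hi g (g ^ a • o) q, smul_smul, ← zpow_one_add, add_comm]
      have e2 : S.d (g ^ a • o) (g ^ (a + 1) • o) = S.d o (g • o) := by
        rw [zpow_add_one, mul_smul, hi]
      have t := hd.tri q (g ^ (a + 1) • o) (g • q)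
      unfold BURN.Btw at hqa
      omega
    have hpq : S.d p q ≤ Lt / 2 + 7 * dd := by
      have t := hd.tri p (σ (gp S.d (g ^ k • o) p o / 2)) q
      omega
    have hL := Lt_eq
    have t1 := hd.tri p q (g • p)
    have t2 := hd.tri q (g • q) (g • p)
    rw [hi, hd.symm q p] at t2
    omega
  have hwp : ∀ p, (∃ y ∈ S.Y i, S.D p y ≤ 22) → S.d p (w • p) ≤ 46 * Lt := by
    rintro p ⟨y, hy1, hy2⟩
    have b1 := (Dsc_bounds S.d hLp p y).1
    have b2 : Dsc Lt S.d p y * Lt ≤ 22 * Lt := Nat.mul_le_mul_right _ hy2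
    have b3 := hwd y hy1
    have t1 := hd.tri p y (w • p)
    have t2 := hd.tri y (w • y) (w • p)
    rw [hi, hd.symm y p] at t2
    have hL := Lt_eq
    omega
  have hb1 := hγ.btw' hi0
  have hb2 := hγ.btw' hj0
  have hLM : Lt * (M2 + 50) = Lt * M2 + 50 * Lt := by ring
  have hfar2 : A0t + nuB (Nat.factorial TN.n) * (Lt * (M2 + 50) + dd) ≤ S.d (γ i0) (γ j0) := by
    rw [← nut_eq]
    have b := (Dsc_bounds S.d hLp (γ i0) (γ j0)).2
    have hD : S.D (γ i0) (γ j0) = Dsc Lt S.d (γ i0) (γ j0) := rfl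
    rw [hD, hOt] at hfar
    have hL := Lt_eq
    have hb : (nut * (M2 + 60)) * Lt ≤ (Dsc Lt S.d (γ i0) (γ j0) + 13) * Lt :=
      Nat.mul_le_mul_right _ hfar
    have e1 : (nut * (M2 + 60)) * Lt = nut * (Lt * (M2 + 50)) + nut * (10 * Lt) := by ring
    have e2 : (Dsc Lt S.d (γ i0) (γ j0) + 13) * Lt =
        Dsc Lt S.d (γ i0) (γ j0) * Lt + 13 * Lt := by ring
    have e3 : nut * (Lt * (M2 + 50) + dd) = nut * (Lt * (M2 + 50)) + nut * dd := by ring
    have e4 : nut * (10 * Lt) = nut * Lt + nut * (9 * Lt) := by ring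
    have e5 : nut * dd ≤ nut * Lt := Nat.mul_le_mul_left _ (by omega)
    have e6 : 800 * (9 * Lt) ≤ nut * (9 * Lt) := Nat.mul_le_mul_right _ hnu
    rw [e1, e2, e4] at hb
    rw [e3]
    clear * - b hb hL e5 e6
    generalize Dsc Lt S.d (γ i0) (γ j0) * Lt = Q at b hb
    generalize nut * (Lt * (M2 + 50)) = P at hb ⊢
    generalize S.d (γ i0) (γ j0) = T at b ⊢
    generalize nut * dd = n1 at *
    generalize nut * Lt = n2 at *
    generalize nut * (9 * Lt) = n3 at *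
    generalize Lt = L at *
    generalize A0t = a0 at *
    generalize A1t = a1 at *
    generalize dd = e at *
    omega
  obtain ⟨F, c, hF, hN, hc, hall⟩ := h3 S.G S.X FP S.d dd A0t TP.R (Nat.factorial TN.n) hAT
    (γ i0) (γ j0) (Lt * (M2 + 50)) hfar2
  have hgc : InFc F c g := by
    apply hall
    · exact (hgp _ hb1).trans (by omega)
    · exact (hgp _ hb2).trans (by omega)
  have hwc : InFc F c w := by
    apply hall
    · exact (hwp _ (hw i0 (min_le_left _ _) (le_max_left _ _))).trans (by omega)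
    · exact (hwp _ (hw j0 (min_le_right _ _) (le_max_right _ _))).trans (by omega)
  obtain ⟨hB1, hB2⟩ := h1 S.G S.X S.d hd hi hne F c hF.1 hN
  rcases hc with hc | hc
  · obtain ⟨f, hf, j, hj⟩ := hgc
    rw [hc, one_zpow, mul_one] at hj
    exact hB1 f hf (hj ▸ hg)
  · obtain ⟨-, -, hB3⟩ := hB2 hc
    have hEg := (hB3 g hgc hg).2
    have hEw := (hB3 w hwc hwl).2
    have hEi := ((hK1 (S.E i) (S.kil i)).2.2.1 w hwE hwl).1
    apply hnk i
    rw [hEi, hEw, ← hEg]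
    exact ⟨1, le_refl 1, Or.inl (by simp)⟩

end Pool.Agent.BT
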