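import Pool.Agent.BT.Stmts
import Pool.Agent.BURN.LB2

/-! BT module TLB2: an element of moderate displacement which lies in no killed group
stays loxodromic in the quotient, with controlled constants. -/

namespace Pool.Agent.BT

open Pool.Agent.BURN

namespace TLB2X

theorem Dsc_mul_ge [TN] (d : ℕ) : d ≤ Lt * ((d + Lt - 1) / Lt) := by
  have h := Lt_pos
  have h1 := Nat.div_add_mod (d + Lt - 1) Lt
  have h2 := Nat.mod_lt (d + Lt - 1) (show 0 < Lt by omega)
  omega

theorem Dsc_mul_lt [TN] (d : ℕ) : Lt * ((d + Lt - 1) / Lt) ≤ d + Lt - 1 :=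
  Nat.mul_div_le _ _

/-- the product for the rescaled metric -/
theorem gp_Dsc [TN] {a b c : ℕ} (h : a + b ≤ c + 4 * dd) :
    (a + Lt - 1) / Lt + (b + Lt - 1) / Lt ≤ (c + Lt - 1) / Lt + 2 := by
  have hL := Lt_pos
  have hL2 := Lt_eq
  have h1 := Dsc_mul_lt a
  have h2 := Dsc_mul_lt b
  have h3 := Dsc_mul_ge c
  set A := (a + Lt - 1) / Lt
  set B := (b + Lt - 1) / Lt
  set C := (c + Lt - 1) / Lt
  by_contra hcon
  have hcon' : C + 3 ≤ A + B := by omega
  have h4 : Lt * (C + 3) ≤ Lt * (A + B) := Nat.mul_le_mul_left _ hcon'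
  have h5 : Lt * (C + 3) = Lt * C + 3 * Lt := by ring
  have h6 : Lt * (A + B) = Lt * A + Lt * B := by ring
  omega

theorem lox_of' {G X : Type} [Group G] [MulAction G X] {d : X → X → ℕ} {R : ℕ} (hR : 1 ≤ R)
    (g : G) (h : ∀ (x : X) (m : ℕ), m ≤ R * d x (g ^ m • x)) : Lox d g := by
  intro x B
  refine ⟨R * (B + 1), ?_⟩
  have h1 := h x (R * (B + 1))
  have h2 : B + 1 ≤ d x (g ^ (R * (B + 1)) • x) := Nat.le_of_mul_le_mul_left h1 (by omega)
  omega

end TLB2X

open LB2X in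

theorem TLB2_proof [TP] (E : EngT) (hLB1 : Stmt_TLB1) (hKCD : Stmt_TKCD) (hKRF : Stmt_TKRF)
    (hKS : Stmt_TKStab) : Stmt_TLB2 := by
  have hND := E.noDeep
  have hFS0 := E.fs0
  have hIM := E.irrMin
  have hAx := E.axis
  have hI2 := E.iso2
  have hSh := E.shadow
  have hPr := E.proj
  have hGu := E.guess
  have hGD := E.gamDG
  intro S g hg hgE z hz
  obtain ⟨hCD, hisoD, -⟩ := hKCD S
  obtain ⟨hRF, hdbDG, hdbiso, hdbhyp, hqle, hqlift, -⟩ := hKRF S
  have hapx := (hKS S).2.2.2.2.2.2.2.1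
  have hgood := S.good
  have hdg : IsDG S.dg := hRF.dg
  have hprn : IsPr S.D S.Y S.pr := S.prn
  have hvb : ∀ (g : S.G) (v : S.X), g • S.bs v = S.bs (g • v) := by
    intro g v; apply Subtype.ext; rw [S.act]; rfl
  have hne : Nonempty S.X := hgood.nonempty
  -- the key equality (b)
  have key : ∀ o ∈ MinSet S.d g, ∀ k : ℕ,
      S.db (S.q (S.bs o)) (S.q (S.bs (g ^ k • o))) = S.dg (S.bs o) (S.bs (g ^ k • o)) ∧
      S.D o (g ^ k • o) ≤ 2 ^ s3t * S.dg (S.bs o) (S.bs (g ^ k • o)) := by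
    intro o ho k
    obtain ⟨-, -, hpr⟩ := hLB1 S g hg hgE z hz o ho
    have hnd := hND S.X S.I S.D S.Y rt S.pr hCD hprn o (g ^ k • o) s2t s3t s3t_eq
      (by rw [rt_eq]; omega) (fun i => (hpr k i).trans Ot_le)
    obtain ⟨-, hlen, hgp⟩ := hnd
    refine ⟨?_, hlen⟩
    obtain ⟨k', hk', he⟩ := hqlift (S.bs o) (S.bs (g ^ k • o))
    have hbig : ∀ c ∈ Set.range S.ap, eta1 del1 (2 * f3) < gp S.dg (S.bs o) (S.bs (g ^ k • o)) c := by
      rintro _ ⟨i, rfl⟩
      have h1 := hgp i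
      have h2 := rt_eq
      change 2 * (rt + 1) ≤ gp S.dg (S.bs o) (S.bs (g ^ k • o)) (S.ap i) +
        2 * (s3t + del1 + 1) at h1
      omega
    have hirr : Irr S.dg (Set.range S.ap) S.R (eta del1 (2 * f3)) (tht del1 (2 * f3))
        (S.bs o) (S.bs (g ^ k • o)) := by
      intro c hc r _ hle
      have := hbig c hc
      exfalso
      have e1 : eta1 del1 (2 * f3) = tht del1 (2 * f3) + 4 * del1 := rfl
      have e2 : tht del1 (2 * f3) = BB del1 (2 * f3) + 1 := rfl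
      have e3 : BB del1 (2 * f3) = eta del1 (2 * f3) + 4 * del1 := rfl
      omega
    have hmin : S.dg (S.bs o) (k' • S.bs (g ^ k • o)) =
        dK S.dg (KK (Set.range S.ap) S.R) (S.bs o) (k' • S.bs (g ^ k • o)) := by
      have h1 := S.qdist (S.bs o) (k' • S.bs (g ^ k • o))
      have h2 : S.q (k' • S.bs (g ^ k • o)) = S.q (S.bs (g ^ k • o)) :=
        ((S.qeq _ _).2 ⟨k', hk', rfl⟩).symm
      rw [h2, ← he] at h1
      exact h1
    have hirr' := ((hIM S.G S.Gm S.dg (Set.range S.ap) S.R del1 (2 * f3 + 1) (2 * f3)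
      (2 * rt + 2) hRF).1 _ _ hmin).2
    by_cases hk1 : k' = 1
    · rw [hk1, one_smul] at he
      exact he.symm
    · exfalso
      obtain ⟨c, hc, h1, -⟩ := hFS0 S.G S.Gm S.dg (Set.range S.ap) S.R del1 (2 * f3 + 1) (2 * f3)
        (2 * rt + 2) hRF (S.bs o) (S.bs (g ^ k • o)) k' hk' hk1 (by
          rintro _ ⟨i, rfl⟩
          have h1 := hapx (g ^ k • o) i
          have h2 := N0_eq
          have h3 := rt_eq
          omega) hirr hirr'
      have := hbig c hc
      omega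
  have hLR : ∀ o ∈ MinSet S.d g, ∀ m : ℕ,
      m ≤ Rt * S.db (S.q (S.bs o)) (S.π g ^ m • S.q (S.bs o)) := by
    intro o ho m
    obtain ⟨hm, -, -⟩ := hLB1 S g hg hgE z hz o ho
    obtain ⟨h1, h2⟩ := key o ho m
    rw [← map_pow, S.qsmul, hvb, h1]
    have h3 := (hI2 S.G S.X S.d dd (S.d o (g • o)) hgood.dg hgood.hyp hgood.iso
      (by have := dd_ge; omega) g o rfl (fun y => ho y)).2.2.1 m
    have h4 : m * 1 ≤ m * (S.d o (g • o) - 3 * dd) := Nat.mul_le_mul_left _ (by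
      have := dd_ge; omega)
    have h5 : S.d o (g ^ m • o) ≤ Lt * S.D o (g ^ m • o) := TLB2X.Dsc_mul_ge _
    have h6 : Lt * S.D o (g ^ m • o) ≤ Lt * (2 ^ s3t * S.dg (S.bs o) (S.bs (g ^ m • o))) :=
      Nat.mul_le_mul_left _ h2
    rw [Rt_eq, mul_assoc]
    omega
  refine ⟨?_, ?_⟩
  · intro o ho k
    refine ⟨(key o ho k).1, ?_⟩
    -- (d)
    obtain ⟨o1, o2⟩ := minset_smul hgood.iso ho k
    set x := (g ^ k)⁻¹ • o with hx
    set y := g ^ k • o with hy
    have exo : g ^ k • x = o := by rw [hx, smul_smul, mul_inv_cancel, one_smul]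
    have exy : g ^ (2 * k) • x = y := by
      rw [hx, hy, smul_smul]; congr 1; rw [two_mul, pow_add]; group
    have b1 : S.db (S.q (S.bs x)) (S.q (S.bs o)) = S.dg (S.bs x) (S.bs o) := by
      have := (key x o2 k).1
      rw [exo] at this; exact this
    have b2 : S.db (S.q (S.bs x)) (S.q (S.bs y)) = S.dg (S.bs x) (S.bs y) := by
      have := (key x o2 (2 * k)).1
      rw [exy] at this; exact this
    have b3 : S.db (S.q (S.bs y)) (S.q (S.bs o)) = S.dg (S.bs y) (S.bs o) := by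
      rw [hdbDG.symm, hdg.symm]; exact (key o ho k).1
    have hgpe : gp S.db (S.q (S.bs x)) (S.q (S.bs y)) (S.q (S.bs o)) =
        gp S.dg (S.bs x) (S.bs y) (S.bs o) := by
      unfold gp; rw [b1, b2, b3]
    rw [hgpe]
    -- product in d
    have hd4 : gp S.d x y o ≤ 4 * dd := by
      rcases Nat.eq_zero_or_pos k with h0 | h0
      · subst h0
        have : y = o := by rw [hy, pow_zero, one_smul]
        rw [this, gp_right_self hgood.dg]; omega
      · obtain ⟨hm, -, -⟩ := hLB1 S g hg hgE z hz o ho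
        have := (hAx S.G S.X S.d dd (S.d o (g • o)) hgood.dg hgood.hyp hgood.iso
          (by have := dd_ge; omega) g o rfl (fun y => ho y)).1 (-(k : ℤ)) k 0 (by omega) (by omega)
        rw [zpow_neg, zpow_natCast, zpow_zero, one_smul] at this
        exact this
    have hD2 : gp S.D x y o ≤ 2 := by
      have h1 := gp_add hgood.dg x y o
      have h2 := TLB2X.gp_Dsc (a := S.d x o) (b := S.d y o) (c := S.d x y) (by omega)
      unfold gp
      change (S.d x o + Lt - 1) / Lt + (S.d y o + Lt - 1) / Lt -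
        (S.d x y + Lt - 1) / Lt ≤ 2
      omega
    have hDG := hCD.dg
    obtain ⟨γ, hγ⟩ := exists_geod hDG x y
    obtain ⟨ht1, ht2⟩ := near_geod hDG hCD.hyp hγ o
    set p := γ (gp S.D y o x / 2) with hp
    have hbp : BURN.Btw S.D x p y := hγ.btw' ht1
    have hop : S.D o p ≤ 3 := by omega
    -- a point of the guessed path near o
    have hu : ∃ u ∈ Lset S.D S.Y rt S.pr x y, S.dg (S.bs o) u ≤ Ot + 48 := by
      have hle : ∀ a b, S.dg (S.bs a) (S.bs b) ≤ S.D a b :=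
        (hGD S.X S.I S.D S.Y rt hCD).2.2.2.2.1
      by_cases hdeep : ∃ i, Deep S.D S.pr i x y p
      · obtain ⟨i, hi⟩ := hdeep
        obtain ⟨s1, s2⟩ := (hSh S.X S.I S.D S.Y rt S.pr hCD hprn).2.2.1 i x y p hbp hi
        refine ⟨S.bs (S.pr i x), Or.inr ⟨i, by omega, Or.inl rfl⟩, ?_⟩
        refine (hle _ _).trans ?_
        have hproj := (hPr S.X S.D 2 1 7 7 9 22 (S.Y i) hDG hCD.hyp (hCD.qc i) rfl rfl rfl
          rfl).2.1
        obtain ⟨hd1, hd2⟩ := hi
        have p1 := (hproj x p _ _ (hprn i x) (hprn i p) (by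
          rw [hDG.symm]; omega)).2.2
        have p2 := (hproj p y _ _ (hprn i p) (hprn i y) (by omega)).2.2
        have hOm : S.D (S.pr i x) (S.pr i y) ≤ Ot := by
          have := (hLB1 S g hg hgE z hz x o2).2.2 (2 * k) i
          rw [exy] at this; exact this
        have t1 := hDG.tri x (S.pr i x) y
        have t2 := hDG.tri (S.pr i x) (S.pr i y) y
        have t3 := hDG.tri o p (S.pr i x)
        have t4 := hDG.tri p (S.pr i p) (S.pr i x)
        have e1 := hDG.symm (S.pr i p) (S.pr i x)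
        have e2 := hDG.symm (S.pr i p) p
        unfold BURN.Btw at hbp
        omega
      · refine ⟨S.bs p, Or.inl ⟨p, rfl, hbp, fun i hi => hdeep ⟨i, hi⟩⟩, ?_⟩
        refine (hle _ _).trans ?_
        omega
    obtain ⟨u, hu1, hu2⟩ := hu
    obtain ⟨ψ, hψ⟩ := exists_geod hdg (S.bs x) (S.bs y)
    obtain ⟨j, hj, hju⟩ := ((hGu S.X S.I S.D S.Y rt S.pr hCD hprn).1 x y ψ hψ).1 u hu1
    have hbt : BURN.Btw S.dg (S.bs x) (ψ j) (S.bs y) := hψ.btw' hj
    have h1 := gp_le_of_btw hdg hbt (S.bs o)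
    have h2 := hdg.tri (S.bs o) u (ψ j)
    change S.dg u (ψ j) ≤ f3 at hju
    omega
  · obtain ⟨o, ho⟩ := exists_minset S.d g
    have h := fun x m => pow_arg hdbDG hdbiso Rt (S.π g) (S.q (S.bs o)) (hLR o ho) x m
    exact ⟨TLB2X.lox_of' Rt_pos _ h, h⟩

end Pool.Agent.BT
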