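import Pool.Agent.BT.Stmts

/-! BT: TLAB, the labels of the quotient (helper85). -/

namespace Pool.Agent.BT

open Pool.Agent.BURN

namespace TLab

variable [TP]

theorem gd_mono {S : TSys} {l l' : ℕ} (h : l ≤ l') {u : S.Gm} {Fb : Subgroup S.Gb}
    (hg : GdAt S l u Fb) : GdAt S l' u Fb := fun g hgF => (hg g hgF).trans h

theorem chain (E : EngT) (h2 : Stmt_TKRF) (h4 : Stmt_TCh2) (h5 : Stmt_TCh3) (S : TSys)
    (Fb : Subgroup S.Gb) (hF : FP Fb) (u w : S.Gm) (f f' : S.Gb → SP)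
    (hu : GdAt S (2 * dd + 1) u Fb) (hw : GdAt S (2 * dd + 1) w Fb)
    (hd : S.dg u w = S.db (S.q u) (S.q w))
    (hf : LblAt S u Fb f) (hf' : LblAt S w Fb f') :
    ∃ s : SP, ∀ a ∈ Fb, f' a = s * f a * s⁻¹ := by
  obtain ⟨hRF, bdg, biso, bhyp, hle, -, -⟩ := h2 S
  obtain ⟨γ, hγ⟩ := exists_geod hRF.dg u w
  obtain ⟨γb, hγb⟩ := exists_geod bdg (S.q u) (S.q w)
  have hgood : ∀ t ≤ S.dg u w, GdAt S (3 * dd + 1) (γ t) Fb := by
    intro t ht a ha
    have hm := (E.mid S.Gb S.Xb S.db dd (2 * dd + 1) (S.q u) (S.q w) γb a bdg bhyp biso hγb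
      (hu a ha) (hw a ha)).1 (S.q (γ t)) ?_
    · omega
    · unfold Pool.Agent.BURN.Btw
      have e1 := hγ.dist_left ht
      have e2 := hγ.dist_right ht
      have l1 := hle u (γ t)
      have l2 := hle (γ t) w
      have l3 := bdg.tri (S.q u) (S.q (γ t)) (S.q w)
      have e1' : S.dg u (γ t) = t := e1
      have e2' : S.dg (γ t) w = S.dg u w - t := e2
      omega
  have key : ∀ t, t ≤ S.dg u w → ∃ h, LblAt S (γ t) Fb h ∧
      ∃ s : SP, ∀ a ∈ Fb, h a = s * f a * s⁻¹ := by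
    intro t
    induction t with
    | zero =>
      intro _
      refine ⟨f, ?_, 1, fun a _ => by simp⟩
      rw [hγ.1]
      exact hf
    | succ t ih =>
      intro ht
      obtain ⟨h, hh, s, hs⟩ := ih (by omega)
      have hstep : S.dg (γ t) (γ (t + 1)) ≤ 1 := by
        have := hγ.2.2 t (t + 1) (by omega) ht
        have e : S.dg (γ t) (γ (t + 1)) = t + 1 - t := this
        omega
      obtain ⟨h0, k1, k2⟩ := h5 S (γ t) (γ (t + 1)) Fb hF (hgood t (by omega)) (hgood (t + 1) ht)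
        hstep
      obtain ⟨s', hs'⟩ := h4 S (γ t) Fb h h0 hF (hgood t (by omega)) hh k1
      refine ⟨h0, k2, s' * s, fun a ha => ?_⟩
      rw [hs' a ha, hs a ha]
      group
  obtain ⟨h, hh, s, hs⟩ := key (S.dg u w) le_rfl
  have e : γ (S.dg u w) = w := hγ.2.1
  have hgw := hgood (S.dg u w) le_rfl
  rw [e] at hh hgw
  obtain ⟨s', hs'⟩ := h4 S w Fb h f' hF hgw hh hf'
  refine ⟨s' * s, fun a ha => ?_⟩
  rw [hs' a ha, hs a ha]
  group

end TLab

open TLab in
theorem TLab_proof [TP] (E : EngT) (h1 : Stmt_TQC) (h2 : Stmt_TKRF) (h3 : Stmt_TCh1)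
    (h4 : Stmt_TCh2) (h5 : Stmt_TCh3) (h6 : Stmt_TCh4) : Stmt_TLab := by
  intro S
  obtain ⟨hRF, bdg, biso, bhyp, hle, hlift, -⟩ := h2 S
  have hne : Nonempty S.Xb := by
    obtain ⟨x⟩ := S.good.nonempty
    exact ⟨S.q (S.bs x)⟩
  have hdd := dd_ge
  exact
    { ex := by
        intro F hF
        obtain ⟨xb, hx⟩ := h1 S.Gb S.Xb S.db dd bdg bhyp biso hne F hF.1
        obtain ⟨u, rfl⟩ := S.qsurj xb
        have hg : GdAt S (2 * dd + 1) u F := hx
        obtain ⟨fb, hfb⟩ := (h3 S u F hF (gd_mono (by omega) hg)).1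
        exact ⟨fb, u, hg, hfb⟩
      hom := by
        rintro F f hF ⟨u, hg, hl⟩
        exact ((h3 S u F hF (gd_mono (by omega) hg)).2 f hl).1
      inj := by
        rintro F f hF _ ⟨u, hg, hl⟩
        exact ((h3 S u F hF (gd_mono (by omega) hg)).2 f hl).2
      orb := by
        rintro F f f' hF ⟨u, hg, hl⟩ ⟨u', hg', hl'⟩
        obtain ⟨k, hk, hd⟩ := hlift u u'
        have hπ : S.π k = 1 := (S.pker k).2 hk
        have hq : S.q (k • u') = S.q u' := by
          rw [← S.qsmul, hπ, one_smul]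
        have hl2 : LblAt S (k • u') F f' := by
          have h := h6 S u' F F f' k (by intro x; rw [hπ]; simp) hl'
          have e : (fun x => f' ((S.π k)⁻¹ * x * S.π k)) = f' := by
            funext x
            rw [hπ]
            simp
          rw [e] at h
          exact h
        refine chain E h2 h4 h5 S F hF u (k • u') f f' hg ?_ ?_ hl hl2
        · intro a ha
          rw [hq]
          exact hg' a ha
        · rw [hq]
          exact hd
      cjs := by
        rintro F f f' s _ ⟨u, hg, H, φ, hp, hb, hh⟩ he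
        refine ⟨u, hg, H, fun x => s * φ x * s⁻¹, hp, ?_, ?_⟩
        · exact S.lab.cjs H φ _ s hp hb (fun a _ => rfl)
        · intro g hg1 hg2
          obtain ⟨k1, k2⟩ := hh g hg1 hg2
          refine ⟨k1, ?_⟩
          rw [he _ hg1, k2]
      res := by
        rintro F F' f _ _ hFF ⟨u, hg, H, φ, hp, hb, hh⟩
        exact ⟨u, fun a ha => hg a (hFF ha), H, φ, hp, hb, fun g hg1 hg2 => hh g (hFF hg1) hg2⟩
      cj := by
        rintro F F' f g _ hcj ⟨u, hg, hl⟩
        obtain ⟨g0, rfl⟩ := S.psurj g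
        refine ⟨g0 • u, ?_, h6 S u F F' f g0 hcj hl⟩
        intro a ha
        have h := hg _ ((hcj a).1 ha)
        rw [← S.qsmul]
        have e := biso (S.π g0) (S.q u) (((S.π g0)⁻¹ * a * S.π g0) • S.q u)
        rw [smul_smul] at e
        have e2 : S.π g0 * ((S.π g0)⁻¹ * a * S.π g0) = a * S.π g0 := by group
        rw [e2, mul_smul] at e
        rw [e]
        exact h }

end Pool.Agent.BT
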