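import Pool.Agent.BT.Stmts

/-! BT, module TLim: the limit of the tower. -/

namespace Pool.Agent.BT

open Pool.Agent.BURN

namespace TLim

section
variable [TP]

/-- a bundled good stage -/
structure Stg where
  G : Type
  X : Type
  [gG : Group G]
  [aX : MulAction G X]
  d : X → X → ℕ
  Lb : Subgroup G → (G → SP) → Prop
  good : GoodT (G := G) d Lb

attribute [instance] Stg.gG Stg.aX

/-- one step -/
structure Nxt (s : Stg) where
  t : Stg
  π : s.G →* t.G
  ι : s.X → t.X
  rel : StepT s.d t.d π ι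

theorem nxt (hStep : Stmt_TStep) (s : Stg) : Nonempty (Nxt s) := by
  obtain ⟨G', X', gG, gX, d', Lb', π, ι, hg, hr⟩ := hStep s.G s.X s.d s.Lb s.good
  exact ⟨⟨{ G := G', X := X', gG := gG, aX := gX, d := d', Lb := Lb', good := hg }, π, ι, hr⟩⟩

/-- a tower -/
structure Tow where
  T : ℕ → Stg
  π : ∀ k, (T k).G →* (T (k + 1)).G
  ι : ∀ k, (T k).X → (T (k + 1)).X
  rel : ∀ k, StepT (T k).d (T (k + 1)).d (π k) (ι k)

theorem tower (hStep : Stmt_TStep) (s : Stg) : ∃ W : Tow, W.T 0 = s := by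
  let T : ℕ → Stg := fun k => Nat.rec s (fun _ t => (Classical.choice (nxt hStep t)).t) k
  exact ⟨{ T := T
           π := fun k => (Classical.choice (nxt hStep (T k))).π
           ι := fun k => (Classical.choice (nxt hStep (T k))).ι
           rel := fun k => (Classical.choice (nxt hStep (T k))).rel }, rfl⟩

variable (W : Tow)

/-- the map to the k-th stage -/
noncomputable def phi : ∀ k, (W.T 0).G →* (W.T k).G
  | 0 => MonoidHom.id _
  | k + 1 => (W.π k).comp (phi k)

theorem phi_succ (k : ℕ) (x : (W.T 0).G) : phi W (k + 1) x = W.π k (phi W k x) := rfl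

theorem phi_one_mono {k l : ℕ} (hkl : k ≤ l) {x : (W.T 0).G} (h : phi W k x = 1) :
    phi W l x = 1 := by
  induction l, hkl using Nat.le_induction with
  | base => exact h
  | succ l _ ih => rw [phi_succ, ih, map_one]

/-- the union of the kernels -/
noncomputable def ker : Subgroup (W.T 0).G where
  carrier := {x | ∃ k, phi W k x = 1}
  one_mem' := ⟨0, map_one _⟩
  mul_mem' := by
    rintro a b ⟨k, hk⟩ ⟨l, hl⟩
    refine ⟨max k l, ?_⟩
    rw [map_mul, phi_one_mono W (le_max_left k l) hk, phi_one_mono W (le_max_right k l) hl,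
      mul_one]
  inv_mem' := by
    rintro a ⟨k, hk⟩
    exact ⟨k, by rw [map_inv, hk, inv_one]⟩

theorem mem_ker (x : (W.T 0).G) : x ∈ ker W ↔ ∃ k, phi W k x = 1 := Iff.rfl

/-- image of a base point -/
noncomputable def pt (P : (W.T 0).X) : ∀ k, (W.T k).X
  | 0 => P
  | k + 1 => W.ι k (pt P k)

theorem pt_disp (P : (W.T 0).X) (x : (W.T 0).G) (k : ℕ) :
    (W.T (k + 1)).d (pt W P (k + 1)) (phi W (k + 1) x • pt W P (k + 1)) ≤
      Dsc Lt (W.T k).d (pt W P k) (phi W k x • pt W P k) := by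
  have h := (W.rel k).contr (pt W P k) (phi W k x • pt W P k)
  rw [(W.rel k).equiv] at h
  exact h

theorem lt_two : 2 ≤ Lt := by
  rw [Lt_eq]; omega

theorem exists_small (P : (W.T 0).X) (x : (W.T 0).G) :
    ∃ k, (W.T k).d (pt W P k) (phi W k x • pt W P k) ≤ 1 := by
  have key : ∀ n k, (W.T k).d (pt W P k) (phi W k x • pt W P k) ≤ n →
      ∃ k, (W.T k).d (pt W P k) (phi W k x • pt W P k) ≤ 1 := by
    intro n
    induction n using Nat.strong_induction_on with
    | _ n ih =>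
      intro k hk
      rcases Nat.lt_or_ge 1 n with h | h
      · refine ih (n - 1) (by omega) (k + 1) ((pt_disp W P x k).trans ?_)
        unfold Dsc
        have hL := lt_two
        rw [← Nat.lt_succ_iff, Nat.div_lt_iff_lt_mul (by omega)]
        have h1 : n * 2 ≤ n * Lt := Nat.mul_le_mul_left _ hL
        have h2 : (n - 1).succ = n := by omega
        rw [h2]
        have h3 : (n - 1) * Lt + Lt = n * Lt := by
          rw [← Nat.succ_mul, h2]
        have h5 : (n - 1) * 2 ≤ (n - 1) * Lt := Nat.mul_le_mul_left _ hL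
        omega
      · exact ⟨k, by omega⟩
  exact key _ 0 le_rfl

theorem exists_nonlox (x : (W.T 0).G) : ∃ k, ¬ Lox (W.T k).d (phi W k x) := by
  obtain ⟨P⟩ := (W.T 0).good.nonempty
  obtain ⟨k, hk⟩ := exists_small W P x
  by_cases hl : Lox (W.T k).d (phi W k x)
  · have hdd := dd_ge
    exact ⟨k + 1, (W.rel k).killed _ hl ⟨pt W P k, by omega⟩⟩
  · exact ⟨k, hl⟩

theorem nonlox_ne_one (k : ℕ) (g : (W.T 0).G) (h0 : ¬ Lox (W.T 0).d g) (h1 : g ≠ 1) :
    ¬ Lox (W.T k).d (phi W k g) ∧ phi W k g ≠ 1 := by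
  induction k with
  | zero => exact ⟨h0, h1⟩
  | succ k ih =>
    rw [phi_succ]
    exact ⟨(W.rel k).old _ ih.1, (W.rel k).inj _ ih.1 ih.2⟩

end

theorem not_lox_of_torsion {G X : Type} [Group G] [MulAction G X] (d : X → X → ℕ)
    (hX : Nonempty X) (h : G) (n : ℕ) (hn : 0 < n) (h1 : h ^ n = 1) : ¬ Lox d h := by
  intro hl
  obtain ⟨y⟩ := hX
  obtain ⟨m, hm⟩ := hl y ((Finset.range n).sup (fun i => d y (h ^ i • y)))
  have h2 : h ^ m = h ^ (m % n) := by
    conv_lhs => rw [← Nat.div_add_mod m n, pow_add, pow_mul, h1, one_pow, one_mul]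
  rw [h2] at hm
  have h3 : d y (h ^ (m % n) • y) ≤ (Finset.range n).sup (fun i => d y (h ^ i • y)) :=
    Finset.le_sup (f := fun i => d y (h ^ i • y)) (Finset.mem_range.mpr (Nat.mod_lt _ hn))
  omega

end TLim

open TLim in
theorem TLim_proof [TP] (h1 : Stmt_TStep) : Stmt_TLim := by
  intro G X _ _ d Lb hG
  obtain ⟨W, hW⟩ := tower h1 { G := G, X := X, d := d, Lb := Lb, good := hG }
  have key : ∃ N : Subgroup (W.T 0).G, N.Normal ∧
      (∀ h ∈ N, h ≠ 1 → ∀ n : ℕ, 0 < n → h ^ n ≠ 1) ∧ ∀ g : (W.T 0).G, g ^ Nx ∈ N := by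
    refine ⟨ker W, ⟨fun x hx g => ?_⟩, ?_, ?_⟩
    · obtain ⟨k, hk⟩ := hx
      exact ⟨k, by rw [map_mul, map_mul, hk, mul_one, map_inv, mul_inv_cancel]⟩
    · rintro h ⟨k, hk⟩ hne n hn hpow
      have h2 := not_lox_of_torsion (W.T 0).d (W.T 0).good.nonempty h n hn hpow
      exact (nonlox_ne_one W k h h2 hne).2 hk
    · intro g
      obtain ⟨k, hk⟩ := exists_nonlox W g
      exact ⟨k, by rw [map_pow, (W.T k).good.tors _ hk]⟩
  rw [hW] at key
  exact key

end Pool.Agent.BT
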