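import Pool.Agent.BT.Stmts

/-! BT: TNA, points moved little by a loxodromic element are near the quasi-line. -/

namespace Pool.Agent.BT

open Pool.Agent.BURN

namespace TNA_

variable {G X : Type} [Group G] [MulAction G X] {d : X → X → ℕ}

theorem exists_min [Nonempty X] (g : G) : ∃ x : X, ∀ y, d x (g • x) ≤ d y (g • y) := by
  classical
  obtain ⟨x0⟩ := ‹Nonempty X›
  have h : ∃ n, ∃ x : X, d x (g • x) = n := ⟨_, x0, rfl⟩
  obtain ⟨x, hx⟩ := Nat.find_spec h
  refine ⟨x, fun y => ?_⟩
  rw [hx]
  exact Nat.find_min' h ⟨y, rfl⟩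

/-- product at `q` is large if one point is close to the other and far from `q`. -/
theorem gp_big (h : IsDG d) (a a' q : X) (A B : ℕ) (h1 : d a a' ≤ A) (h2 : A + B ≤ d a q) :
    2 * B ≤ gp d a a' q := by
  have g1 := gp_add h a a' q
  have t1 := h.tri a a' q
  omega

end TNA_

variable [TP]

open TNA_ in
theorem TNA_proof (E : EngT) (h1 : Stmt_TGA) (h2 : Stmt_TAx) : Stmt_TNA := by
  intro G X _ _ d Lb hG g0 hg0 e he hlox z l hz
  have hdg := hG.dg
  have hyp := hG.hyp
  have hi := hG.iso
  have := hG.nonempty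
  have hdd := dd_ge
  have hAx := ((h2 G X FP d dd A0t TP.R (Nat.factorial TN.n) (h1 G X d Lb hG)).2 g0 hg0).2.2.2
    e he hlox
  have hnear : ∀ p : X, d p (e • p) ≤ 100 * dd →
      ∃ y ∈ AxE d dd (El g0), d p y ≤ A1t + 9 * dd := by
    intro p hp
    refine hAx p A1t (fun k0 => ?_)
    obtain ⟨k1, hk1⟩ := hG.near e hlox p hp
    exact ⟨max k0 k1, le_max_left _ _, hk1 _ (le_max_right _ _)⟩
  obtain ⟨x0, hx0⟩ := exists_min (d := d) e
  by_cases hm : 16 * dd + 2 ≤ d x0 (e • x0)
  · obtain ⟨-, -, hq⟩ := E.axis G X d dd _ hdg hyp hi hm e x0 rfl hx0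
    obtain ⟨q, ⟨i, hiq⟩, hq2⟩ := hq z
    refine ⟨q, ⟨e, he, x0, hm, hx0, i, hiq⟩, ?_⟩
    omega
  · have hm' : d x0 (e • x0) ≤ 16 * dd + 1 := by omega
    obtain ⟨g, hg⟩ := exists_geod hdg z x0
    by_cases hn : d z x0 ≤ l + dd + 1
    · obtain ⟨y, hy, hy2⟩ := hnear x0 (by omega)
      refine ⟨y, hy, ?_⟩
      have t1 := hdg.tri z x0 y
      omega
    · have hp1 : d z (g (l + dd + 1)) = l + dd + 1 := hg.dist_left (by omega)
      have hp2 : d (g (l + dd + 1)) x0 = d z x0 - (l + dd + 1) := hg.dist_right (by omega)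
      have hpb : Btw d z (g (l + dd + 1)) x0 := hg.btw' (by omega)
      set p := g (l + dd + 1) with hp
      have hzp : gp d z x0 p = 0 := (btw_iff hdg _ _ _).1 hpb
      have h1 : 2 * (dd + 1) ≤ gp d z (e • z) p :=
        gp_big hdg z (e • z) p l (dd + 1) hz (by omega)
      have H1 := hyp_gp hdg hyp z x0 (e • z) p
      have h2 : gp d (e • z) x0 p ≤ dd := by omega
      by_cases hc : gp d (e • x0) x0 p ≤ 2 * dd
      · have h3 : d p x0 ≤ d x0 (e • x0) + dd := by
          have e1 := gp_add hdg (e • x0) x0 p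
          have t1 := hdg.tri x0 (e • x0) p
          rw [hdg.symm (e • x0) x0] at e1
          rw [hdg.symm p x0]
          omega
        obtain ⟨y, hy, hy2⟩ := hnear x0 (by omega)
        refine ⟨y, hy, ?_⟩
        have t1 := hdg.tri z x0 y
        omega
      · have H2 := hyp_gp hdg hyp (e • z) x0 (e • x0) p
        have h3 : gp d (e • z) (e • x0) p ≤ 2 * dd := by omega
        -- the translated geodesic
        have hlen : d (e • z) (e • x0) = d z x0 := hi _ _ _
        have hg' : IsGeod d (e • z) (e • x0) (fun t => e • g t) := by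
          refine ⟨by simp only [hg.1], ?_, ?_⟩
          · change e • g _ = _
            rw [hlen, hg.2.1]
          · intro i j hij hj
            rw [hlen] at hj
            change d (e • g i) (e • g j) = _
            rw [hi]
            exact hg.2.2 i j hij hj
        obtain ⟨n1, n2⟩ := near_geod hdg hyp hg' p
        set t' := gp d (e • x0) p (e • z) / 2 with ht'
        rw [hlen] at n1
        have n2' : d p (e • g t') ≤ 2 * dd := by
          have : d p (e • g t') ≤ (gp d (e • z) (e • x0) p + 1) / 2 + dd := n2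
          omega
        have hr : d (e • g t') (e • x0) = d z x0 - t' := by
          rw [hi]; exact hg.dist_right n1
        have hpe : d p (e • p) ≤ d x0 (e • x0) + 4 * dd := by
          have t1 := hdg.tri p (e • g t') (e • p)
          have t2 : d (e • g t') (e • p) = d (g t') p := hi _ _ _
          have t3 : d (g t') p ≤ d x0 (e • x0) + 2 * dd := by
            have s1 := hdg.tri p (e • g t') (e • x0)
            have s2 := hdg.tri p (e • x0) x0
            have s3 := hdg.tri (e • g t') p (e • x0)
            have s4 := hdg.tri p x0 (e • x0)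
            rw [hdg.symm (e • x0) x0] at s2
            rw [hdg.symm (e • g t') p] at s3
            rcases Nat.le_total t' (l + dd + 1) with hh | hh
            · rw [hp, hg.2.2 t' (l + dd + 1) hh (by omega)]
              omega
            · rw [hdg.symm, hp, hg.2.2 (l + dd + 1) t' hh (by omega)]
              omega
          omega
        obtain ⟨y, hy, hy2⟩ := hnear p (by omega)
        refine ⟨y, hy, ?_⟩
        have t1 := hdg.tri z p y
        omega

end Pool.Agent.BT
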