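import Pool.Agent.BT.Stmts

namespace Pool.Agent.BT

open Pool.Agent.BURN

namespace TPhi

/-- conjugation as an equivalence relation on subgroups -/
theorem isCj_refl {G : Type} [Group G] (P : Subgroup G) : IsCj 1 P P := by
  intro x
  simp

theorem isCj_symm {G : Type} [Group G] {g : G} {P P' : Subgroup G} (h : IsCj g P P') :
    IsCj g⁻¹ P' P := by
  intro x
  rw [h]
  have e : g⁻¹ * (g⁻¹⁻¹ * x * g⁻¹) * g = x := by group
  rw [e]

theorem isCj_trans {G : Type} [Group G] {g h : G} {P P' P'' : Subgroup G} (h1 : IsCj g P P')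
    (h2 : IsCj h P' P'') : IsCj (h * g) P P'' := by
  intro x
  rw [h2, h1]
  have e : g⁻¹ * (h⁻¹ * x * h) * g = (h * g)⁻¹ * x * (h * g) := by group
  rw [e]

/-- the setoid of conjugacy -/
def cjSetoid (G : Type) [Group G] : Setoid (Subgroup G) where
  r P P' := ∃ g : G, IsCj g P P'
  iseqv := by
    refine ⟨fun P => ⟨1, isCj_refl P⟩, ?_, ?_⟩
    · rintro P P' ⟨g, h⟩
      exact ⟨g⁻¹, isCj_symm h⟩
    · rintro P P' P'' ⟨g, h⟩ ⟨g', h'⟩
      exact ⟨g' * g, isCj_trans h h'⟩

/-- a representative of the conjugacy class -/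
noncomputable def rep {G : Type} [Group G] (P : Subgroup G) : Subgroup G :=
  (Quotient.mk (cjSetoid G) P).out

theorem rep_cj {G : Type} [Group G] (P : Subgroup G) : ∃ g : G, IsCj g (rep P) P :=
  Quotient.mk_out (s := cjSetoid G) P

theorem rep_eq {G : Type} [Group G] {g : G} {P P' : Subgroup G} (h : IsCj g P P') :
    rep P = rep P' := by
  unfold rep
  have e : Quotient.mk (cjSetoid G) P = Quotient.mk (cjSetoid G) P' :=
    Quotient.sound (s := cjSetoid G) ⟨g, h⟩
  rw [e]

theorem isCj_unique {G : Type} [Group G] {g : G} {P P' P'' : Subgroup G} (h : IsCj g P P')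
    (h' : IsCj g P P'') : P' = P'' := by
  ext x
  rw [h, h']

theorem El_cj {G : Type} [Group G] (g h : G) : IsCj h (El g) (El (h * g * h⁻¹)) := by
  intro x
  constructor
  · rintro ⟨m, hm, hx⟩
    refine ⟨m, hm, ?_⟩
    rw [conj_pow] at hx
    rcases hx with hx | hx
    · left
      have e : h⁻¹ * x * h * g ^ m * (h⁻¹ * x * h)⁻¹ =
          h⁻¹ * (x * (h * g ^ m * h⁻¹) * x⁻¹) * h := by group
      rw [e, hx]
      group
    · right
      have e : h⁻¹ * x * h * g ^ m * (h⁻¹ * x * h)⁻¹ =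
          h⁻¹ * (x * (h * g ^ m * h⁻¹) * x⁻¹) * h := by group
      rw [e, hx]
      group
  · rintro ⟨m, hm, hx⟩
    refine ⟨m, hm, ?_⟩
    rw [conj_pow]
    rcases hx with hx | hx
    · left
      have e : x * (h * g ^ m * h⁻¹) * x⁻¹ =
          h * (h⁻¹ * x * h * g ^ m * (h⁻¹ * x * h)⁻¹) * h⁻¹ := by group
      rw [e, hx]
    · right
      have e : x * (h * g ^ m * h⁻¹) * x⁻¹ =
          h * (h⁻¹ * x * h * g ^ m * (h⁻¹ * x * h)⁻¹) * h⁻¹ := by group
      rw [e, hx]
      group

theorem Lox_cj {G X : Type} [Group G] [MulAction G X] {d : X → X → ℕ} (hi : IsIso G d)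
    {g : G} (hg : Lox d g) (h : G) : Lox d (h * g * h⁻¹) := by
  intro x B
  obtain ⟨m, hm⟩ := hg (h⁻¹ • x) B
  refine ⟨m, ?_⟩
  have e : d x ((h * g * h⁻¹) ^ m • x) = d (h⁻¹ • x) (g ^ m • h⁻¹ • x) := by
    rw [← hi h⁻¹ x, conj_pow, mul_smul, mul_smul, inv_smul_smul]
  rw [e]
  exact hm

theorem KilT_cj [TP] {G X : Type} [Group G] [MulAction G X] {d : X → X → ℕ} (hi : IsIso G d)
    {h : G} {E E' : Subgroup G} (hE : KilT d E) (hc : IsCj h E E') : KilT d E' := by
  obtain ⟨g, hg, rfl, x, hx⟩ := hE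
  refine ⟨h * g * h⁻¹, Lox_cj hi hg h, isCj_unique hc (El_cj g h), h • x, ?_⟩
  have e : d (h • x) ((h * g * h⁻¹) • h • x) = d x (g • x) := by
    rw [← mul_smul]
    have e2 : h * g * h⁻¹ * h = h * g := by group
    rw [e2, mul_smul, hi]
  rw [e]
  exact hx

/-- conjugate subgroups have the same cardinality -/
theorem FP_cj [TP] {G : Type} [Group G] {h : G} {E E' : Subgroup G} (hE : FP E)
    (hc : IsCj h E E') : FP E' := by
  let φ : E ≃ E' :=
    { toFun := fun x => ⟨h * x.1 * h⁻¹, by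
        rw [hc]
        have e : h⁻¹ * (h * x.1 * h⁻¹) * h = x.1 := by group
        rw [e]
        exact x.2⟩
      invFun := fun x => ⟨h⁻¹ * x.1 * h, (hc x.1).1 x.2⟩
      left_inv := fun x => by
        apply Subtype.ext
        show h⁻¹ * (h * x.1 * h⁻¹) * h = x.1
        group
      right_inv := fun x => by
        apply Subtype.ext
        show h * (h⁻¹ * x.1 * h) * h⁻¹ = x.1
        group }
  obtain ⟨h1, h2⟩ := hE
  refine ⟨Finite.of_equiv E φ, ?_⟩
  rw [← Nat.card_congr φ]
  exact h2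

end TPhi

open TPhi in
theorem TPhi_proof [TP] (h1 : Stmt_TExt) (h2 : Stmt_TKS) : Stmt_TPhi := by
  intro G X _ _ d Lb hG
  obtain ⟨hA, -, -, -, -⟩ := h2 G X d Lb hG
  have hExt := h1 G X d Lb hG
  have hi := hG.iso
  -- labels of the representatives
  have hphi : ∀ E : Subgroup G, ∃ φ : G → SP, KilT d E →
      (∀ a ∈ E, ∀ b ∈ E, φ (a * b) = φ a * φ b) ∧
      ∀ F : Subgroup G, FP F → F ≤ E → Lb F φ := by
    intro E
    by_cases hE : KilT d E
    · obtain ⟨g, hg, rfl, -⟩ := hE
      obtain ⟨φ, h3, h4⟩ := hExt g hg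
      exact ⟨φ, fun _ => ⟨h3, h4⟩⟩
    · exact ⟨fun _ => 1, fun h => absurd h hE⟩
  choose φ hφ using hphi
  let Lb' : Subgroup G → (G → SP) → Prop := fun H f =>
    (FP H ∧ Lb H f) ∨ (KilT d H ∧ ∃ (h : G) (s : SP), IsCj h (rep H) H ∧
      ∀ x ∈ H, f x = s * φ (rep H) (h⁻¹ * x * h) * s⁻¹)
  have hrepK : ∀ H : Subgroup G, KilT d H → KilT d (rep H) := by
    intro H hH
    obtain ⟨g, hg⟩ := rep_cj H
    exact KilT_cj hi hH (isCj_symm hg)
  have hnot : ∀ H : Subgroup G, KilT d H → ¬ FP H := fun H hH => (hA H hH).1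
  have hlab : Labels (PK (G := G) d) Lb' := by
    refine ⟨?_, ?_, ?_, ?_, ?_, ?_, ?_⟩
    · -- ex
      intro F hF
      rcases hF with hF | hF
      · obtain ⟨f, hf⟩ := hG.lab.ex F hF
        exact ⟨f, Or.inl ⟨hF, hf⟩⟩
      · obtain ⟨h, hh⟩ := rep_cj F
        refine ⟨fun x => φ (rep F) (h⁻¹ * x * h), Or.inr ⟨hF, h, 1, hh, ?_⟩⟩
        intro x _
        simp
    · -- hom
      intro F f _ hf a ha b hb
      rcases hf with ⟨hF, hf⟩ | ⟨hF, h, s, hh, hf⟩
      · exact hG.lab.hom F f hF hf a ha b hb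
      · rw [hf a ha, hf b hb, hf _ (F.mul_mem ha hb)]
        have e : h⁻¹ * (a * b) * h = h⁻¹ * a * h * (h⁻¹ * b * h) := by group
        rw [e, (hφ (rep F) (hrepK F hF)).1 _ ((hh a).1 ha) _ ((hh b).1 hb)]
        group
    · -- inj
      intro F f _ hFP hf a ha h1
      rcases hf with ⟨hF, hf⟩ | ⟨hF, -⟩
      · exact hG.lab.inj F f hF hF hf a ha h1
      · exact absurd hFP (hnot F hF)
    · -- orb
      intro F f f' _ hf hf'
      rcases hf with ⟨hF, hf⟩ | ⟨hF, h, s, hh, hf⟩
      · rcases hf' with ⟨-, hf'⟩ | ⟨hF', -⟩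
        · exact hG.lab.orb F f f' hF hf hf'
        · exact absurd hF (hnot F hF')
      · rcases hf' with ⟨hF', -⟩ | ⟨-, h', s', hh', hf'⟩
        · exact absurd hF' (hnot F hF)
        · have hk : h⁻¹ * h' ∈ rep F := by
            apply (hA (rep F) (hrepK F hF)).2.1
            intro x
            have e1 := hh (h * x * h⁻¹)
            have e2 := hh' (h * x * h⁻¹)
            have e3 : h⁻¹ * (h * x * h⁻¹) * h = x := by group
            have e4 : h'⁻¹ * (h * x * h⁻¹) * h' = (h⁻¹ * h')⁻¹ * x * (h⁻¹ * h') := by group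
            rw [e3] at e1
            rw [e4] at e2
            exact e1.symm.trans e2
          obtain ⟨hhom, -⟩ := hφ (rep F) (hrepK F hF)
          have hone : φ (rep F) 1 = 1 := by
            have := hhom 1 (rep F).one_mem 1 (rep F).one_mem
            rw [mul_one] at this
            exact (mul_eq_left.1 this.symm)
          have hinv : φ (rep F) ((h⁻¹ * h')⁻¹) = (φ (rep F) (h⁻¹ * h'))⁻¹ := by
            have := hhom _ ((rep F).inv_mem hk) _ hk
            rw [inv_mul_cancel, hone] at this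
            exact eq_inv_of_mul_eq_one_left this.symm
          refine ⟨s' * (φ (rep F) (h⁻¹ * h'))⁻¹ * s⁻¹, ?_⟩
          intro a ha
          rw [hf' a ha, hf a ha]
          have e : h'⁻¹ * a * h' = (h⁻¹ * h')⁻¹ * (h⁻¹ * a * h) * (h⁻¹ * h') := by group
          have ha' := (hh a).1 ha
          rw [e, hhom _ ((rep F).mul_mem ((rep F).inv_mem hk) ha') _ hk,
            hhom _ ((rep F).inv_mem hk) _ ha', hinv]
          group
    · -- cjs
      intro F f f' s _ hf hff
      rcases hf with ⟨hF, hf⟩ | ⟨hF, h, s0, hh, hf⟩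
      · exact Or.inl ⟨hF, hG.lab.cjs F f f' s hF hf hff⟩
      · refine Or.inr ⟨hF, h, s * s0, hh, ?_⟩
        intro x hx
        rw [hff x hx, hf x hx]
        group
    · -- res
      intro F F' f hPF hF' hle hf
      rcases hf with ⟨hF, hf⟩ | ⟨hF, h, s, hh, hf⟩
      · exact Or.inl ⟨hF', hG.lab.res F F' f hF hF' hle hf⟩
      · refine Or.inl ⟨hF', ?_⟩
        obtain ⟨-, hL⟩ := hφ (rep F) (hrepK F hF)
        -- the conjugate of F' inside the representative
        let F'' : Subgroup G := F'.map (MulAut.conj h⁻¹).toMonoidHom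
        have hc : IsCj h⁻¹ F' F'' := by
          intro x
          constructor
          · rintro ⟨y, hy, hyx⟩
            have e : h⁻¹ * y * h⁻¹⁻¹ = x := hyx
            rw [← e]
            have e2 : h⁻¹⁻¹ * (h⁻¹ * y * h⁻¹⁻¹) * h⁻¹ = y := by group
            rw [e2]
            exact hy
          · intro hx
            refine ⟨_, hx, ?_⟩
            show h⁻¹ * (h⁻¹⁻¹ * x * h⁻¹) * h⁻¹⁻¹ = x
            group
        have hc' : IsCj h F'' F' := by
          have := isCj_symm hc
          rwa [inv_inv] at this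
        have hF'' : FP F'' := FP_cj hF' hc
        have hle'' : F'' ≤ rep F := by
          intro x hx
          have h3 := (hc x).1 hx
          have h4 := (hh _).1 (hle h3)
          have e : h⁻¹ * (h⁻¹⁻¹ * x * h⁻¹) * h = x := by group
          rwa [e] at h4
        have h5 := hL F'' hF'' hle''
        have h6 := hG.lab.cj F'' F' _ h hF'' hc' h5
        exact hG.lab.cjs F' _ f s hF' h6 (fun a ha => hf a (hle ha))
    · -- cj
      intro F F' f g _ hcj hf
      rcases hf with ⟨hF, hf⟩ | ⟨hF, h, s, hh, hf⟩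
      · exact Or.inl ⟨FP_cj hF hcj, hG.lab.cj F F' f g hF hcj hf⟩
      · have hr : rep F = rep F' := rep_eq hcj
        refine Or.inr ⟨KilT_cj hi hF hcj, g * h, s, ?_, ?_⟩
        · rw [← hr]
          exact isCj_trans hh hcj
        · intro x hx
          have e : (g * h)⁻¹ * x * (g * h) = h⁻¹ * (g⁻¹ * x * g) * h := by group
          rw [e, ← hr]
          exact hf _ ((hcj x).1 hx)
  refine ⟨Lb', ?_, hlab⟩
  exact
    { dg := hG.dg
      hyp := hG.hyp
      iso := hG.iso
      nonempty := hG.nonempty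
      acyl := hG.acyl
      tors := hG.tors
      stab := hG.stab
      near := hG.near
      lab :=
        { ex := fun F hF => hlab.ex F (Or.inl hF)
          hom := fun F f hF => hlab.hom F f (Or.inl hF)
          inj := fun F f hF => hlab.inj F f (Or.inl hF)
          orb := fun F f f' hF => hlab.orb F f f' (Or.inl hF)
          cjs := fun F f f' s hF => hlab.cjs F f f' s (Or.inl hF)
          res := fun F F' f hF => hlab.res F F' f (Or.inl hF)
          cj := fun F F' f g hF => hlab.cj F F' f g (Or.inl hF) } }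

end Pool.Agent.BT
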