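import Pool.Agent.BT.Stmts

/-! BT: TQC, quasi-centres of finite groups. -/

namespace Pool.Agent.BT

open Pool.Agent.BURN

theorem TQC_proof : Stmt_TQC := by
  intro G X _ _ d δ hdg hy hi hne F hF
  obtain ⟨x0⟩ := hne
  classical
  haveI := hF
  haveI : Fintype F := Fintype.ofFinite F
  -- radius function
  let r : X → ℕ := fun z => Finset.univ.sup (fun f : F => d z ((f : G) • x0))
  have hle : ∀ (z : X) (f : F), d z ((f : G) • x0) ≤ r z := fun z f =>
    Finset.le_sup (f := fun f : F => d z ((f : G) • x0)) (Finset.mem_univ f)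
  have hsup : ∀ (z : X) (B : ℕ), (∀ f : F, d z ((f : G) • x0) ≤ B) → r z ≤ B := fun z B h =>
    Finset.sup_le (fun f _ => h f)
  obtain ⟨m, ⟨c, hc⟩, hmin⟩ := Nat.lt_wfRel.wf.has_min {n : ℕ | ∃ z, r z = n} ⟨_, x0, rfl⟩
  have hmin' : ∀ z, r c ≤ r z := by
    intro z
    have := hmin _ ⟨z, rfl⟩
    rw [hc]
    exact not_lt.1 this
  refine ⟨c, fun f hf => ?_⟩
  -- r (f c) ≤ r c
  have hfc : r (f • c) ≤ r c := by
    apply hsup
    intro g
    have h1 := hle c (⟨f, hf⟩⁻¹ * g)
    have h2 := hi f c (((⟨f, hf⟩⁻¹ * g : F) : G) • x0)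
    have h3 : f • (((⟨f, hf⟩⁻¹ * g : F) : G) • x0) = (g : G) • x0 := by
      rw [smul_smul]
      congr 1
      simp
    rw [h3] at h2
    rw [h2]
    exact h1
  -- midpoint
  obtain ⟨q, hq1, hq2⟩ := hdg.geo c (f • c) (d c (f • c) / 2) (Nat.div_le_self _ _)
  have hb : Pool.Agent.BURN.Btw d c q (f • c) := by
    unfold Pool.Agent.BURN.Btw
    omega
  have hrq : r q + d c (f • c) / 2 ≤ r c + δ := by
    by_contra hcon
    push Not at hcon
    have h4 : r q ≤ (r c + δ) - d c (f • c) / 2 := by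
      apply hsup
      intro g
      have h5 := near_of_btw hdg hy hb ((g : G) • x0)
      have h6 := hle c g
      have h7 := hle (f • c) g
      have s1 := hdg.symm q ((g : G) • x0)
      have s2 := hdg.symm c ((g : G) • x0)
      have s3 := hdg.symm (f • c) ((g : G) • x0)
      have s4 := hdg.symm q (f • c)
      omega
    have h8 : r q ≤ r c + δ - d c (f • c) / 2 := h4
    by_cases h9 : d c (f • c) / 2 ≤ r c + δ
    · omega
    · -- d c (f c) ≤ 2 r c
      have h10 : d c (f • c) ≤ d c (((1 : F) : G) • x0) + d (((1 : F) : G) • x0) (f • c) :=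
        hdg.tri _ _ _
      have h11 := hle c 1
      have h12 := hle (f • c) 1
      have s5 := hdg.symm (((1 : F) : G) • x0) (f • c)
      omega
  have := hmin' q
  omega

end Pool.Agent.BT
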