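import Pool.Agent.BT.Stmts

/-! Section 4.10 of the blueprint: killed elements rotate by large angles. -/

namespace Pool.Agent.BT

open Pool.Agent.BURN

variable [TP]

theorem TRot.bs_smul (S : TSys) (g : S.G) (x : S.X) : g • S.bs x = S.bs (g • x) := by
  apply Subtype.ext
  exact S.act g (S.bs x)

theorem TRot.D_le (S : TSys) (x y : S.X) (B : ℕ) (h : S.D x y ≤ B) : S.d x y ≤ Lt * B := by
  have hL := Lt_pos
  unfold TSys.D Dsc at h
  have h1 : (S.d x y + Lt - 1) / Lt < B + 1 := by omega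
  rw [Nat.div_lt_iff_lt_mul (by omega)] at h1
  have h2 : (B + 1) * Lt = Lt * B + Lt := by ring
  omega

theorem TRot.le_D (S : TSys) (x y : S.X) (B : ℕ) (h : S.d x y ≤ Lt * B) : S.D x y ≤ B := by
  have hL := Lt_pos
  unfold TSys.D Dsc
  have h1 : (S.d x y + Lt - 1) / Lt < B + 1 := by
    rw [Nat.div_lt_iff_lt_mul (by omega)]
    have h2 : (B + 1) * Lt = Lt * B + Lt := by ring
    omega
  omega

theorem TRot.ap_inj (S : TSys) {i j : S.I} (h : S.ap i = S.ap j) : i = j := by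
  have h1 : (CV.a i : CV S.X S.I) = CV.a j := congrArg Subtype.val h
  injection h1

omit [TP] in
theorem TRot.hor_unique {V I : Type} {i j : I} {u : CV V I} (hi : Hor i u) (hj : Hor j u) :
    i = j := by
  rcases hi with ⟨y, s, rfl⟩ | rfl
  · rcases hj with ⟨y', s', h⟩ | h
    · injection h
    · cases h
  · rcases hj with ⟨y', s', h⟩ | h
    · cases h
    · injection h

/-- a vertex of the horoball is at distance at most rt from the apex -/
theorem TRot.hor_dist (hDG : Stmt_GamDG) (S : TSys) (hCD : CD S.D S.Y rt) (i : S.I) (u : S.Gm)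
    (h : Hor i u.1) : S.dg u (S.ap i) ≤ rt := by
  obtain ⟨hdg, -, -, -, -, h6, -⟩ := hDG S.X S.I S.D S.Y rt hCD
  rcases h with ⟨y, s, h⟩ | h
  · have hok := u.2
    rw [h] at hok
    obtain ⟨h1, h2, h3⟩ : y ∈ YT S.d S.E i ∧ 1 ≤ s ∧ s ≤ rt := hok
    have h4 : dGam S.D S.Y rt u (va S.Y rt i) = rt + 1 - s := h6 i y s u (Or.inr ⟨h2, h⟩)
    have h5 : dGam S.D S.Y rt u (va S.Y rt i) = S.dg u (S.ap i) := rfl
    omega
  · have h1 : u = S.ap i := Subtype.ext h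
    rw [h1]
    have h2 := (hdg.eq_zero (S.ap i) (S.ap i)).2 rfl
    have h3 : dGam S.D S.Y rt (S.ap i) (S.ap i) = S.dg (S.ap i) (S.ap i) := rfl
    omega

/-- the foot of a vertex of small height -/
theorem TRot.foot (hDG : Stmt_GamDG) (S : TSys) (hCD : CD S.D S.Y rt) (u : S.Gm)
    (h : ht rt u.1 ≤ rt) : ∃ y0 : S.X, S.dg u (S.bs y0) = ht rt u.1 := by
  obtain ⟨hdg, -, -, -, -, -, h7, -⟩ := hDG S.X S.I S.D S.Y rt hCD
  obtain ⟨u1, hok⟩ := u
  cases u1 with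
  | b v =>
    refine ⟨v, ?_⟩
    exact (hdg.eq_zero _ _).2 rfl
  | c j y s =>
    have hok' : y ∈ YT S.d S.E j ∧ 1 ≤ s ∧ s ≤ rt := hok
    have h1 := hok'.1
    have h2 := hok'.2.1
    refine ⟨y, ?_⟩
    have h4 : dGam S.D S.Y rt (S.bs y) ⟨CV.c j y s, hok⟩ = s - 0 :=
      h7 j y 0 s (S.bs y) ⟨CV.c j y s, hok⟩ (Nat.zero_le _) (Or.inl ⟨rfl, h1, rfl⟩)
        (Or.inr ⟨h2, rfl⟩)
    exact (hdg.symm (⟨CV.c j y s, hok⟩ : S.Gm) (S.bs y)).trans h4
  | a j =>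
    exfalso
    have h1 : rt + 1 ≤ rt := h
    omega

theorem TRot_proof (E : EngT) (h1 : Stmt_TKS) (h2 : Stmt_TRotS) (h3 : Stmt_TNA)
    (h4 : Stmt_TKCD) (h5 : Stmt_TKRF) (h6 : Stmt_TKStab) : Stmt_TRot := by
  have hDG := E.gamDG
  have hLen := E.gamLen
  have hLL := E.ll
  have hKRF := h5
  have hKStab := h6
  have hKCD := h4
  have hNA := h3
  intro S i e z hePos hne
  by_contra hgp
  push Not at hgp
  obtain ⟨hRF, hdb, hiso, hhyp, hcontr, hlift, hgeo⟩ := hKRF S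
  obtain ⟨hs1, hs2, hs3, -, -, hs7, -, -, -, -⟩ := hKStab S
  obtain ⟨hCD, -, -⟩ := hKCD S
  obtain ⟨hdg, -, hht, hhor, hbD, h6', -⟩ := hDG S.X S.I S.D S.Y rt hCD
  obtain ⟨-, hlen⟩ := hLen S.X S.I S.D S.Y rt hCD
  -- the killed group
  obtain ⟨hK1, -⟩ := h1 S.G S.X S.d S.Lb S.good
  obtain ⟨-, -, hE3, -, -⟩ := hK1 (S.E i) (S.kil i)
  obtain ⟨-, -, -, hR4, -, -⟩ := h2 S.G S.X S.d S.Lb S.good S.lab (S.E i) (S.kil i)
  obtain ⟨g0, hg0, hg0E, -⟩ := S.kil i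
  have hg0m : g0 ∈ S.E i := by
    rw [hg0E]
    exact ⟨1, le_refl 1, Or.inl (by group)⟩
  have hPos0 : PosS S.d (S.E i) = (Ep g0 : Set S.G) := (hE3 g0 hg0m hg0).2
  have hEpE : ∀ x, x ∈ Ep g0 → x ∈ S.E i := by
    rintro x ⟨m, hm, hx⟩
    rw [hg0E]
    exact ⟨m, hm, Or.inl hx⟩
  have hePos' : e ∈ Ep g0 := by
    have : e ∈ (Ep g0 : Set S.G) := hPos0 ▸ hePos
    exact this
  have he : e ∈ S.E i := hEpE e hePos'
  have hRotPos : ∀ r ∈ RotT S.Lb (S.E i), r ∈ Ep g0 := by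
    intro r hr
    by_cases hr1 : r = 1
    · rw [hr1]; exact Subgroup.one_mem _
    · have hrL := (hR4 r hr hr1).1
      have hrE : r ∈ S.E i := by
        have : RotT S.Lb (S.E i) ≤ S.E i := by
          unfold RotT
          rw [Subgroup.closure_le]
          rintro x ⟨e', he', -, rfl⟩
          exact Subgroup.pow_mem _ he' _
        exact this hr
      have h7 := (hE3 r hrE hrL).2
      have h8 : r ∈ (Ep g0 : Set S.G) := by
        rw [← hPos0, h7]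
        exact ⟨1, le_refl 1, by group⟩
      exact h8
  have hrt := rt_eq
  have hN0 := N0_eq
  have hM1 := M1_eq
  obtain ⟨ha1, -⟩ := aa0_ge
  have hdd := dd_ge
  have hLt := Lt_eq
  generalize hPP : 2 ^ (4 * dd) = P at hM1
  have hfix : S.π e • S.q (S.ap i) = S.q (S.ap i) := by
    rw [S.qsmul, (hs1 i e).2 he]
  obtain ⟨γb, hγb⟩ := exists_geod hdb (S.q (S.ap i)) z
  obtain ⟨w, γ, hw1, rfl, hγ, hγq⟩ := hgeo (S.ap i) z γb hγb
  have hn : rt + 1 + M1 < S.dg (S.ap i) w := by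
    have h1 := gp_le_left hdb (S.q w) (S.π e • S.q w) (S.q (S.ap i))
    rw [hdb.symm (S.q w) (S.q (S.ap i))] at h1
    omega
  -- fellow travelling
  have hfel : ∀ t, t ≤ rt + 1 + M1 → S.db (S.q (γ t)) (S.π e • S.q (γ t)) ≤ 2 * dd := by
    intro t htt
    have ht1 : t ≤ S.dg (S.ap i) w := by omega
    have hb1 : BURN.Btw S.db (S.q (S.ap i)) (S.q (γ t)) (S.q w) := by
      rw [hγq t ht1]; exact hγb.btw' (by rw [← hw1]; exact ht1)
    have hd1 : S.db (S.q (S.ap i)) (S.q (γ t)) = t := by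
      rw [hγq t ht1]; exact hγb.dist_left (by rw [← hw1]; exact ht1)
    have hd2 : S.db (S.q (S.ap i)) (S.π e • S.q (γ t)) = S.db (S.q (S.ap i)) (S.q (γ t)) := by
      conv_lhs => rw [← hfix]
      exact hiso _ _ _
    have hb2 : BURN.Btw S.db (S.q (S.ap i)) (S.π e • S.q (γ t)) (S.π e • S.q w) := by
      unfold BURN.Btw at hb1 ⊢
      have h1 : S.db (S.q (S.ap i)) (S.π e • S.q w) = S.db (S.q (S.ap i)) (S.q w) := by
        conv_lhs => rw [← hfix]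
        exact hiso _ _ _
      rw [hd2, hiso, h1]; exact hb1
    exact fellow hdb hhyp hb1 hb2 hd2.symm (by rw [hd1]; omega)
  -- distances to the apices
  have hfar : ∀ t, N0 ≤ t → t ≤ rt + 1 + M1 → ∀ c ∈ Set.range S.ap, N0 ≤ S.dg (γ t) c := by
    rintro t h1 h2 c ⟨j, rfl⟩
    have h3 : S.dg (S.ap i) (γ t) = t := hγ.dist_left (by omega)
    by_cases hj : j = i
    · subst hj
      rw [hRF.dg.symm]; omega
    · have h4 := hRF.sep (S.ap i) ⟨i, rfl⟩ (S.ap j) ⟨j, rfl⟩ (fun h => hj (TRot.ap_inj S h).symm)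
      have h5 := hRF.dg.tri (S.ap i) (γ t) (S.ap j)
      omega
  have hd0 : S.dg (γ N0) (γ (rt + 1 + M1)) = rt + 1 + M1 - N0 :=
    hγ.2.2 N0 (rt + 1 + M1) (by omega) (by omega)
  have hgp2 : IsGeod S.dg (γ N0) (γ (rt + 1 + M1)) (fun k => γ (N0 + k)) := by
    refine ⟨rfl, ?_, ?_⟩
    · show γ (N0 + S.dg (γ N0) (γ (rt + 1 + M1))) = _
      rw [hd0]; congr 1; omega
    · intro a b hab hb
      rw [hd0] at hb
      show S.dg (γ (N0 + a)) (γ (N0 + b)) = b - a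
      rw [hγ.2.2 (N0 + a) (N0 + b) (by omega) (by omega)]
      omega
  obtain ⟨g, hg1, hg2⟩ := (hLL S.G S.Gm S.dg (Set.range S.ap) S.R del1 (2 * f3 + 1) (2 * f3)
    (2 * rt + 2) hRF).2 (γ N0) (γ (rt + 1 + M1)) N0 (2 * dd) (fun k => γ (N0 + k)) e (by omega)
    hgp2 (by omega)
    (by
      intro k hk c hc
      rw [hd0] at hk
      exact hfar (N0 + k) (by omega) (by omega) c hc)
    (by
      intro k hk
      rw [hd0] at hk
      have h3 := hfel (N0 + k) (by omega)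
      rw [S.qsmul, S.qdist] at h3
      exact h3)
  have hg20 : S.dg (γ N0) (g • γ N0) ≤ 2 * dd := hg2 0 (Nat.zero_le _)
  have hg21 : S.dg (γ (rt + 1 + M1)) (g • γ (rt + 1 + M1)) ≤ 2 * dd := by
    have h1 := hg2 (rt + 1 + M1 - N0) (by rw [hd0])
    have h2 : N0 + (rt + 1 + M1 - N0) = rt + 1 + M1 := by omega
    simp only [h2] at h1
    exact h1
  -- g lies in E i
  have hu1d : S.dg (S.ap i) (γ N0) = N0 := hγ.dist_left (by omega)
  have hu1h : rt + 1 ≤ ht rt (γ N0).1 + N0 := by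
    have h1 := hht (γ N0) (S.ap i)
    have h2 : ht rt (S.ap i).1 = rt + 1 := rfl
    have h4 : dGam S.D S.Y rt (γ N0) (S.ap i) = S.dg (γ N0) (S.ap i) := rfl
    rw [hRF.dg.symm] at h4
    omega
  have hu1i : Hor i (γ N0).1 := by
    by_contra hcon
    have h1 := hhor i (S.ap i) (γ N0) (Or.inr rfl) hcon
    have h2 : ht rt (S.ap i).1 = rt + 1 := rfl
    have h4 : dGam S.D S.Y rt (S.ap i) (γ N0) = S.dg (S.ap i) (γ N0) := rfl
    omega
  have hgi : g ∈ S.E i := by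
    obtain ⟨j, hj1, hj2⟩ := hs2 (γ N0) g (by omega)
    rw [TRot.hor_unique hu1i hj1]; exact hj2
  have hgLox : Lox S.d g := by
    have h7 : (g * e⁻¹) • S.ap i = S.ap i :=
      (hs1 i _).2 (Subgroup.mul_mem _ hgi (Subgroup.inv_mem _ he))
    have h8 := hs7 i _ hg1 h7
    have h9 := hne _ h8
    rw [inv_mul_cancel_right] at h9
    by_contra hcon
    apply h9
    refine ⟨?_, hcon⟩
    have h10 : g ∈ Ep g0 := by
      have := Subgroup.mul_mem _ (hRotPos _ h8) hePos'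
      rwa [inv_mul_cancel_right] at this
    rw [hPos0]
    exact h10
  -- the last point
  have hz0d : S.dg (S.ap i) (γ (rt + 1 + M1)) = rt + 1 + M1 := hγ.dist_left (by omega)
  have hz0n : ¬ Hor i (γ (rt + 1 + M1)).1 := by
    intro h
    have h1 := TRot.hor_dist hDG S hCD i _ h
    rw [hRF.dg.symm] at h1
    omega
  have hz0h : ht rt (γ (rt + 1 + M1)).1 ≤ dd := by
    by_contra hcon
    obtain ⟨j, hj1, hj2⟩ := hs2 (γ (rt + 1 + M1)) g (by omega)
    by_cases hj : i = j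
    · subst hj; exact hz0n hj1
    · exact hs3 i j g hj hgi hj2 hgLox
  obtain ⟨y0, hy0⟩ := TRot.foot hDG S hCD (γ (rt + 1 + M1)) (by omega)
  have hmv : S.dg (S.bs y0) (S.bs (g • y0)) ≤ 4 * dd := by
    rw [← TRot.bs_smul]
    have h1 := hRF.dg.tri (S.bs y0) (γ (rt + 1 + M1)) (g • S.bs y0)
    have h2 := hRF.dg.tri (γ (rt + 1 + M1)) (g • γ (rt + 1 + M1)) (g • S.bs y0)
    have h3 := hRF.iso g (γ (rt + 1 + M1)) (S.bs y0)
    rw [hRF.dg.symm (S.bs y0) (γ (rt + 1 + M1))] at h1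
    omega
  have hD0 : S.D y0 (g • y0) ≤ P := by
    have h2 : S.D y0 (g • y0) ≤ 2 ^ (S.dg (S.bs y0) (S.bs (g • y0))) :=
      hlen y0 (g • y0) (by
        have h4 : dGam S.D S.Y rt (vb S.Y rt y0) (vb S.Y rt (g • y0)) =
          S.dg (S.bs y0) (S.bs (g • y0)) := rfl
        omega)
    have h3 : 2 ^ (S.dg (S.bs y0) (S.bs (g • y0))) ≤ 2 ^ (4 * dd) :=
      Nat.pow_le_pow_right (by norm_num) hmv
    rw [hPP] at h3
    exact h2.trans h3
  have hd0' : S.d y0 (g • y0) ≤ Lt * P := TRot.D_le S _ _ _ hD0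
  obtain ⟨y, hy, hyd⟩ := hNA S.G S.X S.d S.Lb S.good g0 hg0 g (hg0E ▸ hgi) hgLox y0 (Lt * P) hd0'
  have hyY : y ∈ S.Y i := by
    show y ∈ AxE S.d dd (S.E i)
    rw [hg0E]
    exact hy
  have hDy : S.D y0 y ≤ P + 1 := by
    apply TRot.le_D
    have : Lt * (P + 1) = Lt * P + Lt := by ring
    omega
  have hdgy : S.dg (S.bs y0) (S.bs y) ≤ P + 1 := (hbD y0 y).trans hDy
  have hya : S.dg (S.bs y) (S.ap i) = rt + 1 := by
    have h1 : dGam S.D S.Y rt (S.bs y) (va S.Y rt i) = rt + 1 - 0 :=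
      h6' i y 0 (S.bs y) (Or.inl ⟨rfl, hyY, rfl⟩)
    exact h1
  have h1 := hRF.dg.tri (γ (rt + 1 + M1)) (S.bs y0) (S.ap i)
  have h2 := hRF.dg.tri (S.bs y0) (S.bs y) (S.ap i)
  rw [hRF.dg.symm (S.ap i) (γ (rt + 1 + M1))] at hz0d
  omega

end Pool.Agent.BT
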