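import Pool.Agent.BT.Stmts

/-! BT: TRotS, the rotation groups. -/

namespace Pool.Agent.BT

open Pool.Agent.BURN

namespace TRotS

section general

variable {G X : Type} [Group G] [MulAction G X] {d : X → X → ℕ}

/-- elements of finite order are not loxodromic -/
theorem not_lox_of_pow (hX : Nonempty X) {t : G} {N : ℕ} (hN : 1 ≤ N)
    (ht : t ^ N = 1) : ¬ Lox d t := by
  intro hl
  obtain ⟨x⟩ := hX
  obtain ⟨m, hm⟩ := hl x (∑ i ∈ Finset.range N, d x (t ^ i • x))
  have h1 : t ^ m = t ^ (m % N) := by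
    conv_lhs => rw [← Nat.div_add_mod m N, pow_add, pow_mul, ht, one_pow, one_mul]
  rw [h1] at hm
  have h2 : d x (t ^ (m % N) • x) ≤ ∑ i ∈ Finset.range N, d x (t ^ i • x) :=
    Finset.single_le_sum (f := fun i => d x (t ^ i • x)) (fun _ _ => Nat.zero_le _)
      (Finset.mem_range.mpr (Nat.mod_lt _ hN))
  omega

theorem lox_conj (hiso : IsIso G d) {g : G} (h : G) (hg : Lox d g) : Lox d (h * g * h⁻¹) := by
  intro x B
  obtain ⟨m, hm⟩ := hg (h⁻¹ • x) B
  refine ⟨m, ?_⟩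
  have e : d x ((h * g * h⁻¹) ^ m • x) = d (h⁻¹ • x) (g ^ m • h⁻¹ • x) := by
    rw [← hiso h⁻¹ x]
    congr 1
    rw [conj_pow, smul_smul, smul_smul]
    congr 1
    group
  rw [e]
  exact hm

/-- conjugation of closures -/
theorem closure_conj {S S' : Set G} {g : G} (h : ∀ x ∈ S', g⁻¹ * x * g ∈ S) :
    ∀ x ∈ Subgroup.closure S', g⁻¹ * x * g ∈ Subgroup.closure S := by
  intro x hx
  induction hx using Subgroup.closure_induction with
  | mem x hx => exact Subgroup.subset_closure (h x hx)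
  | one => simp
  | mul x y _ _ hx hy =>
    have e : g⁻¹ * (x * y) * g = (g⁻¹ * x * g) * (g⁻¹ * y * g) := by group
    rw [e]
    exact Subgroup.mul_mem _ hx hy
  | inv x _ hx =>
    have e : g⁻¹ * x⁻¹ * g = (g⁻¹ * x * g)⁻¹ := by group
    rw [e]
    exact Subgroup.inv_mem _ hx

end general

end TRotS

open TRotS in
theorem TRotS_proof [TP] (h1 : Stmt_FBC) (h2 : Stmt_FBL) (h3 : Stmt_TGA) (h4 : Stmt_TCyc)
    (h5 : Stmt_TEl) (_h6 : Stmt_TKS) : Stmt_TRotS := by
  intro G X _ _ d Lb hGood hLab E hE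
  have hAT := h3 G X d Lb hGood
  have hdg := hGood.dg
  have hiso := hGood.iso
  have hne := hGood.nonempty
  have hNx : 1 ≤ Nx := Nat.mul_pos (Nat.factorial_pos _) TP.prime.pos
  obtain ⟨g, hg, rfl, x0, hx0⟩ := hE
  have hEl := h5 G X FP d dd A0t TP.R (Nat.factorial TN.n) hAT
  obtain ⟨K, w, hKP, hwL, hNw, hK, hEp, hKE⟩ :=
    h4 G X FP d dd A0t TP.R (Nat.factorial TN.n) hAT g hg
  have hPK : PK d (El g) := Or.inr ⟨g, hg, rfl, x0, hx0⟩
  have hKil : KilT d (El g) := ⟨g, hg, rfl, x0, hx0⟩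
  obtain ⟨f0, hf0⟩ := hLab.ex _ hPK
  have hhom := hLab.hom _ _ hPK hf0
  have hf01 : f0 1 = 1 := by
    have := hhom 1 (Subgroup.one_mem _) 1 (Subgroup.one_mem _)
    rw [mul_one] at this
    have h2 : f0 1 * f0 1 = f0 1 * 1 := by rw [mul_one]; exact this.symm
    exact mul_left_cancel h2
  have hf0pow : ∀ e ∈ El g, ∀ k : ℕ, f0 (e ^ k) = f0 e ^ k := by
    intro e he k
    induction k with
    | zero => simpa using hf01
    | succ k ih =>
      rw [pow_succ, hhom _ (Subgroup.pow_mem _ he k) _ he, ih, pow_succ]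
  have hf0inv : ∀ e ∈ El g, f0 e = 1 → f0 e⁻¹ = 1 := by
    intro e he h
    have := hhom e he e⁻¹ (Subgroup.inv_mem _ he)
    rw [mul_inv_cancel, hf01, h, one_mul] at this
    exact this.symm
  have hf0zpow : ∀ e ∈ El g, f0 e = 1 → ∀ k : ℤ, f0 (e ^ k) = 1 := by
    intro e he h k
    obtain ⟨n, rfl | rfl⟩ := k.eq_nat_or_neg
    · rw [zpow_natCast, hf0pow e he, h, one_pow]
    · rw [zpow_neg, zpow_natCast]
      exact hf0inv _ (Subgroup.pow_mem _ he n) (by rw [hf0pow e he, h, one_pow])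
  have hall : ∀ e ∈ El g, (∀ f, Lb (El g) f → f e = 1) ↔ f0 e = 1 := by
    intro e he
    constructor
    · intro h; exact h f0 hf0
    · intro h f hf
      obtain ⟨s, hs⟩ := hLab.orb _ _ _ hPK hf0 hf
      rw [hs e he, h]
      group
  -- Fact A
  have factA : ∀ t ∈ El g, ¬ Lox d t → f0 t = 1 → t = 1 := by
    intro t ht htl htf
    have htN : t ^ Nx = 1 := hGood.tors t htl
    have hfin : Finite (Subgroup.zpowers t) := by
      have : IsOfFinOrder t := isOfFinOrder_iff_pow_eq_one.mpr ⟨Nx, hNx, htN⟩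
      exact finite_zpowers.mpr this
    have hsub : Subgroup.zpowers t ≤ El g := by
      rw [Subgroup.zpowers_le]; exact ht
    have hnl : ∀ h ∈ Subgroup.zpowers t, ¬ Lox d h := by
      rintro h ⟨k, rfl⟩
      refine not_lox_of_pow hne hNx ?_
      change (t ^ k) ^ Nx = 1
      rw [← zpow_natCast, ← zpow_mul, mul_comm, zpow_mul, zpow_natCast, htN, one_zpow]
    obtain ⟨_, K', hK', hcard⟩ := hEl.2.2.2.2.2.2.2 g hg _ hsub hnl
    have hFP : FP (Subgroup.zpowers t) := by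
      refine ⟨hfin, ?_⟩
      rcases hcard with h | h
      · rw [h]; exact hK'.2
      · rw [h]
        refine Nat.Coprime.mul_left ?_ hK'.2
        have hp2 : TP.p ≠ 2 := by have := TP.odd; omega
        exact (Nat.coprime_primes Nat.prime_two TP.prime).mpr hp2.symm
    have hLbt := hLab.res _ _ _ hPK hFP hsub hf0
    exact hLab.inj _ _ (Or.inl hFP) hFP hLbt t (Subgroup.mem_zpowers t) htf
  -- Fact B
  have factB : ∀ e ∈ El g, f0 e = 1 → e ∈ Ep g := by
    intro e he hfe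
    by_contra hc
    obtain ⟨hnl, _, _⟩ := hEl.2.2.1 g e hg he hc
    have := factA e he hnl hfe
    rw [this] at hc
    exact hc (Subgroup.one_mem _)
  obtain ⟨_, hNwj, _, _⟩ := h1 G K w hKP.1 hNw
  have hFBL := (h2 G X d hdg hiso hne K w hKP.1 hNw).2 hwL
  have hEpEl : Ep g ≤ El g := by
    rintro h ⟨m, hm, hh⟩
    exact ⟨m, hm, Or.inl hh⟩
  have hKEp : ∀ k ∈ K, k ∈ Ep g := fun k hk => ((hK k).mp hk).1
  have hwEp : w ∈ Ep g := (hEp w).mpr ⟨1, Subgroup.one_mem _, 1, by simp⟩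
  -- the exponents
  set J : ℤ → Prop := fun j => ∃ k ∈ K, f0 (k * w ^ j) = 1 with hJ
  have hmem : ∀ k ∈ K, ∀ j : ℤ, k * w ^ j ∈ El g := fun k hk j =>
    Subgroup.mul_mem _ (hEpEl (hKEp k hk)) (Subgroup.zpow_mem _ (hEpEl hwEp) j)
  -- product of two elements
  have hprod : ∀ (k k' : G) (j j' : ℤ), k ∈ K → k' ∈ K →
      ∃ k'' ∈ K, (k * w ^ j) * (k' * w ^ j') = k'' * w ^ (j + j') := by
    intro k k' j j' hk hk'
    refine ⟨k * (w ^ j * k' * (w ^ j)⁻¹), Subgroup.mul_mem _ hk (hNwj j k' hk'), ?_⟩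
    rw [zpow_add]
    group
  have hJnat : ∃ n : ℕ, 0 < n ∧ J n := by
    refine ⟨Nat.factorial TN.n, Nat.factorial_pos _, 1, Subgroup.one_mem _, ?_⟩
    rw [one_mul, zpow_natCast, hf0pow w (hEpEl hwEp)]
    have := pow_card_eq_one (x := f0 w)
    rwa [Fintype.card_perm, Fintype.card_fin] at this
  classical
  obtain ⟨hn0pos, k0, hk0K, hk0⟩ := Nat.find_spec hJnat
  set n0 : ℕ := Nat.find hJnat with hn0
  have hmin : ∀ m : ℕ, 0 < m → J m → n0 ≤ m := fun m h1 h2 => Nat.find_min' hJnat ⟨h1, h2⟩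
  set z : G := k0 * w ^ (n0 : ℤ) with hz
  have hzE : z ∈ El g := hmem k0 hk0K n0
  have hinv : ∀ k ∈ K, ∀ j : ℤ, ∃ k' ∈ K, (k * w ^ j)⁻¹ = k' * w ^ (-j) := by
    intro k hk j
    refine ⟨w ^ (-j) * k⁻¹ * (w ^ (-j))⁻¹, hNwj (-j) k⁻¹ (Subgroup.inv_mem _ hk), ?_⟩
    rw [zpow_neg]
    group
  have hzn : ∀ n : ℕ, ∃ k ∈ K, z ^ n = k * w ^ ((n0 : ℤ) * n) := by
    intro n
    induction n with
    | zero => exact ⟨1, Subgroup.one_mem _, by simp⟩
    | succ n ih =>
      obtain ⟨k, hk, hkn⟩ := ih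
      obtain ⟨k'', hk'', h⟩ := hprod k k0 ((n0 : ℤ) * n) n0 hk hk0K
      refine ⟨k'', hk'', ?_⟩
      have e : (n0 : ℤ) * n + n0 = n0 * ((n + 1 : ℕ) : ℤ) := by push_cast; ring
      rw [← e, ← h, ← hz, ← hkn, pow_succ]
  have hzq : ∀ q : ℤ, ∃ k ∈ K, z ^ q = k * w ^ ((n0 : ℤ) * q) := by
    intro q
    obtain ⟨n, rfl | rfl⟩ := q.eq_nat_or_neg
    · rw [zpow_natCast]; exact hzn n
    · obtain ⟨k, hk, hkn⟩ := hzn n
      obtain ⟨k', hk', h⟩ := hinv k hk ((n0 : ℤ) * n)
      refine ⟨k', hk', ?_⟩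
      rw [zpow_neg, zpow_natCast, hkn, h]
      congr 2
      ring
  have hzl : ∀ q : ℤ, q ≠ 0 → Lox d (z ^ q) := by
    intro q hq
    obtain ⟨k, hk, h⟩ := hzq q
    rw [h]
    refine (hFBL.1 k hk _).mpr ?_
    have : (n0 : ℤ) ≠ 0 := by exact_mod_cast hn0pos.ne'
    exact mul_ne_zero this hq
  have hzL : Lox d z := by
    have := hzl 1 one_ne_zero
    rwa [zpow_one] at this
  have hone : ¬ Lox d (1 : G) := not_lox_of_pow hne le_rfl (one_pow 1)
  have hker : ∀ e ∈ El g, f0 e = 1 ↔ e ∈ Subgroup.zpowers z := by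
    intro e he
    constructor
    · intro hfe
      obtain ⟨k, hk, j, hkj⟩ := (hEp e).mp (factB e he hfe)
      obtain ⟨kq, hkq, hq⟩ := hzq (j / n0)
      obtain ⟨k', hk', h'⟩ := hinv kq hkq ((n0 : ℤ) * (j / n0))
      obtain ⟨k'', hk'', h''⟩ := hprod k k' j (-((n0 : ℤ) * (j / n0))) hk hk'
      have he' : e * (z ^ (j / (n0 : ℤ)))⁻¹ = k'' * w ^ (j % (n0 : ℤ)) := by
        rw [hkj, hq, h', h'']
        congr 2
        have := Int.emod_add_mul_ediv j n0
        linarith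
      have hE' : e * (z ^ (j / (n0 : ℤ)))⁻¹ ∈ El g :=
        Subgroup.mul_mem _ he (Subgroup.inv_mem _ (Subgroup.zpow_mem _ hzE _))
      have hf' : f0 (e * (z ^ (j / (n0 : ℤ)))⁻¹) = 1 := by
        rw [hhom e he _ (Subgroup.inv_mem _ (Subgroup.zpow_mem _ hzE _)), hfe, one_mul]
        exact hf0inv _ (Subgroup.zpow_mem _ hzE _) (hf0zpow z hzE hk0 _)
      have hr0 : 0 ≤ j % (n0 : ℤ) := Int.emod_nonneg _ (by exact_mod_cast hn0pos.ne')
      have hr1 : j % (n0 : ℤ) < n0 := Int.emod_lt_of_pos _ (by exact_mod_cast hn0pos)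
      have hr : j % (n0 : ℤ) = 0 := by
        by_contra hc
        obtain ⟨r, hr⟩ := Int.eq_ofNat_of_zero_le hr0
        have hrpos : 0 < r := by omega
        have := hmin r hrpos ⟨k'', hk'', by rw [← hr, ← he']; exact hf'⟩
        omega
      rw [hr, zpow_zero, mul_one] at he'
      have h1' := factA _ hE' (by rw [he']; exact ((hK k'').mp hk'').2) hf'
      have : e = z ^ (j / (n0 : ℤ)) := by
        rw [mul_inv_eq_one] at h1'
        exact h1'
      rw [this]
      exact Subgroup.zpow_mem_zpowers z _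
    · rintro ⟨k, rfl⟩
      exact hf0zpow z hzE hk0 k
  have hRot : ∀ x, x ∈ RotT Lb (El g) ↔ ∃ k : ℤ, x = z ^ ((TP.p : ℤ) * k) := by
    intro x
    constructor
    · intro hx
      unfold RotT at hx
      induction hx using Subgroup.closure_induction with
      | mem x hx =>
        obtain ⟨e, he, hfe, rfl⟩ := hx
        obtain ⟨k, hk⟩ := (hker e he).mp ((hall e he).mp hfe)
        refine ⟨k, ?_⟩
        simp only at hk
        rw [← hk, mul_comm, zpow_mul, zpow_natCast]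
      | one => exact ⟨0, by simp⟩
      | mul x y _ _ hx hy =>
        obtain ⟨a, rfl⟩ := hx
        obtain ⟨b, rfl⟩ := hy
        exact ⟨a + b, by rw [mul_add, zpow_add]⟩
      | inv x _ hx =>
        obtain ⟨a, rfl⟩ := hx
        exact ⟨-a, by rw [mul_neg, zpow_neg]⟩
    · rintro ⟨k, rfl⟩
      refine Subgroup.subset_closure ⟨z ^ k, Subgroup.zpow_mem _ hzE k, ?_, ?_⟩
      · exact (hall _ (Subgroup.zpow_mem _ hzE k)).mpr (hf0zpow z hzE hk0 k)
      · rw [mul_comm, zpow_mul, zpow_natCast]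
  refine ⟨⟨z, hzE, hzL, fun e he => (hall e he).trans (hker e he), hRot⟩, ?_, ?_, ?_, ?_, ?_⟩
  · intro e he
    refine Subgroup.subset_closure ⟨e ^ Nat.factorial TN.n, Subgroup.pow_mem _ he _, ?_, ?_⟩
    · rw [hall _ (Subgroup.pow_mem _ he _), hf0pow e he]
      have := pow_card_eq_one (x := f0 e)
      rwa [Fintype.card_perm, Fintype.card_fin] at this
    · rw [← pow_mul]
      rfl
  · intro f hf r hr
    obtain ⟨k, rfl⟩ := (hRot r).mp hr
    exact ((hall _ (Subgroup.zpow_mem _ hzE _)).mpr (hf0zpow z hzE hk0 _)) f hf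
  · intro r hr hr1
    obtain ⟨k, rfl⟩ := (hRot r).mp hr
    have hk : k ≠ 0 := by
      rintro rfl
      exact hr1 (by simp)
    have hp0 : (TP.p : ℤ) ≠ 0 := by exact_mod_cast TP.prime.ne_zero
    refine ⟨hzl _ (mul_ne_zero hp0 hk), ?_⟩
    intro x
    have key : ∀ n : ℕ, 1 ≤ n → TP.p ≤ TP.R * d x (z ^ (TP.p * n) • x) := by
      intro n hn
      refine le_trans ?_ (hGood.stab z hzL x (TP.p * n))
      exact Nat.le_mul_of_pos_right _ hn
    obtain ⟨n, rfl | rfl⟩ := k.eq_nat_or_neg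
    · have hn : 1 ≤ n := by
        rcases Nat.eq_zero_or_pos n with h | h
        · exact absurd (by simp [h]) hk
        · exact h
      have := key n hn
      rw [← zpow_natCast] at this
      push_cast at this
      exact this
    · have hn : 1 ≤ n := by
        rcases Nat.eq_zero_or_pos n with h | h
        · exact absurd (by simp [h]) hk
        · exact h
      have := key n hn
      have e : d x (z ^ ((TP.p : ℤ) * -(n : ℤ)) • x) = d x (z ^ (TP.p * n) • x) := by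
        rw [← hiso (z ^ (TP.p * n)) x, hdg.symm, smul_smul]
        congr 1
        have : z ^ (TP.p * n) * z ^ ((TP.p : ℤ) * -(n : ℤ)) = 1 := by
          rw [← zpow_natCast, ← zpow_add]
          push_cast
          rw [show (TP.p : ℤ) * n + TP.p * -(n : ℤ) = 0 by ring, zpow_zero]
        rw [this, one_smul]
      rw [e]
      exact this
  · intro h E' hE'
    have hcj := (hEl.2.2.2.2.2.1 g h).1
    have hEE : E' = El (h * g * h⁻¹) := by
      ext x
      rw [hE' x, hcj x]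
    have hKil' : KilT d E' := by
      refine ⟨h * g * h⁻¹, lox_conj hiso h hg, hEE, h • x0, ?_⟩
      have e : d (h • x0) ((h * g * h⁻¹) • h • x0) = d x0 (g • x0) := by
        rw [smul_smul, inv_mul_cancel_right, mul_smul, hiso]
      rw [e]
      exact hx0
    refine ⟨hKil', ?_⟩
    have hPK' : PK d E' := Or.inr hKil'
    have hE'' : IsCj h⁻¹ E' (El g) := by
      intro x
      rw [hE' (h⁻¹⁻¹ * x * h⁻¹)]
      have : h⁻¹ * (h⁻¹⁻¹ * x * h⁻¹) * h = x := by group
      rw [this]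
    intro x
    constructor
    · intro hx
      refine closure_conj ?_ x hx
      rintro y ⟨e, he, hfe, rfl⟩
      refine ⟨h⁻¹ * e * h, (hE' e).mp he, ?_, ?_⟩
      · intro f hf
        exact hfe _ (hLab.cj _ _ f h hPK hE' hf)
      · have := conj_pow (i := TP.p) (a := h⁻¹) (b := e)
        rw [inv_inv] at this
        rw [this]
    · intro hx
      have h2 : h⁻¹⁻¹ * (h⁻¹ * x * h) * h⁻¹ ∈ RotT Lb E' := by
        refine closure_conj ?_ _ hx
        rintro y ⟨e, he, hfe, rfl⟩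
        refine ⟨h⁻¹⁻¹ * e * h⁻¹, (hE'' e).mp he, ?_, ?_⟩
        · intro f hf
          exact hfe _ (hLab.cj _ _ f h⁻¹ hPK' hE'' hf)
        · have := conj_pow (i := TP.p) (a := h) (b := e)
          rw [inv_inv, this]
      have e : h⁻¹⁻¹ * (h⁻¹ * x * h) * h⁻¹ = x := by group
      rwa [e] at h2
  · intro e he m hm hem hfe
    obtain ⟨k, hk⟩ := (hker e he).mp ((hall e he).mp hfe)
    simp only at hk
    obtain ⟨k', hk'⟩ := (hRot _).mp hem
    have hkm : k * m = TP.p * k' := by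
      by_contra hc
      have h0 : k * m - TP.p * k' ≠ 0 := sub_ne_zero.mpr hc
      have h1 : z ^ (k * m - TP.p * k') = 1 := by
        rw [zpow_sub, ← hk', ← hk, ← zpow_natCast, ← zpow_mul]
        group
      have := hzl _ h0
      rw [h1] at this
      exact hone this
    have hdvd : (TP.p : ℤ) ∣ k * m := ⟨k', hkm⟩
    have hpk : (TP.p : ℤ) ∣ k := by
      refine IsCoprime.dvd_of_dvd_mul_right ?_ hdvd
      exact (Nat.isCoprime_iff_coprime.mpr hm).symm
    obtain ⟨c, hc⟩ := hpk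
    rw [hRot]
    exact ⟨c, by rw [← hk, hc]⟩

end Pool.Agent.BT
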