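import Pool.Agent.BT.Stmts
import Pool.Agent.BURN.W97Mid

/-! BT, part A: TSC, elements moving two far points moderately. -/

namespace Pool.Agent.BT

open Pool.Agent.BURN

namespace TSC

variable {G X : Type} [Group G] [MulAction G X]

theorem nuB_ge (B : ℕ) : 200 ≤ nuB B := by
  unfold nuB
  have h : 1 ≤ (B + 1) ^ 2 := Nat.one_le_pow _ _ (Nat.succ_pos _)
  omega

theorem self_mem_Ep (z : G) : z ∈ Ep z := ⟨1, le_refl 1, by simp⟩

theorem Ep_le_El (c : G) : Ep c ≤ El c := fun _ ⟨m, hm, h⟩ => ⟨m, hm, Or.inl h⟩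

theorem self_mem_El (z : G) : z ∈ El z := Ep_le_El z (self_mem_Ep z)

theorem inv_disp {d : X → X → ℕ} (h : IsDG d) (hi : IsIso G d) {x : X} {g : G} {l : ℕ}
    (hx : d x (g • x) ≤ l) : d x (g⁻¹ • x) ≤ l := by
  have e : d x (g⁻¹ • x) = d x (g • x) := by
    rw [← hi g x (g⁻¹ • x), smul_inv_smul, h.symm]
  rw [e]; exact hx

/-- the case of a loxodromic commutator -/
theorem case1 {P : Subgroup G → Prop} {d : X → X → ℕ} {δ A R B : ℕ}
    (hAT : AT (G := G) P d δ A R B) (hcomm : Stmt_Comm) (h2 : Stmt_FBL)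
    (h4 : Stmt_TEl) {x y : X} {γ : ℕ → X} (hγ : IsGeod d x y γ) {l : ℕ}
    (hxy : A + 200 * (l + δ) ≤ d x y) {z : G} (hz : Lox d z)
    (hzt : ∀ t, 2 * l + δ + 1 ≤ t → t + 2 * l + δ + 1 ≤ d x y → d (γ t) (z • γ t) ≤ 14 * δ)
    {g : G} (hgx : d x (g • x) ≤ l) (hgy : d y (g • y) ≤ l) : g ∈ Ep z := by
  have hdg := hAT.dg
  have hiso := hAT.iso
  have h1δ := hAT.one_le
  haveI := hAT.nonempty
  obtain ⟨-, -, T3, -, T5, -⟩ := h4 G X P d δ A R B hAT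
  -- acylindricity with a lox element among the elements
  have acy : ∀ p q : X, A ≤ d p q → d p (z • p) ≤ 100 * δ → d q (z • q) ≤ 100 * δ →
      ∀ u : G, d p (u • p) ≤ 100 * δ → d q (u • q) ≤ 100 * δ → u ∈ Ep z := by
    intro p q hpq zp zq u up uq
    obtain ⟨F, c, hPF, hN, hc, hall⟩ := hAT.acyl p q hpq
    haveI : Finite F := hAT.fin F hPF
    obtain ⟨L1, L2⟩ := h2 G X d hdg hiso hAT.nonempty F c (hAT.fin F hPF) hN
    have hzF := hall z zp zq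
    have hcl : Lox d c := by
      rcases hc with hc | hc
      · exfalso
        obtain ⟨f, hf, j, hj⟩ := hzF
        rw [hc, one_zpow, mul_one] at hj
        rw [hj] at hz
        exact L1 f hf hz
      · exact hc
    obtain ⟨-, L3, L4⟩ := L2 hcl
    have e := (L4 z hzF hz).1
    rw [e]
    exact L3 u (hall u up uq)
  have hz'd : ∀ t (q : X), 2 * l + δ + 1 ≤ t → t + 2 * l + δ + 1 ≤ d x y →
      d (g • γ t) q ≤ 3 * δ → d q ((g * z * g⁻¹) • q) ≤ 20 * δ := fun t q h1 h2 hq => by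
    have t1 := hdg.tri q (g • γ t) ((g * z * g⁻¹) • q)
    have t2 := hdg.tri (g • γ t) ((g * z * g⁻¹) • g • γ t) ((g * z * g⁻¹) • q)
    rw [hiso] at t2
    have e : (g * z * g⁻¹) • g • γ t = g • z • γ t := by
      rw [← mul_smul, ← mul_smul]; congr 1; group
    rw [e, hiso] at t2
    have := hzt t h1 h2
    have s := hdg.symm q (g • γ t)
    omega
  obtain ⟨t0, ht0⟩ : ∃ t0, t0 = 3 * l + 2 * δ := ⟨_, rfl⟩
  obtain ⟨t1, ht1⟩ : ∃ t1, t1 = 3 * l + 2 * δ + (A + δ) := ⟨_, rfl⟩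
  obtain ⟨b1, b2, b3, -⟩ := w97_mid hdg hAT.hyp hiso hγ hgx hgy (t := t0) (by omega) (by omega)
  obtain ⟨c1, c2, c3, -⟩ := w97_mid hdg hAT.hyp hiso hγ hgx hgy (t := t1) (by omega) (by omega)
  obtain ⟨m1, m2⟩ := w97_mid_mono hdg hAT.hyp hiso hγ hgx hgy (s := t0) (t := t1) (by omega)
    (by omega) (by omega)
  have hd : d (γ (d x (g • γ t0))) (γ (d x (g • γ t1))) =
      d x (g • γ t1) - d x (g • γ t0) := hγ.2.2 _ _ (by omega) (by omega)
  have hcj : g * z * g⁻¹ ∈ Ep z := by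
    apply acy (γ (d x (g • γ t0))) (γ (d x (g • γ t1))) (by omega)
    · have := hzt (d x (g • γ t0)) (by omega) (by omega); omega
    · have := hzt (d x (g • γ t1)) (by omega) (by omega); omega
    · have := hz'd t0 _ (by omega) (by omega) b3; omega
    · have := hz'd t1 _ (by omega) (by omega) c3; omega
  have hEl : g ∈ El z := T5 z g z hz hz (self_mem_El z) (Ep_le_El z hcj)
  by_contra hne
  obtain ⟨hnl, -⟩ := T3 z g hz hEl hne
  apply hne
  have hmid : ∀ t, 2 * l + δ + 1 ≤ t → t + 2 * l + δ + 1 ≤ d x y →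
      d (γ t) (g • γ t) ≤ 14 * δ := fun t h1 h2 =>
    (hcomm G X d δ l x y γ g g hdg hAT.hyp hiso hγ hgx hgy hgx hgy t h1 h2).2.2 hnl
  have hd2 : d (γ t0) (γ t1) = t1 - t0 := hγ.2.2 _ _ (by omega) (by omega)
  apply acy (γ t0) (γ t1) (by omega)
  · have := hzt t0 (by omega) (by omega); omega
  · have := hzt t1 (by omega) (by omega); omega
  · have := hmid t0 (by omega) (by omega); omega
  · have := hmid t1 (by omega) (by omega); omega

end TSC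

open TSC in
theorem TSC_proof (E : EngT) (h1 : Stmt_FBC) (h2 : Stmt_FBL) (h3 : Stmt_TCyc) (h4 : Stmt_TEl)
    (h5 : Stmt_TSCa) : Stmt_TSC := by
  intro G X _ _ P d δ A R B hAT x y l hxy
  have hdg := hAT.dg
  have hiso := hAT.iso
  have h1δ := hAT.one_le
  have hxy' : A + 200 * (l + δ) ≤ d x y :=
    le_trans (Nat.add_le_add_left (Nat.mul_le_mul_right _ (nuB_ge B)) _) hxy
  obtain ⟨γ, hγ⟩ := exists_geod hdg x y
  obtain ⟨H, hPH, hN, hH⟩ := h5 G X P d δ A R B hAT x y l γ hγ hxy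
  have comm : ∀ g h : G, d x (g • x) ≤ l → d y (g • y) ≤ l → d x (h • x) ≤ l →
      d y (h • y) ≤ l → ∀ t, 2 * l + δ + 1 ≤ t → t + 2 * l + δ + 1 ≤ d x y →
        d (γ t) ((g⁻¹ * h⁻¹ * g * h) • γ t) ≤ 14 * δ := fun g h g1 g2 k1 k2 t t1 t2 =>
    (E.comm G X d δ l x y γ g h hdg hAT.hyp hiso hγ g1 g2 k1 k2 t t1 t2).2.1
  by_cases hc : ∃ g h : G, d x (g • x) ≤ l ∧ d y (g • y) ≤ l ∧ d x (h • x) ≤ l ∧
      d y (h • y) ≤ l ∧ Lox d (g⁻¹ * h⁻¹ * g * h)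
  · obtain ⟨g, h, g1, g2, k1, k2, hl⟩ := hc
    obtain ⟨K, w, hPK, hw, hNw, -, hKw, -⟩ := h3 G X P d δ A R B hAT _ hl
    refine ⟨K, w, hPK, hNw, Or.inr hw, fun u u1 u2 => ?_⟩
    exact (hKw u).1 (case1 hAT E.comm h2 h4 hγ hxy' hl (comm g h g1 g2 k1 k2) u1 u2)
  · have hcH : ∀ g h : G, d x (g • x) ≤ l → d y (g • y) ≤ l → d x (h • x) ≤ l →
        d y (h • y) ≤ l → g⁻¹ * h⁻¹ * g * h ∈ H := by
      intro g h g1 g2 k1 k2
      apply hH
      · intro hl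
        exact hc ⟨g, h, g1, g2, k1, k2, hl⟩
      · exact comm g h g1 g2 k1 k2 _ (by omega) (by omega)
      · exact comm g h g1 g2 k1 k2 _ (by omega) (by omega)
    by_cases hL : ∃ g : G, d x (g • x) ≤ l ∧ d y (g • y) ≤ l ∧ Lox d g
    · obtain ⟨g0, g1, g2, hl⟩ := hL
      obtain ⟨K, w, hPK, hw, hNw, -, hKw, -⟩ := h3 G X P d δ A R B hAT _ hl
      refine ⟨K, w, hPK, hNw, Or.inr hw, fun u u1 u2 => (hKw u).1 ?_⟩
      obtain ⟨-, -, ⟨M, hM, -, hM2⟩, -⟩ := h1 G H g0 (hAT.fin H hPH) (hN g0 g1 g2)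
      refine ⟨M, hM, ?_⟩
      have hh := hcH u⁻¹ g0⁻¹ (inv_disp hdg hiso u1) (inv_disp hdg hiso u2)
        (inv_disp hdg hiso g1) (inv_disp hdg hiso g2)
      have e1 : u * g0 * u⁻¹ = (u⁻¹⁻¹ * g0⁻¹⁻¹ * u⁻¹ * g0⁻¹) * g0 ^ (1 : ℤ) := by group
      have e2 := hM2 _ hh 1
      rw [← e1, one_mul, zpow_natCast, conj_pow] at e2
      exact e2
    · refine ⟨H, 1, hPH, ?_, Or.inl rfl, fun u u1 u2 => ⟨u, ?_, 0, by simp⟩⟩
      · intro f hf
        simpa using hf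
      · have hnl : ¬ Lox d u := fun hl => hL ⟨u, u1, u2, hl⟩
        have hmid : ∀ t, 2 * l + δ + 1 ≤ t → t + 2 * l + δ + 1 ≤ d x y →
            d (γ t) (u • γ t) ≤ 14 * δ := fun t t1 t2 =>
          (E.comm G X d δ l x y γ u u hdg hAT.hyp hiso hγ u1 u2 u1 u2 t t1 t2).2.2 hnl
        exact hH u hnl (hmid _ (by omega) (by omega)) (hmid _ (by omega) (by omega))

end Pool.Agent.BT
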