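import Pool.Agent.BT.Stmts

/-! BT module TSCa: a finite group normalised by all elements moving two far points moderately. -/

namespace Pool.Agent.BT

open Pool.Agent.BURN

namespace TSCa

/-- products of at most k elements of T -/
def W {G : Type} [Group G] (T : Set G) : ℕ → Set G
  | 0 => {1}
  | k + 1 => {g | ∃ a ∈ W T k, g = a ∨ ∃ t ∈ T, g = a * t}

theorem W_mono {G : Type} [Group G] (T : Set G) (k : ℕ) : W T k ⊆ W T (k + 1) :=
  fun g hg => ⟨g, hg, Or.inl rfl⟩

theorem W_sub {G : Type} [Group G] (T : Set G) (k : ℕ) :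
    W T k ⊆ (Subgroup.closure T : Set G) := by
  induction k with
  | zero =>
    intro g hg
    have : g = 1 := hg
    rw [this]; exact (Subgroup.closure T).one_mem
  | succ k ih =>
    rintro g ⟨a, ha, h | ⟨t, ht, h⟩⟩
    · rw [h]; exact ih ha
    · rw [h]; exact (Subgroup.closure T).mul_mem (ih ha) (Subgroup.subset_closure ht)

theorem W_bound {G : Type} [Group G] (T : Set G) (L : G → ℕ) (K : ℕ) (h1 : L 1 = 0)
    (hm : ∀ a b, L (a * b) ≤ L a + L b) (hT : ∀ t ∈ T, L t ≤ K) (k : ℕ) :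
    ∀ g ∈ W T k, L g ≤ k * K := by
  induction k with
  | zero =>
    intro g hg
    have : g = 1 := hg
    rw [this, h1]; omega
  | succ k ih =>
    rintro g ⟨a, ha, h | ⟨t, ht, h⟩⟩
    · rw [h]; have := ih a ha; rw [Nat.succ_mul]; omega
    · rw [h]
      have := ih a ha
      have h2 := hm a t
      have h3 := hT t ht
      rw [Nat.succ_mul]; omega

theorem W_stable {G : Type} [Group G] (T : Set G) (hinv : ∀ t ∈ T, t⁻¹ ∈ T) (k : ℕ)
    (h : W T (k + 1) ⊆ W T k) : (Subgroup.closure T : Set G) ⊆ W T k := by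
  have h1 : (1 : G) ∈ W T k := by
    clear h
    induction k with
    | zero => exact rfl
    | succ k ih => exact W_mono T k ih
  intro g hg
  induction hg using Subgroup.closure_induction_right with
  | one => exact h1
  | mul_right x hx y hy ih => exact h ⟨x, ih, Or.inr ⟨y, hy, rfl⟩⟩
  | mul_inv_cancel x hx y hy ih => exact h ⟨x, ih, Or.inr ⟨y⁻¹, hinv y hy, rfl⟩⟩

theorem words {G : Type} [Group G] (T : Set G) (hinv : ∀ t ∈ T, t⁻¹ ∈ T) (B : ℕ)
    (hfin : Finite (Subgroup.closure T)) (hB : Nat.card (Subgroup.closure T) ≤ B)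
    (L : G → ℕ) (K : ℕ) (h1 : L 1 = 0)
    (hm : ∀ a b, L (a * b) ≤ L a + L b) (hT : ∀ t ∈ T, L t ≤ K) :
    ∀ g ∈ Subgroup.closure T, L g ≤ B * K := by
  have hcf : (Subgroup.closure T : Set G).Finite := hfin
  have hcn : (Subgroup.closure T : Set G).ncard ≤ B := hB
  have hex : ∃ k ≤ B, W T (k + 1) ⊆ W T k := by
    by_contra hne
    push Not at hne
    have key : ∀ k ≤ B + 1, k + 1 ≤ (W T k).ncard := by
      intro k
      induction k with
      | zero =>
        intro _
        have : W T 0 = {1} := rfl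
        rw [this, Set.ncard_singleton]
      | succ k ih =>
        intro hk
        have h2 := ih (by omega)
        have h3 : (W T k).ncard < (W T (k + 1)).ncard := by
          apply Set.ncard_lt_ncard
          · exact ⟨W_mono T k, hne k (by omega)⟩
          · exact hcf.subset (W_sub T (k + 1))
        omega
    have h4 := key B (by omega)
    have h5 := Set.ncard_le_ncard (W_sub T B) hcf
    omega
  obtain ⟨k, hk, hst⟩ := hex
  intro g hg
  have := W_bound T L K h1 hm hT k g (W_stable T hinv k hst hg)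
  exact this.trans (Nat.mul_le_mul_right K hk)

theorem sub_geod {X : Type} {d : X → X → ℕ} {x y : X} {γ : ℕ → X} (hg : IsGeod d x y γ)
    {a b : ℕ} (hab : a ≤ b) (hb : b ≤ d x y) : IsGeod d (γ a) (γ b) (fun i => γ (a + i)) := by
  have e : d (γ a) (γ b) = b - a := hg.2.2 a b hab hb
  refine ⟨rfl, ?_, ?_⟩
  · show γ (a + d (γ a) (γ b)) = γ b
    rw [e]; congr 1; omega
  · intro i j hij hj
    rw [e] at hj
    show d (γ (a + i)) (γ (a + j)) = j - i
    rw [hg.2.2 (a + i) (a + j) (by omega) (by omega)]; omega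

theorem comm3 {G X : Type} [Group G] [MulAction G X] (E : EngT) {d : X → X → ℕ} {δ : ℕ}
    (hd : IsDG d) (hy : Hyp d δ) (hi : IsIso G d) {x y : X} {γ : ℕ → X} (hg : IsGeod d x y γ)
    {a b l t : ℕ} (hab : a ≤ b) (hb : b ≤ d x y) (u : G) (hu : ¬ Lox d u)
    (h1 : d (γ a) (u • γ a) ≤ l) (h2 : d (γ b) (u • γ b) ≤ l)
    (ht1 : a + (2 * l + δ + 1) ≤ t) (ht2 : t + (2 * l + δ + 1) ≤ b) :
    d (γ t) (u • γ t) ≤ 14 * δ := by
  have hs := sub_geod hg hab hb
  have e : d (γ a) (γ b) = b - a := hg.2.2 a b hab hb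
  have := (E.comm G X d δ l (γ a) (γ b) _ u u hd hy hi hs h1 h2 h1 h2 (t - a) (by omega)
    (by rw [e]; omega)).2.2 hu
  have e2 : a + (t - a) = t := by omega
  simpa only [e2] using this

/-- the distances -/
def aj (B l δ j : ℕ) : ℕ := 2 * l + 2 * δ + j * (28 * δ * B + l + 43 * δ)

theorem aj_succ (B l δ j : ℕ) : aj B l δ (j + 1) = aj B l δ j + (28 * δ * B + l + 43 * δ) := by
  unfold aj; ring

theorem aj_zero (B l δ : ℕ) : aj B l δ 0 = 2 * l + 2 * δ := by unfold aj; ring

theorem aj_mono (B l δ j k : ℕ) (h : j ≤ k) : aj B l δ j ≤ aj B l δ k := by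
  unfold aj; have := Nat.mul_le_mul_right (28 * δ * B + l + 43 * δ) h; omega

theorem aj_top (B l δ : ℕ) : 2 * aj B l δ B + 1 ≤ nuB B * (l + δ) + 1 := by
  unfold aj nuB
  have : 200 * (B + 1) ^ 2 * (l + δ) = 200 * (B * B) * l + 200 * (B * B) * δ + 400 * B * l +
    400 * B * δ + 200 * l + 200 * δ := by ring
  rw [this]
  have e : 2 * (2 * l + 2 * δ + B * (28 * δ * B + l + 43 * δ)) = 4 * l + 4 * δ +
    56 * ((B * B) * δ) + 2 * (B * l) + 86 * (B * δ) := by ring
  rw [e]
  have e2 : 200 * (B * B) * l + 200 * (B * B) * δ + 400 * B * l +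
    400 * B * δ + 200 * l + 200 * δ = 200 * ((B * B) * l) + 200 * ((B * B) * δ) + 400 * (B * l) +
    400 * (B * δ) + 200 * l + 200 * δ := by ring
  rw [e2]
  omega

/-- the generators -/
def TT {G X : Type} [Group G] [MulAction G X] (d : X → X → ℕ) (δ : ℕ) (γ : ℕ → X) (n a : ℕ) :
    Set G :=
  {z | ¬ Lox d z ∧ d (γ a) (z • γ a) ≤ 14 * δ ∧ d (γ (n - a)) (z • γ (n - a)) ≤ 14 * δ}

theorem d_inv {G X : Type} [Group G] [MulAction G X] {d : X → X → ℕ} (hd : IsDG d)
    (hi : IsIso G d) (z : G) (p : X) : d p (z⁻¹ • p) = d p (z • p) := by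
  have := hi z p (z⁻¹ • p)
  rw [smul_inv_smul] at this
  rw [← this, hd.symm]

theorem lox_inv {G X : Type} [Group G] [MulAction G X] {d : X → X → ℕ} (hd : IsDG d)
    (hi : IsIso G d) (z : G) (h : Lox d z⁻¹) : Lox d z := by
  intro x B
  obtain ⟨m, hm⟩ := h x B
  refine ⟨m, ?_⟩
  rw [inv_pow, d_inv hd hi] at hm
  exact hm

theorem TT_inv {G X : Type} [Group G] [MulAction G X] {d : X → X → ℕ} (hd : IsDG d)
    (hi : IsIso G d) {δ : ℕ} {γ : ℕ → X} {n a : ℕ} (z : G) (hz : z ∈ TT d δ γ n a) :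
    z⁻¹ ∈ TT d δ γ n a := by
  refine ⟨fun h => hz.1 ?_, ?_, ?_⟩
  · exact lox_inv hd hi z h
  · rw [d_inv hd hi]; exact hz.2.1
  · rw [d_inv hd hi]; exact hz.2.2

theorem d_mul {G X : Type} [Group G] [MulAction G X] {d : X → X → ℕ} (hd : IsDG d)
    (hi : IsIso G d) (a b : G) (p : X) : d p ((a * b) • p) ≤ d p (a • p) + d p (b • p) := by
  have h1 := hd.tri p (a • p) ((a * b) • p)
  rw [mul_smul, hi a] at h1
  rw [mul_smul]
  exact h1

/-- the elements of the group generated by TT at a are in TT at the next distance -/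
theorem step {G X : Type} [Group G] [MulAction G X] (E : EngT) {d : X → X → ℕ} {δ B l : ℕ}
    (hd : IsDG d) (hy : Hyp d δ) (h1 : 1 ≤ δ) (hi : IsIso G d) {x y : X} {γ : ℕ → X}
    (hg : IsGeod d x y γ) (j : ℕ) (hn : 2 * aj B l δ (j + 1) ≤ d x y)
    (hfin : Finite (Subgroup.closure (TT (G := G) d δ γ (d x y) (aj B l δ j))))
    (hB : Nat.card (Subgroup.closure (TT (G := G) d δ γ (d x y) (aj B l δ j))) ≤ B)
    (hnl : ∀ h ∈ Subgroup.closure (TT (G := G) d δ γ (d x y) (aj B l δ j)), ¬ Lox d h) :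
    (Subgroup.closure (TT (G := G) d δ γ (d x y) (aj B l δ j)) : Set G) ⊆
      TT d δ γ (d x y) (aj B l δ (j + 1)) := by
  have hs := aj_succ B l δ j
  have w1 := words (TT (G := G) d δ γ (d x y) (aj B l δ j))
    (fun t ht => TT_inv hd hi t ht) B hfin hB (fun g => d (γ (aj B l δ j)) (g • γ (aj B l δ j)))
    (14 * δ) (by simp [(hd.eq_zero _ _).2]) (fun a b => d_mul hd hi a b _) (fun t ht => ht.2.1)
  have w2 := words (TT (G := G) d δ γ (d x y) (aj B l δ j))
    (fun t ht => TT_inv hd hi t ht) B hfin hB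
    (fun g => d (γ (d x y - aj B l δ j)) (g • γ (d x y - aj B l δ j)))
    (14 * δ) (by simp [(hd.eq_zero _ _).2]) (fun a b => d_mul hd hi a b _) (fun t ht => ht.2.2)
  intro h hh
  have e1 := w1 h hh
  have e2 := w2 h hh
  have e3 : B * (14 * δ) = 14 * δ * B := by ring
  have e4 : 2 * (B * (14 * δ)) = 28 * δ * B := by ring
  refine ⟨hnl h hh, ?_, ?_⟩
  · exact comm3 E hd hy hi hg (a := aj B l δ j) (b := d x y - aj B l δ j) (l := B * (14 * δ))
      (by omega) (by omega) h (hnl h hh) e1 e2 (by omega) (by omega)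
  · exact comm3 E hd hy hi hg (a := aj B l δ j) (b := d x y - aj B l δ j) (l := B * (14 * δ))
      (by omega) (by omega) h (hnl h hh) e1 e2 (by omega) (by omega)

/-- conjugates of TT at a are in TT at the next distance -/
theorem conjStep {G X : Type} [Group G] [MulAction G X] (E : EngT) {d : X → X → ℕ} {δ B l : ℕ}
    (hd : IsDG d) (hy : Hyp d δ) (h1 : 1 ≤ δ) (hi : IsIso G d) {x y : X} {γ : ℕ → X}
    (hg : IsGeod d x y γ) (j : ℕ) (hn : 2 * aj B l δ (j + 1) ≤ d x y) (g : G)
    (hgx : d x (g • x) ≤ l) (hgy : d y (g • y) ≤ l) (z : G)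
    (hz : z ∈ TT d δ γ (d x y) (aj B l δ j)) :
    g * z * g⁻¹ ∈ TT d δ γ (d x y) (aj B l δ (j + 1)) := by
  have hs := aj_succ B l δ j
  have h0 : 2 * l + 2 * δ ≤ aj B l δ j := by
    have := aj_mono B l δ 0 j (by omega)
    rw [aj_zero] at this; exact this
  have hnl : ¬ Lox d (g * z * g⁻¹) := fun h =>
    hz.1 (((E.slen G X d hd hi).2.2.2.2.2.2.1 z g).1 h)
  -- displacement of the points
  have key : ∀ t : ℕ, d (γ t) (z • γ t) ≤ 14 * δ → l + δ + 1 ≤ t → t + l + δ + 1 ≤ d x y →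
      ∃ m : ℕ, m ≤ d x y ∧ m ≤ t + l ∧ t ≤ m + l ∧
        d (γ m) ((g * z * g⁻¹) • γ m) ≤ 20 * δ := by
    intro t ht ht1 ht2
    obtain ⟨-, hm2, -⟩ := E.mid G X d δ l x y γ g hd hy hi hg hgx hgy
    obtain ⟨a1, a2, a3, -⟩ := hm2 t ht1 ht2
    refine ⟨d x (g • γ t), a2, ?_, ?_, ?_⟩
    · unfold Tr at a1; rw [hg.1] at a1; rw [abs_le] at a1; omega
    · unfold Tr at a1; rw [hg.1] at a1; rw [abs_le] at a1; omega
    · set q := γ (d x (g • γ t)) with hq
      have b1 := hd.tri q (g • γ t) ((g * z * g⁻¹) • q)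
      have b2 := hd.tri (g • γ t) ((g * z * g⁻¹) • (g • γ t)) ((g * z * g⁻¹) • q)
      have b3 : (g * z * g⁻¹) • (g • γ t) = g • (z • γ t) := by
        rw [← mul_smul, ← mul_smul]; congr 1; group
      rw [hi (g * z * g⁻¹), b3, hi g] at b2
      have b4 := hd.symm q (g • γ t)
      omega
  obtain ⟨m, m1, m2, m3, m4⟩ := key (aj B l δ j) hz.2.1 (by omega) (by omega)
  obtain ⟨m', m1', m2', m3', m4'⟩ := key (d x y - aj B l δ j) hz.2.2 (by omega) (by omega)
  refine ⟨hnl, ?_, ?_⟩
  · exact comm3 E hd hy hi hg (a := m) (b := m') (l := 20 * δ)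
      (by omega) (by omega) _ hnl m4 m4' (by omega) (by omega)
  · exact comm3 E hd hy hi hg (a := m) (b := m') (l := 20 * δ)
      (by omega) (by omega) _ hnl m4 m4' (by omega) (by omega)

end TSCa

theorem TSCa_proof (E : EngT) (h2 : Stmt_FBL) : Stmt_TSCa := by
  intro G X _ _ P d δ A R B hA x y l γ hg hn
  obtain ⟨hd, hy, hδ, hi, hne, hsub, hfin, hcard, hacyl, -, -⟩ := hA
  have htop := TSCa.aj_top B l δ
  -- the groups are in P
  have hP : ∀ j ≤ B, P (Subgroup.closure (TSCa.TT (G := G) d δ γ (d x y) (TSCa.aj B l δ j))) ∧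
      ∀ h ∈ Subgroup.closure (TSCa.TT (G := G) d δ γ (d x y) (TSCa.aj B l δ j)),
        ¬ Lox d h := by
    intro j hj
    have hm := TSCa.aj_mono B l δ j B hj
    have e : d (γ (TSCa.aj B l δ j)) (γ (d x y - TSCa.aj B l δ j)) =
        d x y - TSCa.aj B l δ j - TSCa.aj B l δ j := hg.2.2 _ _ (by omega) (by omega)
    obtain ⟨F, c, pF, nF, hc, hin⟩ := hacyl (γ (TSCa.aj B l δ j))
      (γ (d x y - TSCa.aj B l δ j)) (by rw [e]; omega)
    have fb := h2 G X d hd hi hne F c (hfin F pF) nF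
    have hTF : TSCa.TT (G := G) d δ γ (d x y) (TSCa.aj B l δ j) ⊆ F := by
      intro z hz
      obtain ⟨f, hf, k, hk⟩ := hin z (by have := hz.2.1; omega) (by have := hz.2.2; omega)
      rcases hc with hc | hc
      · rw [hc, one_zpow, mul_one] at hk
        rw [hk]; exact hf
      · have : k = 0 := by
          by_contra hk0
          apply hz.1
          rw [hk]
          exact ((fb.2 hc).1 f hf k).2 hk0
        rw [this, zpow_zero, mul_one] at hk
        rw [hk]; exact hf
    have hle : Subgroup.closure (TSCa.TT (G := G) d δ γ (d x y) (TSCa.aj B l δ j)) ≤ F :=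
      (Subgroup.closure_le F).2 hTF
    exact ⟨hsub F _ pF hle, fun h hh => fb.1 h (hle hh)⟩
  have hst : ∀ j < B, (Subgroup.closure (TSCa.TT (G := G) d δ γ (d x y)
      (TSCa.aj B l δ j)) : Set G) ⊆ TSCa.TT d δ γ (d x y) (TSCa.aj B l δ (j + 1)) := by
    intro j hj
    have hm := TSCa.aj_mono B l δ (j + 1) B hj
    have hp := hP j (by omega)
    exact TSCa.step E hd hy hδ hi hg j (by omega) (hfin _ hp.1) (hcard _ hp.1) hp.2
  have hmono : ∀ j < B, Subgroup.closure (TSCa.TT (G := G) d δ γ (d x y)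
      (TSCa.aj B l δ j)) ≤ Subgroup.closure (TSCa.TT d δ γ (d x y) (TSCa.aj B l δ (j + 1))) := by
    intro j hj z hz
    exact Subgroup.subset_closure (hst j hj hz)
  have hmono0 : ∀ j ≤ B, Subgroup.closure (TSCa.TT (G := G) d δ γ (d x y)
      (TSCa.aj B l δ 0)) ≤ Subgroup.closure (TSCa.TT d δ γ (d x y) (TSCa.aj B l δ j)) := by
    intro j
    induction j with
    | zero => intro _; exact le_refl _
    | succ j ih => intro hj; exact (ih (by omega)).trans (hmono j (by omega))
  -- a repetition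
  have hrep : ∃ j < B, Subgroup.closure (TSCa.TT (G := G) d δ γ (d x y)
      (TSCa.aj B l δ (j + 1))) ≤ Subgroup.closure (TSCa.TT d δ γ (d x y) (TSCa.aj B l δ j)) := by
    by_contra hno
    push Not at hno
    have key : ∀ j ≤ B, j + 1 ≤ Nat.card (Subgroup.closure (TSCa.TT (G := G) d δ γ (d x y)
        (TSCa.aj B l δ j))) := by
      intro j
      induction j with
      | zero =>
        intro _
        have := hfin _ (hP 0 (by omega)).1
        exact Nat.card_pos
      | succ j ih =>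
        intro hj
        have a1 := ih (by omega)
        have a2 : Nat.card (Subgroup.closure (TSCa.TT (G := G) d δ γ (d x y)
            (TSCa.aj B l δ j))) < Nat.card (Subgroup.closure (TSCa.TT (G := G) d δ γ (d x y)
            (TSCa.aj B l δ (j + 1)))) := by
          have f1 : (Subgroup.closure (TSCa.TT (G := G) d δ γ (d x y)
            (TSCa.aj B l δ (j + 1))) : Set G).Finite := hfin _ (hP (j + 1) hj).1
          exact Set.ncard_lt_ncard ⟨hmono j (by omega), hno j (by omega)⟩ f1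
        omega
    have k1 := key B le_rfl
    have k2 := hcard _ (hP B le_rfl).1
    omega
  obtain ⟨j, hj, hle⟩ := hrep
  refine ⟨Subgroup.closure (TSCa.TT (G := G) d δ γ (d x y) (TSCa.aj B l δ j)),
    (hP j (by omega)).1, ?_, ?_⟩
  · intro g hgx hgy
    have hm := TSCa.aj_mono B l δ (j + 1) B hj
    intro f hf
    induction hf using Subgroup.closure_induction with
    | mem z hz =>
      apply hle
      apply Subgroup.subset_closure
      exact TSCa.conjStep E hd hy hδ hi hg j (by omega) g hgx hgy z hz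
    | one => simp
    | mul a b _ _ iha ihb =>
      have : g * (a * b) * g⁻¹ = (g * a * g⁻¹) * (g * b * g⁻¹) := by group
      rw [this]; exact Subgroup.mul_mem _ iha ihb
    | inv a _ iha =>
      have : g * a⁻¹ * g⁻¹ = (g * a * g⁻¹)⁻¹ := by group
      rw [this]; exact Subgroup.inv_mem _ iha
  · intro z hz hz1 hz2
    apply hmono0 j (by omega)
    apply Subgroup.subset_closure
    rw [TSCa.aj_zero]
    exact ⟨hz, hz1, hz2⟩

end Pool.Agent.BT
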