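import Pool.Agent.BT.Stmts
import Pool.Agent.BURN.Step

/-! BT: TSTEP, the step theorem (construction of the killing system and assembly). -/

namespace Pool.Agent.BT

open Pool.Agent.BURN

namespace TStepX

open Pool.Agent.BURN.StepX

section build

variable [TP] {G X : Type} [Group G] [MulAction G X] {d : X → X → ℕ}
  {Lb : Subgroup G → (G → SP) → Prop}

/-- the facts on a stage which are used in the construction -/
structure Hy {G X : Type} [Group G] [MulAction G X] (d : X → X → ℕ)
    (Lb : Subgroup G → (G → SP) → Prop) : Prop where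
  good : GoodT (G := G) d Lb
  lab : Labels (PK (G := G) d) Lb
  cjE : ∀ E : Subgroup G, KilT d E → ∀ (g : G) (E' : Subgroup G), IsCj g E E' →
    KilT d E' ∧ IsCj g (RotT Lb E) (RotT Lb E')
  ax : ∀ (E E' : Subgroup G) (h : G), IsCj h E E' → ∀ x ∈ AxE d dd E, h • x ∈ AxE d dd E'
  ne : ∀ E : Subgroup G, KilT d E → (AxE d dd E).Nonempty

/-- the set of killed subgroups -/
def KI (G : Type) {X : Type} [Group G] [MulAction G X] (d : X → X → ℕ) : Type :=
  {E : Subgroup G // KilT d E}

/-- the killed subgroups as a family -/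
def kE (G : Type) {X : Type} [Group G] [MulAction G X] (d : X → X → ℕ) (i : KI G d) :
    Subgroup G := i.1

theorem isCj_cj (g : G) (E : Subgroup G) : IsCj g E (cj g E) := fun x => mem_cj g x E

theorem kil_cj (h : Hy (G := G) d Lb) (g : G) {E : Subgroup G} (hE : KilT d E) :
    KilT d (cj g E) := (h.cjE E hE g (cj g E) (isCj_cj g E)).1

/-- action by conjugation on the killed subgroups -/
@[reducible] def kiAct (h : Hy (G := G) d Lb) : MulAction G (KI G d) where
  smul g i := ⟨cj g i.1, kil_cj h g i.2⟩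
  one_smul i := Subtype.ext (cj_one i.1)
  mul_smul g h i := Subtype.ext (cj_mul g h i.1)

theorem smul_YT (h : Hy (G := G) d Lb) (g : G) (i j : KI G d) (hj : j.1 = cj g i.1) (y : X)
    (hy : y ∈ YT d (kE G d) i) : g • y ∈ YT d (kE G d) j :=
  h.ax i.1 j.1 g (by rw [hj]; exact isCj_cj g i.1) y hy

/-- the action on the cone-off -/
@[reducible] def gamAct (h : Hy (G := G) d Lb) : MulAction G (Gam (YT d (kE G d)) rt) :=
  letI := kiAct h
  { smul := fun g u => ⟨g • u.1, by
      obtain ⟨u, hu⟩ := u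
      cases u with
      | b v => trivial
      | c i y s => exact ⟨smul_YT h g i (g • i) rfl y hu.1, hu.2⟩
      | a i => trivial⟩
    one_smul := by
      rintro ⟨u, hu⟩
      apply Subtype.ext
      show (1 : G) • u = u
      cases u with
      | b v => exact congrArg CV.b (one_smul G v)
      | c i y s =>
        show CV.c ((1 : G) • i) ((1 : G) • y) s = CV.c i y s
        rw [one_smul, one_smul]
      | a i => exact congrArg CV.a (one_smul G i)
    mul_smul := by
      rintro g h ⟨u, hu⟩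
      apply Subtype.ext
      show (g * h) • u = g • (h • u)
      cases u with
      | b v => exact congrArg CV.b (mul_smul g h v)
      | c i y s =>
        show CV.c ((g * h) • i) ((g * h) • y) s = CV.c (g • h • i) (g • h • y) s
        rw [mul_smul, mul_smul]
      | a i => exact congrArg CV.a (mul_smul g h i) }

theorem gam_iso (h : Hy (G := G) d Lb) (D : X → X → ℕ) (hD : IsIso G D) :
    letI := kiAct h; letI := gamAct h
    ∀ (g : G) (u w : Gam (YT d (kE G d)) rt),
      dGam D (YT d (kE G d)) rt (g • u) (g • w) = dGam D (YT d (kE G d)) rt u w := by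
  letI := kiAct h
  letI := gamAct h
  intro g u w
  have hadj : ∀ (g : G) (u w : CV X (KI G d)), CAdj D rt u w → CAdj D rt (g • u) (g • w) := by
    intro g u w h
    cases u with
    | b x =>
      cases w with
      | b x' => show D (g • x) (g • x') = 1; rw [hD]; exact h
      | c i y s => exact ⟨h.1, congrArg (g • ·) h.2⟩
      | a i => exact h
    | c i y s =>
      cases w with
      | b x' => exact ⟨h.1, congrArg (g • ·) h.2⟩
      | c j y' s' =>
        obtain ⟨e, h2⟩ := h
        refine ⟨congrArg (g • ·) e, ?_⟩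
        rcases h2 with ⟨e2, h3⟩ | ⟨e2, h3⟩
        · exact Or.inl ⟨congrArg (g • ·) e2, h3⟩
        · right
          refine ⟨e2, ?_⟩
          rw [hD]
          exact h3
      | a j => exact ⟨congrArg (g • ·) h.1, h.2⟩
    | a j =>
      cases w with
      | b x' => exact h
      | c i y s => exact ⟨congrArg (g • ·) h.1, h.2⟩
      | a i => exact h
  have hadj2 : ∀ (g : G) (u w : Gam (YT d (kE G d)) rt),
      (SimpleGraph.fromRel (fun u w : Gam (YT d (kE G d)) rt => CAdj D rt u.1 w.1)).Adj u w →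
      (SimpleGraph.fromRel (fun u w : Gam (YT d (kE G d)) rt => CAdj D rt u.1 w.1)).Adj
        (g • u) (g • w) := by
    intro g u w h
    rw [SimpleGraph.fromRel_adj] at h ⊢
    refine ⟨fun e => h.1 (smul_left_cancel g e), ?_⟩
    rcases h.2 with h | h
    · exact Or.inl (hadj g _ _ h)
    · exact Or.inr (hadj g _ _ h)
  unfold dGam
  exact GamActAux.dist_eq_of_equiv _ (fun u => g • u) (fun u => g⁻¹ • u) (hadj2 g) (hadj2 g⁻¹)
    (fun u => inv_smul_smul g u) u w

theorem dsc_iso (hi : IsIso G d) : IsIso G (Dsc Lt d) := by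
  intro g x y
  unfold Dsc
  rw [hi]

/-- the rotation groups -/
def rR (d : X → X → ℕ) (Lb : Subgroup G → (G → SP) → Prop) (u : Gam (YT d (kE G d)) rt) :
    Subgroup G :=
  match u.1 with
  | .a i => RotT Lb i.1
  | _ => ⊥

/-- the kernel -/
def kK (d : X → X → ℕ) (Lb : Subgroup G → (G → SP) → Prop) : Subgroup G :=
  KK (Set.range (va (YT d (kE G d)) rt)) (rR d Lb)

theorem kK_normal (h : Hy (G := G) d Lb) : (kK d Lb).Normal := by
  constructor
  intro n hn g
  unfold kK KK at hn
  induction hn using Subgroup.closure_induction with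
  | mem y hy =>
    obtain ⟨c, ⟨i, rfl⟩, hr⟩ := hy
    have hr' : y ∈ RotT Lb i.1 := hr
    have h1 := ((h.cjE i.1 i.2 g (cj g i.1) (isCj_cj g i.1)).2 (g * y * g⁻¹)).2 (by
      have : g⁻¹ * (g * y * g⁻¹) * g = y := by group
      rw [this]; exact hr')
    exact Subgroup.subset_closure ⟨_, ⟨⟨cj g i.1, kil_cj h g i.2⟩, rfl⟩, h1⟩
  | one =>
    have : g * 1 * g⁻¹ = 1 := by group
    rw [this]
    exact Subgroup.one_mem _
  | mul a b _ _ ha hb =>
    have : g * (a * b) * g⁻¹ = (g * a * g⁻¹) * (g * b * g⁻¹) := by group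
    rw [this]
    exact Subgroup.mul_mem _ ha hb
  | inv a _ ha =>
    have : g * a⁻¹ * g⁻¹ = (g * a * g⁻¹)⁻¹ := by group
    rw [this]
    exact Subgroup.inv_mem _ ha

theorem near_ex (h : Hy (G := G) d Lb) (i : KI G d) (x : X) :
    ∃ p, IsNear (Dsc Lt d) (YT d (kE G d) i) x p := by
  obtain ⟨y0, hy0⟩ := h.ne i.1 i.2
  obtain ⟨m, ⟨y, hy, e⟩, hmin⟩ := Nat.lt_wfRel.wf.has_min
    {n : ℕ | ∃ y ∈ YT d (kE G d) i, Dsc Lt d x y = n} ⟨_, y0, hy0, rfl⟩
  refine ⟨y, hy, fun w hw => ?_⟩
  have := hmin _ ⟨w, hw, rfl⟩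
  rw [e]
  exact not_lt.1 this

/-- the killing system of a good stage -/
noncomputable def mkS (d : X → X → ℕ) (Lb : Subgroup G → (G → SP) → Prop)
    (h : Hy (G := G) d Lb) : TSys :=
  letI := kiAct h
  letI := gamAct h
  haveI := kK_normal h
  letI := oact (kK d Lb) (Z := Gam (YT d (kE G d)) rt)
  { G := G
    X := X
    I := KI G d
    Gb := G ⧸ kK d Lb
    Xb := OQ (kK d Lb) (Gam (YT d (kE G d)) rt)
    d := d
    Lb := Lb
    E := kE G d
    R := rR d Lb
    π := QuotientGroup.mk' (kK d Lb)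
    q := oq (kK d Lb)
    db := odist (kK d Lb) (dGam (Dsc Lt d) (YT d (kE G d)) rt)
      (gam_iso h (Dsc Lt d) (dsc_iso h.good.iso))
    pr := fun i x => Classical.choose (near_ex h i x)
    good := h.good
    lab := h.lab
    kil := fun i => i.2
    all := fun E' hE' => ⟨⟨E', hE'⟩, rfl⟩
    inj := fun i j h => Subtype.ext h
    conj := fun g i x => mem_cj g x i.1
    act := fun g u => rfl
    rot := fun i => rfl
    psurj := QuotientGroup.mk'_surjective _
    pker := fun g => QuotientGroup.eq_one_iff g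
    qsurj := oq_surj _
    qeq := oq_eq _
    qdist := fun u w => rfl
    qsmul := fun g u => rfl
    prn := fun i x => Classical.choose_spec (near_ex h i x) }

end build

section use

variable [TP]

theorem nx_pos : 1 ≤ Nx :=
  Nat.mul_pos (Nat.factorial_pos _) TP.prime.pos

theorem tSys_bs (S : TSys) (g : S.G) (x : S.X) : g • S.bs x = S.bs (g • x) :=
  Subtype.ext (S.act g (S.bs x))

theorem tSys_good (h7 : Stmt_TKRF) (h9 : Stmt_TH34) (h10 : Stmt_TH2) (h11 : Stmt_TH6)
    (h12 : Stmt_TLab) (S : TSys) : GoodT (G := S.Gb) S.db (Lbq S) := by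
  obtain ⟨x⟩ := S.good.nonempty
  obtain ⟨_, h2, h3, h4, _, _, _⟩ := h7 S
  exact
    { dg := h2
      hyp := h4
      iso := h3
      nonempty := ⟨S.q (S.bs x)⟩
      acyl := h10 S
      tors := (h9 S).1
      stab := (h9 S).2
      near := h11 S
      lab := h12 S }

theorem tSys_rel (h6 : Stmt_TKCD) (h7 : Stmt_TKRF) (h8 : Stmt_TKStab) (S : TSys) :
    StepT (G := S.G) (X := S.X) (G' := S.Gb) (X' := S.Xb) S.d S.db S.π
      (fun x => S.q (S.bs x)) := by
  obtain ⟨x0⟩ := S.good.nonempty
  have hXb : Nonempty S.Xb := ⟨S.q (S.bs x0)⟩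
  obtain ⟨_, _, _, _, hle, _, _⟩ := h7 S
  obtain ⟨_, _, _, _, hk5, _, _, _, hk9, _⟩ := h8 S
  exact
    { contr := by
        intro x y
        refine (hle _ _).trans ?_
        exact (GamDG_proof S.X S.I S.D S.Y rt (h6 S).1).2.2.2.2.1 x y
      equiv := by
        intro g x
        show S.q (S.bs (g • x)) = S.π g • S.q (S.bs x)
        rw [S.qsmul, tSys_bs]
      inj := by
        intro g hg h1 h
        exact hk9 g hg h1 ((S.pker g).1 h)
      old := by
        intro g hg
        refine not_lox_of_pow hXb nx_pos (n := Nx) ?_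
        rw [← map_pow, S.good.tors g hg, map_one]
      killed := by
        intro g hg hx
        obtain ⟨i, hi⟩ := S.all (El g) ⟨g, hg, rfl, hx⟩
        refine not_lox_of_pow hXb nx_pos (n := Nx) (hk5 i g ?_)
        rw [hi]
        exact ⟨1, le_refl 1, Or.inl (by simp)⟩ }

end use

end TStepX

variable [TP]

theorem TStep_proof (E : EngT) (h1 : Stmt_TGA) (h2 : Stmt_TAx) (h3 : Stmt_TKS) (h4 : Stmt_TPhi)
    (h5 : Stmt_TRotS) (h6 : Stmt_TKCD) (h7 : Stmt_TKRF) (h8 : Stmt_TKStab) (h9 : Stmt_TH34)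
    (h10 : Stmt_TH2) (h11 : Stmt_TH6) (h12 : Stmt_TLab) : Stmt_TStep := by
  intro G X _ _ d Lb0 hG0
  obtain ⟨Lb, hG, hL⟩ := h4 G X d Lb0 hG0
  have hA := h2 G X FP d dd A0t TP.R (Nat.factorial TN.n) (h1 G X d Lb hG)
  have hy : TStepX.Hy (G := G) d Lb :=
    { good := hG
      lab := hL
      cjE := fun E' hE' => (h5 G X d Lb hG hL E' hE').2.2.2.2.1
      ax := hA.1
      ne := by
        rintro E' ⟨g, hg, rfl, -⟩
        obtain ⟨y, hy, -⟩ := (hA.2 g hg).2.1 0
        exact ⟨y, hy⟩ }
  let S : TSys := TStepX.mkS d Lb hy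
  refine ⟨S.Gb, S.Xb, inferInstance, inferInstance, S.db, Lbq S, S.π, fun x => S.q (S.bs x),
    ?_, ?_⟩
  · exact TStepX.tSys_good h7 h9 h10 h11 h12 S
  · exact TStepX.tSys_rel h6 h7 h8 S

end Pool.Agent.BT
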