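import Pool.Agent.BT.Eng
import Pool.Agent.BT.FBC
import Pool.Agent.BT.TQC
import Pool.Agent.BT.FBL
import Pool.Agent.BT.TCycA
import Pool.Agent.BT.TCycB
import Pool.Agent.BT.TCyc
import Pool.Agent.BT.TEnd
import Pool.Agent.BT.TEl
import Pool.Agent.BT.TAxA
import Pool.Agent.BT.TAx
import Pool.Agent.BT.TGA
import Pool.Agent.BT.TNA
import Pool.Agent.BT.TExt
import Pool.Agent.BT.TKS
import Pool.Agent.BT.TPhi
import Pool.Agent.BT.TRotS
import Pool.Agent.BT.TOverlap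
import Pool.Agent.BT.TKCD
import Pool.Agent.BT.TKRF
import Pool.Agent.BT.TKStab
import Pool.Agent.BT.TSCa
import Pool.Agent.BT.TSC
import Pool.Agent.BT.TLB1
import Pool.Agent.BT.TLift
import Pool.Agent.BT.TLB2
import Pool.Agent.BT.TH6
import Pool.Agent.BT.TCh2
import Pool.Agent.BT.TCh3
import Pool.Agent.BT.TCh4
import Pool.Agent.BT.BStab
import Pool.Agent.BT.Cent
import Pool.Agent.BT.Ell3
import Pool.Agent.BT.BCyc
import Pool.Agent.BT.BAcyl
import Pool.Agent.BT.BNear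
import Pool.Agent.BT.TRot
import Pool.Agent.BT.TH2
import Pool.Agent.BT.TH34
import Pool.Agent.BT.TCh1
import Pool.Agent.BT.TLab
import Pool.Agent.BT.TStep
import Pool.Agent.BT.Semi
import Pool.Agent.BT.TLim
import Pool.Agent.BT.TBase
import Pool.Agent.BT.Final

/-! BT: assembly. -/

namespace Pool.Agent.BT.Asm

open Pool.Agent.BURN Pool.Agent.BT

theorem p_BMet : Stmt_BMet := bMet_proof
theorem p_FBC : Stmt_FBC := FBC_proof
theorem p_TQC : Stmt_TQC := TQC_proof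
theorem p_FBL : Stmt_FBL := FBL_proof engT p_FBC
theorem p_TCycA : Stmt_TCycA := TCycA_proof engT p_FBC p_FBL
theorem p_TCycB : Stmt_TCycB := TCycB_proof engT p_FBC p_FBL p_TCycA
theorem p_TCyc : Stmt_TCyc := TCyc_proof p_FBC p_TCycA p_TCycB
theorem p_TEnd : Stmt_TEnd := tend_proof engT
theorem p_TEl : Stmt_TEl := TEl_proof engT p_FBC p_FBL p_TCyc
theorem p_TAxA : Stmt_TAxA := tAxA_proof engT p_TEl p_TEnd
theorem p_TAx : Stmt_TAx := TAx_proof engT p_TEl p_TEnd p_TAxA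
theorem p_TGA [TP] : Stmt_TGA := TGA_proof
theorem p_TNA [TP] : Stmt_TNA := TNA_proof engT p_TGA p_TAx
theorem p_TExt [TP] : Stmt_TExt := TExt_proof p_FBC p_FBL p_TGA p_TCyc p_TEl
theorem p_TKS [TP] : Stmt_TKS := TKS_proof p_TGA p_TCyc p_TEl
theorem p_TPhi [TP] : Stmt_TPhi := TPhi_proof p_TExt p_TKS
theorem p_TRotS [TP] : Stmt_TRotS := TRotS_proof p_FBC p_FBL p_TGA p_TCyc p_TEl p_TKS
theorem p_TOverlap [TP] : Stmt_TOverlap := TOverlap_proof engT p_FBL p_TGA p_TEl p_TAx p_TKS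
theorem p_TKCD [TP] : Stmt_TKCD := TKCD_proof engT p_TRotS p_TOverlap
theorem p_TKRF [TP] : Stmt_TKRF := TKRF_proof engT p_TKS p_TRotS p_TOverlap p_TKCD
theorem p_TKStab [TP] : Stmt_TKStab := TKStab_proof engT p_TKS p_TRotS p_TKCD p_TKRF
theorem p_TSCa : Stmt_TSCa := TSCa_proof engT p_FBL
theorem p_TSC : Stmt_TSC := TSC_proof engT p_FBC p_FBL p_TCyc p_TEl p_TSCa
theorem p_TLB1 [TP] : Stmt_TLB1 := TLB1_proof engT p_FBL p_TGA p_TSC p_TKS p_TOverlap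
theorem p_TLift [TP] : Stmt_TLift := TLift_proof engT p_TKCD p_TKRF p_TKStab
theorem p_TLB2 [TP] : Stmt_TLB2 := TLB2_proof engT p_TLB1 p_TKCD p_TKRF p_TKStab
theorem p_TH6 [TP] : Stmt_TH6 := TH6_proof engT p_TKCD p_TKRF p_TKStab p_TLB1 p_TLB2 p_TLift
theorem p_TCh2 [TP] : Stmt_TCh2 := TCh2_proof engT p_TKS p_TKRF p_TKStab
theorem p_TCh3 [TP] : Stmt_TCh3 := TCh3_proof engT p_TKS p_TRotS p_TKCD p_TKRF p_TKStab
theorem p_TCh4 [TP] : Stmt_TCh4 := TCh4_proof p_TRotS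
theorem p_BStab : Stmt_BStab := BStab_proof engT
theorem p_Cent : Stmt_Cent := Cent_proof
theorem p_Ell3 : Stmt_Ell3 := Ell3_proof engT
theorem p_BCyc : Stmt_BCyc := BCyc_proof engT p_BStab p_Cent p_TEnd
theorem p_BAcyl : Stmt_BAcyl := BAcyl_proof engT p_BCyc p_Ell3
theorem p_BNear : Stmt_BNear := BNear_proof engT p_BStab p_TEnd
theorem p_TRot [TP] : Stmt_TRot := TRot_proof engT p_TKS p_TRotS p_TNA p_TKCD p_TKRF p_TKStab
theorem p_TH2 [TP] : Stmt_TH2 := TH2_proof engT p_FBC p_FBL p_TGA p_TCyc p_TSC p_TKS p_TRotS p_TKCD p_TKRF p_TKStab p_TRot p_TLB2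
theorem p_TH34 [TP] : Stmt_TH34 := TH34_proof engT p_TKRF p_TKStab p_TLB2 p_TLift
theorem p_TCh1 [TP] : Stmt_TCh1 := TCh1_proof engT p_TKS p_TRotS p_TKRF p_TKStab
theorem p_TLab [TP] : Stmt_TLab := TLab_proof engT p_TQC p_TKRF p_TCh1 p_TCh2 p_TCh3 p_TCh4
theorem p_TStep [TP] : Stmt_TStep := TStep_proof engT p_TGA p_TAx p_TKS p_TPhi p_TRotS p_TKCD p_TKRF p_TKStab p_TH34 p_TH2 p_TH6 p_TLab
theorem p_Semi : Stmt_Semi := semi_proof
theorem p_TLim [TP] : Stmt_TLim := TLim_proof p_TStep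
theorem p_TBase : Stmt_TBase := TBase_proof engT p_TQC p_TSC p_BMet p_BStab p_BAcyl p_BNear p_Semi
theorem p_TFinal : Stmt_TFinal := TFinal_proof p_TBase p_TLim

end Pool.Agent.BT.Asm
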