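import Pool.Agent.BT.Stmts

/-! BT: module BNear, points moved little by a loxodromic element of the base group. -/

namespace Pool.Agent.BT

open Pool.Agent.BURN

namespace BNear

variable {G X : Type} [Group G] [MulAction G X] {d : X → X → ℕ}

theorem exists_min [Nonempty X] (g : G) : ∃ x : X, ∀ y, d x (g • x) ≤ d y (g • y) := by
  classical
  obtain ⟨x0⟩ := ‹Nonempty X›
  have h : ∃ n, ∃ x : X, d x (g • x) = n := ⟨_, x0, rfl⟩
  obtain ⟨x, hx⟩ := Nat.find_spec h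
  refine ⟨x, fun y => ?_⟩
  rw [hx]
  exact Nat.find_min' h ⟨y, rfl⟩

/-- product at `q` is large if one point is close to the other and far from `q`. -/
theorem gp_big (h : IsDG d) (a a' q : X) (A B : ℕ) (h1 : d a a' ≤ A) (h2 : A + B ≤ d a q) :
    2 * B ≤ gp d a a' q := by
  have g1 := gp_add h a a' q
  have t1 := h.tri a a' q
  omega

theorem switch {δ : ℕ} (h : IsDG d) (hy : Hyp d δ) (a b a' b' z : X) (c : ℕ)
    (h1 : gp d a b z ≤ c) (h2 : c + δ < gp d a a' z) (h3 : c + 2 * δ < gp d b b' z) :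
    gp d a' b' z ≤ c + 2 * δ := by
  have H1 := hyp_gp h hy a b a' z
  have H2 := hyp_gp h hy a' b b' z
  rw [gp_comm h b' b] at H2
  omega

theorem growth_inv (h : IsDG d) (hi : IsIso G d) {R : ℕ} {g : G}
    (hg : ∀ (x : X) (m : ℕ), m ≤ R * d x (g ^ m • x)) :
    ∀ (x : X) (m : ℕ), m ≤ R * d x (g⁻¹ ^ m • x) := by
  intro x m
  have h1 := hi (g ^ m) x (g⁻¹ ^ m • x)
  rw [smul_smul, inv_pow, mul_inv_cancel, one_smul] at h1
  rw [inv_pow, ← h1, h.symm]
  exact hg x m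

/-- the positive ends of two orbits agree -/
theorem ends_pos (hE : Stmt_TEnd) {δ R : ℕ} (h : IsDG d) (hy : Hyp d δ) (hδ : 1 ≤ δ)
    (hi : IsIso G d) {g : G} (hg : ∀ (x : X) (m : ℕ), m ≤ R * d x (g ^ m • x)) (o o' z : X)
    (B : ℕ) : ∃ k0 : ℕ, ∀ k k' : ℕ, k0 ≤ k → k0 ≤ k' → B ≤ gp d (g ^ k • o) (g ^ k' • o') z :=
  (hE G X d δ R h hy hδ hi g hg o o' z).1 B

/-- the negative ends of two orbits agree -/
theorem ends_neg (hE : Stmt_TEnd) {δ R : ℕ} (h : IsDG d) (hy : Hyp d δ) (hδ : 1 ≤ δ)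
    (hi : IsIso G d) {g : G} (hg : ∀ (x : X) (m : ℕ), m ≤ R * d x (g ^ m • x)) (o o' z : X)
    (B : ℕ) : ∃ k0 : ℕ, ∀ k k' : ℕ, k0 ≤ k → k0 ≤ k' →
      B ≤ gp d ((g ^ k)⁻¹ • o) ((g ^ k')⁻¹ • o') z := by
  obtain ⟨k0, hk0⟩ := (hE G X d δ R h hy hδ hi g⁻¹ (growth_inv h hi hg) o o' z).1 B
  refine ⟨k0, fun k k' h1 h2 => ?_⟩
  have := hk0 k k' h1 h2
  rwa [inv_pow, inv_pow] at this

/-- large displacement -/
theorem core (hAxis : Stmt_Axis) (hE : Stmt_TEnd) {δ R : ℕ} (h : IsDG d) (hy : Hyp d δ)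
    (hδ : 1 ≤ δ) (hi : IsIso G d) {g : G}
    (hg : ∀ (x : X) (m : ℕ), m ≤ R * d x (g ^ m • x)) (hmin : ∀ y : X, 16 * δ + 2 ≤ d y (g • y))
    (x : X) : ∃ k0 : ℕ, ∀ k : ℕ, k0 ≤ k →
      gp d ((g ^ k)⁻¹ • x) (g ^ k • x) x ≤ d x (g • x) + 24 * δ := by
  have : Nonempty X := ⟨x⟩
  obtain ⟨x0, hx0⟩ := exists_min (d := d) g
  obtain ⟨hax, -, hq⟩ := hAxis G X d δ _ h hy hi (hmin x0) g x0 rfl hx0
  obtain ⟨q, ⟨i, hiq⟩, hq2⟩ := hq x
  obtain ⟨k1, hk1⟩ := ends_pos hE h hy hδ hi hg x0 x q (10 * δ + 1)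
  obtain ⟨k2, hk2⟩ := ends_neg hE h hy hδ hi hg x0 x q (10 * δ + 1)
  refine ⟨k1 + k2 + i.natAbs + 2, fun k hk => ?_⟩
  have c1 := hk1 k k (by omega) (by omega)
  have c2 := hk2 k k (by omega) (by omega)
  have ea : (g ^ k)⁻¹ • x0 = g ^ (-(k : ℤ)) • x0 := by rw [zpow_neg, zpow_natCast]
  have eb : (g ^ k) • x0 = g ^ (k : ℤ) • x0 := by rw [zpow_natCast]
  have hl1 : -(k : ℤ) < i := by omega
  have hl2 : i + 1 < (k : ℤ) := by omega
  have g1 : gp d ((g ^ k)⁻¹ • x0) ((g ^ k) • x0) (g ^ i • x0) ≤ 4 * δ := by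
    rw [ea, eb]; exact hax _ _ _ hl1 (by omega)
  have g2 : gp d (g ^ i • x0) ((g ^ k) • x0) (g ^ (i + 1) • x0) ≤ 4 * δ := by
    rw [eb]; exact hax _ _ _ (by omega) hl2
  have hqab : gp d ((g ^ k)⁻¹ • x0) ((g ^ k) • x0) q ≤ 8 * δ := by
    have e1 := gp_add h ((g ^ k)⁻¹ • x0) ((g ^ k) • x0) (g ^ i • x0)
    have e2 := gp_add h (g ^ i • x0) ((g ^ k) • x0) (g ^ (i + 1) • x0)
    have e3 := gp_add h ((g ^ k)⁻¹ • x0) ((g ^ k) • x0) q
    unfold BURN.Btw at hiq
    have t1 := h.tri ((g ^ k)⁻¹ • x0) (g ^ i • x0) q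
    have t2 := h.tri ((g ^ k) • x0) (g ^ (i + 1) • x0) q
    rw [h.symm (g ^ (i + 1) • x0) q] at t2
    rw [h.symm ((g ^ k) • x0) (g ^ i • x0)] at e1
    omega
  have h10 := switch h hy _ _ _ _ q _ hqab (lt_of_lt_of_le (by omega) c2)
    (lt_of_lt_of_le (by omega) c1)
  have hb := gp_le_of_near_base h ((g ^ k)⁻¹ • x) ((g ^ k) • x) x q
  have hm := hmin x0
  omega

/-- a point near `z` moved little -/
theorem small (h : IsDG d) {δ : ℕ} (hy : Hyp d δ) (hδ : 1 ≤ δ) (hi : IsIso G d) (e : G)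
    (x0 z : X) (hm : d x0 (e • x0) ≤ 16 * δ + 1) (l : ℕ) (hz : d z (e • z) ≤ l) :
    ∃ p : X, d z p ≤ l + 18 * δ + 2 ∧ d p (e • p) ≤ 21 * δ := by
  obtain ⟨g, hg⟩ := exists_geod h z x0
  by_cases hn : d z x0 ≤ l + δ + 1
  · exact ⟨x0, by omega, by omega⟩
  · have hp1 : d z (g (l + δ + 1)) = l + δ + 1 := hg.dist_left (by omega)
    have hp2 : d (g (l + δ + 1)) x0 = d z x0 - (l + δ + 1) := hg.dist_right (by omega)
    have hpb : Btw d z (g (l + δ + 1)) x0 := hg.btw' (by omega)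
    set p := g (l + δ + 1) with hp
    have hzp : gp d z x0 p = 0 := (btw_iff h _ _ _).1 hpb
    have h1 : 2 * (δ + 1) ≤ gp d z (e • z) p :=
      gp_big h z (e • z) p l (δ + 1) hz (by omega)
    have H1 := hyp_gp h hy z x0 (e • z) p
    have h2 : gp d (e • z) x0 p ≤ δ := by omega
    by_cases hc : gp d (e • x0) x0 p ≤ 2 * δ
    · have h3 : d p x0 ≤ d x0 (e • x0) + δ := by
        have e1 := gp_add h (e • x0) x0 p
        have t1 := h.tri x0 (e • x0) p
        rw [h.symm (e • x0) x0] at e1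
        rw [h.symm p x0]
        omega
      refine ⟨x0, ?_, by omega⟩
      have t1 := h.tri z p x0
      omega
    · have H2 := hyp_gp h hy (e • z) x0 (e • x0) p
      have h3 : gp d (e • z) (e • x0) p ≤ 2 * δ := by omega
      have hlen : d (e • z) (e • x0) = d z x0 := hi _ _ _
      have hg' : IsGeod d (e • z) (e • x0) (fun t => e • g t) := by
        refine ⟨by simp only [hg.1], ?_, ?_⟩
        · change e • g _ = _
          rw [hlen, hg.2.1]
        · intro i j hij hj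
          rw [hlen] at hj
          change d (e • g i) (e • g j) = _
          rw [hi]
          exact hg.2.2 i j hij hj
      obtain ⟨n1, n2⟩ := near_geod h hy hg' p
      set t' := gp d (e • x0) p (e • z) / 2 with ht'
      rw [hlen] at n1
      have n2' : d p (e • g t') ≤ 2 * δ := by
        have : d p (e • g t') ≤ (gp d (e • z) (e • x0) p + 1) / 2 + δ := n2
        omega
      have hr : d (e • g t') (e • x0) = d z x0 - t' := by
        rw [hi]; exact hg.dist_right n1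
      have hpe : d p (e • p) ≤ d x0 (e • x0) + 4 * δ := by
        have t1 := h.tri p (e • g t') (e • p)
        have t2 : d (e • g t') (e • p) = d (g t') p := hi _ _ _
        have t3 : d (g t') p ≤ d x0 (e • x0) + 2 * δ := by
          have s1 := h.tri p (e • g t') (e • x0)
          have s2 := h.tri p (e • x0) x0
          have s3 := h.tri (e • g t') p (e • x0)
          have s4 := h.tri p x0 (e • x0)
          rw [h.symm (e • x0) x0] at s2
          rw [h.symm (e • g t') p] at s3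
          rcases Nat.le_total t' (l + δ + 1) with hh | hh
          · rw [hp, hg.2.2 t' (l + δ + 1) hh (by omega)]
            omega
          · rw [h.symm, hp, hg.2.2 (l + δ + 1) t' hh (by omega)]
            omega
        omega
      exact ⟨p, by omega, by omega⟩

theorem dist_pow_le (h : IsDG d) (hi : IsIso G d) (g : G) (p : X) (j : ℕ) :
    d p (g ^ j • p) ≤ j * d p (g • p) := by
  induction j with
  | zero =>
    rw [pow_zero, one_smul, (h.eq_zero p p).2 rfl]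
    omega
  | succ j ih =>
    have t := h.tri p (g ^ j • p) (g ^ (j + 1) • p)
    have e : d (g ^ j • p) (g ^ (j + 1) • p) = d p (g • p) := by
      rw [pow_succ, mul_smul, hi]
    have : (j + 1) * d p (g • p) = j * d p (g • p) + d p (g • p) := by ring
    omega

/-- all cases -/
theorem main (hAxis : Stmt_Axis) (hE : Stmt_TEnd) {δ R : ℕ} (h : IsDG d) (hy : Hyp d δ)
    (hδ : 1 ≤ δ) (hR : 1 ≤ R) (hi : IsIso G d) {g : G}
    (hg : ∀ (x : X) (m : ℕ), m ≤ R * d x (g ^ m • x)) (x : X) :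
    ∃ k0 : ℕ, ∀ k : ℕ, k0 ≤ k →
      gp d ((g ^ k)⁻¹ • x) (g ^ k • x) x ≤
        2 * d x (g • x) + (21 * δ * (R * (16 * δ + 2)) + 64 * δ + 4) := by
  have : Nonempty X := ⟨x⟩
  obtain ⟨x0, hx0⟩ := exists_min (d := d) g
  by_cases hm : 16 * δ + 2 ≤ d x0 (g • x0)
  · obtain ⟨k0, hk0⟩ := core hAxis hE h hy hδ hi hg (fun y => hm.trans (hx0 y)) x
    refine ⟨k0, fun k hk => (hk0 k hk).trans ?_⟩
    omega
  · obtain ⟨p, hp1, hp2⟩ := small h hy hδ hi g x0 x (by omega) _ (le_refl _)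
    obtain ⟨j, hj⟩ : ∃ j : ℕ, j = R * (16 * δ + 2) := ⟨_, rfl⟩
    have hj1 : 1 ≤ j := by
      rw [hj]; exact Nat.mul_pos hR (by omega)
    have hgj : ∀ (x : X) (m : ℕ), m ≤ R * d x ((g ^ j) ^ m • x) := by
      intro y m
      rw [← pow_mul]
      refine le_trans ?_ (hg y (j * m))
      exact Nat.le_mul_of_pos_left m hj1
    have hminj : ∀ y : X, 16 * δ + 2 ≤ d y (g ^ j • y) := by
      intro y
      have := hg y j
      rw [hj] at this ⊢
      exact Nat.le_of_mul_le_mul_left this hR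
    obtain ⟨k1, hk1⟩ := core hAxis hE h hy hδ hi hgj hminj p
    have hdj : d p (g ^ j • p) ≤ 21 * δ * j := by
      refine (dist_pow_le h hi g p j).trans ?_
      rw [mul_comm (21 * δ) j]
      exact Nat.mul_le_mul_left _ hp2
    obtain ⟨c, hc⟩ : ∃ c, c = 21 * δ * j + 24 * δ := ⟨_, rfl⟩
    obtain ⟨k2, hk2⟩ := ends_pos hE h hy hδ hi hg p x p (c + 2 * δ + 1)
    obtain ⟨k3, hk3⟩ := ends_neg hE h hy hδ hi hg p x p (c + 2 * δ + 1)
    refine ⟨k1 + k2 + k3, fun k hk => ?_⟩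
    -- compare with a large power of g ^ j
    have b0 : gp d (((g ^ j) ^ k)⁻¹ • p) ((g ^ j) ^ k • p) p ≤ c := by
      have := hk1 k (by omega)
      omega
    rw [← pow_mul] at b0
    have hjk : k ≤ j * k := Nat.le_mul_of_pos_left k hj1
    have b1 := hk2 (j * k) k (by omega) (by omega)
    have b2 := hk3 (j * k) k (by omega) (by omega)
    have b3 := switch h hy _ _ _ _ p c b0 (lt_of_lt_of_le (by omega) b2)
      (lt_of_lt_of_le (by omega) b1)
    have b4 := gp_le_of_near_base h ((g ^ k)⁻¹ • x) ((g ^ k) • x) x p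
    rw [← hj]
    omega

end BNear

open BNear in
theorem BNear_proof (E : EngT) (h1 : Stmt_BStab) (h2 : Stmt_TEnd) : Stmt_BNear := by
  intro G _ d δ Bf hP
  obtain ⟨-, R, hR, hst⟩ := h1 G d δ Bf hP
  refine ⟨21 * δ * (R * (16 * δ + 2)) + 64 * δ + 4, fun g hg x => ?_⟩
  exact main E.axis h2 hP.dg hP.hyp hP.one_le hR hP.iso (hst g hg) x

end Pool.Agent.BT
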