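import Pool.Agent.BURN.Stmts3
import Pool.Agent.BURN.Basic

/-! BT: a Burnside engine for groups with torsion. Definitions.
Text: /team-store/MP_1e649a_BT.md (module names and item numbers refer to it). -/

namespace Pool.Agent.BT

open Pool.Agent.BURN

/-! ### elementary groups -/

/-- elements commuting with a power of g -/
def Ep {G : Type} [Group G] (g : G) : Subgroup G where
  carrier := {h | ∃ m : ℕ, 1 ≤ m ∧ h * g ^ m * h⁻¹ = g ^ m}
  one_mem' := ⟨1, le_refl 1, by simp⟩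
  mul_mem' := by
    rintro a b ⟨m, hm, ha⟩ ⟨k, hk, hb⟩
    refine ⟨m * k, Nat.mul_pos hm hk, ?_⟩
    have h1 : b * g ^ (m * k) * b⁻¹ = g ^ (m * k) := by
      rw [mul_comm m k, pow_mul, ← conj_pow, hb]
    have h2 : a * g ^ (m * k) * a⁻¹ = g ^ (m * k) := by
      rw [pow_mul, ← conj_pow, ha]
    calc a * b * g ^ (m * k) * (a * b)⁻¹ = a * (b * g ^ (m * k) * b⁻¹) * a⁻¹ := by group
      _ = g ^ (m * k) := by rw [h1, h2]
  inv_mem' := by
    rintro a ⟨m, hm, ha⟩
    refine ⟨m, hm, ?_⟩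
    calc a⁻¹ * g ^ m * a⁻¹⁻¹ = a⁻¹ * (a * g ^ m * a⁻¹) * a⁻¹⁻¹ := by rw [ha]
      _ = g ^ m := by group

/-- elements commuting with a power of g or inverting a power of g -/
def El {G : Type} [Group G] (g : G) : Subgroup G where
  carrier := {h | ∃ m : ℕ, 1 ≤ m ∧ (h * g ^ m * h⁻¹ = g ^ m ∨ h * g ^ m * h⁻¹ = (g ^ m)⁻¹)}
  one_mem' := ⟨1, le_refl 1, Or.inl (by simp)⟩
  mul_mem' := by
    have key : ∀ (a : G) (m k : ℕ), (a * g ^ m * a⁻¹ = g ^ m ∨ a * g ^ m * a⁻¹ = (g ^ m)⁻¹) →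
        (a * g ^ (m * k) * a⁻¹ = g ^ (m * k) ∨ a * g ^ (m * k) * a⁻¹ = (g ^ (m * k))⁻¹) := by
      intro a m k h
      rcases h with h | h
      · left
        rw [pow_mul, ← conj_pow, h]
      · right
        rw [pow_mul, ← conj_pow, h, inv_pow]
    rintro a b ⟨m, hm, ha⟩ ⟨k, hk, hb⟩
    refine ⟨m * k, Nat.mul_pos hm hk, ?_⟩
    have h1 := key a m k ha
    have h2 := key b k m hb
    rw [mul_comm k m] at h2
    have e : a * b * g ^ (m * k) * (a * b)⁻¹ = a * (b * g ^ (m * k) * b⁻¹) * a⁻¹ := by group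
    have e2 : ∀ x : G, a * x⁻¹ * a⁻¹ = (a * x * a⁻¹)⁻¹ := by intro x; group
    rw [e]
    rcases h2 with h2 | h2
    · rw [h2]; exact h1
    · rw [h2, e2]
      rcases h1 with h1 | h1
      · right; rw [h1]
      · left; rw [h1, inv_inv]
  inv_mem' := by
    rintro a ⟨m, hm, ha⟩
    refine ⟨m, hm, ?_⟩
    rcases ha with ha | ha
    · left
      calc a⁻¹ * g ^ m * a⁻¹⁻¹ = a⁻¹ * (a * g ^ m * a⁻¹) * a⁻¹⁻¹ := by rw [ha]
        _ = g ^ m := by group
    · right
      have h2 : a * (g ^ m)⁻¹ * a⁻¹ = g ^ m := by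
        have : a * (g ^ m)⁻¹ * a⁻¹ = (a * g ^ m * a⁻¹)⁻¹ := by group
        rw [this, ha, inv_inv]
      calc a⁻¹ * g ^ m * a⁻¹⁻¹ = a⁻¹ * (a * (g ^ m)⁻¹ * a⁻¹) * a⁻¹⁻¹ := by rw [h2]
        _ = (g ^ m)⁻¹ := by group

/-- P' is the conjugate g P g⁻¹ -/
def IsCj {G : Type} [Group G] (g : G) (P P' : Subgroup G) : Prop := ∀ x, x ∈ P' ↔ g⁻¹ * x * g ∈ P

/-- x = f * c ^ j with f ∈ F -/
def InFc {G : Type} [Group G] (F : Subgroup G) (c x : G) : Prop := ∃ f ∈ F, ∃ j : ℤ, x = f * c ^ j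

/-- c normalises F -/
def Nrm {G : Type} [Group G] (F : Subgroup G) (c : G) : Prop := ∀ f ∈ F, c * f * c⁻¹ ∈ F

/-! ### acylindrical actions with torsion, general parameters -/

/-- P : a class of finite subgroups of order at most B (closed under subgroups); any set of
elements moving two points at distance ≥ A by at most 100 δ lies in some F ⟨c⟩, F in P -/
structure AT {G X : Type} [Group G] [MulAction G X] (P : Subgroup G → Prop) (d : X → X → ℕ)
    (δ A R B : ℕ) : Prop where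
  dg : IsDG d
  hyp : Hyp d δ
  one_le : 1 ≤ δ
  iso : IsIso G d
  nonempty : Nonempty X
  sub : ∀ F F' : Subgroup G, P F → F' ≤ F → P F'
  fin : ∀ F : Subgroup G, P F → Finite F
  card : ∀ F : Subgroup G, P F → Nat.card F ≤ B
  acyl : ∀ x y, A ≤ d x y → ∃ (F : Subgroup G) (c : G), P F ∧ Nrm F c ∧ (c = 1 ∨ Lox d c) ∧
    ∀ g : G, d x (g • x) ≤ 100 * δ → d y (g • y) ≤ 100 * δ → InFc F c g
  tors : ∀ g : G, ¬ Lox d g → ∃ m : ℕ, 1 ≤ m ∧ g ^ m = 1
  stab : ∀ g : G, Lox d g → ∀ (x : X) (m : ℕ), m ≤ R * d x (g ^ m • x)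

/-- length factor in SC -/
def nuB (B : ℕ) : ℕ := 200 * (B + 1) ^ 2

/-- union of the axes of the elements of E of large displacement -/
def AxE {G X : Type} [Group G] [MulAction G X] (d : X → X → ℕ) (δ : ℕ) (E : Subgroup G) :
    Set X :=
  {x | ∃ g ∈ E, ∃ o : X, 16 * δ + 2 ≤ d o (g • o) ∧ (∀ y, d o (g • o) ≤ d y (g • y)) ∧
    ∃ i : ℤ, Btw d (g ^ i • o) x (g ^ (i + 1) • o)}

/-- the orientation preserving part of an elementary group -/
def PosS {G X : Type} [Group G] [MulAction G X] (d : X → X → ℕ) (E : Subgroup G) : Set G :=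
  {h | ∃ g ∈ E, Lox d g ∧ h ∈ Ep g}

/-- the finite radical of an elementary group -/
def RadS {G X : Type} [Group G] [MulAction G X] (d : X → X → ℕ) (E : Subgroup G) : Set G :=
  {h | h ∈ PosS d E ∧ ¬ Lox d h}

/-! ### constants -/

/-- degree of the labels -/
class TN where
  n : ℕ
  pos : 1 ≤ n

/-- permutations of the label set -/
abbrev SP [TN] : Type := Equiv.Perm (Fin TN.n)

section consts

variable [TN]

theorem ex_nut : ∃ n : ℕ, n = nuB (Nat.factorial TN.n) := ⟨_, rfl⟩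
/-- length factor -/
noncomputable def nut : ℕ := Classical.choose ex_nut
theorem nut_eq : nut = nuB (Nat.factorial TN.n) := Classical.choose_spec ex_nut

theorem ex_Ot : ∃ n : ℕ, n = nut * (M2 + 60) := ⟨_, rfl⟩
/-- bound of the shadows of axes (Om of the blueprint) -/
noncomputable def Ot : ℕ := Classical.choose ex_Ot
theorem Ot_eq : Ot = nut * (M2 + 60) := Classical.choose_spec ex_Ot

theorem ex_s2t : ∃ n : ℕ, n = Nat.clog 2 Ot := ⟨_, rfl⟩
noncomputable def s2t : ℕ := Classical.choose ex_s2t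
theorem s2t_eq : s2t = Nat.clog 2 Ot := Classical.choose_spec ex_s2t

theorem ex_s3t : ∃ n : ℕ, n = s2t + 3 * f3 + 250 := ⟨_, rfl⟩
noncomputable def s3t : ℕ := Classical.choose ex_s3t
theorem s3t_eq : s3t = s2t + 3 * f3 + 250 := Classical.choose_spec ex_s3t

theorem ex_rt : ∃ n : ℕ, n = f3 + 20 + sig0 del1 (2 * f3 + 1) (2 * f3) + N0 + M1 + M2 + s3t +
  del1 + eta1 del1 (2 * f3) + 1000 * dd := ⟨_, rfl⟩
/-- depth of the horoballs (rho of the blueprint) -/
noncomputable def rt : ℕ := Classical.choose ex_rt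
theorem rt_eq : rt = f3 + 20 + sig0 del1 (2 * f3 + 1) (2 * f3) + N0 + M1 + M2 + s3t +
  del1 + eta1 del1 (2 * f3) + 1000 * dd := Classical.choose_spec ex_rt

theorem ex_A1t : ∃ n : ℕ, n = 4 * 2 ^ (200 * dd) + Ot + f3 + 400 * dd + 100 := ⟨_, rfl⟩
noncomputable def A1t : ℕ := Classical.choose ex_A1t
theorem A1t_eq : A1t = 4 * 2 ^ (200 * dd) + Ot + f3 + 400 * dd + 100 :=
  Classical.choose_spec ex_A1t

theorem ex_A0t : ∃ n : ℕ, n = nut * (2 ^ (101 * dd) + 100 * dd + 2) + 1000 * dd + 4 * rt +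
  4 * M1 + 100 := ⟨_, rfl⟩
noncomputable def A0t : ℕ := Classical.choose ex_A0t
theorem A0t_eq : A0t = nut * (2 ^ (101 * dd) + 100 * dd + 2) + 1000 * dd + 4 * rt +
  4 * M1 + 100 := Classical.choose_spec ex_A0t

theorem ex_Lt : ∃ n : ℕ, n = A0t + A1t + 200 * dd + 4 := ⟨_, rfl⟩
/-- rescaling factor (Lam of the blueprint) -/
noncomputable def Lt : ℕ := Classical.choose ex_Lt
theorem Lt_eq : Lt = A0t + A1t + 200 * dd + 4 := Classical.choose_spec ex_Lt

theorem ex_Rt : ∃ n : ℕ, n = Lt * 2 ^ s3t := ⟨_, rfl⟩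
/-- least stability constant -/
noncomputable def Rt : ℕ := Classical.choose ex_Rt
theorem Rt_eq : Rt = Lt * 2 ^ s3t := Classical.choose_spec ex_Rt

theorem nut_ge : 800 ≤ nut := by
  rw [nut_eq]
  unfold nuB
  have h : 1 ≤ Nat.factorial TN.n := Nat.factorial_pos _
  nlinarith [h]

theorem Ot_le : Ot ≤ 2 ^ s2t := by
  rw [s2t_eq]; exact Nat.le_pow_clog (by norm_num) _

theorem Lt_pos : 1 ≤ Lt := by rw [Lt_eq]; omega
theorem Rt_pos : 1 ≤ Rt := by
  rw [Rt_eq]; exact Nat.mul_pos Lt_pos (Nat.two_pow_pos _)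
theorem Lt_le_Rt : Lt ≤ Rt := by
  rw [Rt_eq]; exact Nat.le_mul_of_pos_right _ (Nat.two_pow_pos _)

end consts

/-- all parameters: degree n of the labels, stability constant R, prime p -/
class TP extends TN where
  R : ℕ
  p : ℕ
  le : Rt ≤ R
  prime : p.Prime
  lt : n < p
  odd : 2 < p
  big : R * Lt * 2 ^ (rt + 7) ≤ p

section stage

variable [TP]

/-- finite subgroup of order prime to p -/
def FP {G : Type} [Group G] (F : Subgroup G) : Prop :=
  Finite F ∧ Nat.Coprime (Nat.card F) TP.p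

/-- exponent of the non-loxodromic elements -/
def Nx : ℕ := Nat.factorial TN.n * TP.p

/-- label systems on the class P of subgroups: Lb F f says that f (restricted to F) is a label of
F. Labels are homomorphisms F → Sym(n), injective if F is a finite group of order prime to p,
unique up to conjugation in Sym(n), compatible with restriction and conjugation. -/
structure Labels {G : Type} [Group G] (P : Subgroup G → Prop)
    (Lb : Subgroup G → (G → SP) → Prop) : Prop where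
  ex : ∀ F, P F → ∃ f, Lb F f
  hom : ∀ F f, P F → Lb F f → ∀ a ∈ F, ∀ b ∈ F, f (a * b) = f a * f b
  inj : ∀ F f, P F → FP F → Lb F f → ∀ a ∈ F, f a = 1 → a = 1
  orb : ∀ F f f', P F → Lb F f → Lb F f' → ∃ s : SP, ∀ a ∈ F, f' a = s * f a * s⁻¹
  cjs : ∀ F f f' (s : SP), P F → Lb F f → (∀ a ∈ F, f' a = s * f a * s⁻¹) → Lb F f'
  res : ∀ F F' f, P F → FP F' → F' ≤ F → Lb F f → Lb F' f
  cj : ∀ F F' f (g : G), P F → IsCj g F F' → Lb F f → Lb F' (fun x => f (g⁻¹ * x * g))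

/-- the hypotheses on a stage -/
structure GoodT {G X : Type} [Group G] [MulAction G X] (d : X → X → ℕ)
    (Lb : Subgroup G → (G → SP) → Prop) : Prop where
  dg : IsDG d
  hyp : Hyp d dd
  iso : IsIso G d
  nonempty : Nonempty X
  acyl : ∀ x y, A0t ≤ d x y → ∃ (F : Subgroup G) (c : G), FP F ∧ Nrm F c ∧ (c = 1 ∨ Lox d c) ∧
    ∀ g : G, d x (g • x) ≤ 100 * dd → d y (g • y) ≤ 100 * dd → InFc F c g
  tors : ∀ g : G, ¬ Lox d g → g ^ Nx = 1
  stab : ∀ g : G, Lox d g → ∀ (x : X) (m : ℕ), m ≤ TP.R * d x (g ^ m • x)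
  near : ∀ g : G, Lox d g → ∀ x, d x (g • x) ≤ 100 * dd →
    ∃ k0 : ℕ, ∀ k : ℕ, k0 ≤ k → gp d ((g ^ k)⁻¹ • x) (g ^ k • x) x ≤ 2 * A1t
  lab : Labels FP Lb

/-- killed groups -/
def KilT {G X : Type} [Group G] [MulAction G X] (d : X → X → ℕ) (E : Subgroup G) : Prop :=
  ∃ g : G, Lox d g ∧ E = El g ∧ ∃ x, d x (g • x) ≤ 20 * dd

/-- the class of subgroups which carry labels when the killed groups are included -/
def PK {G X : Type} [Group G] [MulAction G X] (d : X → X → ℕ) (H : Subgroup G) : Prop :=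
  FP H ∨ KilT d H

/-- the rotation group of a killed group: p-th powers of the kernel of the labels -/
def RotT {G : Type} [Group G] (Lb : Subgroup G → (G → SP) → Prop) (E : Subgroup G) :
    Subgroup G :=
  Subgroup.closure {x | ∃ e ∈ E, (∀ f, Lb E f → f e = 1) ∧ x = e ^ TP.p}

/-- the quasi-lines of a family of elementary groups -/
def YT {G X I : Type} [Group G] [MulAction G X] (d : X → X → ℕ) (E : I → Subgroup G) (i : I) :
    Set X := AxE d dd (E i)

/-- a killing system: a good stage with labels on the killed groups, the family of killed groups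
E i, the cone-off with its action, the quotient group Gb (π : G → Gb) and the quotient space -/
structure TSys where
  (G X I Gb Xb : Type)
  [gG : Group G]
  [gGb : Group Gb]
  [aX : MulAction G X]
  [aI : MulAction G I]
  [aXb : MulAction Gb Xb]
  d : X → X → ℕ
  Lb : Subgroup G → (G → SP) → Prop
  E : I → Subgroup G
  [aGam : MulAction G (Gam (YT d E) rt)]
  R : Gam (YT d E) rt → Subgroup G
  π : G →* Gb
  q : Gam (YT d E) rt → Xb
  db : Xb → Xb → ℕ
  pr : I → X → X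
  good : GoodT (G := G) d Lb
  lab : Labels (PK (G := G) d) Lb
  kil : ∀ i, KilT d (E i)
  all : ∀ E' : Subgroup G, KilT d E' → ∃ i, E i = E'
  inj : ∀ i j, E i = E j → i = j
  conj : ∀ (g : G) (i : I), IsCj g (E i) (E (g • i))
  act : ∀ (g : G) (u : Gam (YT d E) rt), (g • u).1 = g • u.1
  rot : ∀ i, R (va (YT d E) rt i) = RotT Lb (E i)
  psurj : Function.Surjective π
  pker : ∀ g, π g = 1 ↔ g ∈ KK (Set.range (va (YT d E) rt)) R
  qsurj : Function.Surjective q
  qeq : ∀ u w, q u = q w ↔ ∃ k ∈ KK (Set.range (va (YT d E) rt)) R, k • u = w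
  qdist : ∀ u w, db (q u) (q w) =
    dK (dGam (Dsc Lt d) (YT d E) rt) (KK (Set.range (va (YT d E) rt)) R) u w
  qsmul : ∀ g u, π g • q u = q (g • u)
  prn : IsPr (Dsc Lt d) (YT d E) pr

attribute [instance] TSys.gG TSys.gGb TSys.aX TSys.aI TSys.aXb TSys.aGam

namespace TSys
variable (S : TSys)
/-- rescaled metric -/
noncomputable def D : S.X → S.X → ℕ := Dsc Lt S.d
/-- quasi-lines -/
def Y : S.I → Set S.X := YT S.d S.E
/-- vertices of the cone-off -/
abbrev Gm : Type := Gam (YT S.d S.E) rt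
/-- distance of the cone-off -/
noncomputable def dg : S.Gm → S.Gm → ℕ := dGam (Dsc Lt S.d) (YT S.d S.E) rt
/-- apices -/
noncomputable def ap (i : S.I) : S.Gm := va (YT S.d S.E) rt i
/-- base vertices -/
noncomputable def bs (x : S.X) : S.Gm := vb (YT S.d S.E) rt x
/-- the kernel -/
def K : Subgroup S.G := KK (Set.range (va (YT S.d S.E) rt)) S.R
end TSys

/-- fb is a label of the finite group Fb read off at the vertex u -/
def LblAt (S : TSys) (u : S.Gm) (Fb : Subgroup S.Gb) (fb : S.Gb → SP) : Prop :=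
  ∃ (H : Subgroup S.G) (f : S.G → SP), PK S.d H ∧ S.Lb H f ∧
    ∀ g : S.G, S.π g ∈ Fb → S.dg u (g • u) ≤ 3 * dd + 1 → g ∈ H ∧ fb (S.π g) = f g

/-- all elements of Fb move q u by at most l -/
def GdAt (S : TSys) (l : ℕ) (u : S.Gm) (Fb : Subgroup S.Gb) : Prop :=
  ∀ g ∈ Fb, S.db (S.q u) (g • S.q u) ≤ l

/-- the labels of the quotient -/
def Lbq (S : TSys) (Fb : Subgroup S.Gb) (fb : S.Gb → SP) : Prop :=
  ∃ u : S.Gm, GdAt S (2 * dd + 1) u Fb ∧ LblAt S u Fb fb

/-- properties of the step -/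
structure StepT {G X G' X' : Type} [Group G] [MulAction G X] [Group G'] [MulAction G' X']
    (d : X → X → ℕ) (d' : X' → X' → ℕ) (π : G →* G') (ι : X → X') : Prop where
  contr : ∀ x y, d' (ι x) (ι y) ≤ Dsc Lt d x y
  equiv : ∀ (g : G) x, ι (g • x) = π g • ι x
  inj : ∀ g : G, ¬ Lox d g → g ≠ 1 → π g ≠ 1
  old : ∀ g : G, ¬ Lox d g → ¬ Lox d' (π g)
  killed : ∀ g : G, Lox d g → (∃ x, d x (g • x) ≤ 20 * dd) → ¬ Lox d' (π g)

end stage

/-! ### base -/

/-- the hyperbolicity hypothesis of the frozen statement S00879 -/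
def HypG (G : Type) [Group G] : Prop :=
  ∃ S : Finset G, Subgroup.closure (S : Set G) = ⊤ ∧ ∃ δ : ℕ,
      ∀ len : G → ℕ,
        (∀ g : G, len g = sInf {n : ℕ | ∃ l : List G, l.length = n ∧
            (∀ s ∈ l, s ∈ S ∨ s⁻¹ ∈ S) ∧ l.prod = g}) →
        ∀ x y z w : G,
          min ((len (x⁻¹ * w) : ℤ) + (len (y⁻¹ * w) : ℤ) - (len (x⁻¹ * y) : ℤ))
              ((len (y⁻¹ * w) : ℤ) + (len (z⁻¹ * w) : ℤ) - (len (y⁻¹ * z) : ℤ)) - 2 * (δ : ℤ)
            ≤ (len (x⁻¹ * w) : ℤ) + (len (z⁻¹ * w) : ℤ) - (len (x⁻¹ * z) : ℤ)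

/-- a proper hyperbolic left invariant metric on G -/
structure PG {G : Type} [Group G] (d : G → G → ℕ) (δ : ℕ) (Bf : ℕ → ℕ) : Prop where
  dg : IsDG d
  hyp : Hyp d δ
  one_le : 1 ≤ δ
  iso : IsIso G d
  prop : ∀ (x : G) (r : ℕ) (A : Finset G), (∀ h ∈ A, d x (h • x) ≤ r) → A.card ≤ Bf r

end Pool.Agent.BT
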