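import Pool.Agent.BT.Stmts
import Pool.Agent.BURN.Asm
import Pool.Agent.FRK.WMet

/-! BT: the general engine statements, from the Burnside engine. -/

namespace Pool.Agent.BT

open Pool.Agent.BURN Pool.Agent.BURN.Asm

theorem engT : EngT where
  hull := p_Hull
  lga := p_LGa
  lgb := p_LGb
  cover := p_Cover
  proj := p_Proj
  iso1 := p_Iso1
  iso2 := p_Iso2
  axis := p_Axis
  glcor := p_GLcor
  fs0 := p_FS0
  irrMin := p_IrrMin
  gamDG := p_GamDG
  gamLen := p_GamLen
  shadow := p_Shadow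
  guess := p_Guess
  hypGam := p_HypGam
  footEx := p_FootEx
  footPr := p_FootPr
  vr0 := p_VR0
  noDeep := p_NoDeep
  rescale := p_Rescale
  gamAct := p_GamAct
  gamRF := p_GamRF
  kkn := p_KKnormal
  quotEx := p_QuotEx
  quotHyp := p_QuotHyp
  ll := p_LL
  mid := p_Mid
  comm := p_Comm
  slen := p_Slen
  topLen := p_TopLen

theorem bMet_proof : Stmt_BMet := by
  intro G _ hG
  obtain ⟨_, d, δ, Bf, h1, h2, h3, h4, h5⟩ := Pool.Agent.FRK.wmet_proof G hG
  exact ⟨d, δ, Bf, ⟨h1, h2, h3, h4, h5⟩⟩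

end Pool.Agent.BT
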