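import Pool.Agent.BT.Defs

/-! BT: exact statements of the modules. Text: /team-store/MP_1e649a_BT.md. -/

namespace Pool.Agent.BT

open Pool.Agent.BURN

/-- general statements of the engine (sections 1 to 3 of the Burnside blueprint, 4.2, 4.3, 4.9),
all proved -/
structure EngT : Prop where
  hull : Stmt_Hull
  lga : Stmt_LGa
  lgb : Stmt_LGb
  cover : Stmt_Cover
  proj : Stmt_Proj
  iso1 : Stmt_Iso1
  iso2 : Stmt_Iso2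
  axis : Stmt_Axis
  glcor : Stmt_GLcor
  fs0 : Stmt_FS0
  irrMin : Stmt_IrrMin
  gamDG : Stmt_GamDG
  gamLen : Stmt_GamLen
  shadow : Stmt_Shadow
  guess : Stmt_Guess
  hypGam : Stmt_HypGam
  footEx : Stmt_FootEx
  footPr : Stmt_FootPr
  vr0 : Stmt_VR0
  noDeep : Stmt_NoDeep
  rescale : Stmt_Rescale
  gamAct : Stmt_GamAct
  gamRF : Stmt_GamRF
  kkn : Stmt_KKnormal
  quotEx : Stmt_QuotEx
  quotHyp : Stmt_QuotHyp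
  ll : Stmt_LL
  mid : Stmt_Mid
  comm : Stmt_Comm
  slen : Stmt_Slen
  topLen : Stmt_TopLen

/-! ### Part A: finite by cyclic groups, geometry of one space -/

/-- FBC -/
def Stmt_FBC : Prop := ∀ (G : Type) [Group G] (F : Subgroup G) (c : G), Finite F → Nrm F c →
  (∀ f ∈ F, c⁻¹ * f * c ∈ F) ∧ (∀ j : ℤ, Nrm F (c ^ j)) ∧
  (∃ M : ℕ, 1 ≤ M ∧ (∀ f ∈ F, Commute f (c ^ M)) ∧
    ∀ f ∈ F, ∀ j : ℤ, (f * c ^ j) ^ M = c ^ (j * M)) ∧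
  ∃ H : Subgroup G, ∀ x, x ∈ H ↔ InFc F c x

/-- FBL -/
def Stmt_FBL : Prop := ∀ (G X : Type) [Group G] [MulAction G X] (d : X → X → ℕ), IsDG d →
  IsIso G d → Nonempty X → ∀ (F : Subgroup G) (c : G), Finite F → Nrm F c →
  (∀ f ∈ F, ¬ Lox d f) ∧ (Lox d c → (∀ f ∈ F, ∀ j : ℤ, Lox d (f * c ^ j) ↔ j ≠ 0) ∧
    (∀ x, InFc F c x → x ∈ Ep c) ∧ ∀ x, InFc F c x → Lox d x → Ep x = Ep c ∧ El x = El c)

/-- TQC: quasi-centres of finite groups -/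
def Stmt_TQC : Prop := ∀ (G X : Type) [Group G] [MulAction G X] (d : X → X → ℕ) (δ : ℕ),
  IsDG d → Hyp d δ → IsIso G d → Nonempty X → ∀ F : Subgroup G, Finite F →
  ∃ x : X, ∀ f ∈ F, d x (f • x) ≤ 2 * δ + 1

/-- TCYCA -/
def Stmt_TCycA : Prop := ∀ (G X : Type) [Group G] [MulAction G X] (P : Subgroup G → Prop)
  (d : X → X → ℕ) (δ A R B : ℕ), AT (G := G) P d δ A R B → ∀ g : G, Lox d g →
  ∃ K : Subgroup G, P K ∧ (∀ h, h ∈ K ↔ h ∈ Ep g ∧ ¬ Lox d h) ∧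
    ∀ h ∈ Ep g, ∀ h' ∈ Ep g, h⁻¹ * h'⁻¹ * h * h' ∈ K

/-- TCYCB -/
def Stmt_TCycB : Prop := ∀ (G X : Type) [Group G] [MulAction G X] (P : Subgroup G → Prop)
  (d : X → X → ℕ) (δ A R B : ℕ), AT (G := G) P d δ A R B → ∀ g : G, Lox d g →
  ∀ h ∈ Ep g, ∃ (a : ℕ) (b : ℤ), 1 ≤ a ∧ h ^ a * (g ^ b)⁻¹ ∈ Ep g ∧
    ¬ Lox d (h ^ a * (g ^ b)⁻¹)

/-- TCYC -/
def Stmt_TCyc : Prop := ∀ (G X : Type) [Group G] [MulAction G X] (P : Subgroup G → Prop)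
  (d : X → X → ℕ) (δ A R B : ℕ), AT (G := G) P d δ A R B → ∀ g : G, Lox d g →
  ∃ (K : Subgroup G) (w : G), P K ∧ Lox d w ∧ Nrm K w ∧ (∀ h, h ∈ K ↔ h ∈ Ep g ∧ ¬ Lox d h) ∧
    (∀ h, h ∈ Ep g ↔ InFc K w h) ∧ ∀ h ∈ El g, Nrm K h

/-- TEL: elementary groups -/
def Stmt_TEl : Prop := ∀ (G X : Type) [Group G] [MulAction G X] (P : Subgroup G → Prop)
  (d : X → X → ℕ) (δ A R B : ℕ), AT (G := G) P d δ A R B →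
  (∀ g g' : G, Lox d g → Lox d g' → g' ∈ El g → g' ∈ Ep g ∧ Ep g' = Ep g ∧ El g' = El g) ∧
  (∀ g g' : G, Lox d g → Lox d g' → g' ∈ El g → ∃ a b : ℤ, a ≠ 0 ∧ b ≠ 0 ∧ g ^ a = g' ^ b) ∧
  (∀ g h : G, Lox d g → h ∈ El g → h ∉ Ep g → ¬ Lox d h ∧ h * h ∈ Ep g ∧ ¬ Lox d (h * h)) ∧
  (∀ g h h' : G, h ∈ El g → h ∉ Ep g → h' ∈ El g → h' ∉ Ep g → h * h' ∈ Ep g) ∧
  (∀ g h x : G, Lox d g → Lox d x → x ∈ El g → h * x * h⁻¹ ∈ El g → h ∈ El g) ∧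
  (∀ g h : G, IsCj h (El g) (El (h * g * h⁻¹)) ∧ IsCj h (Ep g) (Ep (h * g * h⁻¹))) ∧
  (∀ g g' x : G, Lox d g → Lox d g' → Lox d x → x ∈ El g → x ∈ El g' →
    El g = El g' ∧ Ep g = Ep g') ∧
  (∀ g : G, Lox d g → ∀ H : Subgroup G, H ≤ El g → (∀ h ∈ H, ¬ Lox d h) → Finite H ∧
    ∃ K : Subgroup G, P K ∧ (Nat.card H = Nat.card K ∨ Nat.card H = 2 * Nat.card K))

/-- TSCA: a finite group normalised by all elements moving two far points moderately -/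
def Stmt_TSCa : Prop := ∀ (G X : Type) [Group G] [MulAction G X] (P : Subgroup G → Prop)
  (d : X → X → ℕ) (δ A R B : ℕ), AT (G := G) P d δ A R B → ∀ (x y : X) (l : ℕ) (γ : ℕ → X),
  IsGeod d x y γ → A + nuB B * (l + δ) ≤ d x y →
  ∃ H : Subgroup G, P H ∧ (∀ g : G, d x (g • x) ≤ l → d y (g • y) ≤ l → Nrm H g) ∧
    ∀ z : G, ¬ Lox d z → d (γ (2 * l + 2 * δ)) (z • γ (2 * l + 2 * δ)) ≤ 14 * δ →
      d (γ (d x y - (2 * l + 2 * δ))) (z • γ (d x y - (2 * l + 2 * δ))) ≤ 14 * δ → z ∈ H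

/-- TSC: elements moving two far points moderately -/
def Stmt_TSC : Prop := ∀ (G X : Type) [Group G] [MulAction G X] (P : Subgroup G → Prop)
  (d : X → X → ℕ) (δ A R B : ℕ), AT (G := G) P d δ A R B → ∀ (x y : X) (l : ℕ),
  A + nuB B * (l + δ) ≤ d x y →
  ∃ (F : Subgroup G) (c : G), P F ∧ Nrm F c ∧ (c = 1 ∨ Lox d c) ∧
    ∀ g : G, d x (g • x) ≤ l → d y (g • y) ≤ l → InFc F c g

/-- TEND: the two ends of an element with linear growth -/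
def Stmt_TEnd : Prop := ∀ (G X : Type) [Group G] [MulAction G X] (d : X → X → ℕ) (δ R : ℕ),
  IsDG d → Hyp d δ → 1 ≤ δ → IsIso G d → ∀ g : G,
  (∀ (x : X) (m : ℕ), m ≤ R * d x (g ^ m • x)) → ∀ o o' z : X,
  (∀ B : ℕ, ∃ k0 : ℕ, ∀ k k' : ℕ, k0 ≤ k → k0 ≤ k' → B ≤ gp d (g ^ k • o) (g ^ k' • o') z) ∧
  ∃ C : ℕ, ∀ k k' : ℕ, gp d ((g ^ k)⁻¹ • o) (g ^ k' • o') z ≤ C

/-- TAXA: points of different axes of the same elementary group -/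
def Stmt_TAxA : Prop := ∀ (G X : Type) [Group G] [MulAction G X] (P : Subgroup G → Prop)
  (d : X → X → ℕ) (δ A R B : ℕ), AT (G := G) P d δ A R B → ∀ g : G, Lox d g →
  (∃ g1 ∈ El g, ∃ o : X, 16 * δ + 2 ≤ d o (g1 • o) ∧ (∀ y, d o (g1 • o) ≤ d y (g1 • y))) ∧
  (∀ x ∈ AxE d δ (El g), ∀ g1 ∈ El g, ∀ o : X, Lox d g1 →
    ∃ k0 : ℕ, ∀ k : ℕ, k0 ≤ k → gp d ((g1 ^ k)⁻¹ • o) (g1 ^ k • o) x ≤ 10 * δ) ∧
  (∀ g1 ∈ El g, ∀ o : X, 16 * δ + 2 ≤ d o (g1 • o) → (∀ y, d o (g1 • o) ≤ d y (g1 • y)) →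
    ∀ (z : X) (a : ℕ), (∀ k0 : ℕ, ∃ k : ℕ, k0 ≤ k ∧
      gp d ((g1 ^ k)⁻¹ • o) (g1 ^ k • o) z ≤ 2 * a) →
    ∃ y, (∃ i : ℤ, Btw d (g1 ^ i • o) y (g1 ^ (i + 1) • o)) ∧ d z y ≤ a + 7 * δ + 1)

/-- TAX: the quasi-line of an elementary group -/
def Stmt_TAx : Prop := ∀ (G X : Type) [Group G] [MulAction G X] (P : Subgroup G → Prop)
  (d : X → X → ℕ) (δ A R B : ℕ), AT (G := G) P d δ A R B →
  (∀ (E E' : Subgroup G) (h : G), IsCj h E E' → ∀ x ∈ AxE d δ E, h • x ∈ AxE d δ E') ∧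
  ∀ g : G, Lox d g → QC d (16 * δ) (AxE d δ (El g)) ∧
  (∀ B : ℕ, ∃ y ∈ AxE d δ (El g), ∃ y' ∈ AxE d δ (El g), B < d y y') ∧
  (∀ e ∈ Ep g, ∀ x ∈ AxE d δ (El g), ∀ z, d x (e • x) ≤ d z (e • z) + 14 * δ) ∧
  (∀ e ∈ El g, Lox d e → ∀ (z : X) (a : ℕ), (∀ k0 : ℕ, ∃ k : ℕ, k0 ≤ k ∧
      gp d ((e ^ k)⁻¹ • z) (e ^ k • z) z ≤ 2 * a) → ∃ y ∈ AxE d δ (El g), d z y ≤ a + 9 * δ)

section stage

variable [TP]

/-! ### Part B: one stage, labels of elementary groups -/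

/-- TGA: a good stage satisfies AT -/
def Stmt_TGA : Prop := ∀ (G X : Type) [Group G] [MulAction G X] (d : X → X → ℕ)
  (Lb : Subgroup G → (G → SP) → Prop), GoodT (G := G) d Lb →
  AT (G := G) FP d dd A0t TP.R (Nat.factorial TN.n)

/-- TNA: points moved little by a loxodromic element are near the quasi-line -/
def Stmt_TNA : Prop := ∀ (G X : Type) [Group G] [MulAction G X] (d : X → X → ℕ)
  (Lb : Subgroup G → (G → SP) → Prop), GoodT (G := G) d Lb → ∀ g : G, Lox d g →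
  ∀ e ∈ El g, Lox d e → ∀ (z : X) (l : ℕ), d z (e • z) ≤ l →
  ∃ y ∈ AxE d dd (El g), d z y ≤ l + A1t + 40 * dd

/-- TEXT: labels extend to elementary groups -/
def Stmt_TExt : Prop := ∀ (G X : Type) [Group G] [MulAction G X] (d : X → X → ℕ)
  (Lb : Subgroup G → (G → SP) → Prop), GoodT (G := G) d Lb → ∀ g : G, Lox d g →
  ∃ φ : G → SP, (∀ a ∈ El g, ∀ b ∈ El g, φ (a * b) = φ a * φ b) ∧
    ∀ F : Subgroup G, FP F → F ≤ El g → Lb F φ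

/-- TPHI: equivariant labels of the killed groups -/
def Stmt_TPhi : Prop := ∀ (G X : Type) [Group G] [MulAction G X] (d : X → X → ℕ)
  (Lb : Subgroup G → (G → SP) → Prop), GoodT (G := G) d Lb →
  ∃ Lb' : Subgroup G → (G → SP) → Prop, GoodT (G := G) d Lb' ∧ Labels (PK (G := G) d) Lb'

/-- TROTS: the rotation groups -/
def Stmt_TRotS : Prop := ∀ (G X : Type) [Group G] [MulAction G X] (d : X → X → ℕ)
  (Lb : Subgroup G → (G → SP) → Prop), GoodT (G := G) d Lb → Labels (PK (G := G) d) Lb →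
  ∀ E : Subgroup G, KilT d E →
  (∃ z ∈ E, Lox d z ∧ (∀ e ∈ E, (∀ f, Lb E f → f e = 1) ↔ e ∈ Subgroup.zpowers z) ∧
    ∀ x, x ∈ RotT Lb E ↔ ∃ k : ℤ, x = z ^ (TP.p * k)) ∧
  (∀ e ∈ E, e ^ Nx ∈ RotT Lb E) ∧
  (∀ f, Lb E f → ∀ r ∈ RotT Lb E, f r = 1) ∧
  (∀ r ∈ RotT Lb E, r ≠ 1 → Lox d r ∧ ∀ x, TP.p ≤ TP.R * d x (r • x)) ∧
  (∀ (g : G) (E' : Subgroup G), IsCj g E E' → KilT d E' ∧ IsCj g (RotT Lb E) (RotT Lb E')) ∧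
  (∀ e ∈ E, ∀ m : ℕ, Nat.Coprime m TP.p → e ^ m ∈ RotT Lb E → (∀ f, Lb E f → f e = 1) →
    e ∈ RotT Lb E)

/-- TKS: killed groups -/
def Stmt_TKS : Prop := ∀ (G X : Type) [Group G] [MulAction G X] (d : X → X → ℕ)
  (Lb : Subgroup G → (G → SP) → Prop), GoodT (G := G) d Lb →
  (∀ E : Subgroup G, KilT d E → ¬ FP E ∧ (∀ h : G, (∀ x, x ∈ E ↔ h⁻¹ * x * h ∈ E) → h ∈ E) ∧
    (∀ g ∈ E, Lox d g → E = El g ∧ PosS d E = (Ep g : Set G)) ∧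
    (∃ K : Subgroup G, FP K ∧ (K : Set G) = RadS d E ∧ ∀ s ∈ E, Nrm K s ∧
      (s ∉ PosS d E → s * s ∈ K)) ∧
    (∀ s ∈ E, ∀ t ∈ E, s ∉ PosS d E → t ∉ PosS d E → s⁻¹ * t ∈ PosS d E)) ∧
  (∀ E E' : Subgroup G, KilT d E → KilT d E' → ∀ g : G, Lox d g → g ∈ E → g ∈ E' → E = E') ∧
  (∀ H H' : Subgroup G, PK d H → PK d H' → (KilT d H ∧ H = H') ∨ FP (H ⊓ H')) ∧
  (∀ H H' : Subgroup G, FP H → H' ≤ H → FP H') ∧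
  (∀ (g : G), Lox d g → (∀ E : Subgroup G, KilT d E → g ∉ E) → ∀ x, 20 * dd < d x (g • x))

/-! ### Part C: killing -/

/-- TOVERLAP -/
def Stmt_TOverlap : Prop := ∀ S : TSys,
  (∀ i, QC S.d (16 * dd) (S.Y i)) ∧
  (∀ i, (S.Y i).Nonempty) ∧
  (∀ i (B : ℕ), ∃ y ∈ S.Y i, ∃ y' ∈ S.Y i, B < S.d y y') ∧
  (∀ i (g : S.G), g ∈ S.E i → ∀ y ∈ S.Y i, g • y ∈ S.Y i) ∧
  (∀ i (g : S.G), ∀ y ∈ S.Y i, g • y ∈ S.Y (g • i)) ∧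
  (∀ i, ∀ e ∈ PosS S.d (S.E i), ∀ y ∈ S.Y i, ∀ z, S.d y (e • y) ≤ S.d z (e • z) + 14 * dd) ∧
  (∀ i, ∃ e ∈ S.E i, Lox S.d e ∧ ∀ y ∈ S.Y i, S.d y (e • y) ≤ 34 * dd) ∧
  (∀ i j s x y, i ≠ j → (∃ a ∈ S.Y i, S.d x a ≤ s) → (∃ a ∈ S.Y i, S.d y a ≤ s) →
    (∃ a ∈ S.Y j, S.d x a ≤ s) → (∃ a ∈ S.Y j, S.d y a ≤ s) →
    S.d x y < A0t + 2 * s + 2 * dd + 2)

/-- TKCD -/
def Stmt_TKCD : Prop := ∀ S : TSys,
  CD S.D S.Y rt ∧ IsIso S.G S.D ∧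
  (∀ i, ∀ r ∈ RotT S.Lb (S.E i), r ≠ 1 → ∀ y ∈ S.Y i, 2 ^ (rt + 7) ≤ S.D y (r • y))

/-- TKRF: the rotating family and the hyperbolicity of the quotient -/
def Stmt_TKRF : Prop := ∀ S : TSys,
  RF S.dg (Set.range S.ap) S.R del1 (2 * f3 + 1) (2 * f3) (2 * rt + 2) ∧
  IsDG S.db ∧ IsIso S.Gb S.db ∧ Hyp S.db dd ∧
  (∀ u w, S.db (S.q u) (S.q w) ≤ S.dg u w) ∧
  (∀ u w, ∃ k ∈ S.K, S.dg u (k • w) = S.db (S.q u) (S.q w)) ∧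
  (∀ u wb g, IsGeod S.db (S.q u) wb g → ∃ (w : S.Gm) (g' : ℕ → S.Gm),
    S.dg u w = S.db (S.q u) wb ∧ S.q w = wb ∧
    IsGeod S.dg u w g' ∧ ∀ i ≤ S.dg u w, S.q (g' i) = g i)

/-- TKSTAB -/
def Stmt_TKStab : Prop := ∀ S : TSys,
  (∀ i (g : S.G), g • S.ap i = S.ap i ↔ g ∈ S.E i) ∧
  (∀ (u : S.Gm) (g : S.G), S.dg u (g • u) < 2 * ht rt u.1 → ∃ i, Hor i u.1 ∧ g ∈ S.E i) ∧
  (∀ i j (g : S.G), i ≠ j → g ∈ S.E i → g ∈ S.E j → ¬ Lox S.d g) ∧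
  (∀ i (g : S.G), g ∈ S.E i → (g ∈ S.K ↔ g ∈ RotT S.Lb (S.E i))) ∧
  (∀ i (g : S.G), g ∈ S.E i → S.π g ^ Nx = 1) ∧
  (∀ i (g : S.G), g ∈ S.K → g • S.ap i = S.ap i → g ∈ RotT S.Lb (S.E i)) ∧
  (∀ i j, S.q (S.ap i) ≠ S.q (S.ap j) → 2 * rt + 2 ≤ S.db (S.q (S.ap i)) (S.q (S.ap j))) ∧
  (∀ x : S.X, ∀ i, rt + 1 ≤ S.dg (S.bs x) (S.ap i)) ∧
  (∀ g : S.G, ¬ Lox S.d g → g ≠ 1 → g ∉ S.K) ∧
  (∀ (u : S.Gm) (g g' : S.G), 2 * ht rt u.1 ≤ 102 * dd → S.π g = S.π g' →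
    S.dg u (g • u) + S.dg u (g' • u) ≤ 204 * dd → g = g')

/-- TROT -/
def Stmt_TRot : Prop := ∀ (S : TSys) (i : S.I) (e : S.G) (z : S.Xb), e ∈ PosS S.d (S.E i) →
  (∀ r ∈ RotT S.Lb (S.E i), r * e ∉ RadS S.d (S.E i)) →
  gp S.db z (S.π e • z) (S.q (S.ap i)) ≤ 2 * (rt + 1 + M1)

/-- TLB1 -/
def Stmt_TLB1 : Prop := ∀ (S : TSys) (g : S.G), Lox S.d g → (∀ i, g ∉ S.E i) →
  ∀ z, S.d z (g • z) ≤ Lt * M2 → ∀ o, (∀ y, S.d o (g • o) ≤ S.d y (g • y)) →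
  20 * dd + 1 ≤ S.d o (g • o) ∧ S.d o (g • o) ≤ Lt * M2 ∧
  ∀ (k : ℕ) (i : S.I), S.D (S.pr i o) (S.pr i (g ^ k • o)) ≤ Ot

/-- TLB2 -/
def Stmt_TLB2 : Prop := ∀ (S : TSys) (g : S.G), Lox S.d g → (∀ i, g ∉ S.E i) →
  ∀ z, S.d z (g • z) ≤ Lt * M2 →
  (∀ o, (∀ y, S.d o (g • o) ≤ S.d y (g • y)) → ∀ k : ℕ,
    S.db (S.q (S.bs o)) (S.q (S.bs (g ^ k • o))) = S.dg (S.bs o) (S.bs (g ^ k • o)) ∧
    gp S.db (S.q (S.bs ((g ^ k)⁻¹ • o))) (S.q (S.bs (g ^ k • o))) (S.q (S.bs o)) ≤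
      2 * (Ot + 48 + f3)) ∧
  Lox S.db (S.π g) ∧ ∀ (x : S.Xb) (m : ℕ), m ≤ Rt * S.db x (S.π g ^ m • x)

/-- TLIFT -/
def Stmt_TLift : Prop := ∀ (S : TSys) (gb : S.Gb) (xb : S.Xb) (l : ℕ), l ≤ 200 * dd →
  S.db xb (gb • xb) ≤ l → ∃ (g : S.G) (x : S.Gm), S.π g = gb ∧ S.q x = xb ∧
  S.dg x (g • x) ≤ l ∧ ((∃ i, g ∈ S.E i) ∨
   (2 * ht rt x.1 ≤ l ∧ ∃ x0 : S.X, S.dg x (S.bs x0) = ht rt x.1 ∧
     S.d x0 (g • x0) ≤ Lt * 2 ^ (2 * l)))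

/-- TH34 -/
def Stmt_TH34 : Prop := ∀ (S : TSys),
  (∀ gb : S.Gb, ¬ Lox S.db gb → gb ^ Nx = 1) ∧
  (∀ gb : S.Gb, Lox S.db gb → ∀ (x : S.Xb) (m : ℕ), m ≤ TP.R * S.db x (gb ^ m • x))

/-- TH2 -/
def Stmt_TH2 : Prop := ∀ (S : TSys) (x y : S.Xb), A0t ≤ S.db x y →
  ∃ (F : Subgroup S.Gb) (c : S.Gb), FP F ∧ Nrm F c ∧ (c = 1 ∨ Lox S.db c) ∧
    ∀ g : S.Gb, S.db x (g • x) ≤ 100 * dd → S.db y (g • y) ≤ 100 * dd → InFc F c g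

/-- TH6 -/
def Stmt_TH6 : Prop := ∀ (S : TSys) (g : S.Gb), Lox S.db g → ∀ x, S.db x (g • x) ≤ 100 * dd →
  ∃ k0 : ℕ, ∀ k : ℕ, k0 ≤ k → gp S.db ((g ^ k)⁻¹ • x) (g ^ k • x) x ≤ 2 * A1t

/-- TCH1: labels at a vertex exist and are injective homomorphisms -/
def Stmt_TCh1 : Prop := ∀ (S : TSys) (u : S.Gm) (Fb : Subgroup S.Gb), FP Fb →
  GdAt S (3 * dd + 1) u Fb → (∃ fb, LblAt S u Fb fb) ∧
  ∀ fb, LblAt S u Fb fb → (∀ a ∈ Fb, ∀ b ∈ Fb, fb (a * b) = fb a * fb b) ∧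
    ∀ a ∈ Fb, fb a = 1 → a = 1

/-- TCH2: uniqueness of the labels at a vertex -/
def Stmt_TCh2 : Prop := ∀ (S : TSys) (u : S.Gm) (Fb : Subgroup S.Gb) (fb fb' : S.Gb → SP),
  FP Fb → GdAt S (3 * dd + 1) u Fb → LblAt S u Fb fb → LblAt S u Fb fb' →
  ∃ s : SP, ∀ a ∈ Fb, fb' a = s * fb a * s⁻¹

/-- TCH3: neighbouring vertices have a common label -/
def Stmt_TCh3 : Prop := ∀ (S : TSys) (u u' : S.Gm) (Fb : Subgroup S.Gb),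
  FP Fb → GdAt S (3 * dd + 1) u Fb → GdAt S (3 * dd + 1) u' Fb → S.dg u u' ≤ 1 →
  ∃ fb, LblAt S u Fb fb ∧ LblAt S u' Fb fb

/-- TCH4: conjugation -/
def Stmt_TCh4 : Prop := ∀ (S : TSys) (u : S.Gm) (Fb Fb' : Subgroup S.Gb) (fb : S.Gb → SP)
  (g : S.G), IsCj (S.π g) Fb Fb' → LblAt S u Fb fb →
  LblAt S (g • u) Fb' (fun x => fb ((S.π g)⁻¹ * x * S.π g))

/-- TLAB: the labels of the quotient -/
def Stmt_TLab : Prop := ∀ (S : TSys), Labels FP (Lbq S)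

/-- TSTEP -/
def Stmt_TStep : Prop := ∀ (G X : Type) [Group G] [MulAction G X] (d : X → X → ℕ)
  (Lb : Subgroup G → (G → SP) → Prop), GoodT (G := G) d Lb →
  ∃ (G' X' : Type) (_ : Group G') (_ : MulAction G' X') (d' : X' → X' → ℕ)
    (Lb' : Subgroup G' → (G' → SP) → Prop) (π : G →* G') (ι : X → X'),
    GoodT (G := G') d' Lb' ∧ StepT d d' π ι

/-- TLIM: the limit of the tower -/
def Stmt_TLim : Prop := ∀ (G X : Type) [Group G] [MulAction G X] (d : X → X → ℕ)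
  (Lb : Subgroup G → (G → SP) → Prop), GoodT (G := G) d Lb →
  ∃ N : Subgroup G, N.Normal ∧ (∀ h ∈ N, h ≠ 1 → ∀ n : ℕ, 0 < n → h ^ n ≠ 1) ∧
    ∀ g : G, g ^ Nx ∈ N

end stage

/-! ### Part D: the base -/

/-- WMET (proved in FRK) -/
def Stmt_BMet : Prop := ∀ (G : Type) [Group G], HypG G →
  ∃ (d : G → G → ℕ) (δ : ℕ) (Bf : ℕ → ℕ), PG d δ Bf

/-- BSTAB: loxodromic elements have linear growth at a uniform rate, others are torsion -/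
def Stmt_BStab : Prop := ∀ (G : Type) [Group G] (d : G → G → ℕ) (δ : ℕ) (Bf : ℕ → ℕ),
  PG d δ Bf → (∀ g : G, ¬ Lox d g → ∃ m : ℕ, 1 ≤ m ∧ g ^ m = 1) ∧
  ∃ R : ℕ, 1 ≤ R ∧ ∀ g : G, Lox d g → ∀ (x : G) (m : ℕ), m ≤ R * d x (g ^ m • x)

/-- BCYC: elementary groups are finite by cyclic -/
def Stmt_BCyc : Prop := ∀ (G : Type) [Group G] (d : G → G → ℕ) (δ : ℕ) (Bf : ℕ → ℕ),
  PG d δ Bf → ∀ g : G, Lox d g → ∃ (K : Subgroup G) (w : G), Finite K ∧ Nrm K w ∧ Lox d w ∧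
    ∀ h ∈ Ep g, InFc K w h

/-- CENT: a group with a central infinite cyclic subgroup of finite index is finite by cyclic -/
def Stmt_Cent : Prop := ∀ (E : Type) [Group E] (z : E), (∀ x, Commute x z) →
  (∀ k : ℤ, z ^ k = 1 → k = 0) → (Subgroup.zpowers z).FiniteIndex →
  ∃ (K : Subgroup E) (w : E), Finite K ∧ Nrm K w ∧ ∀ h : E, InFc K w h

/-- ELL3: three aligned points of an orbit -/
def Stmt_Ell3 : Prop := ∀ (G X : Type) [Group G] [MulAction G X] (d : X → X → ℕ) (δ : ℕ),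
  IsDG d → Hyp d δ → 1 ≤ δ → IsIso G d → ∀ (u v : G) (p : X),
  Btw d p (u • p) (v • p) → 1000 * δ ≤ d p (u • p) → 1000 * δ ≤ d (u • p) (v • p) →
  Lox d u ∨ Lox d (v * u⁻¹) ∨ Lox d v

/-- BACYL: acylindricity of the base at every scale -/
def Stmt_BAcyl : Prop := ∀ (G : Type) [Group G] (d : G → G → ℕ) (δ : ℕ) (Bf : ℕ → ℕ),
  PG d δ Bf → ∀ l : ℕ, ∃ A : ℕ, ∀ x y : G, A ≤ d x y → ∃ (F : Subgroup G) (c : G), Finite F ∧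
    Nrm F c ∧ (c = 1 ∨ Lox d c) ∧
    ∀ g : G, d x (g • x) ≤ l → d y (g • y) ≤ l → InFc F c g

/-- BNEAR -/
def Stmt_BNear : Prop := ∀ (G : Type) [Group G] (d : G → G → ℕ) (δ : ℕ) (Bf : ℕ → ℕ),
  PG d δ Bf → ∃ C : ℕ, ∀ g : G, Lox d g → ∀ x : G, ∃ k0 : ℕ, ∀ k : ℕ, k0 ≤ k →
    gp d ((g ^ k)⁻¹ • x) (g ^ k • x) x ≤ 2 * d x (g • x) + C

/-- semiregular labels -/
def SemL [TN] {G : Type} [Group G] (F : Subgroup G) (f : G → SP) : Prop :=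
  (∀ a ∈ F, ∀ b ∈ F, f (a * b) = f a * f b) ∧ ∀ a ∈ F, a ≠ 1 → ∀ i, f a i ≠ i

/-- SEMI: finite groups of order dividing n have exactly one semiregular action on n points -/
def Stmt_Semi : Prop := ∀ [TN] (G : Type) [Group G],
  (∀ F : Subgroup G, Finite F → Nat.card F ∣ TN.n → ∃ f : G → SP, SemL F f) ∧
  (∀ (F : Subgroup G) (f f' : G → SP), Finite F → SemL F f → SemL F f' →
    ∃ s : SP, ∀ a ∈ F, f' a = s * f a * s⁻¹)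

/-- TBASE -/
def Stmt_TBase : Prop := ∀ (G : Type) [Group G], HypG G → ∃ (T : TP) (d : G → G → ℕ)
  (Lb : Subgroup G → (G → @SP T.toTN) → Prop), @GoodT T G G _ _ d Lb

/-- TFINAL: every hyperbolic group has a torsion-free normal subgroup with quotient of finite
exponent -/
def Stmt_TFinal : Prop := ∀ (G : Type) [Group G], HypG G →
  ∃ N : Subgroup G, N.Normal ∧ (∀ h ∈ N, h ≠ 1 → ∀ n : ℕ, 0 < n → h ^ n ≠ 1) ∧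
    ∃ n : ℕ, 0 < n ∧ ∀ g : G, g ^ n ∈ N

end Pool.Agent.BT
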