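import Pool.Agent.BT.Stmts

/-! BT, module TOverlap: quasi-lines of killed groups and their overlaps. -/

namespace Pool.Agent.BT

open Pool.Agent.BURN

namespace TOverlapX

variable {G X : Type} [Group G] [MulAction G X] {d : X → X → ℕ}

theorem mem_Ep_self (g : G) : g ∈ Ep g := ⟨1, le_refl 1, by simp⟩

theorem mem_El_self (g : G) : g ∈ El g := ⟨1, le_refl 1, Or.inl (by simp)⟩

theorem isCj_self {E : Subgroup G} {g : G} (hg : g ∈ E) : IsCj g E E := by
  intro x
  constructor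
  · intro hx
    exact E.mul_mem (E.mul_mem (E.inv_mem hg) hx) hg
  · intro hx
    have := E.mul_mem (E.mul_mem hg hx) (E.inv_mem hg)
    have e2 : g * (g⁻¹ * x * g) * g⁻¹ = x := by group
    rwa [e2] at this

end TOverlapX

open TOverlapX

theorem TOverlap_proof [TP] (_E : EngT) (h1 : Stmt_FBL) (h2 : Stmt_TGA) (h3 : Stmt_TEl)
    (h4 : Stmt_TAx) (_h5 : Stmt_TKS) : Stmt_TOverlap := by
  intro S
  have hd := S.good.dg
  have hy := S.good.hyp
  have hi := S.good.iso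
  have hne := S.good.nonempty
  have hAT := h2 S.G S.X S.d S.Lb S.good
  obtain ⟨hEq, hAx⟩ := h4 S.G S.X FP S.d dd A0t TP.R (Nat.factorial TN.n) hAT
  obtain ⟨hEl1, -⟩ := h3 S.G S.X FP S.d dd A0t TP.R (Nat.factorial TN.n) hAT
  have hY : ∀ i, S.Y i = AxE S.d dd (S.E i) := fun i => rfl
  -- displacement of the short element
  have hdisp : ∀ i, ∃ g : S.G, Lox S.d g ∧ S.E i = El g ∧ ∀ y ∈ S.Y i,
      S.d y (g • y) ≤ 34 * dd := by
    intro i
    obtain ⟨g, hg, e, x, hx⟩ := S.kil i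
    refine ⟨g, hg, e, fun y hyi => ?_⟩
    rw [hY, e] at hyi
    have := (hAx g hg).2.2.1 g (mem_Ep_self g) y hyi x
    omega
  have hQC : ∀ i, QC S.d (16 * dd) (S.Y i) := by
    intro i
    obtain ⟨g, hg, e, -⟩ := S.kil i
    rw [hY, e]
    exact (hAx g hg).1
  have hlong : ∀ i (B : ℕ), ∃ y ∈ S.Y i, ∃ y' ∈ S.Y i, B < S.d y y' := by
    intro i B
    obtain ⟨g, hg, e, -⟩ := S.kil i
    rw [hY, e]
    exact (hAx g hg).2.1 B
  refine ⟨hQC, ?_, hlong, ?_, ?_, ?_, ?_, ?_⟩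
  · intro i
    obtain ⟨y, hyi, -⟩ := hlong i 0
    exact ⟨y, hyi⟩
  · intro i g hg y hyi
    exact hEq (S.E i) (S.E i) g (isCj_self hg) y hyi
  · intro i g y hyi
    exact hEq (S.E i) (S.E (g • i)) g (S.conj g i) y hyi
  · intro i e he y hyi z
    obtain ⟨g, hg, eE, -⟩ := S.kil i
    obtain ⟨g', hg', hl', he'⟩ := he
    rw [eE] at hg'
    obtain ⟨-, k1, -⟩ := hEl1 g g' hg hl' hg'
    rw [k1] at he'
    rw [hY, eE] at hyi
    exact (hAx g hg).2.2.1 e he' y hyi z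
  · intro i
    obtain ⟨g, hg, e, hdg⟩ := hdisp i
    exact ⟨g, by rw [e]; exact mem_El_self g, hg, hdg⟩
  · intro i j s x y hij hxi hyi hxj hyj
    by_contra hcon
    rw [not_lt] at hcon
    obtain ⟨γ, hγ⟩ := exists_geod hd x y
    have near : ∀ l, (∃ a ∈ S.Y l, S.d x a ≤ s) → (∃ a ∈ S.Y l, S.d y a ≤ s) →
        ∀ t, s + dd + 1 ≤ t → t + s + dd + 1 ≤ S.d x y → ∀ w : S.G,
        (∀ y ∈ S.Y l, S.d y (w • y) ≤ 34 * dd) →
        S.d (γ t) (w • γ t) ≤ 100 * dd := by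
      intro l hx hy' t ht1 ht2 w ew
      obtain ⟨a, ha, hxa⟩ := hx
      obtain ⟨b, hb, hyb⟩ := hy'
      have htn : t ≤ S.d x y := by omega
      have dl := hγ.dist_left htn
      have dr := hγ.dist_right htn
      have g1 := gp_add hd x a (γ t)
      have g2 := gp_add hd y b (γ t)
      have g0 : gp S.d x y (γ t) = 0 := (btw_iff hd _ _ _).1 (hγ.btw' htn)
      have t1 := hd.tri x a (γ t)
      have t2 := hd.tri y b (γ t)
      rw [hd.symm y (γ t)] at t2 g2
      have k1 := hyp_gp hd hy x y a (γ t)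
      have k2 := hyp_gp hd hy a y b (γ t)
      rw [gp_comm hd b y] at k2
      rw [hd.symm a (γ t)] at t1 g1
      rw [hd.symm b (γ t)] at t2 g2
      have hab : gp S.d a b (γ t) ≤ 2 * dd := by omega
      obtain ⟨γ', hγ'⟩ := exists_geod hd a b
      obtain ⟨hu1, hu2⟩ := near_geod hd hy hγ' (γ t)
      obtain ⟨v, hv, hv2⟩ := hQC l a ha b hb _ (hγ'.btw' hu1)
      have hvt : S.d (γ t) v ≤ 18 * dd := by
        have := hd.tri (γ t) (γ' (gp S.d b (γ t) a / 2)) v
        omega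
      have hdv := ew v hv
      have t3 := hd.tri (γ t) v (w • γ t)
      have t4 := hd.tri v (w • v) (w • γ t)
      rw [hi, hd.symm v (γ t)] at t4
      omega
    obtain ⟨wi, hli, ei, hwi⟩ := hdisp i
    obtain ⟨wj, hlj, ej, hwj⟩ := hdisp j
    have n1 : s + dd + 1 ≤ S.d x y - (s + dd + 1) := by omega
    have n2 : S.d x y - (s + dd + 1) + s + dd + 1 ≤ S.d x y := by omega
    have n3 : s + dd + 1 + s + dd + 1 ≤ S.d x y := by omega
    have hdist : A0t ≤ S.d (γ (s + dd + 1)) (γ (S.d x y - (s + dd + 1))) := by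
      rw [hγ.2.2 _ _ n1 (by omega)]
      omega
    obtain ⟨F, c, hF, hN, hc, hcg⟩ := S.good.acyl _ _ hdist
    have hwi' := hcg wi (near i hxi hyi _ (le_refl _) n3 wi hwi) (near i hxi hyi _ n1 n2 wi hwi)
    have hwj' := hcg wj (near j hxj hyj _ (le_refl _) n3 wj hwj) (near j hxj hyj _ n1 n2 wj hwj)
    obtain ⟨b1, b2⟩ := h1 S.G S.X S.d hd hi hne F c hF.1 hN
    have hcl : Lox S.d c := by
      rcases hc with hc | hc
      · exfalso
        obtain ⟨f, hf, k, hk⟩ := hwi'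
        rw [hc, one_zpow, mul_one] at hk
        exact b1 f hf (hk ▸ hli)
      · exact hc
    have b3 := (b2 hcl).2.2
    apply hij
    apply S.inj i j
    rw [ei, ej, (b3 wi hwi' hli).2, (b3 wj hwj' hlj).2]

end Pool.Agent.BT
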